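import Pool.Agent.Lib.MP_72e2e6_nt.W2.D.Defs
import Pool.Agent.Lib.MP_72e2e6_nt.W2.R.Spec

/-!
# MP_72e2e6_nt, theorem T3, part D: elliptic curves `y ^ 2 + x y = x ^ 3 + a x ^ 2 + b`

The proofs are complete in the docstrings; every module is independent (used statements are
hypotheses): file `W2/D/<Name>.lean` (import this file only) with `theorem t<Name> : S_<Name>` or
`theorem t<Name> (h1 : S_X) (h2 : S_Y) .. : S_<Name>` (in the order of the docstring), namespace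
`Pool.Agent.MP72W`, other declarations `private`. Use `open scoped Classical` (the group structure on
the points uses the classical decidable equality). All fields have characteristic two:
`(a + b) ^ 2 = a ^ 2 + b ^ 2`, `- = +`. `℘(x) = x ^ 2 + x`. `O = 0` is the point at infinity. `a = D ^ (2 ^ j)`,
`b = γ ^ (2 ^ j)` are the coefficients of `E_j = EE D γ j`.
-/

namespace Pool.Agent.MP72W

open Polynomial IntermediateField WeierstrassCurve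

open scoped Classical

/-- **Pts** (200 lines). The group law in characteristic two.

Proof. Unfold the definitions of Mathlib (`Affine/Formula.lean`, `Affine/Point.lean`: `equation_iff`,
`nonsingular_iff`, `slope_of_X_ne`, `slope_of_Y_ne`, `add_some`, `addX`, `negAddY`, `addY`, `negY`).
(3) nonsingularity: the derivatives of the equation are `y + x ^ 2` (here `3 x ^ 2 = x ^ 2`) and `x`; if both vanish
then `x = y = 0` and `a₆ = 0`. (6) `x ≠ x'`: `sl = (y - y') / (x - x')`. (7) `P = Q`: `negY x y = x + y ≠ y`,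
`sl = (x ^ 2 + y) / x = x + y / x`, and `(x + y / x) ^ 2 + (x + y / x) + a₂ = x ^ 2 + a₆ / x ^ 2` by the
equation. (9) `Y_eq_of_X_eq`. (10) if `px P = px Q` then `Q = P` by (9) (`Q = -P` is excluded) and
`px P ≠ 0` (else `P + P = 0`); otherwise (6). -/
def S_Pts : Prop :=
  ∀ (L : Type) [Field L] [CharP L 2] (W : WeierstrassCurve.Affine L), IsEc W →
    (∀ P : W.Point, P = 0 ∨ ∃ x y, XY P x y) ∧
    (∀ (P : W.Point) (x y : L), XY P x y → P ≠ 0 ∧ px P = x ∧ py P = y ∧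
      y ^ 2 + x * y = x ^ 3 + W.a₂ * x ^ 2 + W.a₆) ∧
    (∀ x y : L, y ^ 2 + x * y = x ^ 3 + W.a₂ * x ^ 2 + W.a₆ → ∃ P : W.Point, XY P x y) ∧
    (∀ (P Q : W.Point) (x y : L), XY P x y → XY Q x y → P = Q) ∧
    (∀ (P : W.Point) (x y : L), XY P x y → XY (-P) x (x + y)) ∧
    (∀ (P Q : W.Point) (x y x' y' : L), XY P x y → XY Q x' y' → x ≠ x' →
      sl P Q = (y + y') / (x + x')) ∧
    (∀ (P : W.Point) (x y : L), XY P x y → x ≠ 0 → sl P P = x + y / x ∧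
      XY (P + P) (x ^ 2 + W.a₆ / x ^ 2) (x ^ 2 + (x + y / x + 1) * (x ^ 2 + W.a₆ / x ^ 2))) ∧
    (∀ (P : W.Point) (y : L), XY P 0 y → P + P = 0 ∧ y ^ 2 = W.a₆) ∧
    (∀ P Q : W.Point, P ≠ 0 → Q ≠ 0 → px P = px Q → Q = P ∨ Q = -P) ∧
    ∀ P Q : W.Point, P ≠ 0 → Q ≠ 0 → P + Q ≠ 0 →
      px (P + Q) = sl P Q ^ 2 + sl P Q + W.a₂ + px P + px Q ∧
      py (P + Q) = sl P Q * (px P + px (P + Q)) + px (P + Q) + py P ∧ sl P Q = sl Q P ∧
      py Q + py P + sl P Q * (px Q + px P) = 0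

/-- **Map** (100 lines). Base change and homomorphisms of fields.

Proof. `WeierstrassCurve.map`, `Point.map_some`, `Point.map_injective`; `CharP L 2` since `K → L` is
injective (`charP_of_injective_algebraMap`). -/
def S_Map : Prop :=
  ∀ (K : Type) [Field K] [CharP K 2] (D γ : K), γ ≠ 0 → ∀ (j : ℕ) (L : Type) [Field L]
    [Algebra K L], IsEc ((EE D γ j)⁄L).toAffine ∧
      ((EE D γ j)⁄L).toAffine.a₂ = algebraMap K L (D ^ 2 ^ j) ∧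
      ((EE D γ j)⁄L).toAffine.a₆ = algebraMap K L (γ ^ 2 ^ j) ∧ CharP L 2 ∧
    ∀ (S M : Type) [Field S] [Field M] [Algebra K S] [Algebra K M] [Algebra S L] [Algebra S M]
      [IsScalarTower K S L] [IsScalarTower K S M] (f : L →ₐ[S] M),
      (∀ (P : Pt D γ j L) (x y : L), XY P x y → XY (pmap (EE D γ j) f P) (f x) (f y)) ∧
      Function.Injective (pmap (EE D γ j) f) ∧
      ∀ P : Pt D γ j L, px (pmap (EE D γ j) f P) = f (px P) ∧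
        py (pmap (EE D γ j) f P) = f (py P)

/-- **FV** (150 lines, uses `S_Pts`, `S_Map`). The maps `Fi`, `Vi`.

Proof. (2) `(x ^ 2, y ^ 2)` satisfies the equation of `E_{j + 1}` (square the equation; `E_{j + 1}` has the
coefficients `a ^ 2`, `b ^ 2`). (3) squares are injective. (6) With `x' = x + b / x`,
`λ = (y + b) / x + a`, `y' = x + (λ + 1) x'` and `y ^ 2 + x y = x ^ 3 + a ^ 2 x ^ 2 + b ^ 2`: one has
`λ ^ 2 = y / x + x`, hence `λ ^ 2 + λ + a = x'`, and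
`y' ^ 2 + x' y' = x ^ 2 + (λ + 1) ^ 2 x' ^ 2 + x' x + (λ + 1) x' ^ 2 = x ^ 2 + x x' + (λ ^ 2 + λ) x' ^ 2
= b + x' ^ 3 + a x' ^ 2` as `x ^ 2 + x x' = b`. (7) `px P = 0` iff `P = O` or `P = (0, y)`. (8) Let
`P = (ξ ^ 2, y)`, `y ^ 2 + ξ ^ 2 y = ξ ^ 6 + a ^ 2 ξ ^ 4 + b ^ 2`; so `ξ ^ 2 y = (y + ξ ^ 3 + a ξ ^ 2 + b) ^ 2` and
`y = η ^ 2`, `η = (y + ξ ^ 3 + a ξ ^ 2 + b) / ξ`; then `(η ^ 2 + ξ η + ξ ^ 3 + a ξ ^ 2 + b) ^ 2 = 0`. -/
def S_FV : Prop :=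
  ∀ (K : Type) [Field K] [CharP K 2] (D γ : K), γ ≠ 0 → ∀ (j : ℕ) (L : Type) [Field L]
    [Algebra K L],
    Fi D γ j (0 : Pt D γ j L) = 0 ∧
    (∀ (P : Pt D γ j L) (x y : L), XY P x y → XY (Fi D γ j P) (x ^ 2) (y ^ 2)) ∧
    (∀ P Q : Pt D γ j L, Fi D γ j P = Fi D γ j Q → P = Q) ∧
    Vi D γ j (0 : Pt D γ (j + 1) L) = 0 ∧
    (∀ (P : Pt D γ (j + 1) L) (y : L), XY P 0 y → Vi D γ j P = 0) ∧
    (∀ (P : Pt D γ (j + 1) L) (x y : L), XY P x y → x ≠ 0 →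
      XY (Vi D γ j P) (x + algebraMap K L (γ ^ 2 ^ j) / x)
        (x + ((y + algebraMap K L (γ ^ 2 ^ j)) / x + algebraMap K L (D ^ 2 ^ j) + 1) *
          (x + algebraMap K L (γ ^ 2 ^ j) / x))) ∧
    (∀ P : Pt D γ (j + 1) L, Vi D γ j P = 0 ↔ px P = 0) ∧
    ∀ (P : Pt D γ (j + 1) L) (ξ y : L), ξ ≠ 0 → XY P (ξ ^ 2) y → ∃ P₁, P = Fi D γ j P₁

/-- **FVh** (200 lines, uses `S_Pts`, `S_Map`, `S_FV`). `Fi`, `Vi` are homomorphisms, `F V = V F = 2`.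

Proof. (1) `Fi`: the cases `P = O`, `Q = O`, `Q = -P`, `P = Q` (`x ≠ 0` or `x = 0`), `px P ≠ px Q`: in the last
two the slope of `Fi P`, `Fi Q` is the square of the slope of `P`, `Q` (`x + y / x`, resp.
`(y + y') / (x + x')`) and the formulas of `S_Pts` (10) are compatible with squares (`a₂` of `E_{j + 1}` is
the square of `a₂` of `E_j`). (2), (3) explicit: for `P = (x, y) ∈ E_j`, `x ≠ 0`:
`Vi (x ^ 2, y ^ 2) = (x ^ 2 + b / x ^ 2, x ^ 2 + (λ + 1) (..))` with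
`λ = (y ^ 2 + b) / x ^ 2 + a = x + y / x` by the equation (`(y / x) ^ 2 + y / x = x + a + b / x ^ 2`), which
is `P + P` by `S_Pts` (7); `x = 0`: both are `O`. (3) for `P = (x, y) ∈ E_{j + 1}`, `x ≠ 0`: with `λ` as in
`S_FV` (6), `λ ^ 2 = x + y / x`, so `Fi (Vi P) = (x ^ 2 + b ^ 2 / x ^ 2, x ^ 2 + (λ ^ 2 + 1) (..)) = P + P`.
(4) `Fi (Vi (P + Q)) = 2 (P + Q) = Fi (Vi P + Vi Q)`, and `Fi` is injective. (5), (6): apply `f` to the
coordinates. -/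
def S_FVh : Prop :=
  ∀ (K : Type) [Field K] [CharP K 2] (D γ : K), γ ≠ 0 → ∀ (j : ℕ) (L : Type) [Field L]
    [Algebra K L],
    (∀ P Q : Pt D γ j L, Fi D γ j (P + Q) = Fi D γ j P + Fi D γ j Q) ∧
    (∀ P : Pt D γ j L, Vi D γ j (Fi D γ j P) = P + P) ∧
    (∀ P : Pt D γ (j + 1) L, Fi D γ j (Vi D γ j P) = P + P) ∧
    (∀ P Q : Pt D γ (j + 1) L, Vi D γ j (P + Q) = Vi D γ j P + Vi D γ j Q) ∧
    ∀ (S M : Type) [Field S] [Field M] [Algebra K S] [Algebra K M] [Algebra S L] [Algebra S M]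
      [IsScalarTower K S L] [IsScalarTower K S M] (f : L →ₐ[S] M),
      (∀ P : Pt D γ j L, pmap (EE D γ (j + 1)) f (Fi D γ j P) = Fi D γ j (pmap (EE D γ j) f P)) ∧
      ∀ P : Pt D γ (j + 1) L,
        pmap (EE D γ j) f (Vi D γ j P) = Vi D γ j (pmap (EE D γ (j + 1)) f P)

/-- **FVn** (200 lines, uses `S_Pts`, `S_Map`, `S_FV`, `S_FVh`). The iterates.

Proof. (1)-(6) by induction on `n`:
`Fn (n + 1) (Vn (n + 1) P) = Fi (Fn n (Vn n (Vi P))) = Fi (2 ^ n • Vi P) = 2 ^ n • (P + P)`. (7) `Vi` has the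
kernel `{P | px P = 0}` with at most two elements (`O` and `(0, y)`, `y ^ 2 = b ^ 2`); so the fibres of `Vi` have
at most two elements; induction. (8) Let `IsR k R`. `2 ^ k • R = Fn (Vn R) = 0`, and `2 ^ n • R ≠ 0` for
`n < k`, so `addOrderOf R = 2 ^ k` (`addOrderOf_eq_prime_pow` or `k = 0`: `R = 0`); the `2 ^ k` multiples of
`R` are in the kernel, which has at most `2 ^ k` elements. (9) `Fi (2 ^ n • Vi R) = 2 ^ (n + 1) • R ≠ 0`.
(10) injectivity of `pmap`. -/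
def S_FVn : Prop :=
  ∀ (K : Type) [Field K] [CharP K 2] (D γ : K), γ ≠ 0 → ∀ (L : Type) [Field L] [Algebra K L],
    (∀ (n : ℕ) (P Q : Pt D γ 0 L), Fn D γ n (P + Q) = Fn D γ n P + Fn D γ n Q) ∧
    (∀ (n : ℕ) (P Q : Pt D γ n L), Vn D γ n (P + Q) = Vn D γ n P + Vn D γ n Q) ∧
    (∀ (n : ℕ) (P : Pt D γ 0 L), Vn D γ n (Fn D γ n P) = 2 ^ n • P) ∧
    (∀ (n : ℕ) (P : Pt D γ n L), Fn D γ n (Vn D γ n P) = 2 ^ n • P) ∧
    (∀ (n : ℕ) (P Q : Pt D γ 0 L), Fn D γ n P = Fn D γ n Q → P = Q) ∧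
    (∀ (n : ℕ) (S M : Type) [Field S] [Field M] [Algebra K S] [Algebra K M] [Algebra S L]
      [Algebra S M] [IsScalarTower K S L] [IsScalarTower K S M] (f : L →ₐ[S] M),
      (∀ P : Pt D γ 0 L, pmap (EE D γ n) f (Fn D γ n P) = Fn D γ n (pmap (EE D γ 0) f P)) ∧
      ∀ P : Pt D γ n L, pmap (EE D γ 0) f (Vn D γ n P) = Vn D γ n (pmap (EE D γ n) f P)) ∧
    (∀ n : ℕ, {P : Pt D γ n L | Vn D γ n P = 0}.Finite ∧
      {P : Pt D γ n L | Vn D γ n P = 0}.ncard ≤ 2 ^ n) ∧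
    (∀ (k : ℕ) (R : Pt D γ k L), IsR D γ k R → addOrderOf R = 2 ^ k ∧
      ∀ P : Pt D γ k L, Vn D γ k P = 0 ↔ ∃ m : ℕ, P = m • R) ∧
    (∀ (k : ℕ) (R : Pt D γ (k + 1) L), IsR D γ (k + 1) R → IsR D γ k (Vi D γ k R)) ∧
    ∀ (k : ℕ) (R : Pt D γ k L) (S M : Type) [Field S] [Field M] [Algebra K S] [Algebra K M]
      [Algebra S L] [Algebra S M] [IsScalarTower K S L] [IsScalarTower K S M] (f : L →ₐ[S] M),
      IsR D γ k R → IsR D γ k (pmap (EE D γ k) f R)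

/-- **Vsu** (200 lines, uses `S_Pts`, `S_Map`, `S_FV`, `S_FVh`, `S_FVn`). Surjectivity of `Vi` over
Artin-Schreier closed fields; the explicit solutions; existence of `R`.

Proof. (1) Let `P = (x, y) ∈ E_j(L)`, `η ^ 2 + η = x + a`, `X = y + x η`. Then `X ^ 2 + x X + b =
y ^ 2 + x y + x ^ 2 (η ^ 2 + η) + b = 0`, so `X ≠ 0` (`b ≠ 0`) and `X + b / X = x`. If `x ≠ 0` let
`Y = ((y + X) / x + 1 + a) X + b`; then `λ = (Y + b) / X + a = (y + X) / x + 1`, `X + (λ + 1) x = y`, and `(X, Y)`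
is on `E_{j + 1}`: `Y ^ 2 + X Y + X ^ 3 + a ^ 2 X ^ 2 + b ^ 2 = X ^ 2 (λ ^ 2 + (Y / X + X))` and
`Y / X + X = λ + a + b / X + X = λ + a + x`, `λ ^ 2 + λ + a + x = 0`: indeed
`x ^ 2 (λ ^ 2 + λ) = (y + X) ^ 2 + x (y + X) = y ^ 2 + x y + X ^ 2 + x X = (x ^ 3 + a x ^ 2 + b) + b`. So
`Vi (X, Y) = P`. (2) If `x = 0`: `X = y`, let `ζ ^ 2 + ζ = X + a ^ 2 + b ^ 2 / X ^ 2`, `Y = ζ X`; then `(X, Y)` is on
`E_{j + 1}` and `Vi (X, Y) = (0, X + 0) = P`. (3), (4) follow with `ASC`; `P = O`: `Vi O = O`. (5)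
`R_0 = O`, `R_1 = (0, γ)`, `Vi R_{k + 1} = R_k`; `2 ^ (n + 1) • R_{k + 1} = Fi (2 ^ n • R_k) ≠ 0`. (6) with
`γ = β ^ 2`, `P = (0, β)`: (4). -/
def S_Vsu : Prop :=
  ∀ (K : Type) [Field K] [CharP K 2] (D γ : K), γ ≠ 0 → ∀ (L : Type) [Field L] [Algebra K L],
    (∀ (j : ℕ) (P : Pt D γ j L) (x y η : L), XY P x y → x ≠ 0 →
      η ^ 2 + η = x + algebraMap K L (D ^ 2 ^ j) → ∃ Q : Pt D γ (j + 1) L,
        XY Q (y + x * η) (((y + (y + x * η)) / x + 1 + algebraMap K L (D ^ 2 ^ j)) * (y + x * η) +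
          algebraMap K L (γ ^ 2 ^ j)) ∧ Vi D γ j Q = P) ∧
    (∀ (j : ℕ) (P : Pt D γ j L) (y ζ : L), XY P 0 y →
      ζ ^ 2 + ζ = y + algebraMap K L (D ^ 2 ^ j) ^ 2 + algebraMap K L (γ ^ 2 ^ j) ^ 2 / y ^ 2 →
      ∃ Q : Pt D γ (j + 1) L, XY Q y (ζ * y) ∧ Vi D γ j Q = P) ∧
    (ASC L → ∀ (j : ℕ) (P : Pt D γ j L), ∃ Q, Vi D γ j Q = P) ∧
    (ASC L → ∀ (k : ℕ) (P : Pt D γ 0 L), ∃ Q, Vn D γ k Q = P) ∧
    (ASC L → ∀ k : ℕ, ∃ R : Pt D γ k L, IsR D γ k R) ∧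
    (ASC L → ∀ (k : ℕ) (β : K), β ≠ 0 → ∃ Q : Pt D (β ^ 2) k L, IsQ D β k Q)

/-- **Rid** (300 lines, uses `S_Pts`). The functions with divisor `[P] + [Q] - [P + Q] - [O]`: cocycle
identity in the coordinate ring.

Proof. For `P ≠ O` let `I_P = XYIdeal W (px P) (C (py P))`, `I_O = ⊤`. By `XYIdeal_neg_mul` and
`XYIdeal_mul_XYIdeal` (Mathlib): `span {dR P Q} * (I_P * I_Q) = span {nR P Q} * I_{P + Q}` for all `P, Q`
(the cases `P = O`, `Q = O`, `P + Q = O`, and the general case). Hence both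
`span {u₁} * I_{P + Q + S}` and `span {u₂} * I_{P + Q + S}` (`u₁`, `u₂` the two sides) are
`span {product of the four d's} * (I_P * I_Q * I_S)`. Multiply by `I_{-(P + Q + S)}`, which gives a principal
ideal `≠ 0` (or `⊤`); so `span {u₁} = span {u₂}` (domain) and `u₁ = ε * u₂` with a unit `ε`. The norm of a unit
is a unit of `L[X]`, of degree `0`; by `degree_norm_smul_basis` `ε = p + q Y` has `q = 0` and `p` constant:
`ε` is a constant `c`. The norms of the elements `nR`, `dR` are monic polynomials: `XClass x` has the norm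
`(X - x) ^ 2`, and `YClass (linePolynomial ..)` the norm (`norm_smul_basis` with `q = 1`, `deg p ≤ 1`)
`- (X ^ 3 + ..)`, monic in characteristic two. So the norms of `u₁`, `u₂` are monic, `c ^ 2 = 1`, `c = 1`. -/
def S_Rid : Prop :=
  ∀ (L : Type) [Field L] [CharP L 2] (W : WeierstrassCurve.Affine L), IsEc W →
    ∀ P Q S : W.Point, nR P Q * nR (P + Q) S * (dR Q S * dR P (Q + S)) =
      nR Q S * nR P (Q + S) * (dR P Q * dR (P + Q) S)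

/-- **Fco** (120 lines, uses `S_Pts`, `S_Rid`). The values of the functions.

Proof. Evaluation at `T = (x, y)` is a ring homomorphism `W.CoordinateRing → L` (`AdjoinRoot.lift`, or
`quotientXYIdealEquiv`), it maps `nR P Q` to `nv P Q T` and `dR P Q` to `dv P Q T` (characteristic two). -/
def S_Fco : Prop :=
  ∀ (L : Type) [Field L] [CharP L 2] (W : WeierstrassCurve.Affine L), IsEc W →
    (∀ P Q S T : W.Point, T ≠ 0 → nv P Q T * nv (P + Q) S T * (dv Q S T * dv P (Q + S) T) =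
      nv Q S T * nv P (Q + S) T * (dv P Q T * dv (P + Q) S T)) ∧
    ∀ P Q S T : W.Point, T ≠ 0 → dv P Q T ≠ 0 → dv (P + Q) S T ≠ 0 → dv Q S T ≠ 0 →
      dv P (Q + S) T ≠ 0 → fv P Q T * fv (P + Q) S T = fv Q S T * fv P (Q + S) T

/-- **Slc** (120 lines, uses `S_Pts`, `S_Rid`). The cocycle identity of the slopes.

Proof. With `ℓ_{P, Q} = YClass (..) = Y - (λ X + ν)` the identity `S_Rid` is
`ℓ_{P,Q} * ℓ_{P+Q,S} * (X - x_{Q+S}) * (X - x_{P+Q+S}) = ℓ_{Q,S} * ℓ_{P,Q+S} * (X - x_{P+Q}) * (X - x_{P+Q+S})`.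
In the basis `1, Y` over `L[X]` (with `Y ^ 2 = X Y + ..`) the coefficient of `Y` of
`(Y + λ X + ν) (Y + λ' X + ν') (X + x₁) (X + x₂)` is `((1 + λ + λ') X + ν + ν') (X + x₁) (X + x₂)`; compare the
coefficients of `X ^ 3`. -/
def S_Slc : Prop :=
  ∀ (L : Type) [Field L] [CharP L 2] (W : WeierstrassCurve.Affine L), IsEc W →
    ∀ P Q S : W.Point, P ≠ 0 → Q ≠ 0 → S ≠ 0 → P + Q ≠ 0 → Q + S ≠ 0 → P + Q + S ≠ 0 →
      sl P Q + sl (P + Q) S = sl Q S + sl P (Q + S)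

/-- **Exc** (120 lines, uses `S_Pts`, `S_Slc`). The value at `-S`, and the exchange formula.

Proof. (1) With `λ = sl P Q`, `P + Q = (x₃, y₃)`, `y₃ = λ (px P + x₃) + x₃ + py P`, `S = (x, y)`,
`-S = (x, x + y)`: `sl (P + Q) S = (y₃ + y) / (x₃ + x)`, and
`(1 + λ) (x₃ + x) + y₃ + y = x + y + py P + λ (x + px P)`. (2) `P + Q + S ≠ 0` (as `px S ≠ px (P + Q)`), so by (1),
`S_Slc` and the symmetry of `sl`: `fv P Q (-S) = 1 + sl P Q + sl (P + Q) S = 1 + sl Q S + sl (Q + S) P =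
fv Q S (-P)`. (3) `nv`, `dv` are symmetric: `sl P Q = sl Q P` and `Q` is on the line. -/
def S_Exc : Prop :=
  ∀ (L : Type) [Field L] [CharP L 2] (W : WeierstrassCurve.Affine L), IsEc W →
    (∀ P Q S : W.Point, P ≠ 0 → Q ≠ 0 → S ≠ 0 → P + Q ≠ 0 → px S ≠ px (P + Q) →
      fv P Q (-S) = 1 + sl P Q + sl (P + Q) S) ∧
    (∀ P Q S : W.Point, P ≠ 0 → Q ≠ 0 → S ≠ 0 → P + Q ≠ 0 → Q + S ≠ 0 → px S ≠ px (P + Q) →
      px P ≠ px (Q + S) → fv P Q (-S) = fv Q S (-P)) ∧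
    ∀ P Q T : W.Point, fv P Q T = fv Q P T ∧ nv P Q T = nv Q P T ∧ dv P Q T = dv Q P T

/-- **Nz** (150 lines, uses `S_Pts`). Norms and zeros of the functions.

Proof. (1) With `ν' = py A + λ (px T + px A)`: the product is
`(y + ν') (y + x + ν') = x ^ 3 + a₂ x ^ 2 + a₆ + ν' x + ν' ^ 2`, `(x, y) = T`, a monic polynomial in `x` of degree
three; it vanishes at `px A`, `px B`, `px (A + B)`. (By Mathlib: `addPolynomial_slope`,
`addPolynomial_eq`.) (2) if `nv A B s = 0` (general case) then by (1) `px s` is one of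
`px A, px B, px (A + B)`, so `s = ± ..` is in `H`. If `dv A B s = 0`, then `s = ± (A + B) ∈ H`. The case
`A + B = 0`: `px s ≠ px A`. (3) similarly: if `nv (-c) (-d) (-X) = 0` then `X` is one of `± c`, `± d`,
`± (c + d)`; none of them is in `H`. -/
def S_Nz : Prop :=
  ∀ (L : Type) [Field L] [CharP L 2] (W : WeierstrassCurve.Affine L), IsEc W →
    (∀ A B T : W.Point, A ≠ 0 → B ≠ 0 → A + B ≠ 0 → T ≠ 0 → nv A B T * nv A B (-T) =
      (px T + px A) * (px T + px B) * (px T + px (A + B))) ∧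
    (∀ (H : AddSubgroup W.Point) (A B s : W.Point), A ∈ H → B ∈ H → s ∉ H →
      nv A B s ≠ 0 ∧ dv A B s ≠ 0 ∧ fv A B s ≠ 0) ∧
    ∀ (H : AddSubgroup W.Point) (c d X : W.Point), Gen H c d → X ∈ H → Av c d X ≠ 0

/-- **E2** (300 lines, uses `S_Pts`, `S_Fco`, `S_Exc`, `S_Nz`). The main identity. Notation:
`f(A, B; T) = fv A B T`, `A(X) = Av c d X = f(-c, -d; -X)` for `X ≠ O`.

Proof. `R = O`: all the factors are `1`. Case `R ≠ O`, `R + R = O`: `R = (0, r)`, `r ^ 2 = a₆`,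
`fv R R c = px c`, and `c ≠ ± d`, so `-c`, `-d` have different `px`; let `λ = sl (-c) (-d)`,
`ν = py (-c) + λ px (-c)`; the line `y = λ x + ν` meets the curve in `-c, -d, c + d`, whose `x`-coordinates are
the roots of `x ^ 3 + (a₂ + λ ^ 2 + λ) x ^ 2 + ν x + a₆ + ν ^ 2`, so
`px c * px d * px (c + d) = a₆ + ν ^ 2 = (r + ν) ^ 2`, and `A(R) = (r + ν) / px (c + d)` (`-R = R`). So
`px c * px d = px (c + d) * A(R) ^ 2`, `A(O) = 1`.
Case `R + R ≠ O`. All the points `± R, 2 R` are in `H`, the points `c, d, c ± d` and their translates by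
`H` are not; `px A ≠ px B` if `A ± B ∉ {O}`.
(i) `S_Fco` at `T = -R` for `(R, -c, -d)`:
`f(R, -c; -R) f(R - c, -d; -R) = f(-c, -d; -R) f(R, -c - d; -R)`.
(ii) `S_Exc` (2) (and the symmetry): `f(R, -c; -R) = f(-c, R; -R) = f(R, R; c)`, and
`f(R, -c - d; -R) = f(R, R; c + d)`.
(iii) `f(R - c, -d; -R) = f(-d, R - c; -R) = f(R - c, R; d)`.
(iv) `S_Fco` at `T = d` for `(R, R, -c)`:
`f(R, R; d) f(2 R, -c; d) = f(R, -c; d) f(R, R - c; d)`.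
(v) `S_Exc`: `f(-d, -c; -2R) = f(-c, 2 R; d)`, `f(-d, -c; -R) = f(-c, R; d)`, i.e. `f(2R, -c; d) = A(2R)`,
`f(R, -c; d) = A(R)`.
So (i): `f(R,R;c) X = A(R) f(R,R;c+d)` with `X = f(R, R - c; d)`, (iv): `f(R,R;d) A(2R) = A(R) X`. Multiply
and cancel `X ≠ 0` (`X ≠ 0`: `nv R (R - c) d = 0` would give `d ∈ {± R, ± (R - c), ± (2R - c)}` by `S_Nz` (1)).
The conditions of `S_Fco`, `S_Exc`: all the `px`'s compared are different, since a sum or difference of the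
two points is one of `c, d, c + d, c - d` (up to sign) plus an element of `H`. -/
def S_E2 : Prop :=
  ∀ (L : Type) [Field L] [CharP L 2] (W : WeierstrassCurve.Affine L), IsEc W →
    ∀ (H : AddSubgroup W.Point) (c d R : W.Point), Gen H c d → R ∈ H →
      fv R R c * fv R R d * Av c d (R + R) = fv R R (c + d) * Av c d R ^ 2

/-- **WAd** (120 lines, uses `S_Pts`, `S_Nz`, `S_E2`). Additivity of `Wf k R` in the second variable.

Proof. For `j < k` let `A_j = Av c d (2 ^ j • R) ≠ 0` (`S_Nz` (3)). By `S_E2` for `2 ^ j • R`: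
`fv(c) fv(d) A_{j+1} = fv(c + d) A_j ^ 2`. Raise to the power `2 ^ (k - 1 - j)` and multiply over `j < k`: the
product of the `A_{j+1} ^ (2 ^ (k - 1 - j))` over `j < k` is the product of the `A_j ^ (2 ^ (k - j))` over
`1 ≤ j ≤ k`, and `A_k = 1` (`2 ^ k • R = 0`). (Induction on `k` is convenient: for all `R` prove the formula
with the additional factor `A_k` on the left side.) -/
def S_WAd : Prop :=
  ∀ (L : Type) [Field L] [CharP L 2] (W : WeierstrassCurve.Affine L), IsEc W →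
    ∀ (k : ℕ) (H : AddSubgroup W.Point) (c d R : W.Point), R ∈ H → 2 ^ k • R = 0 →
      (c ∉ H → Wf k R c ≠ 0) ∧
      (Gen H c d → Wf k R c * Wf k R d = Wf k R (c + d) * Av c d R ^ 2 ^ k)

/-- **WRa** (200 lines, uses `S_Pts`, `S_Fco`, `S_Exc`, `S_Nz`). Additivity in the first variable.

Proof. Let `A, B ∈ H`, `s ∉ H`; all `dv`'s at `s` of elements of `H` are nonzero (`S_Nz` (2)), so `S_Fco` (2)
applies. Write `f(A, B) = fv A B s`, symmetric. (1) `f(A,A) f(2A,B) = f(A,B) f(A,A+B)`,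
(2) `f(2A,B) f(2A+B,B) = f(B,B) f(2A,2B)`, (3) `f(A,A+B) f(2A+B,B) = f(A+B,B) f(A,A+2B)`,
(4) `f(A,B) f(A+B,A+B) = f(B,A+B) f(A,A+2B)`. So `f(A,A) f(B,B) f(2A,2B) = f(A,A) f(2A,B) f(2A+B,B) =
f(A,B) f(A,A+B) f(2A+B,B) = f(A,B) f(A+B,B) f(A,A+2B) = f(A,B) ^ 2 f(A+B,A+B)`. Apply this to
`A = 2 ^ j • R`, `B = 2 ^ j • R'`, raise to the power `2 ^ (k - 1 - j)` and multiply over `j < k`
(telescoping, `fv 0 0 s = 1`). (2) of the statement: induction on `m`; (3): shift the index. -/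
def S_WRa : Prop :=
  ∀ (L : Type) [Field L] [CharP L 2] (W : WeierstrassCurve.Affine L), IsEc W →
    ∀ (k : ℕ) (H : AddSubgroup W.Point) (s R : W.Point), R ∈ H → 2 ^ k • R = 0 → s ∉ H →
      (∀ R' ∈ H, 2 ^ k • R' = 0 →
        Wf k R s * Wf k R' s = Wf k (R + R') s * fv R R' s ^ 2 ^ k) ∧
      (∀ m : ℕ, EqN (2 ^ k) (Wf k (m • R) s) (Wf k R s ^ m)) ∧
      ∀ Q : W.Point, Q ∈ H → Wf (k + 1) Q s = fv Q Q s ^ 2 ^ k * Wf k (Q + Q) s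

/-- **Wmp** (80 lines, uses `S_Pts`, `S_Map`). Homomorphisms of fields.

Proof. All the functions are rational expressions in the coordinates (`WeierstrassCurve.Affine.map_slope`
/ `baseChange_slope`, `pmap` is an injective homomorphism). -/
def S_Wmp : Prop :=
  ∀ (K : Type) [Field K] [CharP K 2] (D γ : K), γ ≠ 0 → ∀ (j : ℕ) (L : Type) [Field L]
    [Algebra K L] (S M : Type) [Field S] [Field M] [Algebra K S] [Algebra K M] [Algebra S L]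
    [Algebra S M] [IsScalarTower K S L] [IsScalarTower K S M] (f : L →ₐ[S] M),
    (∀ P Q T : Pt D γ j L, fv (pmap (EE D γ j) f P) (pmap (EE D γ j) f Q)
      (pmap (EE D γ j) f T) = f (fv P Q T)) ∧
    ∀ (k : ℕ) (R s : Pt D γ j L), Wf k (pmap (EE D γ j) f R) (pmap (EE D γ j) f s) =
      f (Wf k R s)

/-- **WF** (250 lines, uses `S_Pts`, `S_Map`, `S_FV`, `S_FVh`, `S_FVn`, `S_Nz`). `Wf` and the Frobenius
isogeny.

Proof. (1) `fv (Fi A) (Fi B) (Fi T) = fv A B T ^ 2` (the coordinates and the slopes of the images are the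
squares). (2) Let `A ∈ E_{j + 1}(L)`, `p₁ ∈ E_j(L)`, `Fi p₁ ∉ H ∋ A`. `fv A A (Fi p₁)` is a square: clear for
`A = O`; if `A + A = O`, `A ≠ O`: `px A = 0` and it is `px (Fi p₁) = (px p₁) ^ 2`. Otherwise let `λ = sl A A`,
`2 A = Fi (Vi A) = (x₂, y₂)` with squares `x₂, y₂`; `λ ^ 2 + λ = x₂ + a₂` (`S_Pts` (10)) and `a₂ = D ^ (2 ^ (j + 1))`
is a square, so `λ = λ ^ 2 + (x₂ + a₂)` is a square. The tangent line at `A` passes through
`-2A = (x₂, x₂ + y₂)`, so `nv A A (Fi p₁) = Y + x₂ + y₂ + λ (X + x₂)`, `(X, Y) = Fi p₁`, a square, and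
`dv = X + x₂` too. (3) Let `R₁ = Vi R`. `2 ^ (j + 1) • R = Fi (2 ^ j • R₁)`, so by (1) the factor `j + 1` of
`Wf (k + 1) R (Fi p₁)` is `(fv (2 ^ j R₁) (2 ^ j R₁) p₁) ^ (2 * 2 ^ (k - 1 - j))`; the factor `0` is
`fv R R (Fi p₁) ^ (2 ^ k) = s ^ (2 ^ (k + 1))` by (2). (4) The factor `j = k`: `T = 2 ^ k • R ≠ O`,
`T + T = O`, `px T = 0`, so it is `px p`; the other exponents are even. -/
def S_WF : Prop :=
  ∀ (K : Type) [Field K] [CharP K 2] (D γ : K), γ ≠ 0 → ∀ (L : Type) [Field L] [Algebra K L]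
    (k : ℕ) (R : Pt D γ (k + 1) L), IsR D γ (k + 1) R →
    (∀ p₁ : Pt D γ k L, Fi D γ k p₁ ∉ AddSubgroup.zmultiples R → ∃ s : L, s ≠ 0 ∧
      Wf (k + 1) R (Fi D γ k p₁) = s ^ 2 ^ (k + 1) * Wf k (Vi D γ k R) p₁ ^ 2) ∧
    ∀ p : Pt D γ (k + 1) L, p ∉ AddSubgroup.zmultiples R → ∃ s : L, s ≠ 0 ∧
      Wf (k + 1) R p = px p * s ^ 2

/-- **Wkr** (150 lines, uses `S_Pts`, `S_Map`, `S_FV`, `S_FVh`, `S_FVn`, `S_WF`). The kernel.

Proof by induction on `k`; `k = 0`: `Fn 0 = id`, and everything is a first power. Step: (1) let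
`Wf (k + 1) R p = s ^ (2 ^ (k + 1))`. By `S_WF` (2) `px p` is a square `ξ ^ 2`, and `ξ ≠ 0` (`px p = 0` means
`Vi p = 0` and so `Vn (k + 1) p = 0`, `p ∈ ⟨R⟩`), so `p = Fi p₁` (`S_FV` (8)). Let `R₁ = Vi R` (`IsR k R₁`). If
`p₁ = m • R₁` then `p = m • (Fi (Vi R)) = m • 2 • R`, no. By `S_WF` (1)
`Wf k R₁ p₁ ^ 2 = s' ^ (2 ^ (k + 1))`, so `Wf k R₁ p₁ = s' ^ (2 ^ k)` (characteristic two) and `p₁ = Fn k q` by
induction. (2) the converse in the same way: `Fn (k + 1) q = Fi (Fn k q)`. -/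
def S_Wkr : Prop :=
  ∀ (K : Type) [Field K] [CharP K 2] (D γ : K), γ ≠ 0 → ∀ (L : Type) [Field L] [Algebra K L]
    (k : ℕ) (R : Pt D γ k L), IsR D γ k R → ∀ p : Pt D γ k L, p ∉ AddSubgroup.zmultiples R →
      (EqN (2 ^ k) (Wf k R p) 1 ↔ ∃ q, p = Fn D γ k q)

/-- **Ext** (150 lines). Functions which are homomorphisms generically (abstract).

Proof. For `p ∈ G` and `c, c' ∈ G` with `c, c', p + c, p + c' ∉ H` we have `w (p + c) / w c = w (p + c') / w c'`: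
first if moreover `p + c + c'`, `p + c - c'`, `p + c' - c ∉ H`: both `w (p + c) * w c'` and
`w (p + c') * w c` are `w (p + c + c')`. In general choose `c''` such that the condition holds for
`(c, c'')` and for `(c', c'')` (this excludes finitely many `c''`, `G` is infinite). Let `w' p` be the common
value. For `c` with `c, q + c, p + q + c ∉ H`: `w' (p + q) = w (p + q + c) / w c =
(w (p + (q + c)) / w (q + c)) * (w (q + c) / w c) = w' p * w' q`. For `p ∉ H` take `c` with `c`, `p + c`,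
`p - c ∉ H`: `w' p = w (p + c) / w c = w p`. -/
def S_Ext : Prop :=
  ∀ (G : Type) [AddCommGroup G] [Infinite G] (A : Type) [CommGroup A] (H : AddSubgroup G),
    (H : Set G).Finite → ∀ w : G → A,
    (∀ c d, c ∉ H → d ∉ H → c + d ∉ H → c - d ∉ H → w (c + d) = w c * w d) →
    ∃ w' : G → A, (∀ p q, w' (p + q) = w' p * w' q) ∧ ∀ c, c ∉ H → w' c = w c

/-- **Inf** (80 lines, uses `S_Pts`, `S_Map`). There are infinitely many points.

Proof. For `x ≠ 0` let `ζ ^ 2 + ζ = x + a + b / x ^ 2`; `(x, ζ x)` is a point. -/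
def S_Inf : Prop :=
  ∀ (K : Type) [Field K] [CharP K 2] (D γ : K), γ ≠ 0 → ∀ (L : Type) [Field L] [Algebra K L],
    ASC L → Infinite L → ∀ j : ℕ, Infinite (Pt D γ j L)

/-- **Wt** (200 lines, uses `S_Pts`, `S_Map`, `S_FVn`, `S_WAd`, `S_Wkr`, `S_Ext`, `S_Inf`). The
homomorphism `E_k(L) → Lˣ / (Lˣ) ^ (2 ^ k)`.

Proof. Let `H = ⟨R⟩`, a finite group (`addOrderOf R = 2 ^ k`), `2 ^ k • R = 0`. Let
`A = Lˣ ⧸ (powMonoidHom (2 ^ k)).range` and `w c` the class of `Wf k R c ≠ 0` for `c ∉ H` (`S_WAd` (1)), `1` for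
`c ∈ H`. By `S_WAd` (2) the hypothesis of `S_Ext` holds; let `w'` be the extension and `w p` a representative
of `w' p`. `ne`, `add`, `gen` are clear. `ker`: (←) choose `q'` with `Fn q'`, `Fn (q + q') ∉ H` (`Fn` is
injective, `E_0(L)` is infinite): `w (Fn q) ≡ w (Fn (q + q')) / w (Fn q') ≡ 1` by `S_Wkr`. (→) choose `q` with
`p + Fn q ∉ H`: `w (p + Fn q) ≡ 1`, so `p + Fn q = Fn q''` by `S_Wkr`, `p = Fn (q'' - q)`. -/
def S_Wt : Prop :=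
  ∀ (K : Type) [Field K] [CharP K 2] (D γ : K), γ ≠ 0 → ∀ (L : Type) [Field L] [Algebra K L],
    ASC L → Infinite L → ∀ (k : ℕ) (R : Pt D γ k L), IsR D γ k R → ∃ w, IsWt D γ k R w

/-- **Wtc** (150 lines, uses `S_Pts`, `S_Map`, `S_FVn`, `S_WRa`, `S_Wmp`, `S_Inf`). Compatibility with
homomorphisms of fields.

Proof. Let `H = ⟨R⟩`, `H' = ⟨R'⟩`, both finite; `pmap f R ∈ H'`. For `p` with `p ∉ H`, `pmap f p ∉ H'`:
`f (w p) ≡ f (Wf k R p) = Wf k (pmap f R) (pmap f p) = Wf k (m • R') (pmap f p) ≡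
Wf k R' (pmap f p) ^ m ≡ w' (pmap f p) ^ m` (`S_Wmp`, `S_WRa` (2)). In general choose `p'` such that `p'` and
`p + p'` have this property (it excludes finitely many `p'` as `pmap f` is injective; the group is
infinite); both sides are additive modulo `2 ^ k`-th powers. -/
def S_Wtc : Prop :=
  ∀ (K : Type) [Field K] [CharP K 2] (D γ : K), γ ≠ 0 → ∀ (L : Type) [Field L] [Algebra K L],
    ASC L → Infinite L → ∀ (k : ℕ) (R : Pt D γ k L), IsR D γ k R → ∀ w, IsWt D γ k R w →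
    ∀ (S M : Type) [Field S] [Field M] [Algebra K S] [Algebra K M] [Algebra S L]
      [Algebra S M] [IsScalarTower K S L] [IsScalarTower K S M] (f : L →ₐ[S] M)
      (R' : Pt D γ k M), IsR D γ k R' → ∀ w', IsWt D γ k R' w' → ∀ m : ℕ,
      pmap (EE D γ k) f R = m • R' →
      ∀ p, EqN (2 ^ k) (f (w p)) (w' (pmap (EE D γ k) f p) ^ m)

/-- **Tq** (150 lines, uses `S_Pts`, `S_Map`, `S_FV`, `S_FVh`, `S_FVn`). The point `Q`.

Proof. `T = (0, β) ≠ O`, `T + T = O`. (1) `Vn (Q + Q) = T + T = 0`; `2 ^ k • Q = Fn (Vn Q) = Fn T ≠ 0`, so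
`2 ^ n • (Q + Q) = 2 ^ (n + 1) • Q ≠ 0` for `n < k`, and `2 ^ (k + 1) • Q = Fn (T + T) = 0`. (2) `S_FVn` (8).
(3) `Vn (Q' - Q) = 0`. (4) naturality of `Vn` (`S_FVn` (6)). (5) `Vi` is a homomorphism; `Vn (k + 1) Q =
Vn k (Vi Q)`. -/
def S_Tq : Prop :=
  ∀ (K : Type) [Field K] [CharP K 2] (D β : K), β ≠ 0 → ∀ (L : Type) [Field L] [Algebra K L]
    (k : ℕ),
    (∀ Q : Pt D (β ^ 2) k L, IsQ D β k Q → IsR D (β ^ 2) k (Q + Q) ∧
      addOrderOf Q = 2 ^ (k + 1)) ∧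
    (∀ Q : Pt D (β ^ 2) k L, IsQ D β k Q → ∀ P, Vn D (β ^ 2) k P = 0 →
      ∃ m : ℕ, P = m • (Q + Q)) ∧
    (∀ Q Q' : Pt D (β ^ 2) k L, IsQ D β k Q → IsQ D β k Q' → ∃ m : ℕ, Q' = Q + m • (Q + Q)) ∧
    (∀ (Q : Pt D (β ^ 2) k L) (S M : Type) [Field S] [Field M] [Algebra K S] [Algebra K M]
      [Algebra S L] [Algebra S M] [IsScalarTower K S L] [IsScalarTower K S M] (f : L →ₐ[S] M),
      IsQ D β k Q → IsQ D β k (pmap (EE D (β ^ 2) k) f Q)) ∧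
    ∀ Q : Pt D (β ^ 2) (k + 1) L, IsQ D β (k + 1) Q → IsQ D β k (Vi D (β ^ 2) k Q)

/-- **Tom** (200 lines, uses `S_Twb`, `S_Pts`, `S_Map`, `S_FV`, `S_FVn`, `S_Tq`, `S_Asr`). The
coordinates of the torsion points are in `Om`.

Proof by induction on `k`; `k = 0`: `Q = (0, β)`. Step: let `P = Vi Q = (x, y) ∈ E_k` (`IsQ k P`, `P ≠ O`),
`Q = (X, Y)`, `X ≠ 0`, `X + b / X = x`, `y = X + ((Y + b) / X + a + 1) x` (`S_FV` (6)); by induction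
`x, y ∈ Om`, `x` integral over `AS PP`. `X ^ 2 + x X + b = 0`, so `X` is integral. Case `x ≠ 0`:
`η = (X + y) / x` satisfies `η ^ 2 + η = x + a` (`x ^ 2 (η ^ 2 + η) = X ^ 2 + y ^ 2 + x X + x y = b + x ^ 3 + a x ^ 2 + b`),
integral and in `Om`, so `η ∈ Om` (`S_Twb` (6)), `X = y + x η ∈ Om`, and `Y` is a rational expression in
`x, y, X, a, b`. Case `x = 0`: `Vi P = O` if `k ≥ 1`, contradicting `IsQ`; so `k = 0`, `P = (0, β)`,
`X ^ 2 = β ^ 2`, `X = β`, and `ζ = Y / β` satisfies `ζ ^ 2 + ζ = β + D ^ 2 + β ^ 2 ∈ AS PP`, so `ζ ∈ Om`. (2) the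
same for `R` (any `γ`): induct on `k` for all `P ∈ E_k(K^s)` with `Vn k P = 0`: `Vi P` is in the kernel of
`Vn (k - 1)`; if `px (Vi P) ≠ 0` as before; if `Vi P = O` then `px P = 0`, `P = O` or `P = (0, γ ^ (2 ^ (k - 1)))`;
if `Vi P = (0, y)`, `y ^ 2 = b`, `b = γ ^ (2 ^ j)`, `j ≥ 1`: `y = γ ^ (2 ^ (j - 1))`, `X = y` and
`ζ ^ 2 + ζ = y + a ^ 2 + b ^ 2 / y ^ 2 = y + a ^ 2 + y ^ 2`. (3) surjectivity of the restriction
homomorphism. -/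
def S_Tom : Prop :=
  ∀ (F : Type) [Field F] [Finite F] [CharP F 2] (PP : Finset F[X]),
    (∀ P ∈ PP, P.Monic ∧ Irreducible P) → ∀ (D β : RatFunc F), D ∈ AS PP → β ∈ AS PP → β ≠ 0 →
    ∀ k : ℕ,
      (∀ Q : Pt D (β ^ 2) k (Kgs F), IsQ D β k Q →
        CIn Q (Om (AS PP) (RatFunc F) (Kgs F) : Set (Kgs F)) ∧ IsIntegral (AS PP) (px Q)) ∧
      ∀ P : Pt D β k (Kgs F), Vn D β k P = 0 →
        CIn P (Om (AS PP) (RatFunc F) (Kgs F) : Set (Kgs F))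

/-- **Tws** (150 lines, uses `S_Pts`, `S_Map`, `S_FV`, `S_FVh`). The isomorphism with the curve for
`D = 0`.

Proof. `EE 0 γ j` is `y ^ 2 + x y = x ^ 3 + b` (`0 ^ (2 ^ j) = 0`). `(x, y + c x)`, `c = α ^ (2 ^ j)`, satisfies the
equation with `a = c ^ 2 + c = D ^ (2 ^ j)`. Homomorphism: the slopes change by `c` (`S_Pts` (6), (7)), and the
formulas `S_Pts` (10) are compatible: `(λ + c) ^ 2 + (λ + c) + a = λ ^ 2 + λ`. (2): in `S_FV` (6)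
`(Y + c ^ 2 X + b) / X + a = (Y + b) / X + c ^ 2 + a = (Y + b) / X + c`. (3) iterate (2). (4), (5): compare
coordinates; `(x, y + (c + 1) x) = - (x, y + c x)`. -/
def S_Tws : Prop :=
  ∀ (K : Type) [Field K] [CharP K 2] (D γ : K), γ ≠ 0 → ∀ (L : Type) [Field L] [Algebra K L]
    (α : L), α ^ 2 + α = algebraMap K L D →
    ∃ φ : ∀ j : ℕ, Pt 0 γ j L ≃+ Pt D γ j L,
      (∀ j (P : Pt 0 γ j L) (x y : L), XY P x y → XY (φ j P) x (y + α ^ 2 ^ j * x)) ∧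
      (∀ j (P : Pt 0 γ (j + 1) L), Vi D γ j (φ (j + 1) P) = φ j (Vi 0 γ j P)) ∧
      (∀ k (P : Pt 0 γ k L), Vn D γ k (φ k P) = φ 0 (Vn 0 γ k P)) ∧
      ∀ (σ : L →ₐ[K] L),
        (σ α = α → ∀ j P, pmap (EE D γ j) σ (φ j P) = φ j (pmap (EE 0 γ j) σ P)) ∧
        (σ α = α + 1 → ∀ j P, pmap (EE D γ j) σ (φ j P) = - φ j (pmap (EE 0 γ j) σ P))

/-- **Psi** (250 lines, uses `S_Has`, `S_Twb`, `S_Omi`, `S_Res`, `S_Asr`, `S_Rgo`, `S_Pts`, `S_Map`, `S_FV`,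
`S_FVh`, `S_FVn`, `S_Vsu`, `S_Tq`, `S_Tom`, `S_Tws`). The character on the torsion points.

Proof. Let `Q⁰ ∈ E_k(K^s)` for `D = 0` with `IsQ` (`S_Vsu` (6)); its coordinates are in `Om` (`S_Tom`). For
`σ ∈ Gal(K^s/K)`: `σ Q⁰` satisfies `IsQ`, so `σ Q⁰ = (1 + 2 m) Q⁰` (`S_Tq` (3)), and `σ Q⁰ = ψ̃(σ).val • Q⁰` with
a unique `ψ̃(σ) ∈ ZMod (2 ^ (k + 1))` (`addOrderOf Q⁰`). It depends only on the action of `σ` on the
coordinates, i.e. on `rG σ`, and is locally constant as a function of `rG σ` (stabilizers in `GS PP` are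
open); restriction is surjective (`AlgEquiv.restrictNormalHom_surjective`-type statement for `K^s / Om / K`:
every `g ∈ GS PP` extends to `K^s`; compare with `S_Rgo` (2)), so `ψ̃ = ψ ∘ rG`, and `ψ` is a character.
Modulo four: if `k = 0` every unit of `ZMod 2` is `1`. If `k ≥ 1`: `Q₁ = V_1 .. V_{k-1} Q⁰ ∈ E_1(K^s)` satisfies
`IsQ 1`, i.e. `Vi Q₁ = (0, β)`: `Q₁ = (β, Y)` with `(Y / β) ^ 2 + Y / β = β + β ^ 2` (`D = 0`), so `Y / β = β` or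
`β + 1` and `Q₁` is rational. `2 ^ (k - 1) • Q⁰` is the image of `Q₁` under the Frobenius isogeny
(`F V = 2`; prove by induction on `k`: if `IsQ k Q` then `2 ^ (k - 1) • Q` has coordinates in `K`), so it is
fixed by `σ`: `2 ^ (k - 1) (ψ(σ) - 1) = 0` in `ZMod (2 ^ (k + 1))`, i.e. `ψ(σ) = 1 + 4 m`.
For `D ∈ AS PP` let `α ∈ Om`, `α ^ 2 + α = D` (`S_Omi` (3)) and `φ` as in `S_Tws`; `Q = φ_k Q⁰`,
`Vn Q = φ_0 (0, β) = (0, β)`. `σ α = α + o2 (hAS D (rG σ))` (`S_Has` (2)), so by `S_Tws` (4)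
`σ Q = ± φ (σ Q⁰) = ± ψ(rG σ) Q`, the sign being `sg (k + 1) (hAS D (rG σ))`. -/
def S_Psi : Prop :=
  ∀ (F : Type) [Field F] [Finite F] [CharP F 2] (PP : Finset F[X]),
    (∀ P ∈ PP, P.Monic ∧ Irreducible P) → ∀ β : RatFunc F, β ∈ AS PP → β ≠ 0 →
    ∀ k : ℕ, ∃ ψ : GS PP → ZMod (2 ^ (k + 1)), Chr ψ ∧ (∀ g, ∃ m, ψ g = 1 + 4 * m) ∧
      ∀ D ∈ AS PP, ∃ Q : Pt D (β ^ 2) k (Kgs F), IsQ D β k Q ∧
        ∀ σ : Gal(Kgs F/RatFunc F),
          pmap (EE D (β ^ 2) k) (σ : Kgs F →ₐ[RatFunc F] Kgs F) Q =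
            (tw ψ (hAS (RatFunc F) (Om (AS PP) (RatFunc F) (Kgs F)) D) (rG PP σ)).val • Q

/-- **Vdp** (200 lines, uses `S_Lc1`, `S_Pts`, `S_Map`, `S_FV`, `S_FVh`, `S_FVn`, `S_Vsu`). Local points at the
deeply ramified places.

Proof. Claim A: let `j < k`, `P = (x, y) ∈ E_j(K_v)`, `M ≤ ‖x‖`; then `P = Vi P'` with
`P' = (X, Y) ∈ E_{j+1}(K_v)`, `M ≤ ‖X‖`. `‖β ^ (2 ^ j) / x‖ < 1`, so (`S_Lc1` (8)) `b / x ^ 2 = (β ^ (2 ^ j) / x) ^ 2 =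
ξ ^ 2 + ξ` with `‖ξ‖ < 1` (`b = β ^ (2 ^ (j + 1))`); `X = x (ξ + 1)`, `‖X‖ = ‖x‖`, `X ^ 2 + x X + b = 0`;
`η = (X + y) / x` satisfies `η ^ 2 + η = x + a`; use `S_Vsu` (1). Claim B: let `P = (x, y) ∈ E_0(K_v)`, `x ≠ 0`. From the equation
`D = ℘(y / x) + x + (β / x) ^ 2`, and `(β / x) ^ 2 = ℘(β / x) + β / x`, so
`x + β / x = D + ℘(y / x + β / x)` and by hypothesis `M ≤ ‖x + β / x‖`, so `M ≤ ‖x‖` or `M ≤ ‖β / x‖`. In the
first case iterate claim A: `P = Vn k P'`. In the second case: `P + T`, `T = (0, β)`, has the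
`x`-coordinate `β / x` (`λ = (y + β) / x`, `λ ^ 2 + λ + D + x = β / x` by the equation), so
`P + T = Vn k P'`, `P = T + Vn k P'` (`T + T = O`). If `x = 0`, `P = T = T + Vn k O`; `P = O = Vn k O`. -/
def S_Vdp : Prop :=
  ∀ (F : Type) [Field F] [Finite F] [CharP F 2] (v : AbsoluteValue (RatFunc F) ℝ) (d : ℕ)
    (ϖ : RatFunc F) (R : Finset (RatFunc F)), LF v d ϖ R →
    ∀ (D β : RatFunc F), β ≠ 0 → ∀ (k : ℕ) (M : ℝ), 1 < M → (∀ j ≤ k, v (β ^ 2 ^ j) < M) →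
    (∀ y : v.Completion, M ≤ ‖algebraMap (RatFunc F) v.Completion D + (y ^ 2 + y)‖) →
    ∀ P : Pt D (β ^ 2) 0 v.Completion, ∃ P' : Pt D (β ^ 2) k v.Completion,
      P = Vn D (β ^ 2) k P' ∨ ∃ T : Pt D (β ^ 2) 0 v.Completion,
        XY T 0 (algebraMap (RatFunc F) v.Completion β) ∧ P = T + Vn D (β ^ 2) k P'

/-- **Vun** (150 lines, uses `S_Lc1`, `S_Lc2`, `S_Nr`, `S_Pts`, `S_Map`, `S_FV`, `S_Vsu`). Local points
at the places of good reduction.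

Proof. It suffices to lift a point `P ∈ E_j` with coordinates in `Knr` to `Q ∈ E_{j + 1}` with coordinates in
`Knr`, `Vi Q = P` (then induct). `P = O` is clear, let `P = (x, y)`; `nm a ≤ 1`, `nm b = 1`. If `nm x ≤ 1` and
`x ≠ 0`: `η ∈ Knr` with `η ^ 2 + η = x + a` (`S_Nr` (3)), use `S_Vsu` (1). If `x = 0`: `y ^ 2 = b`, `nm y = 1`,
`ζ ∈ Knr` with `ζ ^ 2 + ζ = y + a ^ 2 + b ^ 2 / y ^ 2`, use `S_Vsu` (2). If `nm x > 1`: `nm (b / x ^ 2) ≤ 1`,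
`ξ ∈ Knr` with `ξ ^ 2 + ξ = b / x ^ 2`, and `η = ξ + y / x` satisfies `η ^ 2 + η = x + a`; use `S_Vsu` (1). -/
def S_Vun : Prop :=
  ∀ (F : Type) [Field F] [Finite F] [CharP F 2] (v : AbsoluteValue (RatFunc F) ℝ) (d : ℕ)
    (ϖ : RatFunc F) (R : Finset (RatFunc F)), LF v d ϖ R →
    ∀ (D γ : RatFunc F), v D ≤ 1 → v γ = 1 → ∀ (k : ℕ) (P : Pt D γ 0 (Kvs v)),
      CIn P (Knr v : Set (Kvs v)) → ∃ P' : Pt D γ k (Kvs v), CIn P' (Knr v : Set (Kvs v)) ∧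
        Vn D γ k P' = P

/-- **Dif** (100 lines, uses `S_Pts`). The `x`-coordinates of `P + Q` and `P - Q`.

Proof. `P = (x, y)`, `Q = (x', y')`, `-Q = (x', x' + y')`; the slopes are `λ = (y + y') / (x + x')` and
`λ + x' / (x + x')`. So `px (P + Q) + px (P - Q) = (x' / (x + x')) ^ 2 + x' / (x + x') = x x' / (x + x') ^ 2`. For
the product use the equations of `P`, `Q`: let `s = x + x'`; `X₊ s ^ 2 = (y + y') ^ 2 + (y + y') s + (a₂ + s) s ^ 2`,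
which by the equations equals `x y' + x' y + x x' s` (`y ^ 2 = x y + x ^ 3 + a₂ x ^ 2 + a₆`, etc.), and
`X₋ s ^ 2 = X₊ s ^ 2 + x x'`; `X₊ X₋ s ^ 4 = (x y' + x' y + x x' s) (x y' + x' y + x x' s + x x')`; expand and
use the equations again. -/
def S_Dif : Prop :=
  ∀ (L : Type) [Field L] [CharP L 2] (W : WeierstrassCurve.Affine L), IsEc W →
    ∀ P Q : W.Point, P ≠ 0 → Q ≠ 0 → px P ≠ px Q →
      (px (P + Q) + px (P - Q)) * (px P + px Q) ^ 2 = px P * px Q ∧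
      px (P + Q) * px (P - Q) * (px P + px Q) ^ 2 = (px P * px Q) ^ 2 + W.a₆

/-- **Wu1** (200 lines, uses `S_Lc1`, `S_Lc2`, `S_Pts`, `S_Map`, `S_FV`, `S_FVn`, `S_Nz`). Unit values
at places of good reduction.

Proof. (1) By induction on `n` for all `P ∈ E_n(Kvs)` with `Vn n P = 0`: `nm (px P) ≤ 1`. `Vi P` is in the
kernel of `Vn (n - 1)`; if `px P ≠ 0`: `px P + b / px P = px (Vi P) = x'`, so `X = px P` satisfies
`X ^ 2 + x' X + b = 0` with `nm x' ≤ 1`, `nm b = 1`, so `nm X ≤ 1`. (2) Let `A = 2 ^ j • R`. If `A = O`: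
`fv = 1`. If `A ≠ O`, `A + A = O`: `fv = px c + px A`, `nm = 1` by hypothesis (`A ∈ ⟨R⟩`). Otherwise `λ = sl A A`
satisfies `λ ^ 2 + λ = px (2 A) + a₂`, so `nm λ ≤ 1`; `nm (py A) ≤ 1`, `nm (py c) ≤ 1` (from the equations, as the
`x`-coordinates are integral). So `nm (nv A A c) ≤ 1`, `nm (nv A A (-c)) ≤ 1`, and by `S_Nz` (1) their
product is `(px c + px A) ^ 2 (px c + px (2 A))`, of norm `1`; so `nm (nv A A c) = 1`. And
`dv A A c = px c + px (2 A)` has norm `1`. -/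
def S_Wu1 : Prop :=
  ∀ (F : Type) [Field F] [Finite F] [CharP F 2] (v : AbsoluteValue (RatFunc F) ℝ) (d : ℕ)
    (ϖ : RatFunc F) (R₀ : Finset (RatFunc F)), LF v d ϖ R₀ →
    ∀ (D γ : RatFunc F), v D ≤ 1 → v γ = 1 → ∀ (k : ℕ) (R : Pt D γ k (Kvs v)), IsR D γ k R →
      (∀ h ∈ AddSubgroup.zmultiples R, nm v (px h) ≤ 1) ∧
      ∀ c : Pt D γ k (Kvs v), c ≠ 0 → nm v (px c) ≤ 1 →
        (∀ h ∈ AddSubgroup.zmultiples R, h ≠ 0 → nm v (px c + px h) = 1) →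
        nm v (Wf k R c) = 1

/-- **Wun** (300 lines, uses `S_Lc1`, `S_Lc2`, `S_Cst`, `S_Nr`, `S_Pts`, `S_Map`, `S_FVn`, `S_Nz`, `S_WAd`,
`S_Dif`, `S_Wu1`). The valuations of `Wf k R P` at places of good reduction are divisible by `2 ^ k`.

Proof. `Wf k R P ∈ Knr` (a rational expression in elements of `Knr`: the coordinates of the multiples of
`R` and of `P`). `k = 0`: `Wf = 1`, `n = 0`. Let `k ≥ 1`, `H = ⟨R⟩` finite; the `px h`, `h ∈ H`, are integral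
elements of `Knr` (`S_Wu1`). Every integral element `z` of `Knr` has a residue `z̄ ∈ Cst` with
`nm (z - z̄) < 1` (`S_Nr` (2)), and different constants have distance `1`. Let `x = px P`. Choose
`x₀ ∈ Cst`, `x₀ ≠ 0` (`Cst` is infinite) such that `x₀ ≠` the residues of the `px h`, `h ∈ H`, and if
`nm x ≤ 1`, `x₀ ≠ x̄` and `ḡ_h(x₀) ≠ 0` for all `h ∈ H`, `h ≠ 0`, where
`ḡ_h(X) = (x̄ + h̄) ^ 2 X ^ 2 + x̄ h̄ X + x̄ ^ 2 h̄ ^ 2 + b̄` (`h̄` the residue of `px h`); this polynomial is not `0`: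
if `x̄ = h̄` it is `x̄ ^ 2 X + x̄ ^ 4 + b̄`, and if also `x̄ = 0`, it is `b̄ ≠ 0`. Let `ζ ∈ Knr` with
`ζ ^ 2 + ζ = x₀ + a + b / x₀ ^ 2` (integral, `S_Nr` (3)), `c = (x₀, ζ x₀)`, a point with coordinates in `Knr`.
Then `nm (px c + px h) = 1` for all `h ∈ H`, in particular `c ∉ H`, `nm (Wf k R c) = 1` (`S_Wu1`).
Claim: `c + P` and `c - P` also satisfy the hypotheses of `S_Wu1` (2). `px c ≠ x` (their distance is `≥ 1`), so
`c ± P ≠ 0`. By `S_Dif` `X_± = px (c ± P)` satisfy `X₊ + X₋ = x₀ x / (x₀ + x) ^ 2`,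
`X₊ X₋ = ((x₀ x) ^ 2 + b) / (x₀ + x) ^ 2`. If `nm x ≤ 1`: `nm (x₀ + x) = 1`, so both are integral. If
`nm x > 1`: `nm (x₀ + x) = nm x`, and again both are integral. So `nm X_± ≤ 1` (roots of a monic quadratic
polynomial with integral coefficients). For `h ∈ H`, `h ≠ 0`, `y = px h`:
`(X₊ + y) (X₋ + y) (x₀ + x) ^ 2 = (x + y) ^ 2 x₀ ^ 2 + x y x₀ + x ^ 2 y ^ 2 + b`. If `nm x ≤ 1` the right side has
the residue `ḡ_h(x₀) ≠ 0`, so its norm is `1`, and `nm (x₀ + x) = 1`. If `nm x > 1` the right side is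
`x ^ 2 (x₀ + y) ^ 2 + (y ^ 2 x₀ ^ 2 + x y x₀ + b)`, of norm `(nm x) ^ 2`. So in both cases
`nm (X₊ + y) * nm (X₋ + y) = 1` and both factors are at most `1`, so they are `1`. In particular
`c ± P ∉ H`. So `Gen H c P` and by `S_WAd` `Wf c * Wf P = Wf (c + P) * Av c P R ^ (2 ^ k)`, with
`nm (Wf c) = nm (Wf (c + P)) = 1`, and `Av c P R ∈ Knr` nonzero (`S_Nz` (3)), of norm `v ϖ ^ m`. So
`nm (Wf P) = v ϖ ^ (2 ^ k m)`. -/
def S_Wun : Prop :=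
  ∀ (F : Type) [Field F] [Finite F] [CharP F 2] (v : AbsoluteValue (RatFunc F) ℝ) (d : ℕ)
    (ϖ : RatFunc F) (R₀ : Finset (RatFunc F)), LF v d ϖ R₀ →
    ∀ (D γ : RatFunc F), v D ≤ 1 → v γ = 1 → ∀ (k : ℕ) (R : Pt D γ k (Kvs v)), IsR D γ k R →
      CIn R (Knr v : Set (Kvs v)) →
      ∀ P : Pt D γ k (Kvs v), CIn P (Knr v : Set (Kvs v)) → P ∉ AddSubgroup.zmultiples R →
        Wf k R P ∈ Knr v ∧ ∃ n : ℤ, nm v (Wf k R P) = v ϖ ^ n ∧ (2 ^ k : ℤ) ∣ n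

/-- **Kpt** (100 lines, uses `S_Lc1`, `S_Pts`, `S_Map`). There are infinitely many points over `K_v`.

Proof. For `η ∈ K_v` with `‖η‖` large let `x = η ^ 2 + η + D`; `‖x‖ = ‖η‖ ^ 2` is large, so
`‖γ / x ^ 2‖ < 1` and `γ / x ^ 2 = θ ^ 2 + θ` with `θ ∈ K_v` (`S_Lc1` (8)). Then
`(η + θ) ^ 2 + (η + θ) = x + D + γ / x ^ 2`, so `(x, (η + θ) x)` is a point. The norms of the `x` are unbounded
(`η = ϖ ^ (- n)`). (2): a point of `E_k(Kvs)` fixed by the Galois group has coordinates in `K_v`. -/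
def S_Kpt : Prop :=
  ∀ (F : Type) [Field F] [Finite F] [CharP F 2] (v : AbsoluteValue (RatFunc F) ℝ) (d : ℕ)
    (ϖ : RatFunc F) (R : Finset (RatFunc F)), LF v d ϖ R →
    ∀ (D γ : RatFunc F), γ ≠ 0 → Infinite (Pt D γ 0 v.Completion) ∧
      ∀ (k : ℕ) (P : Pt D γ k (Kvs v)), (∀ g : Gal(Kvs v/v.Completion),
        pmap (EE D γ k) (g : Kvs v →ₐ[v.Completion] Kvs v) P = P) →
        ∃ P₀ : Pt D γ k v.Completion,
          pmap (EE D γ k) (Algebra.ofId v.Completion (Kvs v)) P₀ = P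

/-- **AdF** (250 lines, uses `S_Av`, `S_LfP`, `S_Lc1`, `S_Lc2`, `S_Nr`, `S_Asr`, `S_Sep`, `S_Rgo`, `S_Exp`,
`S_Onr`, `S_Pts`, `S_Map`, `S_FVn`, `S_WRa`, `S_Wmp`, `S_Inf`, `S_Wt`, `S_Wtc`, `S_Wun`, `S_Kpt`). The
elements `w p` are admissible.

Proof. `Kgs F`, `Kvs v` are `ASC` (`S_Sep` (2)) and infinite. `gal`: `S_Wtc` for `f = σ`, `R' = R`,
`m = (χ (rG σ)).val`: `σ (w p) ≡ w (σ p) ^ m`, and `σ p = p + Fn q`, so `w (σ p) ≡ w p * w (Fn q) ≡ w p`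
(`IsWt.add`, `IsWt.ker`). `unr`: let `P ∉ PP`, `v` its place, `ι`; `v D ≤ 1`, `v γ = 1` (`γ`, `γ⁻¹ ∈ AS PP`,
`S_Asr` (4)). `R' = pmap ι R` satisfies `IsR`, its coordinates are in `Knr v` (`S_Onr` (1)); let `w'` be as in
`S_Wt` for `Kvs v`, `R'`; `ι (w p) ≡ w' (ι p)` (`S_Wtc`, `m = 1`). Let `q` be as in `SelF` and
`P_v = ι p - Fn q`, fixed by `Gal(Kvs/K_v)`, so with coordinates in `K_v` (`S_Kpt` (2)); `w' (ι p) ≡ w' (P_v)`.
Choose `q₀ ∈ E_0(K_v)` (`S_Kpt` (1), infinitely many, `Fn` injective) such that `P' = P_v + Fn q₀ ∉ ⟨R'⟩`;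
`w' (P_v) ≡ w' (P') ≡ Wf k R' P' = r`. By `S_Wun` `r ∈ Knr v` and `nm r = v P ^ n`, `2 ^ k ∣ n`. -/
def S_AdF : Prop :=
  ∀ (F : Type) [Field F] [Finite F] [CharP F 2] (PP : Finset F[X]),
    (∀ P ∈ PP, P.Monic ∧ Irreducible P) → ∀ (D γ : RatFunc F), D ∈ AS PP → γ ∈ AS PP →
    γ⁻¹ ∈ AS PP → γ ≠ 0 → ∀ (k : ℕ) (R : Pt D γ k (Kgs F)), IsR D γ k R →
    CIn R (Om (AS PP) (RatFunc F) (Kgs F) : Set (Kgs F)) →
    ∀ χ : GS PP → ZMod (2 ^ k), (∀ σ : Gal(Kgs F/RatFunc F),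
      pmap (EE D γ k) (σ : Kgs F →ₐ[RatFunc F] Kgs F) R = (χ (rG PP σ)).val • R) →
    ∀ w, IsWt D γ k R w → ∀ p, SelF D γ k p → Adm PP k χ (w p)

/-- **IsF** (250 lines, uses `S_LfP`, `S_LfI`, `S_Lc1`, `S_Lc2`, `S_Sep`, `S_Res`, `S_H90`, `S_LvU`, `S_LvA`,
`S_Hlo`, `S_Rgo`, `S_Exp`, `S_Pts`, `S_Map`, `S_FVn`, `S_WRa`, `S_Wmp`, `S_Inf`, `S_Wt`, `S_Wtc`, `S_Tq`, `S_Kpt`).
The elements `w p` are isotropic.

Proof. Let `R = Q + Q`, `w ∈ Option PP`, `v = A.av w`, `ι = A.emb w`, `Q' = pmap ι Q`, `R' = pmap ι R`, `w'` as in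
`S_Wt` for `Kvs v`, `R'`. As in `S_AdF`: `ι (w p) ≡ w' (ι p) ≡ w' (P') ≡ u_v = Wf k R' P'` (modulo
`2 ^ k`-th powers), `P'` a point with coordinates in `K_v`, `P' ∉ ⟨Q'⟩` (choose `q₀` accordingly). Let
`U = Wf (k + 1) Q' P' = fv Q' Q' P' ^ (2 ^ k) * u_v` (`S_WRa` (3)), so `U ≡ u_v` modulo `2 ^ k`-th powers.
For `g ∈ Gal(Kvs/K_v)` let `χ_g = χ (rOm ι g)`: `g Q' = χ_g.val • Q'` (`g (ι x) = ι (rsH ι g x)`, `S_Rgo`), and
`g P' = P'`. So `g U = Wf (k + 1) (χ_g.val • Q') P' ≡ U ^ χ_g.val` modulo `2 ^ (k + 1)`-th powers (`S_Wmp`,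
`S_WRa` (2)). `χ_g` is a unit, so `χ_g.val = 1 + 2 m_g` is odd, and `g U / U = t_g ^ 2` with
`t_g = U ^ m_g * s ^ (2 ^ k)`; `t_g` is unique, locally constant in `g` and a crossed homomorphism, so by
`S_H90` (`E = ⊥`) `t_g = g y / y`. So `U ^ m_g ≡ g y / y` modulo `2 ^ k`-th powers. As
`1 - χ_g = - 2 m_g`, `hf k (1 - χ_g) = - m_g` in `ZMod (2 ^ k)`, and
`(ι (w p)) ^ (hf k (1 - χ_g)).val ≡ U ^ (- m_g) ≡ g y⁻¹ / y⁻¹` (`S_Exp`). By `S_LvA` (5), (4) `0` is a local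
invariant, and by `S_LvU` every local invariant is divisible by `2 ^ k`. -/
def S_IsF : Prop :=
  ∀ (F : Type) [Field F] [Finite F] [CharP F 2] (κ : F) (PP : Finset F[X]),
    (∀ P ∈ PP, P.Monic ∧ Irreducible P) → ∀ A : Dat F PP, A.Ok κ → ∀ g₀, IsG0 A g₀ →
    ∀ (D β : RatFunc F), D ∈ AS PP → β ∈ AS PP → β ≠ 0 → ∀ (k : ℕ)
      (Q : Pt D (β ^ 2) k (Kgs F)), IsQ D β k Q →
    ∀ χ : GS PP → ZMod (2 ^ (k + 1)), Chr χ → (∀ σ : Gal(Kgs F/RatFunc F),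
      pmap (EE D (β ^ 2) k) (σ : Kgs F →ₐ[RatFunc F] Kgs F) Q = (χ (rG PP σ)).val • Q) →
    ∀ w, IsWt D (β ^ 2) k (Q + Q) w → ∀ p, SelF D (β ^ 2) k p → Iso A g₀ k χ (w p)

/-- **FS** (120 lines, uses `S_Sep`, `S_Pts`, `S_Map`, `S_FVn`, `S_Inf`, `S_Wt`, `S_Tq`, `S_Tom`, `S_AdF`,
`S_IsF`, `S_FCn`). The count on the side of `F`.

Proof. Let `R = Q + Q` (`IsR`), `w` as in `S_Wt`; `σ R = (rdK k (χ (rG σ))).val • R` (`2 ^ k • R = 0`), the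
coordinates of `R` are in `Om` (`S_Tom` (2) for `P = R`, with `β ^ 2` in the place of `β`). The set
`U = {w (p i)}` satisfies the hypotheses of `S_FCn` by `S_AdF`, `S_IsF`; if `w (p i) ≡ w (p j)` then
`w (p i - p j) ≡ 1` and `p i - p j = Fn q` (`IsWt.ker`), so `i = j`. So `U` has `n` elements. -/
def S_FS : Prop :=
  ∀ (F : Type) [Field F] [Finite F] [CharP F 2] (κ : F), eps κ = 1 → ∀ (PP : Finset F[X]),
    (∀ P ∈ PP, P.Monic ∧ Irreducible P) → ∀ A : Dat F PP, A.Ok κ → ∀ g₀, IsG0 A g₀ →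
    ∀ (D β : RatFunc F), D ∈ AS PP → β ∈ AS PP → β⁻¹ ∈ AS PP → β ≠ 0 → ∀ (k : ℕ)
      (Q : Pt D (β ^ 2) k (Kgs F)), IsQ D β k Q →
    ∀ χ : GS PP → ZMod (2 ^ (k + 1)), Chr χ → (∀ σ : Gal(Kgs F/RatFunc F),
      pmap (EE D (β ^ 2) k) (σ : Kgs F →ₐ[RatFunc F] Kgs F) Q = (χ (rG PP σ)).val • Q) →
    ∀ (n : ℕ) (p : Fin n → Pt D (β ^ 2) k (Kgs F)), (∀ i, SelF D (β ^ 2) k (p i)) →
      (∀ i j, i ≠ j → ¬ ∃ q, p i - p j = Fn D (β ^ 2) k q) →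
      n * 2 ^ (k + 1 + PP.card) ≤ XX (famC κ A).W (famC κ A).φ χ

/-- **Nrf** (200 lines, uses `S_Av`, `S_LfP`, `S_Lc1`, `S_Lc2`, `S_Nr`, `S_Fr`, `S_Has`, `S_Sep`, `S_Res`,
`S_Drg`, `S_Asr`, `S_Pfs`, `S_Fin2`, `S_Omi`). Homomorphisms of the Galois group of `K^s` to `ZMod 2`
unramified outside `PP` and infinity.

Proof. `h = hAS f₀`, `f₀ ∈ K` (`S_Sep` (3)). Let `PP'` be the union of `PP` and the monic irreducible divisors of
`f₀.denom`; `f₀ ∈ AS PP'` (`S_Asr` (3)). Let `κ` with `eps κ = 1` (`S_Fin2`); by `S_Pfs`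
`f₀ = ∑_{w ∈ Option PP'} D w + c κ + ℘(y)`. Let `P ∈ PP'`, `P ∉ PP`, `v`, `ι` as in the hypothesis. For
geometric `g`: `0 = h (rsH ι g) = hAS_{K_v} f₀ g` (`S_Res` (4)), and all the terms except `D P` are integral at
`P` (`S_Drg`) or `℘(..)`, so they contribute `0` (`S_Fr` (3), `S_Has`); so `hAS_{K_v} (D P) g = 0`, i.e. a root
`θ ∈ Kvs` of `θ ^ 2 + θ = D P` is fixed by all geometric `g`, `θ ∈ Knr` (`S_Nr` (6),
`InfiniteGalois.fixedField_fixingSubgroup`). If `D P ≠ 0`, then `nm (D P) = 2 ^ (2 i + 1) > 1` (`S_Drg`), so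
`nm θ > 1`, `nm θ ^ 2 = 2 ^ (2 i + 1)`, but `nm θ` is a power of `v P = 1 / 2` (`S_Nr` (1)): contradiction. So
`D P = 0` for all `P ∈ PP' \ PP`, and `f = ∑_{w ∈ Option PP} D w + c κ ∈ AS PP`, `hAS f₀ = hAS f`
(`S_Has`). (2) `S_Res` (4) for the embedding of `Om` in `K^s` (`rG`), the root exists in `Om` by `S_Omi`
(3). -/
def S_Nrf : Prop :=
  ∀ (F : Type) [Field F] [Finite F] [CharP F 2] (PP : Finset F[X]),
    (∀ P ∈ PP, P.Monic ∧ Irreducible P) → ∀ h : Gal(Kgs F/RatFunc F) → ZMod 2, Hom2 h →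
    (∀ P : F[X], P.Monic → Irreducible P → P ∉ PP → ∃ v, IsPl (some P) v ∧
      ∃ ι : Kgs F →ₐ[RatFunc F] Kvs v, ∀ g : Gal(Kvs v/v.Completion), IsGeo (Nat.card F) g →
        h (rsH (M := v.Completion) ι g) = 0) →
    ∃ f : AS PP, (h = hAS (RatFunc F) (Kgs F) (f : RatFunc F)) ∧
      ∀ σ, h σ = hAS (RatFunc F) (Om (AS PP) (RatFunc F) (Kgs F)) (f : RatFunc F) (rG PP σ)

/-- **Fac** (200 lines, uses `S_Hlo`, `S_Rgo`, `S_Onr`, `S_Nrf`). Unramified crossed homomorphisms factor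
through `GS PP`.

Proof by induction on `k`; `k = 0` is trivial. Step: let `χ̄ = rdK k ∘ χ`, `c̄ = rdK k ∘ c`; by induction
`c̄ = c̄' ∘ rG`. Lift `c̄'` to a crossed homomorphism `c'' : GS PP → ZMod (2 ^ (k + 1))` for `χ` with
`rdK k ∘ c'' = c̄'`: compose `c̄'` with a section `ZMod (2 ^ k) → ZMod (2 ^ (k + 1))`; the defect is a locally
constant `2`-cocycle with values in `2 ^ k ZMod (2 ^ (k + 1)) ≅ ZMod 2`, which is a coboundary (`H2Z`,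
`S_Hlo` (4)). The difference `c - c'' ∘ rG` has values in `2 ^ k ZMod (2 ^ (k + 1))`, so it is
`2 ^ k * h` with `h` a `Hom2` (`χ` is odd); at `rsH ι g`, `g` geometric, both `c` and `c'' ∘ rG` vanish
(`rG (rsH ι g) = rOm ι g = 1`, `S_Onr`; `c'' 1 = 0`). So by `S_Nrf` `h = H ∘ rG` with `H = hAS f` (`Hom2` by
`S_Hlo` (1)); `c' = c'' + 2 ^ k * H`. -/
def S_Fac : Prop :=
  ∀ (F : Type) [Field F] [Finite F] [CharP F 2] (PP : Finset F[X]),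
    (∀ P ∈ PP, P.Monic ∧ Irreducible P) → ∀ (k : ℕ) (χ : GS PP → ZMod (2 ^ k)), Chr χ →
    ∀ c : Gal(Kgs F/RatFunc F) → ZMod (2 ^ k), IsLocallyConstant c →
    (∀ σ τ, c (σ * τ) = c σ + χ (rG PP σ) * c τ) →
    (∀ P : F[X], P.Monic → Irreducible P → P ∉ PP → ∃ v, IsPl (some P) v ∧
      ∃ ι : Kgs F →ₐ[RatFunc F] Kvs v, ∀ g : Gal(Kvs v/v.Completion), IsGeo (Nat.card F) g →
        c (rsH (M := v.Completion) ι g) = 0) →
    ∃ c' : GS PP → ZMod (2 ^ k), Coc (fun g x => χ g * x) c' ∧ ∀ σ, c σ = c' (rG PP σ)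

/-- **VS** (300 lines, uses `S_Av`, `S_LfP`, `S_LfI`, `S_Lc1`, `S_Lc2`, `S_Nr`, `S_Sep`, `S_Res`, `S_Asr`, `S_Hlo`,
`S_Rgo`, `S_Onr`, `S_Pts`, `S_Map`, `S_FV`, `S_FVn`, `S_Vsu`, `S_Tq`, `S_Tom`, `S_Vdp`, `S_Vun`, `S_Kpt`,
`S_Fac`, `S_Goo`, `S_Cos`). The count on the side of `V`.

Proof. Let `R = Q + Q`, `χ̄ = rdK k ∘ χ`, `c` with `SelV R χ̄ c`. (1) Let `P ∉ PP`, `v` its place (`S_Av`), `ι` an
embedding, `X` as in `SelV`, `e = Vn X`; for `g ∈ Gal(Kvs/K_v)`: `g e - e = Vn (c(..) ι R) = 0`, so `e` has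
coordinates in `K_v` (`S_Kpt` (2)), in `Knr`. By `S_Vun` `e = Vn X'`, `X'` with coordinates in `Knr`;
`X - X' ∈ ker Vn = ⟨ι R⟩` has coordinates in `Knr` (`S_Tom`, `S_Onr`), so `X` has, and `g X = X` for geometric `g`;
so `(c (rsH ι g)).val • ι R = 0` and `c (rsH ι g) = 0` (`addOrderOf (ι R) = 2 ^ k`). By `S_Fac`
`c = c' ∘ rG`. (2) Let `Z = 2 c'`, i.e. `Z g = ((2 * (c' g).val : ℕ) : ZMod (2 ^ (k + 1)))`, a crossed
homomorphism for `χ` (doubling is an injective homomorphism `ZMod (2 ^ k) → ZMod (2 ^ (k + 1))`). Let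
`w ∈ Option PP`, `v = A.av w`, `ι = A.emb w`, `X`, `e` as before, `Q' = ι Q`. By `S_Vdp` (`e` is the image of a point
over `K_v`) `e = ε T + Vn Y`, `ε ∈ {0, 1}`, `T = (0, β)`, `Y` with coordinates in `K_v`; `Vn Q' = T`. So
`X - ε Q' - Y ∈ ker Vn`, `X = ε Q' + Y + m (Q' + Q')`, and `g X - X = (ε + 2 m) (χ_g - 1) Q'`,
`χ_g = χ (rOm ι g)`. The left side is `c' (rOm ι g) (Q' + Q') = Z (rOm ι g) Q'`, so
`Z (rOm ι g) = a (1 - χ_g)` with `a = - (ε + 2 m)`, for all `g`; in particular on `(famC κ A).W w` and at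
`(famC κ A).φ w`. So `Z` is in the set of `S_Cos`. (3) Let `c_i`, `i < n`, be as in the statement. The
functions `c_i + m (χ̄ - 1)`, `m ∈ ZMod (2 ^ k)`, also satisfy `SelV` (replace `X` by `X + m ι R`). For fixed `i`
there are at least `2 ^ (k - 1)` different ones: `m (χ̄ - 1) = m' (χ̄ - 1)` implies (at `g` with
`χ g = - 1 + 4 m''`, `χ g - 1 = 2 * odd`) `2 (m - m') = 0` (the restriction homomorphism `rG` is
surjective, or count the functions `c'` on `GS PP`). For different `i` they are different by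
hypothesis. So the set of `S_Cos` has at least `n * 2 ^ (k - 1)` elements. -/
def S_VS : Prop :=
  ∀ (F : Type) [Field F] [Finite F] [CharP F 2] (κ : F), eps κ = 1 → ∀ (PP : Finset F[X]),
    (∀ P ∈ PP, P.Monic ∧ Irreducible P) → ∀ A : Dat F PP, A.Ok κ →
    ∀ (D β : RatFunc F), D ∈ AS PP → β ∈ AS PP → β⁻¹ ∈ AS PP → β ≠ 0 → ∀ (k : ℕ), 1 ≤ k →
    ∀ Q : Pt D (β ^ 2) k (Kgs F), IsQ D β k Q →
    ∀ χ : GS PP → ZMod (2 ^ (k + 1)), Chr χ → (∀ σ : Gal(Kgs F/RatFunc F),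
      pmap (EE D (β ^ 2) k) (σ : Kgs F →ₐ[RatFunc F] Kgs F) Q = (χ (rG PP σ)).val • Q) →
    (∃ g m, χ g = -1 + 4 * m) →
    (∀ w : Option PP, ∃ M : ℝ, 1 < M ∧ (∀ j ≤ k, A.av w (β ^ 2 ^ j) < M) ∧
      ∀ y : (A.av w).Completion, M ≤ ‖algebraMap (RatFunc F) _ D + (y ^ 2 + y)‖) →
    ∀ (n : ℕ) (c : Fin n → Gal(Kgs F/RatFunc F) → ZMod (2 ^ k)),
      (∀ i, SelV D (β ^ 2) k (Q + Q) (fun g => rdK k (χ g)) (c i)) →
      (∀ i j, i ≠ j → ¬ ∃ m, ∀ σ, c i σ - c j σ = m * (rdK k (χ (rG PP σ)) - 1)) →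
      n * 2 ^ (k - 1) * 2 ^ (PP.card + 1) ≤ XX (famC κ A).W (famC κ A).φ χ

end Pool.Agent.MP72W
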