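import Pool.Agent.Lib.MP_72e2e6_nt.W2.D.Spec

/-!
# MP_72e2e6_nt, T3, part D: change of the decidability instance (helper71)

For the fields `Kvs v`, `Kgs F` the group structure on the points elaborates with the instance
`Subtype.instDecidableEq`, for variable fields with `Classical.propDecidable`. The lemmas `iadd`,
`isub`, `ineg`, `insmul`, `izsmul`, `izm`, `iord` say that the operations do not depend on the instance.
-/

namespace Pool.Agent.MP72W

namespace DecI

open WeierstrassCurve

variable {L : Type} [Field L] {W : WeierstrassCurve.Affine L}

theorem iadd (i j : DecidableEq L) (P Q : W.Point) :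
    (letI := i; P + Q) = (letI := j; P + Q) := by
  obtain rfl : i = j := Subsingleton.elim i j
  rfl

theorem isub (i j : DecidableEq L) (P Q : W.Point) :
    (letI := i; P - Q) = (letI := j; P - Q) := by
  obtain rfl : i = j := Subsingleton.elim i j
  rfl

theorem ineg (i j : DecidableEq L) (P : W.Point) :
    (letI := i; -P) = (letI := j; -P) := by
  obtain rfl : i = j := Subsingleton.elim i j
  rfl

theorem insmul (i j : DecidableEq L) (n : ℕ) (P : W.Point) :
    (letI := i; n • P) = (letI := j; n • P) := by
  obtain rfl : i = j := Subsingleton.elim i j
  rfl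

theorem izsmul (i j : DecidableEq L) (n : ℤ) (P : W.Point) :
    (letI := i; n • P) = (letI := j; n • P) := by
  obtain rfl : i = j := Subsingleton.elim i j
  rfl

theorem izm (i j : DecidableEq L) (P Q : W.Point) :
    (letI := i; P ∈ AddSubgroup.zmultiples Q) ↔ (letI := j; P ∈ AddSubgroup.zmultiples Q) := by
  obtain rfl : i = j := Subsingleton.elim i j
  exact Iff.rfl

theorem iord (i j : DecidableEq L) (P : W.Point) :
    (letI := i; addOrderOf P) = (letI := j; addOrderOf P) := by
  obtain rfl : i = j := Subsingleton.elim i j
  rfl

end DecI

end Pool.Agent.MP72W
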