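import Pool.Agent.Lib.MP_72e2e6_nt.W2.D.EqNx
import Pool.Agent.Lib.MP_72e2e6_nt.W2.D.DecI

/-!
# MP_72e2e6_nt, T3, part D: the elements `w p` are admissible (helper71)
-/

namespace Pool.Agent.MP72W

open Polynomial IntermediateField WeierstrassCurve

open scoped Classical

private theorem AdF_gen {K C L : Type} [Field K] [CharP K 2] [Field C] [Field L] [Algebra K C]
    [Algebra K L] [Algebra C L] [IsScalarTower K C L] (hMap : S_Map) (hFVn : S_FVn)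
    (D γ : K) (hγ : γ ≠ 0) (k : ℕ)
    (R' : Pt D γ k L) (hR' : IsR D γ k R')
    (w' : Pt D γ k L → L) (hw' : IsWt D γ k R' w') (X : Pt D γ k L)
    (q : Pt D γ 0 L) (hinf : Infinite (Pt D γ 0 C))
    (hfix : ∃ P₀ : Pt D γ k C, pmap (EE D γ k) (Algebra.ofId C L) P₀ = X - Fn D γ k q)
    (good : L → Prop)
    (hgood : ∀ P' : Pt D γ k L, (∃ P₀ : Pt D γ k C,
      pmap (EE D γ k) (Algebra.ofId C L) P₀ = P') → P' ∉ AddSubgroup.zmultiples R' →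
        good (Wf k R' P')) :
    ∃ r, good r ∧ r ≠ 0 ∧ EqN (2 ^ k) (w' X) r := by
  obtain ⟨P₀, hP₀⟩ := hfix
  obtain ⟨-, -, -, -, hmp⟩ := hMap K D γ hγ k C
  obtain ⟨hc1, hinj, hpxy⟩ := hmp C L (Algebra.ofId C L)
  obtain ⟨f1, f2, f3, f4, f5, f6, f7, f8, f9, f10⟩ := hFVn K D γ hγ C
  have hFs := (hFVn K D γ hγ L).2.2.2.2.2.2.2.1
  have hfin : ((AddSubgroup.zmultiples R' : AddSubgroup (Pt D γ k L)) :
      Set (Pt D γ k L)).Finite := by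
    rw [finite_zmultiples, ← addOrderOf_pos_iff, (hFs k R' hR').1]
    positivity
  have hpre : {q₀ : Pt D γ 0 C |
      pmap (EE D γ k) (Algebra.ofId C L) (P₀ + Fn D γ k q₀) ∈
        AddSubgroup.zmultiples R'}.Finite := by
    refine Set.Finite.preimage (f := fun q₀ =>
      pmap (EE D γ k) (Algebra.ofId C L) (P₀ + Fn D γ k q₀)) ?_ hfin
    intro q₁ _ q₂ _ h
    exact f5 k _ _ (add_left_cancel (hinj h))
  obtain ⟨q₀, hq₀⟩ := hpre.exists_notMem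
  obtain ⟨P', hP'⟩ : ∃ P', P' = pmap (EE D γ k) (Algebra.ofId C L)
      (P₀ + Fn D γ k q₀) := ⟨_, rfl⟩
  have hP'n : P' ∉ AddSubgroup.zmultiples R' := by rw [hP']; exact hq₀
  have e1 : EqN (2 ^ k) (w' X) (w' (X - Fn D γ k q)) := by
    have g1 := hw'.add (X - Fn D γ k q) (Fn D γ k q)
    rw [sub_add_cancel] at g1
    have g2 : EqN (2 ^ k) (w' (Fn D γ k q)) 1 := (hw'.ker _).2 ⟨q, rfl⟩
    have g3 := EqNx.mul (EqNx.refl (N := 2 ^ k) (w' (X - Fn D γ k q))) g2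
    rw [mul_one] at g3
    exact EqNx.trans g1 g3
  have e2 : EqN (2 ^ k) (w' P') (w' (X - Fn D γ k q)) := by
    rw [hP', map_add, hP₀, (f6 k C L (Algebra.ofId C L)).1]
    have g1 := hw'.add (X - Fn D γ k q)
      (Fn D γ k (pmap (EE D γ 0) (Algebra.ofId C L) q₀))
    have g2 : EqN (2 ^ k) (w' (Fn D γ k
        (pmap (EE D γ 0) (Algebra.ofId C L) q₀))) 1 := (hw'.ker _).2 ⟨_, rfl⟩
    have g3 := EqNx.mul (EqNx.refl (N := 2 ^ k) (w' (X - Fn D γ k q))) g2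
    rw [mul_one] at g3
    exact EqNx.trans g1 g3
  have e3 := hw'.gen P' hP'n
  exact ⟨Wf k R' P', hgood P' ⟨_, hP'.symm⟩ hP'n, EqNx.ne (EqNx.symm e3) (hw'.ne _),
    EqNx.trans e1 (EqNx.trans (EqNx.symm e2) e3)⟩

private theorem AdF_step {F : Type} [Field F] [Finite F] [CharP F 2] [CharP (RatFunc F) 2]
    (hMap : S_Map) (hFVn : S_FVn) (hWun : S_Wun) (hKpt : S_Kpt)
    (v : AbsoluteValue (RatFunc F) ℝ) (d : ℕ) (ϖ : RatFunc F) (R₀ : Finset (RatFunc F))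
    (hLF : LF v d ϖ R₀) (D γ : RatFunc F) (hγ : γ ≠ 0) (hD : v D ≤ 1) (hγ1 : v γ = 1) (k : ℕ)
    (R' : Pt D γ k (Kvs v)) (hR' : IsR D γ k R') (hC : CIn R' (Knr v : Set (Kvs v)))
    (w' : Pt D γ k (Kvs v) → Kvs v) (hw' : IsWt D γ k R' w') (X : Pt D γ k (Kvs v))
    (q : Pt D γ 0 (Kvs v)) (hq : ∀ g : Gal(Kvs v/v.Completion),
      pmap (EE D γ k) (g : Kvs v →ₐ[v.Completion] Kvs v) (X - Fn D γ k q) = X - Fn D γ k q) :
    ∃ r ∈ Knr v, r ≠ 0 ∧ EqN (2 ^ k) (w' X) r ∧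
        ∃ x : ℤ, nm v r = v ϖ ^ x ∧ (2 ^ k : ℤ) ∣ x := by
  obtain ⟨hinf, hfix⟩ := hKpt F v d ϖ R₀ hLF D γ hγ
  obtain ⟨P₀, hP₀⟩ := hfix k _ hq
  obtain ⟨-, -, -, -, hmp⟩ := hMap (RatFunc F) D γ hγ k v.Completion
  obtain ⟨hc1, hinj, hpxy⟩ := hmp v.Completion (Kvs v) (Algebra.ofId v.Completion (Kvs v))
  obtain ⟨r, ⟨h1, h2⟩, h3, h4⟩ := AdF_gen (C := v.Completion) hMap hFVn D γ hγ k R' hR' w' hw' X q
    hinf ⟨P₀, hP₀.trans (DecI.isub _ _ _ _)⟩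
    (fun r => r ∈ Knr v ∧ ∃ x : ℤ, nm v r = v ϖ ^ x ∧ (2 ^ k : ℤ) ∣ x) (by
      rintro P' ⟨P₁, rfl⟩ hn
      refine hWun F v d ϖ R₀ hLF D γ hD hγ1 k R' hR' hC _ ⟨?_, ?_⟩ ?_
      · rw [(hpxy _).1]
        exact (Knr v).algebraMap_mem _
      · rw [(hpxy _).2]
        exact (Knr v).algebraMap_mem _
      · exact fun h => hn ((DecI.izm _ _ _ _).1 h))
  exact ⟨r, h1, h3, h4, h2⟩

theorem tAdF (hAv : S_Av) (hLfP : S_LfP) (hLc1 : S_Lc1) (_hLc2 : S_Lc2) (_hNr : S_Nr)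
    (hAsr : S_Asr) (hSep : S_Sep) (_hRgo : S_Rgo) (_hExp : S_Exp) (hOnr : S_Onr) (_hPts : S_Pts)
    (hMap : S_Map) (hFVn : S_FVn) (_hWRa : S_WRa) (_hWmp : S_Wmp) (_hInf : S_Inf) (hWt : S_Wt)
    (hWtc : S_Wtc) (hWun : S_Wun) (hKpt : S_Kpt) : S_AdF := by
  intro F _ _ _ PP hPP D γ hD hγA hγiA hγ k R hR hRC χ hχ w hw p hp
  have hc : CharP (RatFunc F) 2 :=
    charP_of_injective_algebraMap (algebraMap F (RatFunc F)).injective 2
  have hinfK : Infinite (RatFunc F) :=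
    Infinite.of_injective _ (IsFractionRing.injective F[X] (RatFunc F))
  have hascK : ASC (Kgs F) := (hSep (RatFunc F)).2.1
  have hinfG : Infinite (Kgs F) :=
    Infinite.of_injective _ (algebraMap (RatFunc F) (Kgs F)).injective
  refine ⟨hw.ne p, ?_, ?_⟩
  · intro σ
    obtain ⟨q, hq⟩ := hp.1 σ
    have hq' := hq.trans (DecI.iadd _ (fun a b => Classical.propDecidable (a = b)) _ _)
    have e1 := hWtc (RatFunc F) D γ hγ (Kgs F) hascK hinfG k R hR w hw (RatFunc F) (Kgs F)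
      (σ : Kgs F →ₐ[RatFunc F] Kgs F) R hR w hw _ ((hχ σ).trans (DecI.insmul _ _ _ _)) p
    rw [hq'] at e1
    have g1 := hw.add p (Fn D γ k q)
    have g2 : EqN (2 ^ k) (w (Fn D γ k q)) 1 := (hw.ker _).2 ⟨q, rfl⟩
    have g3 := EqNx.mul (EqNx.refl (N := 2 ^ k) (w p)) g2
    rw [mul_one] at g3
    exact EqNx.trans e1 (EqNx.pow (EqNx.trans g1 g3) _)
  · intro P hPm hPi hPP' v hv ι
    have hnt : v.IsNontrivial := (hAv F).2.2 _ v hv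
    obtain ⟨R₀, hLF⟩ := hLfP F P v hv
    obtain ⟨-, -, -, has4, -⟩ := hAsr F 0 PP hPP
    have hvD : v D ≤ 1 := has4 D hD P v hPP' hv
    have hvγ : v γ = 1 := by
      have h1 : v γ ≤ 1 := has4 γ hγA P v hPP' hv
      have h2 : v γ⁻¹ ≤ 1 := has4 _ hγiA P v hPP' hv
      have h3 : v γ * v γ⁻¹ = 1 := by rw [← map_mul, mul_inv_cancel₀ hγ, map_one]
      have h4 : 0 ≤ v γ := v.nonneg γ
      nlinarith
    have hcC : CharP v.Completion 2 := (hLc1 F v _ _ R₀ hLF).2.2.2.2.2.2.1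
    have hascL : ASC (Kvs v) := (hSep v.Completion).2.1
    have hinfL : Infinite (Kvs v) :=
      Infinite.of_injective _ (algebraMap (RatFunc F) (Kvs v)).injective
    obtain ⟨-, -, -, -, hmp⟩ := hMap (RatFunc F) D γ hγ k (Kgs F)
    obtain ⟨-, -, hpxy⟩ := hmp (RatFunc F) (Kvs v) ι
    have hR' : IsR D γ k (pmap (EE D γ k) ι R) :=
      (hFVn (RatFunc F) D γ hγ (Kgs F)).2.2.2.2.2.2.2.2.2 k R (RatFunc F) (Kvs v) ι hR
    have hO := (hOnr F PP hPP P v hPP' hv ι).1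
    have hRC' : CIn (pmap (EE D γ k) ι R) (Knr v : Set (Kvs v)) := by
      constructor
      · rw [(hpxy _).1]
        exact hO _ hRC.1
      · rw [(hpxy _).2]
        exact hO _ hRC.2
    obtain ⟨w', hw'⟩ := hWt (RatFunc F) D γ hγ (Kvs v) hascL hinfL k _ hR'
    have e1 := hWtc (RatFunc F) D γ hγ (Kgs F) hascK hinfG k R hR w hw (RatFunc F) (Kvs v)
      ι _ hR' w' hw' 1 ((one_nsmul (pmap (EE D γ k) ι R)).symm.trans (DecI.insmul _ _ _ _)) p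
    rw [pow_one] at e1
    obtain ⟨q, hq⟩ := hp.2 v hnt ι
    obtain ⟨r, hr1, hr2, hr3, hr4⟩ := AdF_step hMap hFVn hWun hKpt v _ _ R₀ hLF D γ
      hγ hvD hvγ k _ hR' hRC' w' hw' (pmap (EE D γ k) ι p) q hq
    exact ⟨r, hr1, hr2, EqNx.trans e1 hr3, hr4⟩

end Pool.Agent.MP72W
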