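import Pool.Agent.Lib.MP_72e2e6_nt.W2.D.Spec

/-!
# MP_72e2e6_nt, theorem T3, part D: module Dif (the `x`-coordinates of `P + Q` and `P - Q`)
-/

namespace Pool.Agent.MP72W

open Polynomial IntermediateField WeierstrassCurve

open scoped Classical

theorem tDif (hPts : S_Pts) : S_Dif := by
  intro L _ _ W hW P Q hP hQ hne
  obtain ⟨p1, p2, -, -, p5, p6, -, -, -, p10⟩ := hPts L W hW
  obtain ⟨x, y, hPxy⟩ := (p1 P).resolve_left hP
  obtain ⟨x', y', hQxy⟩ := (p1 Q).resolve_left hQ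
  obtain ⟨-, hpx, hpy, e1⟩ := p2 P x y hPxy
  obtain ⟨-, hqx, hqy, e2⟩ := p2 Q x' y' hQxy
  have hQ' := p5 Q x' y' hQxy
  obtain ⟨hQ'0, hq'x, hq'y, -⟩ := p2 (-Q) x' (x' + y') hQ'
  rw [hpx, hqx] at hne ⊢
  have hs : x + x' ≠ 0 := by
    intro h
    apply hne
    rw [← CharTwo.add_eq_zero]
    exact h
  have h1 : P + Q ≠ 0 := by
    intro h
    have h3 : P = -Q := eq_neg_of_add_eq_zero_left h
    rw [h3, hq'x] at hpx
    exact hne hpx.symm
  have h2 : P + -Q ≠ 0 := by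
    intro h
    have h3 : P = - -Q := eq_neg_of_add_eq_zero_left h
    rw [neg_neg] at h3
    rw [h3, hqx] at hpx
    exact hne hpx.symm
  have a1 := (p10 P Q hP hQ h1).1
  have a2 := (p10 P (-Q) hP hQ'0 h2).1
  rw [p6 P Q x y x' y' hPxy hQxy hne, hpx, hqx] at a1
  rw [p6 P (-Q) x y x' (x' + y') hPxy hQ' hne, hpx, hq'x] at a2
  rw [sub_eq_add_neg, a1, a2]
  have c2 : (2 : L) = 0 := CharTwo.two_eq_zero
  set X₁ := ((y + y') / (x + x')) ^ 2 + (y + y') / (x + x') + W.a₂ + x + x' with hX₁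
  set X₂ := ((y + (x' + y')) / (x + x')) ^ 2 + (y + (x' + y')) / (x + x') + W.a₂ + x + x' with hX₂
  have n1 : X₁ * (x + x') ^ 2 = x' * y + x * y' + x * x' * (x + x') := by
    have e3 : X₁ * (x + x') ^ 2 = (y + y') ^ 2 + (y + y') * (x + x') +
        (W.a₂ + x + x') * (x + x') ^ 2 := by
      rw [hX₁]; field_simp; ring
    rw [e3]
    linear_combination (norm := (ring_nf; reduce_mod_char!)) e1 + e2
  have n2 : X₂ * (x + x') ^ 2 = x' * y + x * y' + x * x' * (x + x') + x * x' := by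
    have e3 : X₂ * (x + x') ^ 2 = (y + (x' + y')) ^ 2 + (y + (x' + y')) * (x + x') +
        (W.a₂ + x + x') * (x + x') ^ 2 := by
      rw [hX₂]; field_simp; ring
    rw [e3]
    linear_combination (norm := (ring_nf; reduce_mod_char!)) e1 + e2
  refine ⟨?_, ?_⟩
  · rw [add_mul, n1, n2]
    ring_nf; reduce_mod_char!
  · have hs2 : (x + x') ^ 2 ≠ 0 := pow_ne_zero _ hs
    apply mul_right_cancel₀ hs2
    have n3 : X₁ * X₂ * (x + x') ^ 2 * (x + x') ^ 2 = (X₁ * (x + x') ^ 2) * (X₂ * (x + x') ^ 2) := by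
      ring
    rw [n3, n1, n2]
    linear_combination (norm := (ring_nf; reduce_mod_char!)) x' ^ 2 * e1 + x ^ 2 * e2

end Pool.Agent.MP72W
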