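import Pool.Agent.Lib.MP_72e2e6_nt.W2.D.Spec

/-!
# MP_72e2e6_nt, theorem T3, part D: E2, the main identity
-/

set_option autoImplicit false

namespace Pool.Agent.MP72W

open Polynomial IntermediateField WeierstrassCurve

open scoped Classical

private theorem E2_cong {G : Type*} [AddCommGroup G] {H : AddSubgroup G} {z : G} (hz : z ∉ H)
    (u h : G) (hh : h ∈ H) (e : u = z + h) : u ∉ H := by
  intro hu
  apply hz
  rw [e] at hu
  exact (H.add_mem_cancel_right hh).1 hu

theorem tE2 : S_Pts → S_Fco → S_Exc → S_Nz → S_E2 := by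
  intro hPts hFco hExc hNz L _ _ W hW H c d R hG hR
  obtain ⟨p1, p2, -, -, p5, -, p7, p8, p9, -⟩ := hPts L W hW
  obtain ⟨-, f2⟩ := hFco L W hW
  obtain ⟨-, x2, x3⟩ := hExc L W hW
  obtain ⟨z1, -, -⟩ := hNz L W hW
  obtain ⟨hc, hd, hs, hm⟩ := hG
  have hx0 : ∀ x y : L, x + y = 0 ↔ x = y := fun x y => CharTwo.add_eq_zero
  have hnpx : ∀ P : W.Point, px (-P) = px P := by
    intro P
    rcases p1 P with h | ⟨x, y, h⟩
    · rw [h, neg_zero]
    · rw [(p2 _ _ _ (p5 _ _ _ h)).2.1, (p2 _ _ _ h).2.1]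
  by_cases hR0 : R = 0
  · have e1 : ∀ T : W.Point, fv (0 : W.Point) 0 T = 1 := by
      intro T
      simp [fv, nv, dv]
    have e2 : Av c d (0 : W.Point) = 1 := by simp [Av]
    rw [hR0, add_zero, e1, e1, e1, e2]
    norm_num
  -- the order of `R`
  have H0 : (0 : W.Point) ∈ H := H.zero_mem
  have ne0 : ∀ {u : W.Point}, u ∉ H → u ≠ 0 := fun {u} hu h => hu (h ▸ H0)
  have pxH : ∀ {u w : W.Point}, u ∈ H → u ≠ 0 → w ∉ H → px u ≠ px w := by
    intro u w hu hu0 hw h
    rcases p9 u w hu0 (ne0 hw) h with e | e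
    · exact hw (e ▸ hu)
    · exact hw (e ▸ H.neg_mem hu)
  have pxO : ∀ {u w : W.Point}, u ∉ H → w ∉ H → w - u ∉ H → w + u ∉ H → px u ≠ px w := by
    intro u w hu hw h1 h2 h
    rcases p9 u w (ne0 hu) (ne0 hw) h with e | e
    · apply h1
      rw [e, sub_self]
      exact H0
    · apply h2
      rw [e, neg_add_cancel]
      exact H0
  have hdv : ∀ {A B T : W.Point}, px T ≠ px (A + B) → dv A B T ≠ 0 := by
    intro A B T h
    unfold dv
    split_ifs with h1
    · exact one_ne_zero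
    · rw [Ne, hx0]
      exact h
  have nc : -c ∉ H := fun h => hc (H.neg_mem_iff.1 h)
  have nd : -d ∉ H := fun h => hd (H.neg_mem_iff.1 h)
  have ns : -c + -d ∉ H := fun h => hs (by
    have := H.neg_mem h
    rwa [neg_add, neg_neg, neg_neg] at this)
  have nR : -R ∈ H := H.neg_mem hR
  have nR0 : -R ≠ 0 := neg_ne_zero.2 hR0
  have RR : R + R ∈ H := H.add_mem hR hR
  by_cases hRR : R + R = 0
  · have hpR : px R = 0 := by
      rcases p1 R with h | ⟨x, y, h⟩
      · exact absurd h hR0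
      · rw [(p2 _ _ _ h).2.1]
        by_contra hx
        exact (p2 _ _ _ (p7 _ _ _ h hx).2).1 hRR
    have hnR : -R = R := neg_eq_of_add_eq_zero_left hRR
    have e1 : ∀ T : W.Point, fv R R T = px T := by
      intro T
      unfold fv nv dv
      rw [if_neg (by simp [hR0]), if_pos hRR, if_pos (by simp [hRR]), hpR, add_zero, div_one]
    have e2 : Av c d (0 : W.Point) = 1 := by simp [Av]
    rw [hRR, e1, e1, e1, e2, mul_one]
    have e3 : Av c d R = nv (-c) (-d) R / px (c + d) := by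
      have e4 : ¬ (-c = 0 ∨ -d = 0 ∨ -c + -d = 0) := by
        rintro (h | h | h)
        · exact ne0 nc h
        · exact ne0 nd h
        · exact ne0 ns h
      unfold Av
      rw [if_neg hR0, hnR]
      unfold fv
      congr 1
      unfold dv
      rw [if_neg e4, hpR, zero_add, ← neg_add, hnpx]
    have e5 := z1 (-c) (-d) R (ne0 nc) (ne0 nd) (ne0 ns) hR0
    rw [hnR, hpR, zero_add, zero_add, zero_add, hnpx, hnpx, ← neg_add, hnpx] at e5
    have e6 : px (c + d) ≠ 0 := by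
      intro h
      exact pxH hR hR0 hs (by rw [hpR, h])
    rw [e3, div_pow, sq (nv (-c) (-d) R), e5]
    field_simp
  -- the main case
  have X : ∀ P Q T : W.Point, fv P Q T = fv Q P T := fun P Q T => (x3 P Q T).1
  have n1 : R + -c ∉ H := E2_cong nc _ R hR (by abel)
  have n1' : -c + R ∉ H := E2_cong nc _ R hR (by abel)
  have n2 : R + -c + -d ∉ H := E2_cong ns _ R hR (by abel)
  have n2' : R + (-c + -d) ∉ H := E2_cong ns _ R hR (by abel)
  have n2'' : -c + -d + R ∉ H := E2_cong ns _ R hR (by abel)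
  have n2''' : -d + (R + -c) ∉ H := E2_cong ns _ R hR (by abel)
  have n3 : R + -c + R ∉ H := E2_cong nc _ (R + R) RR (by abel)
  have n3' : R + R + -c ∉ H := E2_cong nc _ (R + R) RR (by abel)
  have n3'' : -c + (R + R) ∉ H := E2_cong nc _ (R + R) RR (by abel)
  have n3''' : R + (R + -c) ∉ H := E2_cong nc _ (R + R) RR (by abel)
  have ns' : -d + -c ∉ H := E2_cong ns _ 0 H0 (by abel)
  have nm : -c + d ∉ H := fun h => hm (by
    have := H.neg_mem h
    rwa [show -(-c + d) = c - d by abel] at this)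
  have nm' : -c - d ∉ H := E2_cong ns _ 0 H0 (by abel)
  -- (i)
  have i1 := f2 R (-c) (-d) (-R) nR0 (hdv (pxH nR nR0 n1)) (hdv (pxH nR nR0 n2))
    (hdv (pxH nR nR0 ns)) (hdv (pxH nR nR0 n2'))
  -- (ii)
  have i2 : fv R (-c) (-R) = fv R R c := by
    rw [X, x2 (-c) R R (ne0 nc) hR0 hR0 (ne0 n1') hRR (pxH hR hR0 n1') (pxH RR hRR nc).symm,
      neg_neg]
  have i2' : fv R (-c + -d) (-R) = fv R R (c + d) := by
    rw [X, x2 (-c + -d) R R (ne0 ns) hR0 hR0 (ne0 n2'') hRR (pxH hR hR0 n2'')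
      (pxH RR hRR ns).symm]
    congr 1
    abel
  -- (iii)
  have i3 : fv (R + -c) (-d) (-R) = fv R (R + -c) d := by
    rw [X, x2 (-d) (R + -c) R (ne0 nd) (ne0 n1) hR0 (ne0 n2''') (ne0 n3) (pxH hR hR0 n2''')
      (pxO nd n3 (E2_cong nm _ (R + R) RR (by abel)) (E2_cong nm' _ (R + R) RR (by abel))),
      neg_neg, X]
  -- (iv)
  have i4 := f2 R R (-c) d (ne0 hd) (hdv (pxH RR hRR hd).symm)
    (hdv (pxO hd n3' (E2_cong nm' _ (R + R) RR (by abel)) (E2_cong nm _ (R + R) RR (by abel))))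
    (hdv (pxO hd n1 (E2_cong nm' _ R hR (by abel)) (E2_cong nm _ R hR (by abel))))
    (hdv (pxO hd n3''' (E2_cong nm' _ (R + R) RR (by abel)) (E2_cong nm _ (R + R) RR (by abel))))
  -- (v)
  have i5 : fv (R + R) (-c) d = Av c d (R + R) := by
    unfold Av
    rw [if_neg hRR, X (-c) (-d), x2 (-d) (-c) (R + R) (ne0 nd) (ne0 nc) hRR (ne0 ns') (ne0 n3'')
      (pxH RR hRR ns') (pxO nd n3'' (E2_cong nm _ (R + R) RR (by abel))
        (E2_cong nm' _ (R + R) RR (by abel))), neg_neg, X]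
  have i5' : fv R (-c) d = Av c d R := by
    unfold Av
    rw [if_neg hR0, X (-c) (-d), x2 (-d) (-c) R (ne0 nd) (ne0 nc) hR0 (ne0 ns') (ne0 n1')
      (pxH hR hR0 ns') (pxO nd n1' (E2_cong nm _ R hR (by abel))
        (E2_cong nm' _ R hR (by abel))), neg_neg, X]
  have i6 : fv (-c) (-d) (-R) = Av c d R := by
    unfold Av
    rw [if_neg hR0]
  rw [i2, i2', i3, i6] at i1
  rw [i5, i5'] at i4
  calc fv R R c * fv R R d * Av c d (R + R) = fv R R c * (fv R R d * Av c d (R + R)) := by ring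
    _ = fv R R c * fv R (R + -c) d * Av c d R := by rw [i4]; ring
    _ = fv R R (c + d) * Av c d R ^ 2 := by rw [i1]; ring

end Pool.Agent.MP72W
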