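import Pool.Agent.Lib.MP_72e2e6_nt.W2.D.Spec

/-!
# MP_72e2e6_nt, theorem T3, part D: the exchange formula
-/

namespace Pool.Agent.MP72W

open Polynomial IntermediateField WeierstrassCurve

open scoped Classical

theorem tExc (h1 : S_Pts) (h2 : S_Slc) : S_Exc := by
  intro L _ _ W hE
  obtain ⟨p1, p2, -, -, p5, -, -, -, p9, p10⟩ := h1 L W hE
  have two : (2 : L) = 0 := CharTwo.two_eq_zero
  have hneg : ∀ P : W.Point, P ≠ 0 → -P ≠ 0 ∧ px (-P) = px P ∧ py (-P) = px P + py P := by
    intro P hP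
    rcases p1 P with h | ⟨x, y, h⟩
    · exact absurd h hP
    · have a := p2 P x y h
      have b := p2 (-P) x (x + y) (p5 P x y h)
      exact ⟨b.1, by rw [b.2.1, a.2.1], by rw [b.2.2.1, a.2.1, a.2.2.1]⟩
  have hI : ∀ P Q S : W.Point, P ≠ 0 → Q ≠ 0 → S ≠ 0 → P + Q ≠ 0 → px S ≠ px (P + Q) →
      fv P Q (-S) = 1 + sl P Q + sl (P + Q) S := by
    intro P Q S hP hQ hS hPQ hx
    obtain ⟨-, e2, -, -⟩ := p10 P Q hP hQ hPQ
    obtain ⟨-, n2, n3⟩ := hneg S hS
    have hd : px S + px (P + Q) ≠ 0 := by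
      intro h
      exact hx (CharTwo.add_eq_zero.mp h)
    have hs : sl (P + Q) S = (py (P + Q) + py S) / (px (P + Q) + px S) := by
      unfold sl
      rw [Affine.slope_of_X_ne (Ne.symm hx), CharTwo.sub_eq_add, CharTwo.sub_eq_add]
    have hd' : px (P + Q) + px S ≠ 0 := by rwa [add_comm]
    unfold fv nv dv
    rw [if_neg (by tauto), if_neg hPQ, if_neg (by tauto), n2, n3, hs, e2]
    rw [div_eq_iff hd, add_mul, add_mul, add_comm (px (P + Q)) (px S), div_mul_cancel₀ _ hd]
    linear_combination (-px (P + Q) - sl P Q * px (P + Q)) * two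
  refine ⟨hI, ?_, ?_⟩
  · intro P Q S hP hQ hS hPQ hQS hx hx'
    have h0 : P + Q + S ≠ 0 := by
      intro h
      have : P + Q = -S := eq_neg_of_add_eq_zero_left h
      apply hx
      rw [this, (hneg S hS).2.1]
    have h0' : P + (Q + S) ≠ 0 := by rwa [← add_assoc]
    rw [hI P Q S hP hQ hS hPQ hx, hI Q S P hQ hS hP hQS hx']
    have h := h2 L W hE P Q S hP hQ hS hPQ hQS h0
    rw [(p10 P (Q + S) hP hQS h0').2.2.1] at h
    linear_combination h
  · intro P Q T
    have hnv : nv P Q T = nv Q P T := by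
      unfold nv
      by_cases h : P = 0 ∨ Q = 0
      · rw [if_pos h, if_pos h.symm]
      · have hs : ¬(Q = 0 ∨ P = 0) := fun hh => h hh.symm
        have hP : P ≠ 0 := fun hh => h (Or.inl hh)
        have hQ : Q ≠ 0 := fun hh => h (Or.inr hh)
        rw [if_neg h, if_neg hs]
        by_cases h' : P + Q = 0
        · have hh : Q + P = 0 := by rwa [add_comm] at h'
          rw [if_pos h', if_pos hh]
          have hQP : Q = -P := eq_neg_of_add_eq_zero_right h'
          rw [hQP, (hneg P hP).2.1]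
        · have hh : ¬(Q + P = 0) := by rwa [add_comm] at h'
          rw [if_neg h', if_neg hh]
          obtain ⟨-, -, e3, e4⟩ := p10 P Q hP hQ h'
          rw [← e3]
          linear_combination -e4 + (py P + sl P Q * px P) * two
    have hdv : dv P Q T = dv Q P T := by
      unfold dv
      rw [add_comm P Q]
      by_cases h : P = 0 ∨ Q = 0 ∨ Q + P = 0
      · rw [if_pos h, if_pos (by tauto)]
      · rw [if_neg h, if_neg (by tauto)]
    exact ⟨by unfold fv; rw [hnv, hdv], hnv, hdv⟩

end Pool.Agent.MP72W
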