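import Pool.Agent.Lib.MP_72e2e6_nt.W2.D.Spec

/-!
# MP_72e2e6_nt, theorem T3, part D: module FS (the count on the side of `F`)
-/

namespace Pool.Agent.MP72W

open Polynomial IntermediateField WeierstrassCurve

open scoped Classical

namespace FS

private theorem eqN_symm {N : ℕ} {L : Type} [Field L] {a b : L} (h : EqN N a b) : EqN N b a := by
  obtain ⟨s, hs, h⟩ := h
  refine ⟨s⁻¹, inv_ne_zero hs, ?_⟩
  rw [h, mul_assoc, ← mul_pow, mul_inv_cancel₀ hs, one_pow, mul_one]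

private theorem eqN_trans {N : ℕ} {L : Type} [Field L] {a b c : L} (h : EqN N a b)
    (h' : EqN N b c) : EqN N a c := by
  obtain ⟨s, hs, h⟩ := h
  obtain ⟨t, ht, h'⟩ := h'
  exact ⟨t * s, mul_ne_zero ht hs, by rw [h, h', mul_pow, mul_assoc]⟩

private theorem eqN_cancel {N : ℕ} {L : Type} [Field L] {a b c : L} (hc : c ≠ 0)
    (h : EqN N (a * c) (b * c)) : EqN N a b := by
  obtain ⟨s, hs, h⟩ := h
  refine ⟨s, hs, mul_right_cancel₀ hc ?_⟩
  rw [h]; ring

end FS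

attribute [-instance] Subtype.instDecidableEq in
open FS in
theorem tFS (hSep : S_Sep) (hPts : S_Pts) (hMap : S_Map) (hFVn : S_FVn) (hInf : S_Inf)
    (hWt : S_Wt) (hTq : S_Tq) (hTom : S_Tom) (hAdF : S_AdF) (hIsF : S_IsF) (hFCn : S_FCn) :
    S_FS := by
  clear hPts hMap hInf
  intro F _ _ _ κ hκ PP hPP A hA g₀ hg₀ D β hD hβ hβi hβ0 k Q hQ χ hχ hQχ n p hp hpp
  have hde : (fun a b : Kgs F => Subtype.instDecidableEq a b) =
      fun a b => Classical.propDecidable (a = b) := Subsingleton.elim _ _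
  rw [hde] at hQχ hpp
  have hc2 : CharP (RatFunc F) 2 :=
    charP_of_injective_algebraMap (algebraMap F (RatFunc F)).injective 2
  have : Infinite (RatFunc F) :=
    Infinite.of_injective (algebraMap F[X] (RatFunc F)) (IsFractionRing.injective F[X] (RatFunc F))
  have hinf : Infinite (Kgs F) :=
    Infinite.of_injective (algebraMap (RatFunc F) (Kgs F)) (algebraMap (RatFunc F) (Kgs F)).injective
  have hasc : ASC (Kgs F) := (hSep (RatFunc F)).2.1
  have hβ20 : β ^ 2 ≠ 0 := pow_ne_zero _ hβ0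
  have hR : IsR D (β ^ 2) k (Q + Q) := ((hTq (RatFunc F) D β hβ0 (Kgs F) k).1 Q hQ).1
  obtain ⟨w, hw⟩ := hWt (RatFunc F) D (β ^ 2) hβ20 (Kgs F) hasc hinf k (Q + Q) hR
  obtain ⟨-, -, -, -, -, -, -, hFord, -, -⟩ := hFVn (RatFunc F) D (β ^ 2) hβ20 (Kgs F)
  have hord : addOrderOf (Q + Q) = 2 ^ k := (hFord k (Q + Q) hR).1
  have hβ2 : β ^ 2 ∈ AS PP := pow_mem hβ 2
  have hβ2i : (β ^ 2)⁻¹ ∈ AS PP := by
    rw [← inv_pow]
    exact pow_mem hβi 2
  have hCIn : CIn (Q + Q) (Om (AS PP) (RatFunc F) (Kgs F) : Set (Kgs F)) :=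
    (hTom F PP hPP D (β ^ 2) hD hβ2 hβ20 k).2 (Q + Q) hR.1
  have hRχ : ∀ σ : Gal(Kgs F/RatFunc F),
      pmap (EE D (β ^ 2) k) (σ : Kgs F →ₐ[RatFunc F] Kgs F) (Q + Q) =
        (rdK k (χ (rG PP σ))).val • (Q + Q) := by
    intro σ
    rw [map_add, hQχ σ, ← nsmul_add]
    have e1 : (rdK k (χ (rG PP σ))).val = (χ (rG PP σ)).val % 2 ^ k := by
      conv_lhs => rw [← ZMod.natCast_zmod_val (χ (rG PP σ))]
      rw [rdK, map_natCast, ZMod.val_natCast]
    rw [e1]
    have e2 := mod_addOrderOf_nsmul (Q + Q) (χ (rG PP σ)).val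
    rw [hord] at e2
    exact e2.symm
  have hAdF' := hAdF F PP hPP D (β ^ 2) hD hβ2 hβ2i hβ20 k (Q + Q) hR hCIn
    (fun g => rdK k (χ g))
  rw [hde] at hAdF'
  have hAdm : ∀ i, Adm PP k (fun g => rdK k (χ g)) (w (p i)) := fun i =>
    hAdF' hRχ w hw (p i) (hp i)
  have hIsF' := hIsF F κ PP hPP A hA g₀ hg₀ D β hD hβ hβ0 k Q hQ χ hχ
  rw [hde] at hIsF'
  have hIso : ∀ i, Iso A g₀ k χ (w (p i)) := fun i =>
    hIsF' hQχ w hw (p i) (hp i)
  have hinj : ∀ i j, EqN (2 ^ k) (w (p i)) (w (p j)) → i = j := by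
    intro i j h
    by_contra hij
    apply hpp i j hij
    rw [← hw.ker]
    have e1 := hw.add (p i - p j) (p j)
    rw [sub_add_cancel] at e1
    have e2 : EqN (2 ^ k) (w (p i - p j) * w (p j)) (1 * w (p j)) := by
      rw [one_mul]
      exact eqN_trans (eqN_symm e1) h
    exact eqN_cancel (hw.ne _) e2
  have hi : Function.Injective fun i => w (p i) := by
    intro i j h
    apply hinj i j
    exact ⟨1, one_ne_zero, by simpa using h⟩
  obtain ⟨-, hcard⟩ := hFCn F κ hκ PP hPP A hA g₀ hg₀ k χ hχ (Set.range fun i => w (p i))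
    (by
      rintro _ ⟨i, rfl⟩
      exact ⟨hAdm i, hIso i⟩)
    (by
      rintro _ ⟨i, rfl⟩ _ ⟨j, rfl⟩ h
      exact congrArg (fun i => w (p i)) (hinj i j h))
  have hn : (Set.range fun i => w (p i)).ncard = n := by
    rw [← Set.image_univ, Set.ncard_image_of_injective _ hi, Set.ncard_univ, Nat.card_fin]
  rw [hn] at hcard
  exact hcard

end Pool.Agent.MP72W
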