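import Pool.Agent.Lib.MP_72e2e6_nt.W2.D.Spec

/-!
# MP_72e2e6_nt, theorem T3, part D: `S_FV`
-/

namespace Pool.Agent.MP72W

open Polynomial IntermediateField WeierstrassCurve

open scoped Classical

private theorem FV_sq_inj {L : Type} [Field L] [CharP L 2] {x y : L} (h : x ^ 2 = y ^ 2) :
    x = y := by
  have h2 : (2 : L) = 0 := CharTwo.two_eq_zero
  have h0 : (x + y) ^ 2 = 0 := by linear_combination h + (y ^ 2 + x * y) * h2
  have h1 : x + y = 0 := pow_eq_zero_iff (two_ne_zero) |>.mp h0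
  linear_combination h1 - y * h2

theorem tFV (h1 : S_Pts) (h2 : S_Map) : S_FV := by
  intro K _ _ D γ hγ j L _ _
  obtain ⟨hE, ha, hb, hch, -⟩ := h2 K D γ hγ j L
  obtain ⟨hE', ha', hb', -, -⟩ := h2 K D γ hγ (j + 1) L
  have := hch
  have h20 : (2 : L) = 0 := CharTwo.two_eq_zero
  obtain ⟨p1, p2, p3, p4, -, -, -, -, -, -⟩ := h1 L _ hE
  obtain ⟨q1, q2, q3, q4, -, -, -, -, -, -⟩ := h1 L _ hE'
  have hb0 : algebraMap K L (γ ^ 2 ^ j) ≠ 0 := by
    rw [Ne, map_eq_zero]; exact pow_ne_zero _ hγ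
  have ea : algebraMap K L (D ^ 2 ^ (j + 1)) = algebraMap K L (D ^ 2 ^ j) ^ 2 := by
    rw [← map_pow, ← pow_mul, pow_succ]
  have eb : algebraMap K L (γ ^ 2 ^ (j + 1)) = algebraMap K L (γ ^ 2 ^ j) ^ 2 := by
    rw [← map_pow, ← pow_mul, pow_succ]
  rw [ha, hb] at p2 p3
  rw [ha', hb', ea, eb] at q2 q3
  generalize hadef : algebraMap K L (D ^ 2 ^ j) = a at *
  generalize hbdef : algebraMap K L (γ ^ 2 ^ j) = b at *
  -- (1)
  have F0 : Fi D γ j (0 : Pt D γ j L) = 0 := by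
    unfold Fi
    rw [dif_neg]
    rintro ⟨Q, h, -⟩
    exact h rfl
  -- (2)
  have F1 : ∀ (P : Pt D γ j L) (x y : L), XY P x y → XY (Fi D γ j P) (x ^ 2) (y ^ 2) := by
    intro P x y hP
    obtain ⟨hP0, hx, hy, he⟩ := p2 P x y hP
    have hq : (y ^ 2) ^ 2 + x ^ 2 * y ^ 2 = (x ^ 2) ^ 3 + a ^ 2 * (x ^ 2) ^ 2 + b ^ 2 := by
      linear_combination (y ^ 2 + x * y + (x ^ 3 + a * x ^ 2 + b)) * he +
        (- x * y ^ 3 + (x ^ 3 * (a * x ^ 2) + x ^ 3 * b + a * x ^ 2 * b)) * h20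
    obtain ⟨Q, hQ⟩ := q3 _ _ hq
    have hex : ∃ Q : Pt D γ (j + 1) L, P ≠ 0 ∧ XY Q (px P ^ 2) (py P ^ 2) :=
      ⟨Q, hP0, by rw [hx, hy]; exact hQ⟩
    unfold Fi
    rw [dif_pos hex]
    have := hex.choose_spec.2
    generalize hex.choose = Z at this ⊢
    rwa [hx, hy] at this
  have V0 : Vi D γ j (0 : Pt D γ (j + 1) L) = 0 := by
    unfold Vi
    rw [dif_neg]
    rintro ⟨Q, h, -⟩
    exact h rfl
  have V1 : ∀ (P : Pt D γ (j + 1) L) (y : L), XY P 0 y → Vi D γ j P = 0 := by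
    intro P y hP
    obtain ⟨hP0, hx, hy, he⟩ := q2 P 0 y hP
    unfold Vi
    rw [dif_neg]
    rintro ⟨Q, -, h, -⟩
    exact h hx
  have V2 : ∀ (P : Pt D γ (j + 1) L) (x y : L), XY P x y → x ≠ 0 →
      XY (Vi D γ j P) (x + b / x) (x + ((y + b) / x + a + 1) * (x + b / x)) := by
    intro P x y hP hx0
    obtain ⟨hP0, hx, hy, he⟩ := q2 P x y hP
    have hc : x * (x + b / x) = x ^ 2 + b := by field_simp
    have hl : x * ((y + b) / x + a) = y + b + a * x := by field_simp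
    have hq : (x + ((y + b) / x + a + 1) * (x + b / x)) ^ 2 +
        (x + b / x) * (x + ((y + b) / x + a + 1) * (x + b / x)) =
        (x + b / x) ^ 3 + a * (x + b / x) ^ 2 + b := by
      generalize x + b / x = c at *
      generalize (y + b) / x + a = l at *
      have key : l ^ 2 + l + a = c := by
        have : x ^ 2 * (l ^ 2 + l + a) = x ^ 2 * c := by
          linear_combination (x * l + (y + b + a * x)) * hl + x * hl - x * hc + he +
            (y * b + y * (a * x) + b * (a * x) + a * x ^ 2 + a ^ 2 * x ^ 2 + b ^ 2 ) * h20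
        exact mul_left_cancel₀ (pow_ne_zero 2 hx0) this
      linear_combination hc + c ^ 2 * key + (x * (l + 1) * c + l * c ^ 2 + c ^ 2 + x ^ 2
         - a * c ^ 2) * h20
    obtain ⟨Q, hQ⟩ := p3 _ _ hq
    have hex : ∃ Q : Pt D γ j L, P ≠ 0 ∧ px P ≠ 0 ∧
        XY Q (px P + algebraMap K L (γ ^ 2 ^ j) / px P)
        (px P + ((py P + algebraMap K L (γ ^ 2 ^ j)) / px P + algebraMap K L (D ^ 2 ^ j) + 1) *
          (px P + algebraMap K L (γ ^ 2 ^ j) / px P)) :=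
      ⟨Q, hP0, by rw [hx]; exact hx0, by rw [hx, hy, hadef, hbdef]; exact hQ⟩
    unfold Vi
    rw [dif_pos hex]
    have := hex.choose_spec.2.2
    generalize hex.choose = Z at this ⊢
    rwa [hx, hy, hadef, hbdef] at this
  refine ⟨F0, F1, ?_, V0, V1, V2, ?_, ?_⟩
  · intro P Q hPQ
    rcases p1 P with rfl | ⟨x, y, hP⟩
    · rcases p1 Q with rfl | ⟨x', y', hQ⟩
      · rfl
      · exact absurd (F0.symm.trans hPQ).symm (q2 _ _ _ (F1 _ _ _ hQ)).1
    · rcases p1 Q with rfl | ⟨x', y', hQ⟩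
      · exact absurd (hPQ.trans F0) (q2 _ _ _ (F1 _ _ _ hP)).1
      · obtain ⟨-, e1, e2, -⟩ := q2 _ _ _ (F1 _ _ _ hP)
        obtain ⟨-, e3, e4, -⟩ := q2 _ _ _ (F1 _ _ _ hQ)
        rw [hPQ] at e1 e2
        have hx : x = x' := FV_sq_inj (e1.symm.trans e3)
        have hy : y = y' := FV_sq_inj (e2.symm.trans e4)
        subst hx hy
        exact p4 _ _ _ _ hP hQ
  · intro P
    rcases q1 P with rfl | ⟨x, y, hP⟩
    · simp only [V0, true_iff]
      rfl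
    · obtain ⟨-, hx, -, -⟩ := q2 _ _ _ hP
      constructor
      · intro h
        by_contra hne
        rw [hx] at hne
        exact (p2 _ _ _ (V2 P x y hP hne)).1 h
      · intro h
        rw [hx] at h
        subst h
        exact V1 P y hP
  · intro P ξ y hξ hP
    obtain ⟨-, hx, -, he⟩ := q2 _ _ _ hP
    have h3 : ξ * ((y + ξ ^ 3 + a * ξ ^ 2 + b) / ξ) = y + ξ ^ 3 + a * ξ ^ 2 + b := by
      field_simp
    generalize (y + ξ ^ 3 + a * ξ ^ 2 + b) / ξ = η at *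
    have h4 : η ^ 2 = y := by
      have : ξ ^ 2 * η ^ 2 = ξ ^ 2 * y := by
        linear_combination (ξ * η + (y + ξ ^ 3 + a * ξ ^ 2 + b)) * h3 + he +
          (y * ξ ^ 3 + y * (a * ξ ^ 2) + y * b + ξ ^ 3 * (a * ξ ^ 2) + ξ ^ 3 * b +
            a * ξ ^ 2 * b + ξ ^ 6 + a ^ 2 * ξ ^ 4 + b ^ 2 - ξ ^ 2 * y) * h20
      exact mul_left_cancel₀ (pow_ne_zero 2 hξ) this
    have h5 : η ^ 2 + ξ * η = ξ ^ 3 + a * ξ ^ 2 + b := by
      linear_combination h3 + h4 + y * h20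
    obtain ⟨P₁, hP₁⟩ := p3 _ _ h5
    refine ⟨P₁, q4 _ _ _ _ hP ?_⟩
    have := F1 _ _ _ hP₁
    rwa [h4] at this

end Pool.Agent.MP72W
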