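import Pool.Agent.Lib.MP_72e2e6_nt.W2.D.Spec

/-!
# MP_72e2e6_nt, theorem T3, part D: `S_FVh`
-/

namespace Pool.Agent.MP72W

open Polynomial IntermediateField WeierstrassCurve

open scoped Classical

theorem tFVh (h1 : S_Pts) (h2 : S_Map) (h3 : S_FV) : S_FVh := by
  intro K _ _ D γ hγ j L _ _
  obtain ⟨hE, ha, hb, hch, hmap⟩ := h2 K D γ hγ j L
  obtain ⟨hE', ha', hb', -, hmap'⟩ := h2 K D γ hγ (j + 1) L
  have := hch
  have h20 : (2 : L) = 0 := CharTwo.two_eq_zero
  obtain ⟨p1, p2, p3, p4, p5, p6, p7, p8, p9, p10⟩ := h1 L _ hE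
  obtain ⟨q1, q2, q3, q4, q5, q6, q7, q8, q9, q10⟩ := h1 L _ hE'
  obtain ⟨F0, F1, F2, V0, V1, V2, V3, V4⟩ := h3 K D γ hγ j L
  have ea : algebraMap K L (D ^ 2 ^ (j + 1)) = algebraMap K L (D ^ 2 ^ j) ^ 2 := by
    rw [← map_pow, ← pow_mul, pow_succ]
  have eb : algebraMap K L (γ ^ 2 ^ (j + 1)) = algebraMap K L (γ ^ 2 ^ j) ^ 2 := by
    rw [← map_pow, ← pow_mul, pow_succ]
  rw [ha, hb] at p2 p3
  rw [ha', hb', ea, eb] at q2 q3
  rw [hb] at p7
  rw [hb', eb] at q7
  rw [ha] at p10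
  rw [ha', ea] at q10
  clear V4 p3 q3 hE hE'
  -- additivity of `Fi`
  have hFneg : ∀ P : Pt D γ j L, Fi D γ j (-P) = -Fi D γ j P := by
    intro P
    rcases p1 P with rfl | ⟨x, y, hP⟩
    · rw [neg_zero, F0, neg_zero]
    · have e1 := F1 _ _ _ (p5 _ _ _ hP)
      have e2 := q5 _ _ _ (F1 _ _ _ hP)
      refine q4 _ _ _ _ e1 ?_
      have : (x + y) ^ 2 = x ^ 2 + y ^ 2 := by linear_combination x * y * h20
      rwa [this]
  have hFne : ∀ P : Pt D γ j L, P ≠ 0 → Fi D γ j P ≠ 0 ∧ px (Fi D γ j P) = px P ^ 2 ∧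
      py (Fi D γ j P) = py P ^ 2 := by
    intro P hP
    rcases p1 P with rfl | ⟨x, y, hP⟩
    · exact absurd rfl hP
    · obtain ⟨-, e1, e2, -⟩ := p2 _ _ _ hP
      obtain ⟨e0, e3, e4, -⟩ := q2 _ _ _ (F1 _ _ _ hP)
      exact ⟨e0, by rw [e3, e1], by rw [e4, e2]⟩
  have hFadd : ∀ P Q : Pt D γ j L, Fi D γ j (P + Q) = Fi D γ j P + Fi D γ j Q := by
    intro P Q
    by_cases hP : P = 0
    · rw [hP, F0, zero_add, zero_add]
    by_cases hQ : Q = 0
    · rw [hQ, F0, add_zero, add_zero]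
    by_cases hPQ : P + Q = 0
    · rw [hPQ, F0, eq_neg_of_add_eq_zero_right hPQ, hFneg, add_neg_cancel]
    obtain ⟨f1, f2, f3⟩ := hFne P hP
    obtain ⟨f4, f5, f6⟩ := hFne Q hQ
    obtain ⟨f7, f8, f9⟩ := hFne _ hPQ
    have hFPQ : Fi D γ j P + Fi D γ j Q ≠ 0 := by
      intro h
      have := eq_neg_of_add_eq_zero_right h
      rw [← hFneg] at this
      apply hPQ
      rw [F2 _ _ this, add_neg_cancel]
    have hsl : sl (Fi D γ j P) (Fi D γ j Q) = sl P Q ^ 2 := by
      rcases p1 P with rfl | ⟨x, y, hPx⟩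
      · exact absurd rfl hP
      rcases p1 Q with rfl | ⟨x', y', hQx⟩
      · exact absurd rfl hQ
      by_cases hx : x = x'
      · have hQP : Q = P := by
          rcases p9 P Q hP hQ (by rw [(p2 _ _ _ hPx).2.1, (p2 _ _ _ hQx).2.1, hx]) with h | h
          · exact h
          · exfalso; apply hPQ; rw [h, add_neg_cancel]
        subst hQP
        have hx0 : x ≠ 0 := by
          rintro rfl
          exact hPQ (p8 _ _ hPx).1
        rw [(p7 _ _ _ hPx hx0).1, (q7 _ _ _ (F1 _ _ _ hPx) (pow_ne_zero 2 hx0)).1]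
        field_simp
        linear_combination (- x ^ 2 * y) * h20
      · rw [p6 _ _ _ _ _ _ hPx hQx hx]
        have hx2 : x ^ 2 ≠ x' ^ 2 := by
          intro h
          apply hx
          have h0 : (x + x') ^ 2 = 0 := by linear_combination h + (x' ^ 2 + x * x') * h20
          have h1 : x + x' = 0 := pow_eq_zero_iff (two_ne_zero) |>.mp h0
          linear_combination h1 - x' * h20
        rw [q6 _ _ _ _ _ _ (F1 _ _ _ hPx) (F1 _ _ _ hQx) hx2, div_pow]
        congr 1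
        · linear_combination (- y * y') * h20
        · linear_combination (- x * x') * h20
    obtain ⟨g1, g2, -, -⟩ := p10 P Q hP hQ hPQ
    obtain ⟨g3, g4, -, -⟩ := q10 _ _ f1 f4 hFPQ
    have k1 : px (Fi D γ j P + Fi D γ j Q) = px (P + Q) ^ 2 := by
      rw [g3, g1, hsl, f2, f5]
      generalize sl P Q = s
      generalize px P = x1
      generalize px Q = x2
      generalize algebraMap K L (D ^ 2 ^ j) = a
      linear_combination (- (s ^ 3 + s ^ 2 * a + s ^ 2 * x1 + s ^ 2 * x2 + s * a + s * x1 +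
        s * x2 + a * x1 + a * x2 + x1 * x2)) * h20
    have k2 : py (Fi D γ j P + Fi D γ j Q) = py (P + Q) ^ 2 := by
      rw [g4, k1, g2, hsl, f2, f3]
      generalize sl P Q = s
      generalize px P = x1
      generalize px (P + Q) = x2
      generalize py P = y1
      linear_combination (- (s * (x1 + x2) * x2 + s * (x1 + x2) * y1 + x2 * y1 +
        s ^ 2 * x1 * x2)) * h20
    rcases q1 (Fi D γ j P + Fi D γ j Q) with h | ⟨u, v, huv⟩
    · exact absurd h hFPQ
    rcases q1 (Fi D γ j (P + Q)) with h | ⟨u', v', huv'⟩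
    · exact absurd h f7
    obtain ⟨-, m1, m2, -⟩ := q2 _ _ _ huv
    obtain ⟨-, m3, m4, -⟩ := q2 _ _ _ huv'
    have n1 : u = u' := by rw [← m1, ← m3, k1, f8]
    have n2 : v = v' := by rw [← m2, ← m4, k2, f9]
    subst n1 n2
    exact q4 _ _ _ _ huv' huv
  have hVF : ∀ P : Pt D γ j L, Vi D γ j (Fi D γ j P) = P + P := by
    intro P
    rcases p1 P with rfl | ⟨x, y, hP⟩
    · rw [F0, V0, add_zero]
    by_cases hx : x = 0
    · subst hx
      have e1 := F1 _ _ _ hP
      rw [zero_pow two_ne_zero] at e1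
      rw [V1 _ _ e1, (p8 _ _ hP).1]
    · have e1 := V2 _ _ _ (F1 _ _ _ hP) (pow_ne_zero 2 hx)
      have e2 := (p7 _ _ _ hP hx).2
      refine p4 _ _ _ _ e1 ?_
      have he := (p2 _ _ _ hP).2.2.2
      have e3 : (y ^ 2 + algebraMap K L (γ ^ 2 ^ j)) / x ^ 2 + algebraMap K L (D ^ 2 ^ j) =
          x + y / x := by
        field_simp
        linear_combination he + (algebraMap K L (γ ^ 2 ^ j) + x ^ 2 * algebraMap K L (D ^ 2 ^ j) -
          x * y) * h20
      rw [e3]
      exact e2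
  have hFV : ∀ P : Pt D γ (j + 1) L, Fi D γ j (Vi D γ j P) = P + P := by
    intro P
    rcases q1 P with rfl | ⟨x, y, hP⟩
    · rw [V0, F0, add_zero]
    by_cases hx : x = 0
    · subst hx
      rw [V1 _ _ hP, F0, (q8 _ _ hP).1]
    · have e1 := F1 _ _ _ (V2 _ _ _ hP hx)
      have e2 := (q7 _ _ _ hP hx).2
      refine q4 _ _ _ _ e1 ?_
      have he := (q2 _ _ _ hP).2.2.2
      generalize algebraMap K L (γ ^ 2 ^ j) = b at *
      generalize algebraMap K L (D ^ 2 ^ j) = a at *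
      have e3 : ((y + b) / x + a) ^ 2 = x + y / x := by
        field_simp
        linear_combination he + (y * b + x * y * a + x * a * b + b ^ 2 + a ^ 2 * x ^ 2 -
          x * y) * h20
      have e4 : (x + b / x) ^ 2 = x ^ 2 + b ^ 2 / x ^ 2 := by
        field_simp
        linear_combination (x ^ 2 * b) * h20
      have e5 : (x + ((y + b) / x + a + 1) * (x + b / x)) ^ 2 =
          x ^ 2 + (x + y / x + 1) * (x ^ 2 + b ^ 2 / x ^ 2) := by
        rw [← e3, ← e4]
        linear_combination (x * ((y + b) / x + a + 1) * (x + b / x) +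
          ((y + b) / x + a) * (x + b / x) ^ 2) * h20
      rw [e4, e5]
      exact e2
  have hVadd : ∀ P Q : Pt D γ (j + 1) L, Vi D γ j (P + Q) = Vi D γ j P + Vi D γ j Q := by
    intro P Q
    apply F2
    rw [hFV, hFadd, hFV, hFV]
    abel
  refine ⟨hFadd, hVF, hFV, hVadd, ?_⟩
  intro S M _ _ _ _ _ _ _ _ f
  obtain ⟨hEM, haM, hbM, hchM, -⟩ := h2 K D γ hγ j M
  obtain ⟨hEM', haM', hbM', -, -⟩ := h2 K D γ hγ (j + 1) M
  have := hchM
  obtain ⟨-, -, -, r4, -, -, -, -, -, -⟩ := h1 M _ hEM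
  obtain ⟨-, -, -, s4, -, -, -, -, -, -⟩ := h1 M _ hEM'
  obtain ⟨F0', F1', -, V0', V1', V2', -, -⟩ := h3 K D γ hγ j M
  obtain ⟨t1, -, -⟩ := hmap S M f
  obtain ⟨t2, -, -⟩ := hmap' S M f
  have hfa : ∀ z : K, f (algebraMap K L z) = algebraMap K M z := by
    intro z
    rw [IsScalarTower.algebraMap_apply K S L, IsScalarTower.algebraMap_apply K S M]
    exact f.commutes _
  constructor
  · intro P
    rcases p1 P with rfl | ⟨x, y, hP⟩
    · rw [F0, map_zero, map_zero, F0']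
    · have e1 := t2 _ _ _ (F1 _ _ _ hP)
      have e2 := F1' _ _ _ (t1 _ _ _ hP)
      rw [map_pow, map_pow] at e1
      exact s4 _ _ _ _ e1 e2
  · intro P
    rcases q1 P with rfl | ⟨x, y, hP⟩
    · rw [V0, map_zero, map_zero, V0']
    by_cases hx : x = 0
    · subst hx
      have e1 := t2 _ _ _ hP
      rw [map_zero] at e1
      rw [V1 _ _ hP, V1' _ _ e1, map_zero]
    · have e1 := t1 _ _ _ (V2 _ _ _ hP hx)
      have hfx : f x ≠ 0 := by
        rw [Ne, map_eq_zero]; exact hx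
      have e2 := V2' _ _ _ (t2 _ _ _ hP) hfx
      refine r4 _ _ _ _ ?_ e2
      simpa only [map_add, map_mul, map_div₀, map_one, hfa] using e1

end Pool.Agent.MP72W
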