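import Pool.Agent.Lib.MP_72e2e6_nt.W2.D.Spec

/-!
# MP_72e2e6_nt, theorem T3, part D: unramified crossed homomorphisms factor through `GS PP`
-/

namespace Pool.Agent.MP72W

open Polynomial IntermediateField WeierstrassCurve

open scoped Classical

/-- the embedding of `ZMod 2` in `ZMod (2 ^ (k + 1))` -/
private noncomputable def fe (k : ℕ) (t : ZMod 2) : ZMod (2 ^ (k + 1)) := if t = 0 then 0 else 2 ^ k

/-- its inverse on the kernel of `rdK` -/
private noncomputable def ft (k : ℕ) (x : ZMod (2 ^ (k + 1))) : ZMod 2 := if x = 0 then 0 else 1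

private theorem fac_two (k : ℕ) : (2 : ZMod (2 ^ (k + 1))) ^ (k + 1) = 0 := by
  have h := ZMod.natCast_self (2 ^ (k + 1))
  rwa [Nat.cast_pow, Nat.cast_ofNat] at h

private theorem fac_two' (k : ℕ) : (2 : ZMod (2 ^ (k + 1))) ^ k ≠ 0 := by
  intro h
  have h1 : ((2 ^ k : ℕ) : ZMod (2 ^ (k + 1))) = 0 := by
    rw [Nat.cast_pow, Nat.cast_ofNat]
    exact h
  rw [ZMod.natCast_eq_zero_iff] at h1
  have h2 := Nat.le_of_dvd (by positivity) h1
  exact absurd h2 (not_le.2 (Nat.pow_lt_pow_right (by norm_num) (Nat.lt_succ_self k)))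

private theorem zmod2 (t : ZMod 2) : t = 0 ∨ t = 1 := by
  revert t
  decide

private theorem fe_zero (k : ℕ) : fe k 0 = 0 := if_pos rfl

private theorem fe_one (k : ℕ) : fe k 1 = 2 ^ k := if_neg (by decide)

private theorem fe_dbl (k : ℕ) : (2 : ZMod (2 ^ (k + 1))) ^ k + 2 ^ k = 0 := by
  rw [← two_mul, ← pow_succ']
  exact fac_two k

private theorem fe_add (k : ℕ) (s t : ZMod 2) : fe k (s + t) = fe k s + fe k t := by
  rcases zmod2 s with rfl | rfl
  · rw [zero_add, fe_zero, zero_add]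
  · rcases zmod2 t with rfl | rfl
    · rw [add_zero, fe_zero, add_zero]
    · rw [show (1 : ZMod 2) + 1 = 0 by decide, fe_zero, fe_one, fe_dbl]

private theorem fe_neg (k : ℕ) (t : ZMod 2) : - fe k t = fe k t := by
  rcases zmod2 t with rfl | rfl
  · rw [fe_zero, neg_zero]
  · rw [fe_one]
    exact neg_eq_of_add_eq_zero_left (fe_dbl k)

private theorem fe_inj (k : ℕ) (t : ZMod 2) (h : fe k t = 0) : t = 0 := by
  rcases zmod2 t with rfl | rfl
  · rfl
  · rw [fe_one] at h
    exact absurd h (fac_two' k)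

private theorem fac_odd (k : ℕ) (a b : ZMod (2 ^ (k + 1))) (hab : a * b = 1) :
    ∃ m, a = 1 + 2 * m := by
  have hu : IsUnit a := IsUnit.of_mul_eq_one b hab
  obtain ⟨u, rfl⟩ := hu
  have hc := ZMod.val_coe_unit_coprime u
  have hodd : Odd (u : ZMod (2 ^ (k + 1))).val := by
    rw [← Nat.coprime_two_right]
    exact Nat.Coprime.coprime_dvd_right (dvd_pow_self 2 (Nat.succ_ne_zero k)) hc
  obtain ⟨m, hm⟩ := hodd
  refine ⟨(m : ZMod (2 ^ (k + 1))), ?_⟩
  have h1 : (((u : ZMod (2 ^ (k + 1))).val : ℕ) : ZMod (2 ^ (k + 1))) = u :=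
    ZMod.natCast_zmod_val _
  rw [← h1, hm]
  push_cast
  ring

private theorem fe_mul (k : ℕ) (a b : ZMod (2 ^ (k + 1))) (hab : a * b = 1) (t : ZMod 2) :
    a * fe k t = fe k t := by
  obtain ⟨m, rfl⟩ := fac_odd k a b hab
  rcases zmod2 t with rfl | rfl
  · rw [fe_zero, mul_zero]
  · rw [fe_one]
    have : (1 + 2 * m) * (2 : ZMod (2 ^ (k + 1))) ^ k = 2 ^ k + m * 2 ^ (k + 1) := by ring
    rw [this, fac_two, mul_zero, add_zero]

private theorem rdK_val (k : ℕ) (x : ZMod (2 ^ (k + 1))) : rdK k x = (x.val : ZMod (2 ^ k)) := by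
  unfold rdK
  rw [ZMod.castHom_apply, ZMod.natCast_val]

private theorem fe_ft (k : ℕ) (x : ZMod (2 ^ (k + 1))) (hx : rdK k x = 0) :
    fe k (ft k x) = x := by
  unfold ft
  split_ifs with h
  · rw [fe_zero, h]
  · rw [fe_one]
    rw [rdK_val, ZMod.natCast_eq_zero_iff] at hx
    obtain ⟨m, hm⟩ := hx
    have hlt := ZMod.val_lt x
    have hne : x.val ≠ 0 := fun h0 => h ((ZMod.val_eq_zero x).1 h0)
    have hm1 : m = 1 := by
      have h2 : m ≠ 0 := by
        rintro rfl
        exact hne (by rw [hm, mul_zero])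
      have h3 : m < 2 := by
        rw [hm, pow_succ] at hlt
        exact lt_of_mul_lt_mul_left hlt (Nat.zero_le _)
      omega
    have h1 : ((x.val : ℕ) : ZMod (2 ^ (k + 1))) = x := ZMod.natCast_zmod_val _
    rw [← h1, hm, hm1, mul_one, Nat.cast_pow, Nat.cast_ofNat]

private theorem rdK_sec (k : ℕ) (a : ZMod (2 ^ k)) :
    rdK k ((a.val : ZMod (2 ^ (k + 1)))) = a := by
  rw [map_natCast, ZMod.natCast_zmod_val]

private theorem rdK_fe (k : ℕ) (t : ZMod 2) : rdK k (fe k t) = 0 := by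
  rcases zmod2 t with rfl | rfl
  · rw [fe_zero, map_zero]
  · rw [fe_one, map_pow, map_ofNat]
    have h := ZMod.natCast_self (2 ^ k)
    rwa [Nat.cast_pow, Nat.cast_ofNat] at h

private theorem chr_inv {G : Type} [Group G] [TopologicalSpace G] {n : ℕ} {χ : G → ZMod (2 ^ n)}
    (hχ : Chr χ) (g : G) : χ g * χ g⁻¹ = 1 := by
  rw [← hχ.mul, mul_inv_cancel, hχ.one]

private theorem fac_lift {G : Type} [Group G] [TopologicalSpace G] [IsTopologicalGroup G]
    (hH2 : H2Z G) (k : ℕ) (χ : G → ZMod (2 ^ (k + 1))) (hχ : Chr χ) (cb : G → ZMod (2 ^ k))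
    (hcb : Coc (fun g x => rdK k (χ g) * x) cb) :
    ∃ c : G → ZMod (2 ^ (k + 1)), Coc (fun g x => χ g * x) c ∧ ∀ g, rdK k (c g) = cb g := by
  set u : G → ZMod (2 ^ (k + 1)) := fun g => ((cb g).val : ZMod (2 ^ (k + 1))) with hu
  have hul : IsLocallyConstant u := hcb.loc.comp (fun a => (a.val : ZMod (2 ^ (k + 1))))
  have hur : ∀ g, rdK k (u g) = cb g := fun g => rdK_sec k (cb g)
  set δ : G → G → ZMod (2 ^ (k + 1)) := fun g h => u g + χ g * u h - u (g * h) with hδ
  have hδr : ∀ g h, rdK k (δ g h) = 0 := by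
    intro g h
    rw [hδ]
    simp only
    rw [map_sub, map_add, map_mul, hur, hur, hur, hcb.mul g h, sub_self]
  have hδf : ∀ g h, fe k (ft k (δ g h)) = δ g h := fun g h => fe_ft k _ (hδr g h)
  obtain ⟨b, hb, hbc⟩ := hH2 (fun g h => ft k (δ g h)) (by
    have h1 : IsLocallyConstant (fun p : G × G => u p.1) := hul.comp_continuous continuous_fst
    have h2 : IsLocallyConstant (fun p : G × G => χ p.1) := hχ.loc.comp_continuous continuous_fst
    have h3 : IsLocallyConstant (fun p : G × G => u p.2) := hul.comp_continuous continuous_snd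
    have h4 : IsLocallyConstant (fun p : G × G => u (p.1 * p.2)) :=
      hul.comp_continuous continuous_mul
    exact ((h1.add (h2.mul h3)).sub h4).comp (ft k)) (by
    intro a b d
    have key : χ a * δ b d - δ (a * b) d + δ a (b * d) - δ a b = 0 := by
      rw [hδ]
      simp only
      rw [hχ.mul, mul_assoc a b d]
      ring
    rw [← hδf b d, ← hδf (a * b) d, ← hδf a (b * d), ← hδf a b,
      fe_mul k _ _ (chr_inv hχ a), sub_eq_add_neg, sub_eq_add_neg, fe_neg, fe_neg, ← fe_add,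
      ← fe_add, ← fe_add] at key
    exact fe_inj k _ key)
  refine ⟨fun g => u g + fe k (b g), ⟨hul.add (hb.comp (fe k)), ?_⟩, ?_⟩
  · intro g h
    have e1 : u (g * h) = u g + χ g * u h + fe k (ft k (δ g h)) := by
      rw [← fe_neg, hδf, hδ]
      simp only
      ring
    have e2 : fe k (b g + b h + b (g * h)) + fe k (b (g * h)) = fe k (b g) + fe k (b h) := by
      rw [← fe_add, ← fe_add, add_assoc, CharTwo.add_self_eq_zero, add_zero]
    show u (g * h) + fe k (b (g * h)) = u g + fe k (b g) + χ g * (u h + fe k (b h))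
    rw [e1, hbc g h, mul_add, fe_mul k _ _ (chr_inv hχ g), add_assoc, e2]
    ring
  · intro g
    rw [map_add, hur, rdK_fe, add_zero]

theorem tFac (hHlo : S_Hlo) (hRgo : S_Rgo) (hOnr : S_Onr) (hNrf : S_Nrf) : S_Fac := by
  intro F _ _ _ PP hPP k
  obtain ⟨l1, -, -, l4, -, -⟩ := hHlo F PP hPP
  obtain ⟨r1, -, r3, -⟩ := hRgo F PP hPP
  induction k with
  | zero =>
    intro χ hχ c hc _ _
    have hsub : Subsingleton (ZMod (2 ^ 0)) := inferInstanceAs (Subsingleton (ZMod 1))
    exact ⟨fun _ => 0, ⟨IsLocallyConstant.const 0, fun g h => Subsingleton.elim _ _⟩,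
      fun σ => Subsingleton.elim _ _⟩
  | succ k ih =>
    intro χ hχ c hc hmul hloc
    have hχ' : Chr (fun g => rdK k (χ g)) :=
      ⟨hχ.loc.comp (rdK k), by rw [hχ.one, map_one], fun a b => by rw [hχ.mul, map_mul]⟩
    obtain ⟨cb, hcb, hcbr⟩ := ih (fun g => rdK k (χ g)) hχ' (fun σ => rdK k (c σ))
      (hc.comp (rdK k)) (fun σ τ => by
        show rdK k (c (σ * τ)) = rdK k (c σ) + rdK k (χ (rG PP σ)) * rdK k (c τ)
        rw [hmul, map_add, map_mul]) (by
      intro P hPm hPi hP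
      obtain ⟨v, hv, ι, hι⟩ := hloc P hPm hPi hP
      exact ⟨v, hv, ι, fun g hg => by
        show rdK k (c _) = 0
        rw [hι g hg, map_zero]⟩)
    obtain ⟨c2, hc2, hc2r⟩ := fac_lift l4 k χ hχ cb hcb
    have hc21 : c2 1 = 0 := by
      have h := hc2.mul 1 1
      simp only [mul_one, hχ.one, one_mul] at h
      exact left_eq_add.1 h
    set e : Gal(Kgs F/RatFunc F) → ZMod (2 ^ (k + 1)) := fun σ => c σ - c2 (rG PP σ) with he
    have her : ∀ σ, rdK k (e σ) = 0 := by
      intro σ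
      rw [he]
      simp only
      rw [map_sub, hc2r, ← hcbr σ, sub_self]
    have hef : ∀ σ, fe k (ft k (e σ)) = e σ := fun σ => fe_ft k _ (her σ)
    have hel : IsLocallyConstant e := hc.sub (hc2.loc.comp_continuous r1)
    have heh : Hom2 (fun σ => ft k (e σ)) := by
      refine ⟨hel.comp (ft k), ?_⟩
      intro σ τ
      have h1 : e (σ * τ) = e σ + χ (rG PP σ) * e τ := by
        rw [he]
        simp only
        rw [hmul, map_mul, hc2.mul]
        ring
      rw [← hef σ, ← hef τ, ← hef (σ * τ), fe_mul k _ _ (chr_inv hχ _), ← fe_add] at h1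
      have h2 : fe k (ft k (e (σ * τ)) + (ft k (e σ) + ft k (e τ))) = 0 := by
        rw [fe_add, h1, ← sub_neg_eq_add, fe_neg, sub_self]
      have h3 := fe_inj k _ h2
      have h4 := eq_neg_of_add_eq_zero_left h3
      rw [h4, CharTwo.neg_eq]
    obtain ⟨f, -, hf⟩ := hNrf F PP hPP (fun σ => ft k (e σ)) heh (by
      intro P hPm hPi hP
      obtain ⟨v, hv, ι, hι⟩ := hloc P hPm hPi hP
      refine ⟨v, hv, ι, fun g hg => ?_⟩
      have h1 : e (rsH (M := v.Completion) ι g) = 0 := by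
        rw [he]
        simp only
        rw [hι g hg, r3 v ι g, (hOnr F PP hPP P v hP hv ι).2 g hg, hc21, sub_zero]
      show ft k (e (rsH (M := v.Completion) ι g)) = 0
      rw [h1]
      exact if_pos rfl)
    have hH := l1 f
    refine ⟨fun g => c2 g + fe k (hAS (RatFunc F) (Om (AS PP) (RatFunc F) (Kgs F))
      (f : RatFunc F) g), ⟨hc2.loc.add (hH.loc.comp (fe k)), ?_⟩, ?_⟩
    · intro g h
      show c2 (g * h) + fe k (hAS _ _ (f : RatFunc F) (g * h)) = c2 g + fe k (hAS _ _ _ g) +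
        χ g * (c2 h + fe k (hAS _ _ _ h))
      rw [hc2.mul, hH.add, fe_add, mul_add, fe_mul k _ _ (chr_inv hχ g)]
      ring
    · intro σ
      show c σ = c2 (rG PP σ) + fe k (hAS _ _ (f : RatFunc F) (rG PP σ))
      rw [← hf σ]
      show c σ = c2 (rG PP σ) + fe k (ft k (e σ))
      rw [hef σ, he]
      ring

end Pool.Agent.MP72W
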