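import Pool.Agent.Lib.MP_72e2e6_nt.W2.D.Spec

/-!
# MP_72e2e6_nt, T3, D/Fco: the values of the functions
-/

set_option autoImplicit false

namespace Pool.Agent.MP72W

open Polynomial WeierstrassCurve

open scoped Classical Polynomial.Bivariate

section

variable {L : Type} [Field L] {W : WeierstrassCurve.Affine L}

private noncomputable def fcoEv {x y : L} (h : W.Equation x y) : W.CoordinateRing →+* L :=
  AdjoinRoot.lift (Polynomial.evalRingHom x) y (by
    rw [Polynomial.eval₂_evalRingHom]; exact h)

private theorem fcoEv_X [CharP L 2] {x y : L} (h : W.Equation x y) (a : L) :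
    fcoEv h (Affine.CoordinateRing.XClass W a) = x + a := by
  have e : fcoEv h (Affine.CoordinateRing.XClass W a) = x - a := by
    change AdjoinRoot.lift _ _ _ (AdjoinRoot.mk _ _) = _
    rw [AdjoinRoot.lift_mk]
    simp
  rw [e, CharTwo.sub_eq_add]

private theorem fcoEv_Y [CharP L 2] {x y : L} (h : W.Equation x y) (a b l : L) :
    fcoEv h (Affine.CoordinateRing.YClass W (Affine.linePolynomial a b l)) =
      y + b + l * (x + a) := by
  have e : fcoEv h (Affine.CoordinateRing.YClass W (Affine.linePolynomial a b l)) =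
      y - (l * (x - a) + b) := by
    change AdjoinRoot.lift _ _ _ (AdjoinRoot.mk _ _) = _
    rw [AdjoinRoot.lift_mk]
    simp [Affine.linePolynomial]
  rw [e, CharTwo.sub_eq_add, CharTwo.sub_eq_add]
  ring

private theorem fcoEv_n [CharP L 2] {x y : L} (h : W.Nonsingular x y) (P Q : W.Point) :
    fcoEv h.left (nR P Q) = nv P Q (.some x y h) := by
  unfold nR nv
  split_ifs
  · exact map_one _
  · exact fcoEv_X _ _
  · exact fcoEv_Y _ _ _ _

private theorem fcoEv_d [CharP L 2] {x y : L} (h : W.Nonsingular x y) (P Q : W.Point) :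
    fcoEv h.left (dR P Q) = dv P Q (.some x y h) := by
  unfold dR dv
  split_ifs
  · exact map_one _
  · exact fcoEv_X _ _

end

theorem tFco : S_Pts → S_Rid → S_Fco := by
  intro _ hR L _ _ W hW
  have key : ∀ P Q S T : W.Point, T ≠ 0 → nv P Q T * nv (P + Q) S T * (dv Q S T * dv P (Q + S) T) =
      nv Q S T * nv P (Q + S) T * (dv P Q T * dv (P + Q) S T) := by
    intro P Q S T hT
    rcases T with _ | ⟨x, y, h⟩
    · exact absurd rfl hT
    have e := congrArg (fcoEv h.left) (hR L W hW P Q S)
    simp only [map_mul, fcoEv_n h, fcoEv_d h] at e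
    exact e
  refine ⟨key, fun P Q S T hT h1 h2 h3 h4 => ?_⟩
  have e := key P Q S T hT
  unfold fv
  rw [div_mul_div_comm, div_mul_div_comm, div_eq_div_iff (mul_ne_zero h1 h2) (mul_ne_zero h3 h4)]
  exact e

end Pool.Agent.MP72W
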