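import Pool.Agent.Lib.MP_72e2e6_nt.W2.D.Spec

/-!
# MP_72e2e6_nt, theorem T3, part D: there are infinitely many points
-/

namespace Pool.Agent.MP72W

open Polynomial IntermediateField WeierstrassCurve

open scoped Classical

theorem tInf (h1 : S_Pts) (h2 : S_Map) : S_Inf := by
  intro K _ _ D γ hγ L _ _ hA hI j
  obtain ⟨hE, -, -, hchar, -⟩ := h2 K D γ hγ j L
  have := hchar
  obtain ⟨-, p2, p3, -⟩ := h1 L ((EE D γ j)⁄L).toAffine hE
  have hex : ∀ x : L, x ≠ 0 → ∃ P : Pt D γ j L, px P = x := by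
    intro x hx
    obtain ⟨ζ, hζ⟩ := hA (x + ((EE D γ j)⁄L).toAffine.a₂ + ((EE D γ j)⁄L).toAffine.a₆ / x ^ 2)
    obtain ⟨P, hP⟩ := p3 x (ζ * x) (by
      have h : (ζ * x) ^ 2 + x * (ζ * x) = (ζ ^ 2 + ζ) * x ^ 2 := by ring
      rw [h, hζ]
      field_simp)
    exact ⟨P, (p2 P _ _ hP).2.1⟩
  have hI' : Infinite {x : L // x ≠ 0} := by
    have h : ({(0 : L)}ᶜ : Set L).Infinite := (Set.finite_singleton (0 : L)).infinite_compl
    exact h.to_subtype
  refine Infinite.of_injective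
    (fun x : {x : L // x ≠ 0} => ((hex x.1 x.2).choose : Pt D γ j L)) ?_
  intro x y hxy
  have hx := (hex x.1 x.2).choose_spec
  have hy := (hex y.1 y.2).choose_spec
  apply Subtype.ext
  rw [← hx, ← hy]
  exact congrArg px hxy

end Pool.Agent.MP72W
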