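import Pool.Agent.Lib.MP_72e2e6_nt.W2.D.Spec

/-!
# MP_72e2e6_nt, theorem T3, part D: IsF, the elements w p are isotropic (helper82)
-/

set_option autoImplicit false

namespace Pool.Agent.MP72W

open Polynomial IntermediateField WeierstrassCurve

open scoped Classical

/-! ### Powers -/

section pow

variable {L : Type} [Field L]

private lemma isf_sq [CharP L 2] (u v : L) (h : u ^ 2 = v ^ 2) : u = v := by
  have two : (2 : L) = 0 := CharTwo.two_eq_zero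
  have h7 : (u - v) ^ 2 = 0 := by
    linear_combination h + (v ^ 2 - u * v) * two
  exact sub_eq_zero.1 (pow_eq_zero_iff (by norm_num) |>.1 h7)

private lemma isf_symm {N : ℕ} {a b : L} (h : EqN N a b) : EqN N b a := by
  obtain ⟨s, hs, h⟩ := h
  refine ⟨s⁻¹, inv_ne_zero hs, ?_⟩
  rw [h, inv_pow, mul_assoc, mul_inv_cancel₀ (pow_ne_zero N hs), mul_one]

private lemma isf_trans {N : ℕ} {a b c : L} (h : EqN N a b) (h' : EqN N b c) : EqN N a c := by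
  obtain ⟨s, hs, h⟩ := h
  obtain ⟨t, ht, h'⟩ := h'
  exact ⟨t * s, mul_ne_zero ht hs, by rw [h, h', mul_pow, mul_assoc]⟩

private lemma isf_mul_one {N : ℕ} {a b c : L} (h : EqN N a (b * c)) (h' : EqN N c 1) :
    EqN N a b := by
  obtain ⟨s, hs, h⟩ := h
  obtain ⟨t, ht, h'⟩ := h'
  exact ⟨t * s, mul_ne_zero ht hs, by rw [h, h', mul_pow]; ring⟩

private lemma isf_hf (k : ℕ) (c : ZMod (2 ^ (k + 1))) (m : ℕ) (h : c.val = 1 + 2 * m) :
    ∃ j : ℕ, (hf k (1 - c)).val + m = 2 ^ k * j := by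
  obtain ⟨a, ha⟩ : ∃ a : ZMod (2 ^ (k + 1)), a = 1 - c := ⟨_, rfl⟩
  have h1 : ((a.val + c.val : ℕ) : ZMod (2 ^ (k + 1))) = ((1 : ℕ) : ZMod (2 ^ (k + 1))) := by
    rw [Nat.cast_add, ZMod.natCast_zmod_val, ZMod.natCast_zmod_val, ha, Nat.cast_one]
    ring
  rw [ZMod.natCast_eq_natCast_iff] at h1
  obtain ⟨j, hj⟩ := (Nat.modEq_iff_dvd' (by omega : 1 ≤ a.val + c.val)).1 h1.symm
  have h2 : a.val + 2 * m = 2 * (2 ^ k * j) := by
    have e : 2 ^ (k + 1) * j = 2 * (2 ^ k * j) := by ring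
    omega
  have h3 : a.val / 2 + m = 2 ^ k * j := by omega
  have h4 : (2 ^ k) ∣ (hf k a).val + m := by
    rw [← ZMod.natCast_eq_zero_iff, Nat.cast_add, ZMod.natCast_zmod_val]
    unfold hf
    rw [← Nat.cast_add, h3, ZMod.natCast_eq_zero_iff]
    exact dvd_mul_right _ _
  rw [← ha]
  exact h4

end pow

/-! ### Points -/

private lemma isf_Wf0 {L : Type} [Field L] {W : WeierstrassCurve.Affine L} (k : ℕ) (S : W.Point) :
    Wf k 0 S = 1 := by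
  unfold Wf
  apply Finset.prod_eq_one
  intro j _
  rw [smul_zero]
  unfold fv nv dv
  rw [if_pos (Or.inl rfl), if_pos (Or.inl rfl), div_one, one_pow]

private lemma isf_comp (h13 : S_Pts) (h14 : S_Map) {K S M L : Type} [Field K] [CharP K 2]
    [Field S] [Field M] [Field L] [Algebra K S] [Algebra K M] [Algebra K L] [Algebra S L]
    [IsScalarTower K S L] (D γ : K) (hγ : γ ≠ 0) (k : ℕ) (f : M →ₐ[K] L) (g : L →ₐ[S] L)
    (σ : M →ₐ[K] M) (h : ∀ x, g (f x) = f (σ x)) (P : Pt D γ k M) :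
    pmap (EE D γ k) g (pmap (EE D γ k) f P) = pmap (EE D γ k) f (pmap (EE D γ k) σ P) := by
  obtain ⟨m1, -, -, m4, m5⟩ := h14 K D γ hγ k M
  obtain ⟨n1, -, -, n4, n5⟩ := h14 K D γ hγ k L
  obtain ⟨p1, -⟩ := h13 M ((EE D γ k)⁄M).toAffine m1
  obtain ⟨-, -, -, q4, -⟩ := h13 L ((EE D γ k)⁄L).toAffine n1
  rcases p1 P with h0 | ⟨x, y, hxy⟩
  · rw [h0, map_zero, map_zero, map_zero, map_zero]
  · obtain ⟨k1, -, -⟩ := m5 K L f
    obtain ⟨k2, -, -⟩ := m5 K M σ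
    obtain ⟨k3, -, -⟩ := n5 S L g
    have a1 := k3 _ _ _ (k1 P x y hxy)
    have a2 := k1 _ _ _ (k2 P x y hxy)
    rw [h, h] at a1
    exact q4 _ _ _ _ a1 a2

private lemma isf_fix (h13 : S_Pts) (h14 : S_Map) {K S L : Type} [Field K] [CharP K 2]
    [Field S] [Field L] [Algebra K S] [Algebra K L] [Algebra S L]
    [IsScalarTower K S L] (D γ : K) (hγ : γ ≠ 0) (k : ℕ) (g : L →ₐ[S] L) (P : Pt D γ k S) :
    pmap (EE D γ k) g (pmap (EE D γ k) (Algebra.ofId S L) P) =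
      pmap (EE D γ k) (Algebra.ofId S L) P := by
  obtain ⟨m1, -, -, m4, m5⟩ := h14 K D γ hγ k S
  obtain ⟨n1, -, -, n4, n5⟩ := h14 K D γ hγ k L
  obtain ⟨p1, -⟩ := h13 S ((EE D γ k)⁄S).toAffine m1
  obtain ⟨-, -, -, q4, -⟩ := h13 L ((EE D γ k)⁄L).toAffine n1
  rcases p1 P with h0 | ⟨x, y, hxy⟩
  · rw [h0, map_zero, map_zero]
  · obtain ⟨k1, -, -⟩ := m5 S L (Algebra.ofId S L)
    obtain ⟨k3, -, -⟩ := n5 S L g
    have a1 := k3 _ _ _ (k1 P x y hxy)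
    have a2 := k1 P x y hxy
    have hx : g (Algebra.ofId S L x) = Algebra.ofId S L x := g.commutes x
    have hy : g (Algebra.ofId S L y) = Algebra.ofId S L y := g.commutes y
    rw [hx, hy] at a1
    exact q4 _ _ _ _ a1 a2

private theorem isf_core (h7 : S_H90) (h13 : S_Pts) (h14 : S_Map) (h15 : S_FVn) (h16 : S_WRa)
    (h17 : S_Wmp) (h19 : S_Wt) (h20 : S_Wtc) (h21 : S_Tq)
    {K Kv M L : Type} [Field K] [CharP K 2] [Field Kv] [Field M] [Field L] [Algebra K Kv]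
    [Algebra K M] [Algebra K L] [Algebra Kv L] [IsScalarTower K Kv L] [IsGalois Kv L]
    (hM : ASC M) (hMi : Infinite M) (hL : ASC L) (hLi : Infinite L) (D β : K) (hβ : β ≠ 0)
    (k : ℕ) (Q : Pt D (β ^ 2) k M) (hQ : IsQ D β k Q) (ι : M →ₐ[K] L)
    (c : Gal(L/Kv) → ZMod (2 ^ (k + 1)))
    (hc : ∀ g : Gal(L/Kv), pmap (EE D (β ^ 2) k) (g : L →ₐ[Kv] L) (pmap (EE D (β ^ 2) k) ι Q) =
      (c g).val • pmap (EE D (β ^ 2) k) ι Q)
    (hodd : ∀ g, (c g).val % 2 = 1)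
    (w : Pt D (β ^ 2) k M → M) (hw : IsWt D (β ^ 2) k (Q + Q) w)
    (p : Pt D (β ^ 2) k M) (q : Pt D (β ^ 2) 0 L)
    (hq : ∀ g : Gal(L/Kv), pmap (EE D (β ^ 2) k) (g : L →ₐ[Kv] L)
      (pmap (EE D (β ^ 2) k) ι p - Fn D (β ^ 2) k q) =
        pmap (EE D (β ^ 2) k) ι p - Fn D (β ^ 2) k q)
    (hinf : Infinite (Pt D (β ^ 2) 0 Kv)) :
    ∃ y : L, y ≠ 0 ∧ ∀ g : Gal(L/Kv),
      EqN (2 ^ k) (ι (w p) ^ (hf k (1 - c g)).val) (g y / y) := by
  have hβ2 : β ^ 2 ≠ 0 := pow_ne_zero 2 hβ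
  obtain ⟨Q', hQ'def⟩ : ∃ Q' : Pt D (β ^ 2) k L, Q' = pmap (EE D (β ^ 2) k) ι Q := ⟨_, rfl⟩
  rw [← hQ'def] at hc
  obtain ⟨tM1, -, -, tM4, -⟩ := h21 K D β hβ M k
  obtain ⟨tL1, -, -, -, -⟩ := h21 K D β hβ L k
  have hQ' : IsQ D β k Q' := by rw [hQ'def]; exact tM4 Q K L ι hQ
  obtain ⟨hR, -⟩ := tM1 Q hQ
  obtain ⟨hR', hord⟩ := tL1 Q' hQ'
  obtain ⟨W', hW'⟩ := h19 K D (β ^ 2) hβ2 L hL hLi k (Q' + Q') hR'
  have hcomp := h20 K D (β ^ 2) hβ2 M hM hMi k (Q + Q) hR w hw K L ι (Q' + Q') hR' W' hW' 1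
    (by rw [map_add, one_nsmul, ← hQ'def]) p
  rw [pow_one] at hcomp
  obtain ⟨n1, -, -, n4, n5⟩ := h14 K D (β ^ 2) hβ2 k L
  -- the auxiliary point
  have hfin : ((AddSubgroup.zmultiples Q' : AddSubgroup (Pt D (β ^ 2) k L)) :
      Set (Pt D (β ^ 2) k L)).Finite := by
    rw [finite_zmultiples, ← addOrderOf_pos_iff, hord]
    positivity
  obtain ⟨-, -, -, -, fv5, fv6, -⟩ := h15 K D (β ^ 2) hβ2 L
  have hinj : Function.Injective (fun q₀ : Pt D (β ^ 2) 0 Kv =>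
      (pmap (EE D (β ^ 2) k) ι p - Fn D (β ^ 2) k q) +
        Fn D (β ^ 2) k (pmap (EE D (β ^ 2) 0) (Algebra.ofId Kv L) q₀)) := by
    intro a b hab
    have h1 := add_left_cancel hab
    have h2 := fv5 _ _ _ h1
    obtain ⟨-, -, -, -, z5⟩ := h14 K D (β ^ 2) hβ2 0 Kv
    exact (z5 Kv L (Algebra.ofId Kv L)).2.1 h2
  obtain ⟨q₀, hq₀⟩ : ∃ q₀ : Pt D (β ^ 2) 0 Kv,
      (pmap (EE D (β ^ 2) k) ι p - Fn D (β ^ 2) k q) +
        Fn D (β ^ 2) k (pmap (EE D (β ^ 2) 0) (Algebra.ofId Kv L) q₀) ∉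
          AddSubgroup.zmultiples Q' := by
    by_contra hcon
    push Not at hcon
    exact (Set.infinite_range_of_injective hinj) (hfin.subset (by
      rintro _ ⟨q₀, rfl⟩
      exact hcon q₀))
  obtain ⟨P', hP'⟩ : ∃ P' : Pt D (β ^ 2) k L, P' = (pmap (EE D (β ^ 2) k) ι p -
      Fn D (β ^ 2) k q) + Fn D (β ^ 2) k (pmap (EE D (β ^ 2) 0) (Algebra.ofId Kv L) q₀) :=
    ⟨_, rfl⟩
  rw [← hP'] at hq₀
  have hgP : ∀ g : Gal(L/Kv), pmap (EE D (β ^ 2) k) (g : L →ₐ[Kv] L) P' = P' := by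
    intro g
    rw [hP', map_add, hq g, (fv6 k Kv L (g : L →ₐ[Kv] L)).1, isf_fix h13 h14 D (β ^ 2) hβ2]
  -- the class of `ι (w p)`
  have e1 : EqN (2 ^ k) (ι (w p)) (Wf k (Q' + Q') P') := by
    have a1 : EqN (2 ^ k) (W' (pmap (EE D (β ^ 2) k) ι p))
        (W' (pmap (EE D (β ^ 2) k) ι p - Fn D (β ^ 2) k q)) := by
      have := hW'.add (pmap (EE D (β ^ 2) k) ι p - Fn D (β ^ 2) k q) (Fn D (β ^ 2) k q)
      rw [sub_add_cancel] at this
      exact isf_mul_one this ((hW'.ker _).2 ⟨q, rfl⟩)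
    have a2 : EqN (2 ^ k) (W' P') (W' (pmap (EE D (β ^ 2) k) ι p - Fn D (β ^ 2) k q)) := by
      have := hW'.add (pmap (EE D (β ^ 2) k) ι p - Fn D (β ^ 2) k q)
        (Fn D (β ^ 2) k (pmap (EE D (β ^ 2) 0) (Algebra.ofId Kv L) q₀))
      rw [← hP'] at this
      exact isf_mul_one this ((hW'.ker _).2 ⟨_, rfl⟩)
    have a3 : EqN (2 ^ k) (W' P') (Wf k (Q' + Q') P') := by
      apply hW'.gen
      intro h
      apply hq₀
      have h2 : AddSubgroup.zmultiples (Q' + Q') ≤ AddSubgroup.zmultiples Q' := by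
        rw [AddSubgroup.zmultiples_le]
        exact add_mem (AddSubgroup.mem_zmultiples Q') (AddSubgroup.mem_zmultiples Q')
      exact h2 h
    exact isf_trans hcomp (isf_trans a1 (isf_trans (isf_symm a2) a3))
  have hQmem : Q' ∈ AddSubgroup.zmultiples Q' := AddSubgroup.mem_zmultiples Q'
  have hzero : 2 ^ (k + 1) • Q' = 0 := by rw [← hord]; exact addOrderOf_nsmul_eq_zero Q'
  obtain ⟨-, b2, -⟩ := h16 L ((EE D (β ^ 2) k)⁄L).toAffine n1 (k + 1) (AddSubgroup.zmultiples Q')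
    P' Q' hQmem hzero hq₀
  obtain ⟨-, -, b3⟩ := h16 L ((EE D (β ^ 2) k)⁄L).toAffine n1 k (AddSubgroup.zmultiples Q')
    P' (Q' + Q') (add_mem hQmem hQmem) (by
      rw [← two_nsmul, ← mul_smul, ← pow_succ]
      exact hzero) hq₀
  obtain ⟨U, hU⟩ : ∃ U : L, U = Wf (k + 1) Q' P' := ⟨_, rfl⟩
  have hU0 : U ≠ 0 := by
    obtain ⟨s, -, hs⟩ := b2 (2 ^ (k + 1))
    rw [hzero, isf_Wf0, ← hU] at hs
    rintro rfl
    rw [zero_pow (by positivity), zero_mul] at hs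
    exact one_ne_zero hs
  have e2 : EqN (2 ^ k) (ι (w p)) U := by
    apply isf_trans e1
    apply isf_symm
    have h1 := b3 Q' hQmem
    refine ⟨fv Q' Q' P', ?_, ?_⟩
    · intro h
      rw [h, zero_pow (by positivity), zero_mul, ← hU] at h1
      exact hU0 h1
    · rw [hU, h1, mul_comm]
  -- the Galois action on `U`
  have e3 : ∀ g : Gal(L/Kv), ∃ s : L, s ≠ 0 ∧ g U = U ^ (c g).val * s ^ 2 ^ (k + 1) := by
    intro g
    obtain ⟨s, hs, h⟩ := b2 (c g).val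
    refine ⟨s, hs, ?_⟩
    have h2 := (h17 K D (β ^ 2) hβ2 k L Kv L (g : L →ₐ[Kv] L)).2 (k + 1) Q' P'
    rw [hgP, hc, h, ← hU] at h2
    exact h2.symm
  choose s hs0 hs using e3
  obtain ⟨m, hm⟩ : ∃ m : Gal(L/Kv) → ℕ, ∀ g, (c g).val = 1 + 2 * m g :=
    ⟨fun g => (c g).val / 2, fun g => by
      have := hodd g
      show (c g).val = 1 + 2 * ((c g).val / 2)
      omega⟩
  obtain ⟨t, ht⟩ : ∃ t : Gal(L/Kv) → L, ∀ g, t g = U ^ m g * s g ^ 2 ^ k := ⟨_, fun _ => rfl⟩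
  have ht2 : ∀ g, g U = U * t g ^ 2 := by
    intro g
    rw [hs, ht, hm, pow_succ 2 k]
    ring
  have ht0 : ∀ g, t g ≠ 0 := by
    intro g
    rw [ht]
    exact mul_ne_zero (pow_ne_zero _ hU0) (pow_ne_zero _ (hs0 g))
  have htU : ∀ g g' : Gal(L/Kv), g U = g' U → t g = t g' := by
    intro g g' h
    apply isf_sq
    rw [ht2, ht2] at h
    exact mul_left_cancel₀ hU0 h
  have hloc : IsLocallyConstant t := by
    rw [IsLocallyConstant.iff_exists_open]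
    intro g
    refine ⟨{g' | g⁻¹ * g' ∈ MulAction.stabilizer Gal(L/Kv) U}, ?_, ?_, ?_⟩
    · exact (stabilizer_isOpen_of_isIntegral (K := Kv) U).preimage (continuous_const_mul g⁻¹)
    · show g⁻¹ * g ∈ MulAction.stabilizer Gal(L/Kv) U
      rw [inv_mul_cancel]
      exact one_mem _
    · intro g' hg'
      have h3 : (g⁻¹ * g') U = U := hg'
      have h5 : g' = g * (g⁻¹ * g') := by group
      apply htU
      conv_lhs => rw [h5]
      rw [AlgEquiv.mul_apply, h3]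
  have hmul : ∀ g g' : Gal(L/Kv), t (g * g') = t g * g (t g') := by
    intro g g'
    apply isf_sq
    have h1 := ht2 (g * g')
    rw [AlgEquiv.mul_apply, ht2 g', map_mul, map_pow, ht2 g, mul_assoc] at h1
    rw [mul_pow]
    exact (mul_left_cancel₀ hU0 h1).symm
  obtain ⟨y, hy0, hy⟩ := (h7 Kv L ⊥).1 (fun σ => t (σ : Gal(L/Kv)))
    (hloc.comp_continuous continuous_subtype_val) (fun σ => ht0 _) (fun σ τ => hmul _ _)
  have hy' : ∀ g : Gal(L/Kv), t g = g y / y := by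
    intro g
    have hg : g ∈ (⊥ : IntermediateField Kv L).fixingSubgroup := by
      rw [IntermediateField.fixingSubgroup_bot]
      trivial
    exact hy ⟨g, hg⟩
  refine ⟨y⁻¹, inv_ne_zero hy0, fun g => ?_⟩
  obtain ⟨j, hj⟩ := isf_hf k (c g) (m g) (hm g)
  obtain ⟨a, ha0, ha⟩ := e2
  have hgy : g y ≠ 0 := by
    rw [Ne, map_eq_zero]
    exact hy0
  refine ⟨U ^ j * s g * a ^ (hf k (1 - c g)).val, mul_ne_zero (mul_ne_zero (pow_ne_zero _ hU0)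
    (hs0 g)) (pow_ne_zero _ ha0), ?_⟩
  have h1 : U ^ m g * s g ^ 2 ^ k * y = g y := by
    rw [← ht, hy' g]
    field_simp
  have h2 : U ^ (hf k (1 - c g)).val * U ^ m g = (U ^ j) ^ 2 ^ k := by
    rw [← pow_add, hj, ← pow_mul, mul_comm (2 ^ k) j]
  rw [ha, map_inv₀]
  have h3 : U ^ (hf k (1 - c g)).val * g y = (U ^ j * s g) ^ 2 ^ k * y := by
    rw [← h1, mul_pow, ← h2]
    ring
  have h4 : U ^ (hf k (1 - c g)).val = (g y)⁻¹ / y⁻¹ * (U ^ j * s g) ^ 2 ^ k := by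
    field_simp
    rw [h3]
    ring
  rw [mul_pow, h4, mul_pow (U ^ j * s g), ← pow_mul, ← pow_mul, mul_assoc,
    mul_comm (2 ^ k) (hf k (1 - c g)).val]

private lemma isf_nsmul {K M L : Type} [Field K] [Field M] [Field L] [Algebra K M]
    [Algebra K L] (W : WeierstrassCurve K) (f : M →ₐ[K] L) (i1 : DecidableEq M)
    (i2 : DecidableEq L) (n : ℕ) (P : (W⁄M).toAffine.Point) :
    pmap W f (letI := i1; n • P) = (letI := i2; n • pmap W f P) := by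
  obtain rfl : i1 = fun a b => Classical.propDecidable (a = b) := Subsingleton.elim _ _
  obtain rfl : i2 = fun a b => Classical.propDecidable (a = b) := Subsingleton.elim _ _
  exact map_nsmul _ _ _

private lemma isf_sub {L : Type} [Field L] (W : WeierstrassCurve.Affine L)
    (i1 i2 : DecidableEq L) (P Q : W.Point) :
    (letI := i1; P - Q) = (letI := i2; P - Q) := by
  obtain rfl : i1 = i2 := Subsingleton.elim _ _
  rfl

private lemma isf_add {L : Type} [Field L] (W : WeierstrassCurve.Affine L)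
    (i1 i2 : DecidableEq L) (P Q : W.Point) :
    (letI := i1; P + Q) = (letI := i2; P + Q) := by
  obtain rfl : i1 = i2 := Subsingleton.elim _ _
  rfl

private lemma isf_odd {G : Type*} [Group G] [TopologicalSpace G] (k : ℕ)
    (χ : G → ZMod (2 ^ (k + 1))) (hχ : Chr χ) (g : G) : (χ g).val % 2 = 1 := by
  have h1 : χ g * χ g⁻¹ = 1 := by rw [← hχ.mul, mul_inv_cancel, hχ.one]
  have hd : 2 ∣ 2 ^ (k + 1) := Dvd.intro_left (2 ^ k) rfl
  have h2 := congrArg (ZMod.castHom hd (ZMod 2)) h1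
  rw [map_mul, map_one] at h2
  by_contra hcon
  have h3 : 2 ∣ (χ g).val := by omega
  have h4 : ZMod.castHom hd (ZMod 2) (χ g) = 0 := by
    rw [← ZMod.natCast_zmod_val (χ g), map_natCast, ZMod.natCast_eq_zero_iff]
    exact h3
  rw [h4, zero_mul] at h2
  exact absurd h2 (by decide)

private theorem isf_loc (hLc1 : S_Lc1) (hLc2 : S_Lc2) (hSep : S_Sep) (hRes : S_Res)
    (hH90 : S_H90) (hLvU : S_LvU) (hLvA : S_LvA) (hRgo : S_Rgo) (hPts : S_Pts) (hMap : S_Map)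
    (hFVn : S_FVn) (hWRa : S_WRa) (hWmp : S_Wmp) (hWt : S_Wt) (hWtc : S_Wtc) (hTq : S_Tq)
    (hKpt : S_Kpt) {F : Type} [Field F] [Finite F] [CharP F 2] (PP : Finset F[X])
    (hPP : ∀ P ∈ PP, P.Monic ∧ Irreducible P) (v : AbsoluteValue (RatFunc F) ℝ) (d : ℕ)
    (ϖ : RatFunc F) (R₀ : Finset (RatFunc F)) (hLF : LF v d ϖ R₀)
    (ι : Kgs F →ₐ[RatFunc F] Kvs v) (g₀ : Gal(Kvs v/v.Completion)) (D β : RatFunc F)
    (hβ : β ≠ 0) (k : ℕ) (Q : Pt D (β ^ 2) k (Kgs F)) (hQ : IsQ D β k Q)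
    (χ : GS PP → ZMod (2 ^ (k + 1))) (hχ : Chr χ) (hσ : ∀ σ : Gal(Kgs F/RatFunc F),
      pmap (EE D (β ^ 2) k) (σ : Kgs F →ₐ[RatFunc F] Kgs F) Q = (χ (rG PP σ)).val • Q)
    (w : Pt D (β ^ 2) k (Kgs F) → Kgs F) (hw : IsWt D (β ^ 2) k (Q + Q) w)
    (p : Pt D (β ^ 2) k (Kgs F)) (hp : SelF D (β ^ 2) k p) (x : ℤ)
    (hx : LV v (2 ^ k) ϖ g₀ (lz ι (w p) fun g => hf k (1 - χ g)) x) : (2 ^ k : ℤ) ∣ x := by
  have hβ2 : β ^ 2 ≠ 0 := pow_ne_zero 2 hβ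
  have hcp : CharP (RatFunc F) 2 :=
    charP_of_injective_algebraMap (algebraMap F (RatFunc F)).injective 2
  obtain ⟨-, -, -, -, -, -, c7, -⟩ := hLc1 F v d ϖ R₀ hLF
  obtain ⟨-, -, -, -, -, -, -, -, c9⟩ := hLc2 F v d ϖ R₀ hLF
  have hM : ASC (Kgs F) := (hSep (RatFunc F)).2.1
  have hL : ASC (Kvs v) := (hSep v.Completion).2.1
  have hKi : Infinite (RatFunc F) :=
    Infinite.of_injective (algebraMap F[X] (RatFunc F)) (RatFunc.algebraMap_injective F)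
  have hMi : Infinite (Kgs F) :=
    Infinite.of_injective _ (algebraMap (RatFunc F) (Kgs F)).injective
  have hLi : Infinite (Kvs v) :=
    Infinite.of_injective _ (algebraMap (RatFunc F) (Kvs v)).injective
  have hinf := (hKpt F v d ϖ R₀ hLF D (β ^ 2) hβ2).1
  have hnt : v.IsNontrivial := by
    refine ⟨ϖ, ?_, ne_of_lt hLF.pi1⟩
    rintro rfl
    have h0 := hLF.pi0
    rw [map_zero] at h0
    exact lt_irrefl _ h0
  obtain ⟨q, hq⟩ := hp.2 v hnt ι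
  have hq1 : ∀ S : Pt D (β ^ 2) k (Kvs v), S = pmap (EE D (β ^ 2) k) ι p - Fn D (β ^ 2) k q →
      ∀ g : Gal(Kvs v/v.Completion),
        pmap (EE D (β ^ 2) k) (g : Kvs v →ₐ[v.Completion] Kvs v) S = S := by
    rintro _ rfl
    exact hq
  have hw1 : ∀ S : Pt D (β ^ 2) k (Kgs F), S = Q + Q → IsWt D (β ^ 2) k S w := by
    rintro _ rfl
    exact hw
  obtain ⟨-, hr2, -, -⟩ := hRes (RatFunc F) (Kgs F) v.Completion (Kvs v) ι
  obtain ⟨-, -, hrg, -⟩ := hRgo F PP hPP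
  obtain ⟨y, hy0, hy⟩ := isf_core (K := RatFunc F) (Kv := v.Completion) (M := Kgs F)
    (L := Kvs v) hH90 hPts hMap hFVn hWRa hWmp hWt hWtc hTq hM hMi hL hLi D β hβ k Q hQ ι
    (fun g => χ (rOm (PP := PP) ι g)) (by
      intro g
      have h1 := isf_comp hPts hMap D (β ^ 2) hβ2 k ι (g : Kvs v →ₐ[v.Completion] Kvs v)
        ((rsH (M := v.Completion) ι g : Gal(Kgs F/RatFunc F)) : Kgs F →ₐ[RatFunc F] Kgs F)
        (hr2 g) Q
      rw [h1, hσ, hrg]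
      exact isf_nsmul _ _ _ _ _ _) (fun g => isf_odd k χ hχ _) w
    (hw1 _ (isf_add _ _ _ _ _)) p q (fun g => hq1 _ (isf_sub _ _ _ _ _) g) hinf
  obtain ⟨-, -, -, a4, a5, -⟩ := hLvA F v d ϖ R₀ hLF k g₀
    (fun g => (g : Gal(Kvs v/v.Completion)) y / y) (lz ι (w p) fun g => hf k (1 - χ g)) 0 0
  have h0 := hLvU F v d ϖ R₀ hLF k g₀ _ x 0 hx (a4 hy (a5 y hy0))
  rwa [sub_zero] at h0

theorem tIsF : S_LfP → S_LfI → S_Lc1 → S_Lc2 → S_Sep → S_Res → S_H90 → S_LvU → S_LvA → S_Hlo →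
    S_Rgo → S_Exp → S_Pts → S_Map → S_FVn → S_WRa → S_Wmp → S_Inf → S_Wt → S_Wtc → S_Tq → S_Kpt →
    S_IsF := by
  intro hLfP hLfI hLc1 hLc2 hSep hRes hH90 hLvU hLvA _ hRgo _ hPts hMap hFVn hWRa hWmp _ hWt
    hWtc hTq hKpt F _ _ _ κ PP hPP A hA g₀ _ D β _ _ hβ0 k Q hQ χ hχ hσ w hw p hp w' x hx
  obtain ⟨R₀, hLF⟩ : ∃ R₀, LF (A.av w') (dgP (w'.map Subtype.val))
      (unP (w'.map Subtype.val)) R₀ := by
    have h1 := hA.pl w'
    revert h1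
    generalize A.av w' = v
    intro h1
    rcases w' with _ | P
    · exact hLfI F v h1
    · exact hLfP F P.1 v h1
  exact isf_loc hLc1 hLc2 hSep hRes hH90 hLvU hLvA hRgo hPts hMap hFVn hWRa hWmp hWt hWtc hTq
    hKpt PP hPP (A.av w') _ _ R₀ hLF (A.emb w') (g₀ w') D β hβ0 k Q hQ χ hχ hσ w hw p hp x hx

end Pool.Agent.MP72W
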