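import Pool.Agent.Lib.MP_72e2e6_nt.W2.D.Spec

/-!
# MP_72e2e6_nt, theorem T3, part D: points over the completions
-/

namespace Pool.Agent.MP72W

open Polynomial IntermediateField WeierstrassCurve

open scoped Classical

theorem tKpt (h0 : S_Lc1) (h1 : S_Pts) (h2 : S_Map) : S_Kpt := by
  intro F _ _ _ v d ϖ R hLF D γ hγ
  obtain ⟨l1, -, -, -, -, -, l7, l8, -, -⟩ := h0 F v d ϖ R hLF
  have hchK : CharP (RatFunc F) 2 := charP_of_injective_algebraMap
    (algebraMap F (RatFunc F)).injective 2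
  refine ⟨?_, ?_⟩
  · obtain ⟨hE, ha2, ha6, -, -⟩ := h2 (RatFunc F) D γ hγ 0 v.Completion
    obtain ⟨-, p2, p3, -⟩ := h1 v.Completion ((EE D γ 0)⁄v.Completion).toAffine hE
    rw [pow_zero, pow_one] at ha2 ha6
    set δ : v.Completion := algebraMap (RatFunc F) v.Completion D with hδ
    set g : v.Completion := algebraMap (RatFunc F) v.Completion γ with hg
    have hex : ∀ B : ℝ, 0 ≤ B → ∃ P : Pt D γ 0 v.Completion, B < ‖px P‖ := by
      intro B hB
      have hw : 1 < (v ϖ)⁻¹ := (one_lt_inv₀ hLF.pi0).mpr hLF.pi1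
      obtain ⟨n, hn⟩ := pow_unbounded_of_one_lt (2 + ‖δ‖ + B + ‖g‖) hw
      obtain ⟨η, hη⟩ : ∃ η : v.Completion, 2 + ‖δ‖ + B + ‖g‖ < ‖η‖ := by
        refine ⟨algebraMap (RatFunc F) v.Completion (ϖ⁻¹ ^ n), ?_⟩
        have e : ‖algebraMap (RatFunc F) v.Completion (ϖ⁻¹ ^ n)‖ = (v ϖ)⁻¹ ^ n := by
          rw [l1, map_pow, map_inv₀]
        exact lt_of_lt_of_eq hn e.symm
      have hd0 := norm_nonneg δ
      have hg0 := norm_nonneg g
      have hx : 1 + B + ‖g‖ ≤ ‖η ^ 2 + η + δ‖ := by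
        have e1 : ‖η ^ 2‖ ≤ ‖η ^ 2 + η + δ‖ + (‖η‖ + ‖δ‖) := by
          have e2 : η ^ 2 = (η ^ 2 + η + δ) - (η + δ) := by ring
          calc ‖η ^ 2‖ = ‖(η ^ 2 + η + δ) - (η + δ)‖ := by rw [← e2]
            _ ≤ ‖η ^ 2 + η + δ‖ + ‖η + δ‖ := norm_sub_le _ _
            _ ≤ _ := by linarith [norm_add_le η δ]
        rw [norm_pow] at e1
        nlinarith
      have hx0 : η ^ 2 + η + δ ≠ 0 := by
        intro h
        rw [h, norm_zero] at hx
        linarith
      have hlt : ‖g / (η ^ 2 + η + δ) ^ 2‖ < 1 := by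
        rw [norm_div, norm_pow, div_lt_one (by positivity)]
        nlinarith
      obtain ⟨θ, -, hθ⟩ := l8 _ hlt
      have two : (2 : v.Completion) = 0 := CharTwo.two_eq_zero
      obtain ⟨P, hP⟩ := p3 (η ^ 2 + η + δ) ((η + θ) * (η ^ 2 + η + δ)) (by
        rw [ha2, ha6]
        have e : g = (θ ^ 2 + θ) * (η ^ 2 + η + δ) ^ 2 := by
          rw [hθ, div_mul_cancel₀ _ (pow_ne_zero 2 hx0)]
        linear_combination (-1 : v.Completion) * e +
          (η * θ - δ) * (η ^ 2 + η + δ) ^ 2 * two)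
      refine ⟨P, ?_⟩
      rw [(p2 P _ _ hP).2.1]
      linarith
    by_contra hfin
    rw [not_infinite_iff_finite] at hfin
    have hbd : ∃ B : ℝ, 0 ≤ B ∧ ∀ P : Pt D γ 0 v.Completion, ‖px P‖ ≤ B := by
      obtain ⟨B, hB⟩ := (Set.finite_range
        (fun P : Pt D γ 0 v.Completion => ‖px P‖)).bddAbove
      refine ⟨max B 0, le_max_right _ _, fun P => le_trans (hB ⟨P, rfl⟩) (le_max_left _ _)⟩
    obtain ⟨B, hB0, hB⟩ := hbd
    obtain ⟨P, hP⟩ := hex B hB0
    exact absurd (hB P) (not_le.mpr hP)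
  · intro k P hfix
    obtain ⟨hE, ha2, ha6, -, hm⟩ := h2 (RatFunc F) D γ hγ k (Kvs v)
    obtain ⟨hE', ha2', ha6', -, hm'⟩ := h2 (RatFunc F) D γ hγ k v.Completion
    obtain ⟨q1, q2, -, q4, -⟩ := h1 (Kvs v) ((EE D γ k)⁄(Kvs v)).toAffine hE
    obtain ⟨-, -, p3, -⟩ := h1 v.Completion ((EE D γ k)⁄v.Completion).toAffine hE'
    rcases q1 P with h | ⟨x, y, h⟩
    · exact ⟨0, by rw [h, map_zero]⟩
    · have hfx : ∀ g : Gal(Kvs v/v.Completion), g x = x ∧ g y = y := by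
        intro g
        have e1 := (hm v.Completion (Kvs v) (g : Kvs v →ₐ[v.Completion] Kvs v)).1 P x y h
        rw [hfix g] at e1
        have e2 := q2 P _ _ e1
        have e3 := q2 P _ _ h
        exact ⟨e2.2.1.symm.trans e3.2.1, e2.2.2.1.symm.trans e3.2.2.1⟩
      obtain ⟨x₀, hx₀⟩ := (InfiniteGalois.mem_range_algebraMap_iff_fixed x).mpr
        (fun g => (hfx g).1)
      obtain ⟨y₀, hy₀⟩ := (InfiniteGalois.mem_range_algebraMap_iff_fixed y).mpr
        (fun g => (hfx g).2)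
      have heq := (q2 P _ _ h).2.2.2
      obtain ⟨P₀, hP₀⟩ := p3 x₀ y₀ (by
        apply (algebraMap v.Completion (Kvs v)).injective
        rw [ha2', ha6']
        simp only [map_add, map_mul, map_pow, hx₀, hy₀]
        rw [heq, ha2, ha6]
        simp only [map_pow, ← IsScalarTower.algebraMap_apply])
      refine ⟨P₀, ?_⟩
      have e1 := (hm' v.Completion (Kvs v) (Algebra.ofId v.Completion (Kvs v))).1 P₀ x₀ y₀ hP₀
      apply q4 _ _ x y _ h
      rw [Algebra.ofId_apply, Algebra.ofId_apply, hx₀, hy₀] at e1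
      exact e1

end Pool.Agent.MP72W
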