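import Pool.Agent.Lib.MP_72e2e6_nt.W2.D.Spec

/-!
# MP_72e2e6_nt, theorem T3, part D: module Map (base change and homomorphisms of fields)
-/

namespace Pool.Agent.MP72W

open Polynomial IntermediateField WeierstrassCurve

open scoped Classical

theorem tMap : S_Map := by
  intro K _ _ D γ hγ j L _ _
  have e1 : ((EE D γ j)⁄L).toAffine.a₁ = 1 := map_one (algebraMap K L)
  have e3 : ((EE D γ j)⁄L).toAffine.a₃ = 0 := map_zero (algebraMap K L)
  have e4 : ((EE D γ j)⁄L).toAffine.a₄ = 0 := map_zero (algebraMap K L)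
  have e6 : ((EE D γ j)⁄L).toAffine.a₆ = algebraMap K L (γ ^ 2 ^ j) := rfl
  have hf : ∀ (S M : Type) [Field S] [Field M] [Algebra K S] [Algebra K M] [Algebra S L]
      [Algebra S M] [IsScalarTower K S L] [IsScalarTower K S M] (f : L →ₐ[S] M)
      (P : Pt D γ j L) (x y : L), XY P x y → XY (pmap (EE D γ j) f P) (f x) (f y) := by
    rintro S M _ _ _ _ _ _ _ _ f P x y ⟨h, rfl⟩
    exact ⟨_, Affine.Point.map_some f h⟩
  refine ⟨⟨e1, e3, e4, ?_⟩, rfl, e6, charP_of_injective_algebraMap (algebraMap K L).injective 2, ?_⟩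
  · rw [e6]
    exact (map_ne_zero (algebraMap K L)).2 (pow_ne_zero _ hγ)
  · intro S M _ _ _ _ _ _ _ _ f
    refine ⟨hf S M f, Affine.Point.map_injective f, ?_⟩
    rintro (_ | ⟨x, y, h⟩)
    · exact ⟨(map_zero f).symm, (map_zero f).symm⟩
    · exact ⟨rfl, rfl⟩

end Pool.Agent.MP72W
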