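import Pool.Agent.Lib.MP_72e2e6_nt.W2.D.Spec
import Pool.Agent.Lib.MP_72e2e6_nt.W2.B.Twb

/-!
# MP_72e2e6_nt, theorem T3, part D: homomorphisms of the Galois group of `K^s` to `ZMod 2`
unramified outside `PP` and infinity
-/

namespace Pool.Agent.MP72W

open Polynomial IntermediateField WeierstrassCurve

open scoped Classical

/-- the norm of `θ ^ 2 + θ` -/
private theorem nrf_norm (hLc2 : S_Lc2)
    (F : Type) [Field F] [Finite F] [CharP F 2] (v : AbsoluteValue (RatFunc F) ℝ) (d : ℕ)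
    (ϖ : RatFunc F) (R : Finset (RatFunc F)) (hLF : LF v d ϖ R) (θ : Kvs v)
    (h : 1 < nm v (θ ^ 2 + θ)) : nm v (θ ^ 2 + θ) = nm v θ ^ 2 := by
  obtain ⟨n0, -, nmul, nadd, -, -, -, -, hch⟩ := hLc2 F v d ϖ R hLF
  have := hch
  have hsq : nm v (θ ^ 2) = nm v θ ^ 2 := by rw [sq, nmul, sq]
  have h1 : nm v (θ ^ 2 + θ) ≤ max (nm v θ ^ 2) (nm v θ) := by
    rw [← hsq]
    exact nadd _ _
  have h2 : 1 < nm v θ := by
    by_contra hc
    have hc' : nm v θ ≤ 1 := not_lt.1 hc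
    have h3 : nm v θ ^ 2 ≤ 1 := pow_le_one₀ (n0 θ) hc'
    exact absurd (h.trans_le (h1.trans (max_le h3 hc'))) (lt_irrefl 1)
  have h3 : nm v θ < nm v θ ^ 2 := by nlinarith
  apply le_antisymm
  · rwa [max_eq_left h3.le] at h1
  · have h4 : θ ^ 2 = (θ ^ 2 + θ) + θ := by
      rw [add_assoc, CharTwo.add_self_eq_zero, add_zero]
    have h5 : nm v θ ^ 2 ≤ max (nm v (θ ^ 2 + θ)) (nm v θ) := by
      rw [← hsq]
      conv_lhs => rw [h4]
      exact nadd _ _
    rcases le_max_iff.1 h5 with h6 | h6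
    · exact h6
    · exact absurd (h3.trans_le h6) (lt_irrefl _)

private theorem nrf_loc (hLfP : S_LfP) (hLc1 : S_Lc1) (hLc2 : S_Lc2) (hNr : S_Nr) (hFr : S_Fr)
    (hHas : S_Has) (hSep : S_Sep) (hRes : S_Res) (hDrg : S_Drg)
    (F : Type) [Field F] [Finite F] [CharP F 2] (P : F[X]) (hPm : P.Monic) (hPi : Irreducible P)
    (v : AbsoluteValue (RatFunc F) ℝ) (hv : IsPl (some P) v) (ι : Kgs F →ₐ[RatFunc F] Kvs v)
    (f₀ Dp Rr y : RatFunc F) (e : ℕ) (hDp : Dp ∈ DP P e) (hRr : v Rr ≤ 1)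
    (hf₀ : f₀ = Dp + Rr + (y ^ 2 + y))
    (hz : ∀ g : Gal(Kvs v/v.Completion), IsGeo (Nat.card F) g →
      hAS (RatFunc F) (Kgs F) f₀ (rsH (M := v.Completion) ι g) = 0) : Dp = 0 := by
  obtain ⟨R, hLF⟩ := hLfP F P v hv
  obtain ⟨l1, -, -, -, -, -, hch1, -, -, -⟩ := hLc1 F v _ _ R hLF
  obtain ⟨n0, n00, nmul, nadd, nalg, -, -, -, hch2⟩ := hLc2 F v _ _ R hLF
  obtain ⟨r1, -, -, -, -, r6, -⟩ := hNr F v _ _ R hLF
  obtain ⟨-, -, fr3⟩ := hFr F v _ _ R hLF
  have := hch1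
  obtain ⟨-, rootM, -⟩ := hSep v.Completion
  obtain ⟨-, rootK, -⟩ := hSep (RatFunc F)
  obtain ⟨-, as2, as3, as4⟩ := hHas v.Completion (Kvs v)
  obtain ⟨-, -, -, res4⟩ := hRes (RatFunc F) (Kgs F) v.Completion (Kvs v) ι
  by_contra hne
  -- geometric elements
  have hroot : ∀ f : v.Completion, ∃ θ : Kvs v, θ ^ 2 + θ = algebraMap v.Completion (Kvs v) f :=
    fun f => rootM _
  have key : ∀ g : Gal(Kvs v/v.Completion), IsGeo (Nat.card F) g →
      hAS v.Completion (Kvs v) (algebraMap (RatFunc F) v.Completion Dp) g = 0 := by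
    intro g hg
    have e1 := hz g hg
    rw [res4 f₀ g (rootK _), hf₀, map_add, map_add, as3 _ _ (hroot _) (hroot _),
      as3 _ _ (hroot _) (hroot _)] at e1
    have e2 : hAS v.Completion (Kvs v) (algebraMap (RatFunc F) v.Completion Rr) g = 0 :=
      fr3 g hg _ (by rw [l1]; exact hRr)
    have e3 : hAS v.Completion (Kvs v) (algebraMap (RatFunc F) v.Completion (y ^ 2 + y)) g = 0 :=
      (as4 _ (hroot _)).2 ⟨algebraMap (RatFunc F) v.Completion y, by rw [map_add, map_pow]⟩ g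
    rw [e2, e3, add_zero, add_zero] at e1
    exact e1
  obtain ⟨θ, hθ⟩ := hroot (algebraMap (RatFunc F) v.Completion Dp)
  have hθK : θ ∈ Knr v := by
    rw [← InfiniteGalois.fixedField_fixingSubgroup (Knr v), IntermediateField.mem_fixedField_iff]
    intro g hg
    rw [IntermediateField.mem_fixingSubgroup_iff] at hg
    have hgeo : IsGeo (Nat.card F) g := (r6 g).2 hg
    rw [as2 _ θ hθ g, key g hgeo]
    unfold o2
    rw [if_pos rfl, add_zero]
  obtain ⟨i, -, hi⟩ := ((hDrg F 0 P hPm hPi (some P) v hv e).1 Dp hDp).1 rfl hne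
  have hnm : nm v (θ ^ 2 + θ) = 2 ^ (2 * i + 1) := by
    rw [hθ, nalg, l1, hi]
  have hgt : 1 < nm v (θ ^ 2 + θ) := by
    rw [hnm]
    exact one_lt_pow₀ (by norm_num) (by omega)
  have hsq := nrf_norm hLc2 F v _ _ R hLF θ hgt
  have hθ0 : θ ≠ 0 := by
    rintro rfl
    rw [hsq, (n00 0).2 rfl] at hgt
    norm_num at hgt
  obtain ⟨n, hn⟩ := r1 θ hθK hθ0
  have hvP : v (algebraMap F[X] (RatFunc F) P) = 1 / 2 := by
    have h1 := hv.2.2 P hPm.ne_zero
    rwa [multiplicity_self, pow_one] at h1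
  rw [hsq, hn, hvP] at hnm
  have e1 : ((1 / 2 : ℝ) ^ n) ^ 2 = (2 : ℝ) ^ (-2 * n : ℤ) := by
    rw [one_div, inv_zpow', ← zpow_natCast, ← zpow_mul]
    congr 1
    push_cast
    ring
  have e2 : (2 : ℝ) ^ (2 * i + 1) = (2 : ℝ) ^ ((2 * i + 1 : ℕ) : ℤ) := (zpow_natCast _ _).symm
  rw [e1, e2] at hnm
  have h3 := zpow_right_injective₀ (by norm_num : (0 : ℝ) < 2) (by norm_num) hnm
  push_cast at h3
  omega

theorem tNrf (_hAv : S_Av) (hLfP : S_LfP) (hLc1 : S_Lc1) (hLc2 : S_Lc2) (hNr : S_Nr)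
    (hFr : S_Fr) (hHas : S_Has) (hSep : S_Sep) (hRes : S_Res) (hDrg : S_Drg) (hAsr : S_Asr)
    (hPfs : S_Pfs) (hFin2 : S_Fin2) (hOmi : S_Omi) : S_Nrf := by
  intro F _ _ _ PP hPP h hh hloc
  obtain ⟨-, rootK, sep3⟩ := hSep (RatFunc F)
  obtain ⟨f₀, hf₀⟩ := sep3 h hh
  obtain ⟨-, ⟨κ, hκ⟩, -⟩ := hFin2 F
  set PP' : Finset F[X] := PP ∪
    (UniqueFactorizationMonoid.normalizedFactors f₀.denom).toFinset with hPP'd
  have hden : f₀.denom ≠ 0 := RatFunc.denom_ne_zero f₀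
  have hPP' : ∀ P ∈ PP', P.Monic ∧ Irreducible P := by
    intro P hP
    rw [hPP'd, Finset.mem_union] at hP
    rcases hP with hP | hP
    · exact hPP P hP
    · rw [Multiset.mem_toFinset, Polynomial.mem_normalizedFactors_iff hden] at hP
      exact ⟨hP.2.1, hP.1⟩
  obtain ⟨-, -, asr3', -⟩ := hAsr F κ PP' hPP'
  have hf₀' : f₀ ∈ AS PP' := by
    rw [asr3']
    intro P hPm hPi hPn hPd
    apply hPn
    rw [hPP'd, Finset.mem_union]
    right
    rw [Multiset.mem_toFinset, Polynomial.mem_normalizedFactors_iff hden]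
    exact ⟨hPi, hPm, hPd⟩
  obtain ⟨e, D, hD, c, y, hy, hsum⟩ := hPfs F κ hκ PP' hPP' f₀ hf₀'
  set kc : RatFunc F := if c = 0 then 0 else RatFunc.C κ with hkc
  -- the principal parts outside PP vanish
  have hzero : ∀ Q : PP', (Q : F[X]) ∉ PP → D (some Q) = 0 := by
    intro Q hQ
    obtain ⟨hQm, hQi⟩ := hPP' Q Q.2
    obtain ⟨v, hv, ι, hι⟩ := hloc Q hQm hQi hQ
    have hDQ : D (some Q) ∈ DP (Q : F[X]) (e (some Q)) := hD (some Q)
    obtain ⟨R, hLF⟩ := hLfP F Q v hv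
    have hsum2 : f₀ = D (some Q) + (∑ w ∈ Finset.univ.erase (some Q), D w + kc) + (y ^ 2 + y) := by
      rw [hsum, ← Finset.add_sum_erase Finset.univ D (Finset.mem_univ (some Q)), add_assoc (D _)]
    refine nrf_loc hLfP hLc1 hLc2 hNr hFr hHas hSep hRes hDrg F Q hQm hQi v hv ι f₀
      (D (some Q)) (∑ w ∈ Finset.univ.erase (some Q), D w + kc) y (e (some Q)) hDQ ?_ hsum2 ?_
    · have hna := hLF.na
      have hs : v (∑ w ∈ Finset.univ.erase (some Q), D w) ≤ 1 := by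
        refine Finset.sum_induction D (fun x => v x ≤ 1)
          (fun a b ha hb => (hna a b).trans (max_le ha hb)) (by simp) ?_
        intro w hw
        have hwQ : w ≠ some Q := (Finset.mem_erase.1 hw).1
        rcases w with _ | Q'
        · exact ((hDrg F κ Q hQm hQi (some (Q : F[X])) v hv (e none)).2 _ (hD none)).2
            (Option.some_ne_none _)
        · obtain ⟨hQ'm, hQ'i⟩ := hPP' Q' Q'.2
          refine ((hDrg F κ Q' hQ'm hQ'i (some (Q : F[X])) v hv (e (some Q'))).1 _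
            (hD (some Q'))).2.1 ?_
          intro heq
          apply hwQ
          rw [Option.some.injEq] at heq ⊢
          exact Subtype.ext heq.symm
      have hk : v kc ≤ 1 := by
        rw [hkc]
        split_ifs with hc
        · rw [map_zero]
          exact zero_le_one
        · by_cases hκ0 : κ = 0
          · rw [hκ0, map_zero, map_zero]
            exact zero_le_one
          · exact (hLF.one κ hκ0).le
      exact (hna _ _).trans (max_le hs hk)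
    · intro g hg
      have := hι g hg
      rwa [hf₀] at this
  obtain ⟨hfrac, hcl, -, -, -, asr6, asr7⟩ := hAsr F κ PP hPP
  have hfmem : ∑ w, D w + kc ∈ AS PP := by
    refine (AS PP).add_mem (sum_mem fun w _ => ?_) ?_
    · rcases w with _ | Q
      · exact asr7 none (e none) _ (hD none)
      · by_cases hQ : (Q : F[X]) ∈ PP
        · exact asr7 (some ⟨Q, hQ⟩) (e (some Q)) _ (hD (some Q))
        · rw [hzero Q hQ]
          exact (AS PP).zero_mem
    · rw [hkc]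
      split_ifs
      · exact (AS PP).zero_mem
      · exact asr6 κ
  obtain ⟨-, -, as3, as4⟩ := hHas (RatFunc F) (Kgs F)
  have hroot : ∀ f : RatFunc F, ∃ θ : Kgs F, θ ^ 2 + θ = algebraMap (RatFunc F) (Kgs F) f :=
    fun f => rootK _
  have hfin : h = hAS (RatFunc F) (Kgs F) (∑ w, D w + kc) := by
    rw [hf₀]
    funext g
    rw [hsum, as3 _ _ (hroot _) (hroot _), (as4 (y ^ 2 + y) (hroot _)).2 ⟨y, rfl⟩ g, add_zero]
  refine ⟨⟨∑ w, D w + kc, hfmem⟩, hfin, ?_⟩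
  intro σ
  obtain ⟨-, -, -, -, hgal, -⟩ := tTwb (AS PP) (RatFunc F) (Kgs F)
  obtain ⟨-, -, o3⟩ := hOmi (AS PP) (RatFunc F) (Kgs F)
  obtain ⟨-, -, -, res4⟩ := hRes (RatFunc F) (Om (AS PP) (RatFunc F) (Kgs F)) (RatFunc F) (Kgs F)
    (Om (AS PP) (RatFunc F) (Kgs F)).val
  have e1 := res4 (∑ w, D w + kc) σ (o3 ⟨∑ w, D w + kc, hfmem⟩)
  rw [hfin]
  exact e1.symm

end Pool.Agent.MP72W
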