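import Pool.Agent.Lib.MP_72e2e6_nt.W2.D.Spec

/-!
# MP_72e2e6_nt, theorem T3, part D: `S_Nz`
-/

namespace Pool.Agent.MP72W

open Polynomial IntermediateField WeierstrassCurve

open scoped Classical

theorem tNz (h1 : S_Pts) : S_Nz := by
  intro L _ _ W hW
  have h20 : (2 : L) = 0 := CharTwo.two_eq_zero
  obtain ⟨p1, p2, p3, p4, p5, p6, p7, p8, p9, p10⟩ := h1 L W hW
  have coord : ∀ A : W.Point, A ≠ 0 → XY A (px A) (py A) ∧
      py A ^ 2 + px A * py A = px A ^ 3 + W.a₂ * px A ^ 2 + W.a₆ := by
    intro A hA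
    rcases p1 A with h | ⟨x, y, h⟩
    · exact absurd h hA
    · obtain ⟨-, e1, e2, e3⟩ := p2 _ _ _ h
      rw [e1, e2]
      exact ⟨h, e3⟩
  have negc : ∀ A : W.Point, A ≠ 0 → px (-A) = px A ∧ py (-A) = px A + py A := by
    intro A hA
    obtain ⟨-, e1, e2, -⟩ := p2 _ _ _ (p5 _ _ _ (coord A hA).1)
    exact ⟨e1, e2⟩
  have N1 : ∀ A B T : W.Point, A ≠ 0 → B ≠ 0 → A + B ≠ 0 → T ≠ 0 → nv A B T * nv A B (-T) =
      (px T + px A) * (px T + px B) * (px T + px (A + B)) := by
    intro A B T hA hB hAB hT
    obtain ⟨e1, e2, -, e4⟩ := p10 A B hA hB hAB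
    obtain ⟨n1, n2⟩ := negc T hT
    have u : ¬ (A = 0 ∨ B = 0) := by
      rintro (h | h)
      · exact hA h
      · exact hB h
    have v1 : nv A B T = py T + py A + sl A B * (px T + px A) := by
      unfold nv; rw [if_neg u, if_neg hAB]
    have v2 : nv A B (-T) = px T + py T + py A + sl A B * (px T + px A) := by
      unfold nv; rw [if_neg u, if_neg hAB, n1, n2]
    rw [v1, v2]
    have eT := (coord T hT).2
    have eA := (coord A hA).2
    have eB := (coord B hB).2
    have hm : py A + sl A B * px A = px A * px B + px (A + B) * (px A + px B) := by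
      by_cases hx : px A = px B
      · have hBA : B = A := by
          rcases p9 A B hA hB hx with h | h
          · exact h
          · exact absurd (by rw [h, add_neg_cancel]) hAB
        subst hBA
        have hx0 : px B ≠ 0 := by
          intro h0
          have h := (coord B hB).1
          rw [h0] at h
          exact hAB (p8 _ _ h).1
        rw [(p7 _ _ _ (coord B hB).1 hx0).1]
        field_simp
        linear_combination (py B - px (B + B) * px B) * h20
      · have hx' : px A + px B ≠ 0 := by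
          intro h
          apply hx
          linear_combination h - px B * h20
        refine mul_left_cancel₀ hx' ?_
        generalize px (A + B) = x3 at *
        generalize px A = x1 at *
        generalize px B = x2 at *
        generalize py A = y1 at *
        generalize py B = y2 at *
        generalize sl A B = s at *
        generalize W.a₂ = a at *
        generalize W.a₆ = b at *
        linear_combination eA + eB + (y2 + y1 + s * (x2 + x1)) * e4 + x2 * e4 +
          (x1 ^ 2 + x2 ^ 2) * e1 + (a * x1 ^ 2 + a * x2 ^ 2 + b + (-1) * s * x1 * y1 +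
          (-1) * s * x1 * y2 + s * x1 ^ 2 + (-1) * s * x2 * y1 + (-1) * s * x2 * y2 +
          (-1) * s ^ 2 * x1 * x2 + (-1) * x1 * x2 * x3 + (-1) * x1 ^ 2 * x3 + x1 ^ 3 +
          (-1) * x2 * y2 + (-1) * x2 ^ 2 * x3 + x2 ^ 3 + (-1) * y1 * y2 + (-1) * y1 ^ 2 +
          (-1) * y2 ^ 2) * h20
    generalize px (A + B) = x3 at *
    generalize px A = x1 at *
    generalize px B = x2 at *
    generalize py A = y1 at *
    generalize py B = y2 at *
    generalize px T = x at *
    generalize py T = y at *
    generalize sl A B = s at *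
    generalize W.a₂ = a at *
    generalize W.a₆ = b at *
    have he3 : (y1 + s * x1) ^ 2 + b = x1 * x2 * x3 := by
      linear_combination eA + x1 ^ 2 * e1 - x1 * hm + (a * x1 ^ 2 + b + s * x1 * y1 + s * x1 ^ 2 +
        s ^ 2 * x1 ^ 2 + (-1) * x1 * x2 * x3 + (-1) * x1 ^ 2 * x3 + x1 ^ 3) * h20
    linear_combination eT - x ^ 2 * e1 + x * hm + he3 + (s * x * y + s * x * y1 + s * x1 * y +
      s ^ 2 * x * x1 + (-1) * x ^ 2 * x1 + (-1) * x ^ 2 * x2 + y * y1) * h20
  have key : ∀ (H : AddSubgroup W.Point) (u v : W.Point), u ≠ 0 → v ≠ 0 → px u + px v = 0 →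
      v ∈ H → u ∈ H := by
    intro H u v hu hv h hvH
    have h' : px v = px u := by linear_combination h - px u * h20
    rcases p9 v u hv hu h' with h | h
    · rw [h]; exact hvH
    · rw [h]; exact H.neg_mem hvH
  have N2 : ∀ (H : AddSubgroup W.Point) (A B s : W.Point), A ∈ H → B ∈ H → s ∉ H →
      nv A B s ≠ 0 ∧ dv A B s ≠ 0 ∧ fv A B s ≠ 0 := by
    intro H A B s hA hB hs
    have hs0 : s ≠ 0 := fun h => hs (h ▸ H.zero_mem)
    have main : nv A B s ≠ 0 ∧ dv A B s ≠ 0 := by
      by_cases h0 : A = 0 ∨ B = 0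
      · constructor
        · unfold nv; rw [if_pos h0]; exact one_ne_zero
        · unfold dv; rw [if_pos (h0.imp_right Or.inl)]; exact one_ne_zero
      have hA0 : A ≠ 0 := fun h => h0 (Or.inl h)
      have hB0 : B ≠ 0 := fun h => h0 (Or.inr h)
      by_cases hAB : A + B = 0
      · constructor
        · unfold nv; rw [if_neg h0, if_pos hAB]
          intro h
          exact hs (key H s A hs0 hA0 h hA)
        · unfold dv; rw [if_pos (Or.inr (Or.inr hAB))]; exact one_ne_zero
      constructor
      · intro h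
        have h2 := N1 A B s hA0 hB0 hAB hs0
        rw [h, zero_mul] at h2
        rcases mul_eq_zero.mp h2.symm with h3 | h3
        · rcases mul_eq_zero.mp h3 with h4 | h4
          · exact hs (key H s A hs0 hA0 h4 hA)
          · exact hs (key H s B hs0 hB0 h4 hB)
        · exact hs (key H s _ hs0 hAB h3 (H.add_mem hA hB))
      · have : ¬ (A = 0 ∨ B = 0 ∨ A + B = 0) := by
          rintro (h | h | h)
          · exact hA0 h
          · exact hB0 h
          · exact hAB h
        unfold dv; rw [if_neg this]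
        intro h
        exact hs (key H s _ hs0 hAB h (H.add_mem hA hB))
    exact ⟨main.1, main.2, div_ne_zero main.1 main.2⟩
  refine ⟨N1, N2, ?_⟩
  intro H c d X hG hX
  unfold Av
  by_cases hX0 : X = 0
  · rw [if_pos hX0]; exact one_ne_zero
  rw [if_neg hX0]
  have hXn : -X ≠ 0 := neg_ne_zero.mpr hX0
  have hXH : -X ∈ H := H.neg_mem hX
  have hc : -c ∉ H := fun h => hG.hc (by simpa using H.neg_mem h)
  have hd : -d ∉ H := fun h => hG.hd (by simpa using H.neg_mem h)
  have hcd : -c + -d ∉ H := fun h => hG.hs (by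
    have := H.neg_mem h
    rwa [neg_add, neg_neg, neg_neg] at this)
  have hc0 : -c ≠ 0 := fun h => hc (h ▸ H.zero_mem)
  have hd0 : -d ≠ 0 := fun h => hd (h ▸ H.zero_mem)
  have hcd0 : -c + -d ≠ 0 := fun h => hcd (h ▸ H.zero_mem)
  have hne : px (-X) + px (-c + -d) ≠ 0 := fun h =>
    hcd (key H _ _ hcd0 hXn (by rw [add_comm]; exact h) hXH)
  unfold fv
  refine div_ne_zero ?_ ?_
  · intro h
    have h2 := N1 (-c) (-d) (-X) hc0 hd0 hcd0 hXn
    rw [h, zero_mul] at h2
    rcases mul_eq_zero.mp h2.symm with h3 | h3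
    · rcases mul_eq_zero.mp h3 with h4 | h4
      · exact hc (key H _ _ hc0 hXn (by rw [add_comm]; exact h4) hXH)
      · exact hd (key H _ _ hd0 hXn (by rw [add_comm]; exact h4) hXH)
    · exact hne h3
  · have : ¬ (-c = 0 ∨ -d = 0 ∨ -c + -d = 0) := by
      rintro (h | h | h)
      · exact hc0 h
      · exact hd0 h
      · exact hcd0 h
    unfold dv; rw [if_neg this]
    exact hne

end Pool.Agent.MP72W
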