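import Pool.Agent.Lib.MP_72e2e6_nt.W2.D.Spec

/-!
# MP_72e2e6_nt, theorem T3, part D: Psi, the character on the torsion points (helper82)
-/

set_option autoImplicit false

namespace Pool.Agent.MP72W

open Polynomial IntermediateField WeierstrassCurve

open scoped Classical

section group

variable {A : Type} [AddCommGroup A] {N : ℕ}

private lemma psi_nat {Q : A} (hQ : addOrderOf Q = N) (n : ℕ) :
    ((n : ZMod N)).val • Q = n • Q := by
  rw [ZMod.val_natCast, ← hQ, mod_addOrderOf_nsmul]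

variable [NeZero N]

private lemma psi_inj {Q : A} (hQ : addOrderOf Q = N) {x y : ZMod N}
    (h : x.val • Q = y.val • Q) : x = y := by
  rw [nsmul_inj_mod, hQ, Nat.mod_eq_of_lt (ZMod.val_lt x), Nat.mod_eq_of_lt (ZMod.val_lt y)] at h
  exact ZMod.val_injective N h

private lemma psi_mul {Q : A} (hQ : addOrderOf Q = N) (x y : ZMod N) :
    (x * y).val • Q = y.val • (x.val • Q) := by
  have h : x * y = ((y.val * x.val : ℕ) : ZMod N) := by
    rw [Nat.cast_mul, ZMod.natCast_zmod_val, ZMod.natCast_zmod_val, mul_comm]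
  rw [h, psi_nat hQ, mul_smul]

private lemma psi_neg {Q : A} (hQ : addOrderOf Q = N) (x : ZMod N) :
    (-x).val • Q = -(x.val • Q) := by
  rw [← add_eq_zero_iff_eq_neg, ← add_nsmul, ← psi_nat hQ, Nat.cast_add, ZMod.natCast_zmod_val,
    ZMod.natCast_zmod_val, neg_add_cancel, ZMod.val_zero, zero_nsmul]

end group

section core

variable {K : Type} [Field K] [CharP K 2] {L : Type} [Field L] [Algebra K L]

private lemma psi_sq [CharP L 2] (u v : L) (h : u ^ 2 = v ^ 2) : u = v := by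
  have two : (2 : L) = 0 := CharTwo.two_eq_zero
  have h7 : (u - v) ^ 2 = 0 := by
    linear_combination h + (v ^ 2 - u * v) * two
  exact sub_eq_zero.1 (pow_eq_zero_iff (by norm_num) |>.1 h7)

/-- `2 ^ k Q` is rational for `Q ∈ E_{k + 1}`. -/
private lemma psi_rat (h7 : S_Pts) (h8 : S_Map) (h9 : S_FV) (h10 : S_FVh) (h13 : S_Tq) (β : K)
    (hβ : β ≠ 0) (σ : L →ₐ[K] L) : ∀ (k : ℕ) (Q : Pt 0 (β ^ 2) (k + 1) L), IsQ 0 β (k + 1) Q →
      pmap (EE 0 (β ^ 2) (k + 1)) σ (2 ^ k • Q) = 2 ^ k • Q := by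
  have hβ2 : β ^ 2 ≠ 0 := pow_ne_zero 2 hβ
  intro k
  induction k with
  | zero =>
    intro Q hQ
    obtain ⟨m1, -⟩ := h8 K 0 (β ^ 2) hβ2 0 L
    obtain ⟨n1, n2, n3, n4, n5⟩ := h8 K 0 (β ^ 2) hβ2 (0 + 1) L
    obtain ⟨-, p2, -⟩ := h7 L ((EE 0 (β ^ 2) 0)⁄L).toAffine m1
    obtain ⟨q1, q2, -, q4, -⟩ := h7 L ((EE 0 (β ^ 2) (0 + 1))⁄L).toAffine n1
    obtain ⟨-, -, -, f4, f5, f6, -⟩ := h9 K 0 (β ^ 2) hβ2 0 L
    obtain ⟨k1, -, -⟩ := n5 K L σ
    have two : (2 : L) = 0 := CharTwo.two_eq_zero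
    have hQ' : XY (Vi 0 (β ^ 2) 0 Q) 0 (algebraMap K L β) := hQ
    obtain ⟨hne, hpx, -, -⟩ := p2 _ _ _ hQ'
    rw [pow_zero, one_nsmul]
    rcases q1 Q with h | ⟨X, Y, hXY⟩
    · rw [h] at hne
      exact absurd f4 hne
    · have hX : X ≠ 0 := by
        rintro rfl
        exact hne (f5 Q Y hXY)
      obtain ⟨-, hpx2, -, -⟩ := p2 _ _ _ (f6 Q X Y hXY hX)
      rw [hpx2, pow_zero, pow_one] at hpx
      have hXβ : X = algebraMap K L β := by
        apply psi_sq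
        rw [← map_pow]
        have h2 : (X + algebraMap K L (β ^ 2) / X) * X = 0 := by rw [hpx, zero_mul]
        have h3 : X ^ 2 + algebraMap K L (β ^ 2) = 0 := by
          rw [← h2]
          field_simp
        linear_combination h3 - algebraMap K L (β ^ 2) * two
      obtain ⟨-, -, -, hE⟩ := q2 _ _ _ hXY
      rw [n2, n3, zero_add, pow_one, zero_pow (by norm_num), map_zero, zero_mul, add_zero,
        map_pow, map_pow, hXβ] at hE
      have hY : Y = algebraMap K L (β ^ 2) ∨ Y = algebraMap K L (β ^ 2 + β) := by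
        rw [map_add, map_pow]
        have h2 : (Y - algebraMap K L β ^ 2) * (Y - (algebraMap K L β ^ 2 + algebraMap K L β)) =
            0 := by
          linear_combination hE + (algebraMap K L β ^ 4 + algebraMap K L β ^ 3 -
            Y * algebraMap K L β ^ 2 - Y * algebraMap K L β) * two
        rcases mul_eq_zero.1 h2 with h3 | h3
        · exact Or.inl (sub_eq_zero.1 h3)
        · exact Or.inr (sub_eq_zero.1 h3)
      have hσX : σ X = X := by rw [hXβ]; exact σ.commutes β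
      have hσY : σ Y = Y := by
        rcases hY with h | h <;> rw [h] <;> exact σ.commutes _
      have h1 := k1 Q X Y hXY
      rw [hσX, hσY] at h1
      exact q4 _ _ _ _ h1 hXY
  | succ k ih =>
    intro Q hQ
    obtain ⟨g1, -, g3, -, g5⟩ := h10 K 0 (β ^ 2) hβ2 (k + 1) L
    obtain ⟨-, -, -, -, t5⟩ := h13 K 0 β hβ L (k + 1)
    obtain ⟨g6, -⟩ := g5 K L σ
    have f0 : Fi 0 (β ^ 2) (k + 1) (0 : Pt 0 (β ^ 2) (k + 1) L) = 0 := by
      have := g1 0 0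
      rw [add_zero] at this
      exact left_eq_add.1 this
    have hFn : ∀ (n : ℕ) (R : Pt 0 (β ^ 2) (k + 1) L),
        Fi 0 (β ^ 2) (k + 1) (n • R) = n • Fi 0 (β ^ 2) (k + 1) R := by
      intro n R
      induction n with
      | zero => rw [zero_nsmul, zero_nsmul, f0]
      | succ n ihn => rw [succ_nsmul, succ_nsmul, g1, ihn]
    have h1 : 2 ^ (k + 1) • Q = Fi 0 (β ^ 2) (k + 1) (2 ^ k • Vi 0 (β ^ 2) (k + 1) Q) := by
      rw [hFn, g3, show 2 ^ (k + 1) = 2 ^ k * 2 from pow_succ 2 k, mul_smul, two_nsmul]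
    rw [h1, g6, ih _ (t5 Q hQ)]

private theorem psi_core (h7 : S_Pts) (h8 : S_Map) (h9 : S_FV) (h10 : S_FVh) (h13 : S_Tq)
    (h15 : S_Tws) (β : K) (hβ : β ≠ 0) (k : ℕ) (Q : Pt 0 (β ^ 2) k L) (hQ : IsQ 0 β k Q) :
    ∃ ψ : (L →ₐ[K] L) → ZMod (2 ^ (k + 1)), ψ (AlgHom.id K L) = 1 ∧
      (∀ σ τ, ψ (σ.comp τ) = ψ σ * ψ τ) ∧ (∀ σ, ∃ m, ψ σ = 1 + 4 * m) ∧
      (∀ σ τ : L →ₐ[K] L, σ (px Q) = τ (px Q) → σ (py Q) = τ (py Q) → ψ σ = ψ τ) ∧
      ∀ (D : K) (α : L), α ^ 2 + α = algebraMap K L D → ∃ Q' : Pt D (β ^ 2) k L, IsQ D β k Q' ∧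
        ∀ σ : L →ₐ[K] L, (σ α = α → pmap (EE D (β ^ 2) k) σ Q' = (ψ σ).val • Q') ∧
          (σ α = α + 1 → pmap (EE D (β ^ 2) k) σ Q' = (-(ψ σ)).val • Q') := by
  have hβ2 : β ^ 2 ≠ 0 := pow_ne_zero 2 hβ
  obtain ⟨t1, -, t3, t4, -⟩ := h13 K 0 β hβ L k
  have hord := (t1 Q hQ).2
  have hex : ∀ σ : L →ₐ[K] L, ∃ m : ℕ, pmap (EE 0 (β ^ 2) k) σ Q = (1 + 2 * m) • Q := by
    intro σ
    obtain ⟨m, hm⟩ := t3 Q (pmap (EE 0 (β ^ 2) k) σ Q) hQ (t4 Q K L σ hQ)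
    refine ⟨m, ?_⟩
    rw [hm, add_nsmul, one_nsmul, mul_comm 2 m, mul_smul, two_nsmul]
  choose m hm using hex
  have hψ : ∀ σ : L →ₐ[K] L, pmap (EE 0 (β ^ 2) k) σ Q =
      (((1 + 2 * m σ : ℕ) : ZMod (2 ^ (k + 1)))).val • Q := by
    intro σ
    rw [psi_nat hord, hm]
  obtain ⟨n1, -, -, n4, n5⟩ := h8 K 0 (β ^ 2) hβ2 k L
  obtain ⟨q1, q2, -, q4, -⟩ := h7 L ((EE 0 (β ^ 2) k)⁄L).toAffine n1
  have hQne : Q ≠ 0 := by
    rintro rfl
    rw [addOrderOf_zero] at hord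
    have := Nat.one_lt_two_pow (Nat.succ_ne_zero k)
    omega
  refine ⟨fun σ => ((1 + 2 * m σ : ℕ) : ZMod (2 ^ (k + 1))), ?_, ?_, ?_, ?_, ?_⟩
  · apply psi_inj hord
    beta_reduce
    rw [← hψ]
    have h1 : ((1 : ℕ) : ZMod (2 ^ (k + 1))) = 1 := Nat.cast_one
    rw [← h1, psi_nat hord, one_nsmul]
    obtain ⟨X, Y, hXY⟩ := (q1 Q).resolve_left hQne
    obtain ⟨k1, -, -⟩ := n5 K L (AlgHom.id K L)
    exact q4 _ _ _ _ (k1 Q X Y hXY) hXY
  · intro σ τ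
    apply psi_inj hord
    beta_reduce
    rw [psi_mul hord, ← hψ, ← hψ]
    obtain ⟨X, Y, hXY⟩ := (q1 Q).resolve_left hQne
    obtain ⟨k1, -, -⟩ := n5 K L (σ.comp τ)
    obtain ⟨k2, -, -⟩ := n5 K L σ
    obtain ⟨k3, -, -⟩ := n5 K L τ
    have h1 : pmap (EE 0 (β ^ 2) k) (σ.comp τ) Q =
        pmap (EE 0 (β ^ 2) k) σ (pmap (EE 0 (β ^ 2) k) τ Q) :=
      q4 _ _ _ _ (k1 Q X Y hXY) (k2 _ _ _ (k3 Q X Y hXY))
    rw [h1, hψ τ, map_nsmul]
  · intro σ
    beta_reduce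
    rcases Nat.eq_zero_or_pos k with rfl | hk
    · refine ⟨0, ?_⟩
      rw [Nat.cast_add, Nat.cast_mul, Nat.cast_one, mul_zero, add_zero]
      have h2 : ((2 : ℕ) : ZMod (2 ^ (0 + 1))) = 0 := by decide
      rw [h2, zero_mul, add_zero]
    · obtain ⟨k', rfl⟩ : ∃ k', k = k' + 1 := ⟨k - 1, by omega⟩
      have h1 := psi_rat h7 h8 h9 h10 h13 β hβ σ k' Q hQ
      rw [map_nsmul, hm, ← mul_smul, nsmul_inj_mod, hord] at h1
      have h2 : 2 ^ k' * (1 + 2 * m σ) ≡ 2 ^ k' * 1 [MOD 2 ^ k' * 4] := by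
        rw [mul_one]
        have h3 : 2 ^ k' * 4 = 2 ^ (k' + 1 + 1) := by ring
        rw [h3]
        exact h1
      have h3 := Nat.ModEq.mul_left_cancel' (pow_ne_zero k' (by norm_num)) h2
      refine ⟨(((1 + 2 * m σ) / 4 : ℕ) : ZMod (2 ^ (k' + 1 + 1))), ?_⟩
      have h4 : 1 + 2 * m σ = 1 + 4 * ((1 + 2 * m σ) / 4) := by
        have h5 : (1 + 2 * m σ) % 4 = 1 := h3
        omega
      conv_lhs => rw [h4]
      push_cast
      ring
  · intro σ τ hx hy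
    apply psi_inj hord
    beta_reduce
    rw [← hψ, ← hψ]
    obtain ⟨X, Y, hXY⟩ := (q1 Q).resolve_left hQne
    obtain ⟨-, e1, e2, -⟩ := q2 _ _ _ hXY
    obtain ⟨k2, -, -⟩ := n5 K L σ
    obtain ⟨k3, -, -⟩ := n5 K L τ
    have a1 := k2 Q X Y hXY
    have a2 := k3 Q X Y hXY
    rw [← e1, ← e2] at a1 a2
    rw [hx, hy] at a1
    exact q4 _ _ _ _ a1 a2
  · intro D α hα
    obtain ⟨φ, v1, -, v3, v4⟩ := h15 K D (β ^ 2) hβ2 L α hα
    refine ⟨φ k Q, ?_, ?_⟩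
    · unfold IsQ
      rw [v3]
      have h1 := v1 0 (Vn 0 (β ^ 2) k Q) 0 (algebraMap K L β) hQ
      rw [mul_zero, add_zero] at h1
      exact h1
    · intro σ
      obtain ⟨w1, w2⟩ := v4 σ
      refine ⟨fun h => ?_, fun h => ?_⟩
      · rw [w1 h, hψ σ, map_nsmul]
      · rw [w2 h, hψ σ, ← map_nsmul, psi_neg hord, map_neg]

end core

private lemma psi_inst {L : Type} [Field L] (W : WeierstrassCurve.Affine L)
    (i1 i2 : DecidableEq L) (n : ℕ) (P : W.Point) :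
    (letI := i1; n • P) = (letI := i2; n • P) := by
  obtain rfl : i1 = i2 := Subsingleton.elim _ _
  rfl

private lemma psi_asc (L : Type) [Field L] [CharP L 2] [IsSepClosed L] : ASC L := by
  intro f
  have hsep : (Polynomial.X ^ 2 + (Polynomial.X + C f) : L[X]).Separable := by
    have hd : derivative (Polynomial.X ^ 2 + (Polynomial.X + C f) : L[X]) = 1 := by
      have two : (2 : L) = 0 := CharTwo.two_eq_zero
      rw [derivative_add, derivative_X_pow, derivative_add, derivative_X, derivative_C]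
      simp [two]
    rw [Polynomial.Separable, hd]
    exact isCoprime_one_right
  have hdeg : (Polynomial.X ^ 2 + (Polynomial.X + C f) : L[X]).degree ≠ 0 := by
    have h1 : (Polynomial.X + C f : L[X]).degree < (Polynomial.X ^ 2 : L[X]).degree := by
      rw [degree_X_pow, degree_X_add_C]
      norm_num
    rw [degree_add_eq_left_of_degree_lt h1, degree_X_pow]
    norm_num
  obtain ⟨x, hx⟩ := IsSepClosed.exists_root _ hdeg hsep
  refine ⟨x, ?_⟩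
  have h2 : x ^ 2 + (x + f) = 0 := by
    have := hx
    rw [IsRoot.def, eval_add, eval_add, eval_pow, eval_X, eval_C] at this
    exact this
  have two : (2 : L) = 0 := CharTwo.two_eq_zero
  linear_combination h2 - f * two

/-- **Psi.** -/
theorem tPsi (h1 : S_Has) (h2 : S_Twb) (h3 : S_Omi) (_ : S_Res) (h5 : S_Asr) (h6 : S_Rgo)
    (h7 : S_Pts) (h8 : S_Map) (h9 : S_FV) (h10 : S_FVh) (_ : S_FVn) (h12 : S_Vsu) (h13 : S_Tq)
    (h14 : S_Tom) (h15 : S_Tws) : S_Psi := by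
  intro F _ _ _ PP hPP β hβ hβ0 k
  obtain ⟨hfrac, hcl, -⟩ := h5 F 0 PP hPP
  obtain ⟨-, -, -, -, hgal, -⟩ := h2 (AS PP) (RatFunc F) (Kgs F)
  obtain ⟨-, -, o3⟩ := h3 (AS PP) (RatFunc F) (Kgs F)
  obtain ⟨-, a2, -⟩ := h1 (RatFunc F) (Om (AS PP) (RatFunc F) (Kgs F))
  obtain ⟨-, r2, -⟩ := h6 F PP hPP
  obtain ⟨-, -, -, hch, -⟩ := h8 (RatFunc F) 0 1 one_ne_zero 0 (Kgs F)
  obtain ⟨-, -, -, -, -, u6⟩ := h12 (RatFunc F) 0 1 one_ne_zero (Kgs F)
  obtain ⟨Q, hQ⟩ := u6 (psi_asc (Kgs F)) k β hβ0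
  obtain ⟨⟨c1, c2⟩, -⟩ := (h14 F PP hPP 0 β (zero_mem _) hβ hβ0 k).1 Q hQ
  obtain ⟨ψ, p1, p2, p3, p4, p5⟩ := psi_core h7 h8 h9 h10 h13 h15 β hβ0 k Q hQ
  obtain ⟨x', hx'⟩ : ∃ x' : Om (AS PP) (RatFunc F) (Kgs F), (x' : Kgs F) = px Q := ⟨⟨_, c1⟩, rfl⟩
  obtain ⟨y', hy'⟩ : ∃ y' : Om (AS PP) (RatFunc F) (Kgs F), (y' : Kgs F) = py Q := ⟨⟨_, c2⟩, rfl⟩
  -- surjectivity of the restriction
  have hsurj : ∀ g : GS PP, ∃ σ : Gal(Kgs F/RatFunc F), rG PP σ = g := by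
    intro g
    obtain ⟨σ, hσ⟩ := AlgEquiv.restrictNormalHom_surjective (F := RatFunc F)
      (K₁ := Om (AS PP) (RatFunc F) (Kgs F)) (E := Kgs F) g
    refine ⟨σ, ?_⟩
    apply AlgEquiv.ext
    intro x
    apply Subtype.ext
    rw [← r2 σ x, ← hσ]
    exact (AlgEquiv.restrictNormal_commutes σ (Om (AS PP) (RatFunc F) (Kgs F)) x).symm
  choose s hs using hsurj
  have hsx : ∀ (g : GS PP) (x : Om (AS PP) (RatFunc F) (Kgs F)),
      (s g) (x : Kgs F) = ((g x : Om (AS PP) (RatFunc F) (Kgs F)) : Kgs F) := by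
    intro g x
    rw [r2, hs]
  have hψ : ∀ (g : GS PP) (σ : Kgs F →ₐ[RatFunc F] Kgs F),
      σ (x' : Kgs F) = ((g x' : Om (AS PP) (RatFunc F) (Kgs F)) : Kgs F) →
      σ (y' : Kgs F) = ((g y' : Om (AS PP) (RatFunc F) (Kgs F)) : Kgs F) →
      ψ (s g : Kgs F →ₐ[RatFunc F] Kgs F) = ψ σ := by
    intro g σ e1 e2
    apply p4
    · rw [← hx', e1]
      exact hsx g x'
    · rw [← hy', e2]
      exact hsx g y'
  refine ⟨fun g => ψ (s g : Kgs F →ₐ[RatFunc F] Kgs F), ⟨?_, ?_, ?_⟩, fun g => p3 _, ?_⟩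
  · rw [IsLocallyConstant.iff_exists_open]
    intro g
    refine ⟨{g' | g⁻¹ * g' ∈ MulAction.stabilizer (GS PP) x'} ∩
      {g' | g⁻¹ * g' ∈ MulAction.stabilizer (GS PP) y'}, ?_, ?_, ?_⟩
    · apply IsOpen.inter
      · exact (stabilizer_isOpen_of_isIntegral (K := RatFunc F) x').preimage
          (continuous_const_mul g⁻¹)
      · exact (stabilizer_isOpen_of_isIntegral (K := RatFunc F) y').preimage
          (continuous_const_mul g⁻¹)
    · refine ⟨?_, ?_⟩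
      · show g⁻¹ * g ∈ MulAction.stabilizer (GS PP) x'
        rw [inv_mul_cancel]
        exact one_mem _
      · show g⁻¹ * g ∈ MulAction.stabilizer (GS PP) y'
        rw [inv_mul_cancel]
        exact one_mem _
    · intro g' hg'
      have hfix : ∀ z : Om (AS PP) (RatFunc F) (Kgs F),
          g⁻¹ * g' ∈ MulAction.stabilizer (GS PP) z → g' z = g z := by
        intro z hz
        have h3 : (g⁻¹ * g') z = z := hz
        have h5 : g' = g * (g⁻¹ * g') := by group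
        conv_lhs => rw [h5]
        rw [AlgEquiv.mul_apply, h3]
      apply hψ g'
      · rw [hfix x' hg'.1]
        exact hsx g x'
      · rw [hfix y' hg'.2]
        exact hsx g y'
  · show ψ (s 1 : Kgs F →ₐ[RatFunc F] Kgs F) = 1
    rw [← p1]
    exact hψ 1 (AlgHom.id _ _) rfl rfl
  · intro g h
    show ψ (s (g * h) : Kgs F →ₐ[RatFunc F] Kgs F) =
      ψ (s g : Kgs F →ₐ[RatFunc F] Kgs F) * ψ (s h : Kgs F →ₐ[RatFunc F] Kgs F)
    rw [← p2]
    apply hψ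
    · show s g (s h (x' : Kgs F)) = _
      rw [hsx, hsx]
      rfl
    · show s g (s h (y' : Kgs F)) = _
      rw [hsx, hsx]
      rfl
  · intro D hD
    obtain ⟨θ, hθ⟩ := o3 ⟨D, hD⟩
    have hα : (θ : Kgs F) ^ 2 + (θ : Kgs F) = algebraMap (RatFunc F) (Kgs F) D :=
      congrArg (fun z : Om (AS PP) (RatFunc F) (Kgs F) => (z : Kgs F)) hθ
    obtain ⟨Q', hQ', w⟩ := p5 D (θ : Kgs F) hα
    refine ⟨Q', hQ', fun σ => ?_⟩
    obtain ⟨w1, w2⟩ := w (σ : Kgs F →ₐ[RatFunc F] Kgs F)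
    have hb := a2 D θ hθ (rG PP σ)
    have hσθ : (σ : Kgs F →ₐ[RatFunc F] Kgs F) (θ : Kgs F) =
        ((rG PP σ θ : Om (AS PP) (RatFunc F) (Kgs F)) : Kgs F) := r2 σ θ
    have hψσ : ψ (s (rG PP σ) : Kgs F →ₐ[RatFunc F] Kgs F) =
        ψ (σ : Kgs F →ₐ[RatFunc F] Kgs F) := hψ _ _ (r2 σ x') (r2 σ y')
    have key : ∀ x : ZMod 2, x = 0 ∨ x = 1 := by decide
    unfold tw sg
    beta_reduce
    rw [hψσ]
    rcases key (hAS (RatFunc F) (Om (AS PP) (RatFunc F) (Kgs F)) D (rG PP σ)) with h0 | h0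
    · rw [h0, if_pos rfl, mul_one]
      have e1 : (σ : Kgs F →ₐ[RatFunc F] Kgs F) (θ : Kgs F) = (θ : Kgs F) := by
        rw [hσθ, hb, h0]
        show ((θ + 0 : Om (AS PP) (RatFunc F) (Kgs F)) : Kgs F) = _
        rw [add_zero]
      exact (w1 e1).trans (psi_inst _ _ _ _ _)
    · rw [h0, if_neg (by decide), mul_neg, mul_one]
      have e1 : (σ : Kgs F →ₐ[RatFunc F] Kgs F) (θ : Kgs F) = (θ : Kgs F) + 1 := by
        rw [hσθ, hb, h0]
        rfl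
      exact (w2 e1).trans (psi_inst _ _ _ _ _)

end Pool.Agent.MP72W
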