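import Pool.Agent.Lib.MP_72e2e6_nt.W2.D.Spec

/-!
# MP_72e2e6_nt, T3, D/Rid: the cocycle identity in the coordinate ring
-/

set_option autoImplicit false

namespace Pool.Agent.MP72W

open Polynomial WeierstrassCurve

open scoped Classical Polynomial.Bivariate

section

variable {L : Type} [Field L] {W : WeierstrassCurve.Affine L}

private noncomputable def ridI : W.Point → Ideal W.CoordinateRing
  | .zero => ⊤
  | .some x y _ => Affine.CoordinateRing.XYIdeal W x (C y)

private theorem ridI_zero : ridI (0 : W.Point) = ⊤ := rfl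

private theorem ridI_neg (P : W.Point) : ∃ z : W.CoordinateRing, z ≠ 0 ∧
    ridI (-P) * ridI P = Ideal.span {z} := by
  rcases P with _ | ⟨x, y, h⟩
  · refine ⟨1, one_ne_zero, ?_⟩
    change (⊤ : Ideal W.CoordinateRing) * ⊤ = _
    rw [Ideal.top_mul, Ideal.span_singleton_one]
  · exact ⟨_, Affine.CoordinateRing.XClass_ne_zero x, Affine.CoordinateRing.XYIdeal_neg_mul h⟩

private theorem rid_mul (P Q : W.Point) :
    Ideal.span {dR P Q} * (ridI P * ridI Q) = Ideal.span {nR P Q} * ridI (P + Q) := by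
  by_cases hP : P = 0
  · subst hP
    rw [nR, dR, if_pos (Or.inl rfl), if_pos (Or.inl rfl), zero_add, ridI_zero, Ideal.top_mul]
  by_cases hQ : Q = 0
  · subst hQ
    rw [nR, dR, if_pos (Or.inr rfl), if_pos (Or.inr (Or.inl rfl)), add_zero, ridI_zero,
      Ideal.mul_top]
  rcases P with _ | ⟨x₁, y₁, h₁⟩
  · exact absurd rfl hP
  rcases Q with _ | ⟨x₂, y₂, h₂⟩
  · exact absurd rfl hQ
  by_cases hxy : x₁ = x₂ ∧ y₁ = W.negY x₂ y₂
  · have h0 : (Affine.Point.some x₁ y₁ h₁ : W.Point) + Affine.Point.some x₂ y₂ h₂ = 0 :=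
      Affine.Point.add_of_Y_eq hxy.1 hxy.2
    have hn : ¬ ((Affine.Point.some x₁ y₁ h₁ : W.Point) = 0 ∨
        (Affine.Point.some x₂ y₂ h₂ : W.Point) = 0) := by rintro (h | h); exacts [hP h, hQ h]
    rw [nR, dR, if_neg hn, if_pos h0,
      if_pos (Or.inr (Or.inr h0)), h0, ridI_zero, Ideal.mul_top, Ideal.span_singleton_one,
      Ideal.top_mul]
    obtain ⟨rfl, rfl⟩ := hxy
    change Affine.CoordinateRing.XYIdeal W x₁ (C (W.negY x₁ y₂)) *
      Affine.CoordinateRing.XYIdeal W x₁ (C y₂) = _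
    rw [Affine.CoordinateRing.XYIdeal_neg_mul h₂]
    rfl
  · have h1 : (Affine.Point.some x₁ y₁ h₁ : W.Point) + Affine.Point.some x₂ y₂ h₂ =
      Affine.Point.some _ _ (Affine.nonsingular_add h₁ h₂ hxy) := Affine.Point.add_some hxy
    have h0 : (Affine.Point.some x₁ y₁ h₁ : W.Point) + Affine.Point.some x₂ y₂ h₂ ≠ 0 := by
      rw [h1]; exact Affine.Point.some_ne_zero _
    have hn : ¬ ((Affine.Point.some x₁ y₁ h₁ : W.Point) = 0 ∨
        (Affine.Point.some x₂ y₂ h₂ : W.Point) = 0) := by rintro (h | h); exacts [hP h, hQ h]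
    have hn3 : ¬ ((Affine.Point.some x₁ y₁ h₁ : W.Point) = 0 ∨
        (Affine.Point.some x₂ y₂ h₂ : W.Point) = 0 ∨
        (Affine.Point.some x₁ y₁ h₁ : W.Point) + Affine.Point.some x₂ y₂ h₂ = 0) := by
      rintro (h | h | h); exacts [hP h, hQ h, h0 h]
    rw [nR, dR, if_neg hn, if_neg h0, if_neg hn3, h1]
    exact Affine.CoordinateRing.XYIdeal_mul_XYIdeal h₁.left h₂.left hxy

private theorem rid_assoc (P Q S : W.Point) : Associated
    (nR P Q * nR (P + Q) S * (dR Q S * dR P (Q + S)))
    (nR Q S * nR P (Q + S) * (dR P Q * dR (P + Q) S)) := by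
  have e1 := rid_mul P Q
  have e2 := rid_mul (P + Q) S
  have e3 := rid_mul Q S
  have e4 := rid_mul P (Q + S)
  obtain ⟨z, hz, hz2⟩ := ridI_neg (P + Q + S)
  rw [← add_assoc] at e4
  have key : Ideal.span {nR P Q * nR (P + Q) S * (dR Q S * dR P (Q + S))} * Ideal.span {z} =
      Ideal.span {nR Q S * nR P (Q + S) * (dR P Q * dR (P + Q) S)} * Ideal.span {z} := by
    rw [← hz2]
    simp only [← Ideal.span_singleton_mul_span_singleton]
    calc _ = ridI (-(P + Q + S)) * (Ideal.span {nR P Q} * (Ideal.span {nR (P + Q) S} *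
          ridI (P + Q + S)) * (Ideal.span {dR Q S} * Ideal.span {dR P (Q + S)})) := by ring
      _ = ridI (-(P + Q + S)) * (Ideal.span {nR P Q} * (Ideal.span {dR (P + Q) S} *
          (ridI (P + Q) * ridI S)) * (Ideal.span {dR Q S} * Ideal.span {dR P (Q + S)})) := by
          rw [← e2]
      _ = ridI (-(P + Q + S)) * ((Ideal.span {nR P Q} * ridI (P + Q)) * (Ideal.span {dR (P + Q) S} *
          ridI S) * (Ideal.span {dR Q S} * Ideal.span {dR P (Q + S)})) := by ring
      _ = ridI (-(P + Q + S)) * ((Ideal.span {dR P Q} * (ridI P * ridI Q)) *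
          (Ideal.span {dR (P + Q) S} *
          ridI S) * (Ideal.span {dR Q S} * Ideal.span {dR P (Q + S)})) := by rw [← e1]
      _ = ridI (-(P + Q + S)) * ((Ideal.span {dR Q S} * (ridI Q * ridI S)) * ridI P *
          Ideal.span {dR P (Q + S)} * (Ideal.span {dR P Q} * Ideal.span {dR (P + Q) S})) := by ring
      _ = ridI (-(P + Q + S)) * ((Ideal.span {nR Q S} * ridI (Q + S)) * ridI P *
          Ideal.span {dR P (Q + S)} * (Ideal.span {dR P Q} * Ideal.span {dR (P + Q) S})) := by
          rw [e3]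
      _ = ridI (-(P + Q + S)) * (Ideal.span {nR Q S} * (Ideal.span {dR P (Q + S)} *
          (ridI P * ridI (Q + S))) * (Ideal.span {dR P Q} * Ideal.span {dR (P + Q) S})) := by ring
      _ = ridI (-(P + Q + S)) * (Ideal.span {nR Q S} * (Ideal.span {nR P (Q + S)} *
          ridI (P + Q + S)) * (Ideal.span {dR P Q} * Ideal.span {dR (P + Q) S})) := by rw [e4]
      _ = _ := by ring
  rw [Ideal.span_singleton_mul_span_singleton, Ideal.span_singleton_mul_span_singleton,
    Ideal.span_singleton_eq_span_singleton] at key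
  exact key.of_mul_right (Associated.refl z) hz

private theorem rid_unit (ε : W.CoordinateRing) (hε : IsUnit ε) :
    ∃ c : L, ε = (C c : L[X]) • (1 : W.CoordinateRing) := by
  obtain ⟨p, q, rfl⟩ := Affine.CoordinateRing.exists_smul_basis_eq ε
  have h1 : IsUnit (Algebra.norm L[X] (p • (1 : W.CoordinateRing) +
      q • Affine.CoordinateRing.mk W Y)) := hε.map _
  have h2 := Polynomial.degree_eq_zero_of_isUnit h1
  rw [Affine.CoordinateRing.degree_norm_smul_basis] at h2
  have hq : q = 0 := by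
    by_contra hq
    have h3 : 2 • q.degree + 3 ≤ 0 := by rw [← h2]; exact le_max_right _ _
    rw [Polynomial.degree_eq_natDegree hq] at h3
    have h4 : ((2 * q.natDegree + 3 : ℕ) : WithBot ℕ) ≤ ((0 : ℕ) : WithBot ℕ) := by
      refine le_trans (le_of_eq ?_) h3
      push_cast
      rw [two_nsmul, two_mul]
    have := WithBot.coe_le_coe.1 h4
    simp at this
  subst hq
  have h3 : 2 • p.degree ≤ 0 := by rw [← h2]; exact le_max_left _ _
  have hp : p.degree ≤ 0 := by
    by_cases hp : p = 0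
    · simp [hp]
    · rw [Polynomial.degree_eq_natDegree hp] at h3 ⊢
      have h4 : ((2 * p.natDegree : ℕ) : WithBot ℕ) ≤ ((0 : ℕ) : WithBot ℕ) := by
        refine le_trans (le_of_eq ?_) h3
        push_cast
        rw [two_nsmul, two_mul]
      have h5 : 2 * p.natDegree ≤ 0 := WithBot.coe_le_coe.1 h4
      have h6 : p.natDegree = 0 := by omega
      rw [h6]; simp
  refine ⟨p.coeff 0, ?_⟩
  rw [zero_smul, add_zero, ← Polynomial.eq_C_of_degree_le_zero hp]

private theorem rid_normX (x : L) :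
    (Algebra.norm L[X] (Affine.CoordinateRing.XClass W x)).Monic := by
  have h : Affine.CoordinateRing.XClass W x = (X - C x : L[X]) • (1 : W.CoordinateRing) +
      (0 : L[X]) • Affine.CoordinateRing.mk W Y := by
    rw [zero_smul, add_zero, Affine.CoordinateRing.smul, mul_one]; rfl
  rw [h, Affine.CoordinateRing.norm_smul_basis]
  have : (X - C x : L[X]) ^ 2 - (X - C x) * 0 * (C W.a₁ * X + C W.a₃) -
      0 ^ 2 * (X ^ 3 + C W.a₂ * X ^ 2 + C W.a₄ * X + C W.a₆) = (X - C x) ^ 2 := by ring
  rw [this]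
  exact (Polynomial.monic_X_sub_C x).pow 2

private theorem rid_normY [CharP L 2] (x y l : L) :
    (Algebra.norm L[X] (Affine.CoordinateRing.YClass W (Affine.linePolynomial x y l))).Monic := by
  have h : Affine.CoordinateRing.YClass W (Affine.linePolynomial x y l) =
      (- Affine.linePolynomial x y l) • (1 : W.CoordinateRing) +
      (1 : L[X]) • Affine.CoordinateRing.mk W Y := by
    rw [one_smul, Affine.CoordinateRing.smul, mul_one, ← map_add]
    simp only [Affine.CoordinateRing.YClass, map_neg]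
    congr 1
    ring
  rw [h, Affine.CoordinateRing.norm_smul_basis]
  have h2 : (2 : L[X]) = 0 := CharP.cast_eq_zero L[X] 2
  have e : (- Affine.linePolynomial x y l) ^ 2 - (- Affine.linePolynomial x y l) * 1 *
      (C W.a₁ * X + C W.a₃) - 1 ^ 2 * (X ^ 3 + C W.a₂ * X ^ 2 + C W.a₄ * X + C W.a₆) =
      X ^ 3 + (Affine.linePolynomial x y l ^ 2 + Affine.linePolynomial x y l *
      (C W.a₁ * X + C W.a₃) - (C W.a₂ * X ^ 2 + C W.a₄ * X + C W.a₆)) := by
    linear_combination (-X ^ 3) * h2
  rw [e]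
  refine Polynomial.monic_X_pow_add ?_
  have hl : (Affine.linePolynomial x y l).degree ≤ 1 := by
    have : Affine.linePolynomial x y l = C l * X + C (y - l * x) := by
      simp only [Affine.linePolynomial, map_sub, map_mul]; ring
    rw [this]; exact Polynomial.degree_linear_le
  have hm : (C W.a₁ * X + C W.a₃ : L[X]).degree ≤ 1 := Polynomial.degree_linear_le
  have hq : (C W.a₂ * X ^ 2 + C W.a₄ * X + C W.a₆ : L[X]).degree ≤ 2 :=
    Polynomial.degree_quadratic_le
  have h3 : (Affine.linePolynomial x y l ^ 2 : L[X]).degree ≤ 2 := by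
    refine (Polynomial.degree_pow_le _ 2).trans ?_
    rw [two_nsmul]
    exact (add_le_add hl hl).trans (by norm_num)
  have h4 : (Affine.linePolynomial x y l * (C W.a₁ * X + C W.a₃) : L[X]).degree ≤ 2 := by
    refine (Polynomial.degree_mul_le _ _).trans ?_
    exact (add_le_add hl hm).trans (by norm_num)
  refine lt_of_le_of_lt ((Polynomial.degree_sub_le _ _).trans (max_le
    ((Polynomial.degree_add_le _ _).trans (max_le h3 h4)) hq)) ?_
  norm_num

private theorem rid_nR [CharP L 2] (P Q : W.Point) : (Algebra.norm L[X] (nR P Q)).Monic := by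
  unfold nR
  split_ifs
  · rw [map_one]; exact Polynomial.monic_one
  · exact rid_normX _
  · exact rid_normY _ _ _

private theorem rid_dR (P Q : W.Point) : (Algebra.norm L[X] (dR P Q)).Monic := by
  unfold dR
  split_ifs
  · rw [map_one]; exact Polynomial.monic_one
  · exact rid_normX _

end

theorem tRid : S_Pts → S_Rid := by
  intro _ L _ _ W _ P Q S
  obtain ⟨ε, hε⟩ := rid_assoc P Q S
  obtain ⟨c, hc⟩ := rid_unit (ε : W.CoordinateRing) ε.isUnit
  have m1 : (Algebra.norm L[X] (nR P Q * nR (P + Q) S * (dR Q S * dR P (Q + S)))).Monic := by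
    rw [map_mul, map_mul, map_mul]
    exact ((rid_nR _ _).mul (rid_nR _ _)).mul ((rid_dR _ _).mul (rid_dR _ _))
  have m2 : (Algebra.norm L[X] (nR Q S * nR P (Q + S) * (dR P Q * dR (P + Q) S))).Monic := by
    rw [map_mul, map_mul, map_mul]
    exact ((rid_nR _ _).mul (rid_nR _ _)).mul ((rid_dR _ _).mul (rid_dR _ _))
  have hn : Algebra.norm L[X] (ε : W.CoordinateRing) = C (c ^ 2) := by
    have h : (ε : W.CoordinateRing) = (C c : L[X]) • (1 : W.CoordinateRing) +
        (0 : L[X]) • Affine.CoordinateRing.mk W Y := by rw [zero_smul, add_zero, hc]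
    rw [h, Affine.CoordinateRing.norm_smul_basis, C_pow]
    ring
  have hc2 : c ^ 2 = 1 := by
    have e := congrArg (fun z => (Algebra.norm L[X] z).leadingCoeff) hε
    simp only [map_mul] at e m1 m2
    rw [hn] at e
    rw [Polynomial.leadingCoeff_mul, Polynomial.leadingCoeff_C] at e
    rw [m1.leadingCoeff, m2.leadingCoeff, one_mul] at e
    exact e
  have hc1 : c = 1 := by
    have h2 : (2 : L) = 0 := CharP.cast_eq_zero L 2
    have : (c - 1) ^ 2 = 0 := by linear_combination hc2 + (1 - c) * h2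
    exact sub_eq_zero.1 (pow_eq_zero_iff (two_ne_zero)|>.1 this)
  rw [← hε, hc, hc1, map_one, one_smul, mul_one]

end Pool.Agent.MP72W
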