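import Pool.Agent.Lib.MP_72e2e6_nt.W2.D.Spec

/-!
# MP_72e2e6_nt, T3, D/Slc: the cocycle identity of the slopes
-/

set_option autoImplicit false

namespace Pool.Agent.MP72W

open Polynomial WeierstrassCurve

open scoped Classical Polynomial.Bivariate

section

variable {L : Type} [Field L] {W : WeierstrassCurve.Affine L}

private theorem slc_coeff (α β u v : L) :
    ((C α * X + C β) * ((X - C u) * (X - C v)) : L[X]).coeff 3 = α := by
  have e : ((C α * X + C β) * ((X - C u) * (X - C v)) : L[X]) =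
      C α * X ^ 3 + C (β - α * u - α * v) * X ^ 2 + C (α * u * v - β * u - β * v) * X ^ 1 +
        C (β * u * v) * X ^ 0 := by
    simp only [map_sub, map_mul]
    ring
  rw [e]
  simp only [coeff_add, coeff_C_mul_X_pow]
  norm_num

private theorem slc_prod (l₁ l₂ D : L[X]) :
    Affine.CoordinateRing.YClass W l₁ * Affine.CoordinateRing.YClass W l₂ *
      Affine.CoordinateRing.mk W (C D) =
    ((X ^ 3 + C W.a₂ * X ^ 2 + C W.a₄ * X + C W.a₆ + l₁ * l₂) * D) • (1 : W.CoordinateRing) +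
      (- (C W.a₁ * X + C W.a₃ + l₁ + l₂) * D) • Affine.CoordinateRing.mk W Y := by
  rw [Affine.CoordinateRing.smul, Affine.CoordinateRing.smul, mul_one]
  simp only [Affine.CoordinateRing.YClass, ← map_mul, ← map_add]
  refine AdjoinRoot.mk_eq_mk.mpr ⟨C D, ?_⟩
  rw [Affine.polynomial]
  simp only [map_add, map_mul, map_neg, map_pow]
  ring

private theorem slc_line (a b l : L) :
    (Affine.linePolynomial a b l : L[X]) = C l * X + C (b - l * a) := by
  simp only [Affine.linePolynomial, map_sub, map_mul]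
  ring

private theorem slc_gen (P Q : W.Point) (hP : P ≠ 0) (hQ : Q ≠ 0) (hPQ : P + Q ≠ 0) :
    nR P Q = Affine.CoordinateRing.YClass W (Affine.linePolynomial (px P) (py P) (sl P Q)) ∧
    dR P Q = Affine.CoordinateRing.mk W (C (X - C (px (P + Q)))) := by
  have h1 : ¬ (P = 0 ∨ Q = 0) := by rintro (h | h); exacts [hP h, hQ h]
  have h2 : ¬ (P = 0 ∨ Q = 0 ∨ P + Q = 0) := by rintro (h | h | h); exacts [hP h, hQ h, hPQ h]
  constructor
  · rw [nR, if_neg h1, if_neg hPQ]
  · rw [dR, if_neg h2]; rfl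

end

theorem tSlc : S_Pts → S_Rid → S_Slc := by
  intro _ hR L _ _ W hW P Q S hP hQ hS hPQ hQS hPQS
  have hPQS' : P + (Q + S) ≠ 0 := by rwa [← add_assoc]
  have e := hR L W hW P Q S
  obtain ⟨n1, d1⟩ := slc_gen P Q hP hQ hPQ
  obtain ⟨n2, d2⟩ := slc_gen (P + Q) S hPQ hS hPQS
  obtain ⟨n3, d3⟩ := slc_gen Q S hQ hS hQS
  obtain ⟨n4, d4⟩ := slc_gen P (Q + S) hP hQS hPQS'
  rw [n1, n2, n3, n4, d1, d2, d3, d4, ← map_mul, ← map_mul, ← map_mul, ← map_mul, slc_prod, slc_prod,
    ← sub_eq_zero, add_sub_add_comm, ← sub_smul, ← sub_smul] at e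
  have e2 := (Affine.CoordinateRing.smul_basis_eq_zero e).2
  rw [sub_eq_zero, neg_mul, neg_mul, neg_inj, slc_line, slc_line, slc_line, slc_line] at e2
  have e3 := congrArg (fun p : L[X] => p.coeff 3) e2
  have r : ∀ (l l' b b' : L), (C W.a₁ * X + C W.a₃ + (C l * X + C b) + (C l' * X + C b') : L[X]) =
      C (W.a₁ + l + l') * X + C (W.a₃ + b + b') := by
    intro l l' b b'
    simp only [map_add]
    ring
  simp only [r, slc_coeff] at e3
  linear_combination e3

end Pool.Agent.MP72W
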