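import Pool.Agent.Lib.MP_72e2e6_nt.W2.D.Spec

/-!
# MP_72e2e6_nt, theorem T3, part D: Tom, the coordinates of the torsion points (helper82)
-/

set_option autoImplicit false

namespace Pool.Agent.MP72W

open Polynomial IntermediateField

private lemma tom_quad {A L : Type} [CommRing A] [Field L] [Algebra A L] (X x b : L)
    (h : X ^ 2 + x * X + b = 0) (hx : IsIntegral A x) (hb : IsIntegral A b) : IsIntegral A X := by
  obtain ⟨x', hx'⟩ : ∃ x' : integralClosure A L, (x' : L) = x := ⟨⟨x, hx⟩, rfl⟩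
  obtain ⟨b', hb'⟩ : ∃ b' : integralClosure A L, (b' : L) = b := ⟨⟨b, hb⟩, rfl⟩
  have h1 : IsIntegral (integralClosure A L) X := by
    refine ⟨Polynomial.X ^ 2 + (C x' * Polynomial.X + C b'), ?_, ?_⟩
    · apply monic_X_pow_add
      refine lt_of_le_of_lt (degree_linear_le) ?_
      norm_num
    · rw [eval₂_add, eval₂_X_pow, eval₂_add, eval₂_mul, eval₂_C, eval₂_C, eval₂_X]
      show X ^ 2 + ((x' : L) * X + (b' : L)) = 0
      rw [hx', hb', ← h]
      ring
  exact isIntegral_trans (A := integralClosure A L) X h1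

private lemma tom_sq {L : Type} [Field L] [CharP L 2] (u v : L) (h : u ^ 2 = v ^ 2) : u = v := by
  have two : (2 : L) = 0 := CharTwo.two_eq_zero
  have h7 : (u - v) ^ 2 = 0 := by
    linear_combination h + (v ^ 2 - u * v) * two
  exact sub_eq_zero.1 (pow_eq_zero_iff (by norm_num) |>.1 h7)

private lemma tom_step {A K L : Type} [CommRing A] [Field K] [Algebra A K] [Field L] [Algebra K L]
    [Algebra A L] [CharP L 2] (Ω : IntermediateField K L)
    (hΩ : ∀ θ : L, θ ^ 2 + θ ∈ Ω → IsIntegral A (θ ^ 2 + θ) → θ ∈ Ω) (X Y x y a b : L)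
    (hX : X ≠ 0) (ha : a ∈ Ω) (hb : b ∈ Ω) (hai : IsIntegral A a) (hbi : IsIntegral A b)
    (hx : x = X + b / X) (hy : y = X + ((Y + b) / X + a + 1) * (X + b / X))
    (hE : y ^ 2 + x * y = x ^ 3 + a * x ^ 2 + b)
    (hE' : Y ^ 2 + X * Y = X ^ 3 + a ^ 2 * X ^ 2 + b ^ 2)
    (hxΩ : x ∈ Ω) (hyΩ : y ∈ Ω) (hxi : IsIntegral A x) : X ∈ Ω ∧ Y ∈ Ω ∧ IsIntegral A X := by
  have two : (2 : L) = 0 := CharTwo.two_eq_zero
  have hxX : x * X = X ^ 2 + b := by
    rw [hx]
    field_simp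
  have hquad : X ^ 2 + x * X + b = 0 := by
    rw [hxX]
    linear_combination (X ^ 2 + b) * two
  have hXi : IsIntegral A X := tom_quad X x b hquad hxi hbi
  have hyY : (Y + b) * x = (y + X + (a + 1) * x) * X := by
    have h1 : y = X + ((Y + b) / X + a + 1) * x := by rw [hx]; exact hy
    have h2 : y * X = X ^ 2 + ((Y + b) + (a + 1) * X) * x := by
      rw [h1]
      field_simp
      ring
    linear_combination -h2 + (-(X ^ 2) - (a + 1) * x * X) * two
  by_cases hx0 : x = 0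
  · have hbX : X ^ 2 = b := by
      rw [hx0] at hquad
      linear_combination hquad - b * two
    have hyb : y ^ 2 = b := by
      rw [hx0] at hE
      linear_combination hE
    have hXy : X = y := by
      have h2 : (X - y) ^ 2 = 0 := by
        linear_combination hbX + hyb + (b - X * y) * two
      exact sub_eq_zero.1 (pow_eq_zero_iff (by norm_num) |>.1 h2)
    have hXΩ : X ∈ Ω := by rw [hXy]; exact hyΩ
    have hζ : (Y / X) ^ 2 + Y / X = X + a ^ 2 + X ^ 2 := by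
      rw [← hbX] at hE'
      field_simp
      linear_combination hE'
    have hζΩ : Y / X ∈ Ω := by
      apply hΩ
      · rw [hζ]
        exact add_mem (add_mem hXΩ (pow_mem ha 2)) (pow_mem hXΩ 2)
      · rw [hζ]
        exact (hXi.add (hai.pow 2)).add (hXi.pow 2)
    refine ⟨hXΩ, ?_, hXi⟩
    have h3 : Y = Y / X * X := by field_simp
    rw [h3]
    exact mul_mem hζΩ hXΩ
  · have hη : ((X + y) / x) ^ 2 + (X + y) / x = x + a := by
      field_simp
      linear_combination hE + hxX + (X ^ 2 + X * y + b) * two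
    have hηΩ : (X + y) / x ∈ Ω := by
      apply hΩ
      · rw [hη]
        exact add_mem hxΩ ha
      · rw [hη]
        exact hxi.add hai
    have hXΩ : X ∈ Ω := by
      have h3 : X = (X + y) / x * x - y := by
        field_simp
        ring
      rw [h3]
      exact sub_mem (mul_mem hηΩ hxΩ) hyΩ
    refine ⟨hXΩ, ?_, hXi⟩
    have h4 : Y = (y + X + (a + 1) * x) * X / x - b := by
      rw [← hyY]
      field_simp
      ring
    rw [h4]
    exact sub_mem (div_mem (mul_mem (add_mem (add_mem hyΩ hXΩ)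
      (mul_mem (add_mem ha (one_mem _)) hxΩ)) hXΩ) hxΩ) hb

open WeierstrassCurve

open scoped Classical

/-- **Tom.** -/
theorem tTom (h1 : S_Twb) (h2 : S_Pts) (h3 : S_Map) (h4 : S_FV) (_ : S_FVn) (h6 : S_Tq)
    (_ : S_Asr) : S_Tom := by
  intro F _ _ _ PP hPP D β hD hβ hβ0 k
  obtain ⟨-, -, -, -, -, hroot⟩ := h1 (AS PP) (RatFunc F) (Kgs F)
  -- elements of `AS PP`
  have hmem : ∀ r : RatFunc F, algebraMap (RatFunc F) (Kgs F) r ∈
      Om (AS PP) (RatFunc F) (Kgs F) := fun r => IntermediateField.algebraMap_mem _ r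
  have hint : ∀ r : RatFunc F, r ∈ AS PP →
      _root_.IsIntegral (AS PP) (algebraMap (RatFunc F) (Kgs F) r) := by
    intro r hr
    exact isIntegral_algebraMap (R := AS PP) (A := Kgs F) (x := ⟨r, hr⟩)
  have hpow : ∀ (r : RatFunc F) (j : ℕ), algebraMap (RatFunc F) (Kgs F) (r ^ 2 ^ (j + 1)) =
      algebraMap (RatFunc F) (Kgs F) (r ^ 2 ^ j) ^ 2 := by
    intro r j
    rw [← map_pow, ← pow_mul, ← pow_succ]
  -- the induction step
  have step : ∀ γ : RatFunc F, γ ∈ AS PP → γ ≠ 0 → ∀ (j : ℕ) (Q : Pt D γ (j + 1) (Kgs F))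
      (X Y : Kgs F), XY Q X Y → X ≠ 0 →
      CIn (Vi D γ j Q) (Om (AS PP) (RatFunc F) (Kgs F) : Set (Kgs F)) →
      _root_.IsIntegral (AS PP) (px (Vi D γ j Q)) →
      CIn Q (Om (AS PP) (RatFunc F) (Kgs F) : Set (Kgs F)) ∧
        _root_.IsIntegral (AS PP) (px Q) := by
    intro γ hγ hγ0 j Q X Y hQ hX hC hI
    obtain ⟨m1, m2, m3, m4, -⟩ := h3 (RatFunc F) D γ hγ0 j (Kgs F)
    obtain ⟨n1, n2, n3, -, -⟩ := h3 (RatFunc F) D γ hγ0 (j + 1) (Kgs F)
    obtain ⟨-, p2, -⟩ := h2 (Kgs F) ((EE D γ j)⁄(Kgs F)).toAffine m1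
    obtain ⟨-, q2, -⟩ := h2 (Kgs F) ((EE D γ (j + 1))⁄(Kgs F)).toAffine n1
    obtain ⟨-, -, -, -, -, f6, -⟩ := h4 (RatFunc F) D γ hγ0 j (Kgs F)
    have hP := f6 Q X Y hQ hX
    obtain ⟨-, e1, e2, e3⟩ := p2 _ _ _ hP
    obtain ⟨-, g1, g2, g3⟩ := q2 _ _ _ hQ
    obtain ⟨c1, c2⟩ := hC
    rw [e1] at c1 hI
    rw [e2] at c2
    rw [m2, m3] at e3
    rw [n2, n3, hpow, hpow] at g3
    have key := tom_step (Om (AS PP) (RatFunc F) (Kgs F)) hroot X Y _ _ _ _ hX
      (hmem (D ^ 2 ^ j)) (hmem (γ ^ 2 ^ j)) (hint _ (pow_mem hD _)) (hint _ (pow_mem hγ _))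
      rfl rfl e3 g3 c1 c2 hI
    rw [CIn, g1, g2]
    exact ⟨⟨key.1, key.2.1⟩, key.2.2⟩
  have hV0 : ∀ (γ : RatFunc F), γ ≠ 0 → ∀ j, Vn D γ j (0 : Pt D γ j (Kgs F)) = 0 := by
    intro γ hγ0 j
    induction j with
    | zero => rfl
    | succ j ih =>
      obtain ⟨-, -, -, f4, -⟩ := h4 (RatFunc F) D γ hγ0 j (Kgs F)
      show Vn D γ j (Vi D γ j 0) = 0
      rw [f4]
      exact ih
  constructor
  · -- the point `Q`
    have hβ2 : β ^ 2 ≠ 0 := pow_ne_zero 2 hβ0
    induction k with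
    | zero =>
      intro Q hQ
      obtain ⟨m1, -⟩ := h3 (RatFunc F) D (β ^ 2) hβ2 0 (Kgs F)
      obtain ⟨-, p2, -⟩ := h2 (Kgs F) ((EE D (β ^ 2) 0)⁄(Kgs F)).toAffine m1
      obtain ⟨-, e1, e2, -⟩ := p2 _ _ _ hQ
      have e1' : px Q = 0 := e1
      have e2' : py Q = algebraMap (RatFunc F) (Kgs F) β := e2
      rw [CIn, e1', e2']
      exact ⟨⟨zero_mem _, hmem β⟩, isIntegral_zero⟩
    | succ k ih =>
      intro Q hQ
      obtain ⟨-, -, -, -, t5⟩ := h6 (RatFunc F) D β hβ0 (Kgs F) k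
      have hP := t5 Q hQ
      obtain ⟨c1, c2⟩ := ih _ hP
      obtain ⟨m1, -⟩ := h3 (RatFunc F) D (β ^ 2) hβ2 0 (Kgs F)
      obtain ⟨-, p2, -⟩ := h2 (Kgs F) ((EE D (β ^ 2) 0)⁄(Kgs F)).toAffine m1
      obtain ⟨n1, -⟩ := h3 (RatFunc F) D (β ^ 2) hβ2 (k + 1) (Kgs F)
      obtain ⟨q1, -⟩ := h2 (Kgs F) ((EE D (β ^ 2) (k + 1))⁄(Kgs F)).toAffine n1
      obtain ⟨-, -, -, f4, f5, -⟩ := h4 (RatFunc F) D (β ^ 2) hβ2 k (Kgs F)
      have hVne : Vi D (β ^ 2) k Q ≠ 0 := by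
        intro h
        rw [IsQ, h, hV0 _ hβ2] at hP
        exact (p2 _ _ _ hP).1 rfl
      rcases q1 Q with h | ⟨X, Y, hXY⟩
      · rw [h] at hVne
        exact absurd f4 hVne
      · have hX : X ≠ 0 := by
          rintro rfl
          exact hVne (f5 Q Y hXY)
        exact step (β ^ 2) (pow_mem hβ 2) hβ2 k Q X Y hXY hX c1 c2
  · -- the kernel of `Vn`
    have main : ∀ (k : ℕ) (P : Pt D β k (Kgs F)), Vn D β k P = 0 →
        CIn P (Om (AS PP) (RatFunc F) (Kgs F) : Set (Kgs F)) ∧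
          _root_.IsIntegral (AS PP) (px P) := by
      intro k
      induction k with
      | zero =>
        intro P hP
        have hP' : P = 0 := hP
        rw [hP', CIn]
        exact ⟨⟨zero_mem _, zero_mem _⟩, isIntegral_zero⟩
      | succ k ih =>
        intro P hP
        obtain ⟨c1, c2⟩ := ih (Vi D β k P) hP
        obtain ⟨n1, n2, n3, -, -⟩ := h3 (RatFunc F) D β hβ0 (k + 1) (Kgs F)
        obtain ⟨q1, q2, -, -, -, -, -, q8, -⟩ :=
          h2 (Kgs F) ((EE D β (k + 1))⁄(Kgs F)).toAffine n1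
        rcases q1 P with h | ⟨X, Y, hXY⟩
        · rw [h, CIn]
          exact ⟨⟨zero_mem _, zero_mem _⟩, isIntegral_zero⟩
        · by_cases hX : X = 0
          · rw [hX] at hXY
            obtain ⟨-, e1, e2, -⟩ := q2 _ _ _ hXY
            have e3 := (q8 _ _ hXY).2
            rw [n3, hpow] at e3
            have e4 : Y = algebraMap (RatFunc F) (Kgs F) (β ^ 2 ^ k) := tom_sq _ _ e3
            rw [CIn, e1, e2, e4]
            exact ⟨⟨zero_mem _, hmem _⟩, isIntegral_zero⟩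
          · exact step β hβ hβ0 k P X Y hXY hX c1 c2
    exact fun P hP => (main k P hP).1

end Pool.Agent.MP72W
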