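import Pool.Agent.Lib.MP_72e2e6_nt.W2.D.Spec

/-!
# MP_72e2e6_nt, T3, part D: the point `Q` (helper71)
-/

namespace Pool.Agent.MP72W

open Polynomial IntermediateField WeierstrassCurve

open scoped Classical

private theorem Tq_zero {G H : Type*} [AddGroup G] [AddGroup H] {f : G → H}
    (h : ∀ a b, f (a + b) = f a + f b) : f 0 = 0 := (AddMonoidHom.mk' f h).map_zero

private theorem Tq_sub {G H : Type*} [AddGroup G] [AddGroup H] {f : G → H}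
    (h : ∀ a b, f (a + b) = f a + f b) (a b : G) : f (a - b) = f a - f b :=
  (AddMonoidHom.mk' f h).map_sub a b

private theorem Tq_dbl {G : Type*} [AddCommGroup G] (Q : G) (k : ℕ) :
    2 ^ (k + 1) • Q = 2 ^ k • (Q + Q) := by
  rw [← two_nsmul, ← mul_nsmul', ← pow_succ]

private theorem Tq_dvd {G : Type*} [AddCommGroup G] (Q : G) {n k : ℕ} (hn : n < k)
    (h : 2 ^ n • (Q + Q) = 0) : 2 ^ k • Q = 0 := by
  obtain ⟨m, rfl⟩ := Nat.exists_eq_add_of_lt hn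
  rw [show n + m + 1 = m + (n + 1) by omega, pow_add, mul_nsmul', Tq_dbl, h, nsmul_zero]

theorem tTq (hPts : S_Pts) (hMap : S_Map) (_hFV : S_FV) (_hFVh : S_FVh) (hFVn : S_FVn) : S_Tq := by
  intro K _ _ D β hβ L _ _ k
  have hγ : β ^ 2 ≠ 0 := pow_ne_zero 2 hβ
  obtain ⟨hE0, -, -, hc, hm0⟩ := hMap K D (β ^ 2) hγ 0 L
  obtain ⟨f1, f2, f3, f4, f5, f6, f7, f8, f9, f10⟩ := hFVn K D (β ^ 2) hγ L
  obtain ⟨p1, p2, p3, p4, p5, p6, p7, p8, p9, p10⟩ := hPts L ((EE D (β ^ 2) 0)⁄L).toAffine hE0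
  have F0 : ∀ n, Fn D (β ^ 2) n (0 : Pt D (β ^ 2) 0 L) = 0 := fun n => Tq_zero (f1 n)
  have h1 : ∀ Q : Pt D (β ^ 2) k L, IsQ D β k Q → IsR D (β ^ 2) k (Q + Q) ∧
      addOrderOf Q = 2 ^ (k + 1) := by
    intro Q hQ
    have hT2 := (p8 _ _ hQ).1
    have hT0 := (p2 _ _ _ hQ).1
    have hV : Vn D (β ^ 2) k (Q + Q) = 0 := by rw [f2, hT2]
    have e1 : 2 ^ k • Q ≠ 0 := by
      rw [← f4]
      intro h
      apply hT0
      exact f5 k _ _ (h.trans (F0 k).symm)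
    have e2 : 2 ^ (k + 1) • Q = 0 := by
      rw [Tq_dbl, ← f4, hV, F0]
    have e3 : addOrderOf Q = 2 ^ (k + 1) := addOrderOf_eq_prime_pow e1 e2
    refine ⟨⟨hV, ?_⟩, e3⟩
    intro n hn h
    exact e1 (Tq_dvd Q hn h)
  have h2 : ∀ Q : Pt D (β ^ 2) k L, IsQ D β k Q → ∀ P, Vn D (β ^ 2) k P = 0 →
      ∃ m : ℕ, P = m • (Q + Q) := fun Q hQ P hP => ((f8 k (Q + Q) (h1 Q hQ).1).2 P).1 hP
  refine ⟨h1, h2, ?_, ?_, ?_⟩
  · intro Q Q' hQ hQ'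
    have e1 : Vn D (β ^ 2) k (Q' - Q) = 0 := by
      rw [Tq_sub (f2 k), p4 _ _ _ _ hQ' hQ, sub_self]
    obtain ⟨m, hm⟩ := h2 Q hQ _ e1
    exact ⟨m, by rw [← hm, add_sub_cancel]⟩
  · intro Q S M _ _ _ _ _ _ _ _ f hQ
    have e1 := (hm0 S M f).1 _ _ _ hQ
    rw [(f6 k S M f).2, map_zero, IsScalarTower.algebraMap_apply K S L, AlgHom.commutes,
      ← IsScalarTower.algebraMap_apply K S M] at e1
    exact e1
  · intro Q hQ
    exact hQ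

end Pool.Agent.MP72W
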