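import Pool.Agent.Lib.MP_72e2e6_nt.W2.D.Spec

namespace Pool.Agent.MP72W

open Polynomial IntermediateField WeierstrassCurve

open scoped Classical

/-- The map `(x, y) ↦ (x, y + c x)`. -/
private noncomputable def twsF {L : Type} [Field L] {W W' : WeierstrassCurve.Affine L} (c : L)
    (P : W.Point) : W'.Point :=
  if h : ∃ Q : W'.Point, P ≠ 0 ∧ XY Q (px P) (py P + c * px P) then h.choose else 0

/-- The relation between the two curves. -/
private structure TwsR {L : Type} [Field L] (W W' : WeierstrassCurve.Affine L) (c : L) : Prop where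
  hW : IsEc W
  hW' : IsEc W'
  h6 : W.a₆ = W'.a₆
  h2 : c ^ 2 + c + W.a₂ = W'.a₂

private lemma TwsR.symm {L : Type} [Field L] [CharP L 2] {W W' : WeierstrassCurve.Affine L} {c : L}
    (h : TwsR W W' c) : TwsR W' W c := by
  refine ⟨h.hW', h.hW, h.h6.symm, ?_⟩
  have := h.h2
  have h2 : (2 : L) = 0 := CharTwo.two_eq_zero
  linear_combination (c ^ 2 + c) * h2 - this

private lemma twsF_xy (hP : S_Pts) {L : Type} [Field L] [CharP L 2]
    {W W' : WeierstrassCurve.Affine L} {c : L} (h : TwsR W W' c) (P : W.Point) (x y : L)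
    (hxy : XY P x y) : XY (twsF (W' := W') c P) x (y + c * x) := by
  obtain ⟨-, h2, -⟩ := hP L W h.hW
  obtain ⟨-, -, h3, -⟩ := hP L W' h.hW'
  obtain ⟨h0, hx, hy, he⟩ := h2 P x y hxy
  have h20 : (2 : L) = 0 := CharTwo.two_eq_zero
  have hh2 := h.h2
  have hh6 := h.h6
  have he' : (y + c * x) ^ 2 + x * (y + c * x) = x ^ 3 + W'.a₂ * x ^ 2 + W'.a₆ := by
    linear_combination he + x ^ 2 * hh2 + hh6 + (y * c * x) * h20
  obtain ⟨Q, hQ⟩ := h3 x (y + c * x) he'
  have hex : ∃ Q : W'.Point, P ≠ 0 ∧ XY Q (px P) (py P + c * px P) :=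
    ⟨Q, h0, by rw [hx, hy]; exact hQ⟩
  have h9 := hex.choose_spec.2
  unfold twsF
  rw [dif_pos hex]
  generalize hex.choose = Z at h9 ⊢
  rw [hx, hy] at h9
  exact h9

private lemma twsF_zero {L : Type} [Field L] 
    {W W' : WeierstrassCurve.Affine L} {c : L} : twsF (W := W) (W' := W') c 0 = 0 := by
  unfold twsF
  rw [dif_neg]
  rintro ⟨Q, h, -⟩
  exact h rfl

private lemma twsF_inv (hP : S_Pts) {L : Type} [Field L] [CharP L 2]
    {W W' : WeierstrassCurve.Affine L} {c : L} (h : TwsR W W' c) (P : W.Point) :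
    twsF (W := W') (W' := W) c (twsF c P) = P := by
  obtain ⟨h1, h2, h3, h4, -⟩ := hP L W h.hW
  rcases h1 P with rfl | ⟨x, y, hxy⟩
  · rw [twsF_zero, twsF_zero]
  · have ha := twsF_xy hP h P x y hxy
    have hb := twsF_xy hP h.symm _ x _ ha
    refine h4 _ _ _ _ ?_ hxy
    have h20 : (2 : L) = 0 := CharTwo.two_eq_zero
    have : y + c * x + c * x = y := by linear_combination (c * x) * h20
    rw [this] at hb
    exact hb

private lemma twsF_neg (hP : S_Pts) {L : Type} [Field L] [CharP L 2]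
    {W W' : WeierstrassCurve.Affine L} {c : L} (h : TwsR W W' c) (P : W.Point) :
    twsF (W := W) (W' := W') c (-P) = -twsF c P := by
  obtain ⟨h1, h2, h3, h4, h5, -⟩ := hP L W h.hW
  obtain ⟨-, -, -, h4', h5', -⟩ := hP L W' h.hW'
  rcases h1 P with rfl | ⟨x, y, hxy⟩
  · rw [neg_zero, twsF_zero, neg_zero]
  · have ha := twsF_xy hP h P x y hxy
    have hb := twsF_xy hP h _ _ _ (h5 P x y hxy)
    have hc := h5' _ _ _ ha
    refine h4' _ _ _ _ hb ?_
    have : x + (y + c * x) = x + y + c * x := by ring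
    rw [this] at hc
    exact hc

private lemma twsF_sl (hP : S_Pts) {L : Type} [Field L] [CharP L 2]
    {W W' : WeierstrassCurve.Affine L} {c : L} (h : TwsR W W' c) (P Q : W.Point) (hP0 : P ≠ 0)
    (hQ0 : Q ≠ 0) (hPQ : P + Q ≠ 0) :
    sl (twsF (W := W) (W' := W') c P) (twsF c Q) = sl P Q + c := by
  obtain ⟨h1, h2, h3, h4, h5, h6, h7, h8, h9, h10⟩ := hP L W h.hW
  obtain ⟨-, -, -, -, -, h6', h7', -⟩ := hP L W' h.hW'
  obtain ⟨x, y, hxy⟩ := (h1 P).resolve_left hP0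
  obtain ⟨x', y', hxy'⟩ := (h1 Q).resolve_left hQ0
  have h20 : (2 : L) = 0 := CharTwo.two_eq_zero
  have ha := twsF_xy hP h P x y hxy
  have hb := twsF_xy hP h Q x' y' hxy'
  by_cases hx : x = x'
  · subst hx
    have hpx : px P = px Q := by
      rw [(h2 P x y hxy).2.1, (h2 Q x y' hxy').2.1]
    have hQP : Q = P := by
      rcases h9 P Q hP0 hQ0 hpx with h | h
      · exact h
      · exact absurd (by rw [h, add_neg_cancel]) hPQ
    subst hQP
    have hx0 : x ≠ 0 := by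
      intro hx0
      subst hx0
      exact hPQ (h8 _ y hxy).1
    rw [(h7 _ x y hxy hx0).1, (h7' _ x _ ha hx0).1]
    field_simp
    ring
  · rw [h6 P Q x y x' y' hxy hxy' hx, h6' _ _ _ _ _ _ ha hb hx]
    have hne : x + x' ≠ 0 := by
      intro h0
      exact hx (CharTwo.add_eq_zero.mp h0)
    field_simp
    ring

private lemma twsF_add (hP : S_Pts) {L : Type} [Field L] [CharP L 2]
    {W W' : WeierstrassCurve.Affine L} {c : L} (h : TwsR W W' c) (P Q : W.Point) :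
    twsF (W := W) (W' := W') c (P + Q) = twsF c P + twsF c Q := by
  by_cases hP0 : P = 0
  · rw [hP0, zero_add, twsF_zero, zero_add]
  by_cases hQ0 : Q = 0
  · rw [hQ0, add_zero, twsF_zero, add_zero]
  by_cases hPQ : P + Q = 0
  · rw [hPQ, twsF_zero]
    have : Q = -P := by
      rw [eq_neg_iff_add_eq_zero, add_comm]
      exact hPQ
    rw [this, twsF_neg hP h, add_neg_cancel]
  have hinj : Function.Injective (twsF (W := W) (W' := W') c) :=
    Function.LeftInverse.injective (twsF_inv hP h)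
  have hfP : twsF (W' := W') c P ≠ 0 := by
    intro h0
    exact hP0 (hinj (by rw [h0, twsF_zero]))
  have hfQ : twsF (W' := W') c Q ≠ 0 := by
    intro h0
    exact hQ0 (hinj (by rw [h0, twsF_zero]))
  have hfPQ : twsF (W' := W') c P + twsF c Q ≠ 0 := by
    intro h0
    have h1 : twsF (W' := W') c Q = twsF c (-P) := by
      rw [twsF_neg hP h, eq_neg_iff_add_eq_zero, add_comm]
      exact h0
    have h2 := hinj h1
    rw [h2, add_neg_cancel] at hPQ
    exact hPQ rfl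
  have hsl := twsF_sl hP h P Q hP0 hQ0 hPQ
  obtain ⟨h1, h2, h3, h4, h5, h6, h7, h8, h9, h10⟩ := hP L W h.hW
  obtain ⟨h1', h2', h3', h4', h5', h6', h7', h8', h9', h10'⟩ := hP L W' h.hW'
  obtain ⟨x, y, hxy⟩ := (h1 P).resolve_left hP0
  obtain ⟨x', y', hxy'⟩ := (h1 Q).resolve_left hQ0
  obtain ⟨u, v, huv⟩ := (h1 (P + Q)).resolve_left hPQ
  obtain ⟨u', v', huv'⟩ := (h1' _).resolve_left hfPQ
  have h20 : (2 : L) = 0 := CharTwo.two_eq_zero
  have ha := twsF_xy hP h P x y hxy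
  have hb := twsF_xy hP h Q x' y' hxy'
  have hc := twsF_xy hP h (P + Q) u v huv
  obtain ⟨ex, ey, -, -⟩ := h10 P Q hP0 hQ0 hPQ
  obtain ⟨ex', ey', -, -⟩ := h10' _ _ hfP hfQ hfPQ
  rw [(h2 _ _ _ hxy).2.1] at ex ey
  rw [(h2 _ _ _ hxy).2.2.1] at ey
  rw [(h2 _ _ _ hxy').2.1] at ex
  rw [(h2 _ _ _ huv).2.1] at ex ey
  rw [(h2 _ _ _ huv).2.2.1] at ey
  rw [(h2' _ _ _ ha).2.1] at ex' ey'
  rw [(h2' _ _ _ ha).2.2.1] at ey'
  rw [(h2' _ _ _ hb).2.1] at ex'
  rw [(h2' _ _ _ huv').2.1] at ex' ey'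
  rw [(h2' _ _ _ huv').2.2.1] at ey'
  rw [hsl] at ex' ey'
  have hh2 := h.h2
  have hu : u' = u := by
    rw [ex', ex]
    linear_combination (c * sl P Q + c ^ 2 + c) * h20 - hh2
  have hv : v' = v + c * u := by
    rw [ey', ey, hu]
    linear_combination (c * x) * h20
  rw [hu, hv] at huv'
  exact h4' _ _ _ _ hc huv'

theorem tTws (hPts : S_Pts) (hMap : S_Map) (hFV : S_FV) (_hFVh : S_FVh) : S_Tws := by
  intro K _ _ D γ hγ L _ _ α hα
  have hchar : CharP L 2 := (hMap K D γ hγ 0 L).2.2.2.1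
  have h20 : (2 : L) = 0 := CharTwo.two_eq_zero
  have hc : ∀ j : ℕ, (α ^ 2 ^ j) ^ 2 + α ^ 2 ^ j = algebraMap K L (D ^ 2 ^ j) := by
    intro j
    rw [map_pow, ← hα, add_pow_char_pow, ← pow_mul, ← pow_mul, mul_comm]
  have hR : ∀ j : ℕ, TwsR ((EE (0 : K) γ j)⁄L).toAffine ((EE D γ j)⁄L).toAffine (α ^ 2 ^ j) := by
    intro j
    obtain ⟨a1, a2, a3, -⟩ := hMap K 0 γ hγ j L
    obtain ⟨b1, b2, b3, -⟩ := hMap K D γ hγ j L
    refine ⟨a1, b1, by rw [a3, b3], ?_⟩
    rw [a2, b2, hc j, zero_pow (by positivity), map_zero, add_zero]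
  let φ : ∀ j : ℕ, Pt 0 γ j L ≃+ Pt D γ j L := fun j =>
    { toFun := twsF (α ^ 2 ^ j)
      invFun := twsF (α ^ 2 ^ j)
      left_inv := twsF_inv hPts (hR j)
      right_inv := twsF_inv hPts (hR j).symm
      map_add' := twsF_add hPts (hR j) }
  have hφ1 : ∀ j (P : Pt 0 γ j L) (x y : L), XY P x y → XY (φ j P) x (y + α ^ 2 ^ j * x) :=
    fun j P x y h => twsF_xy hPts (hR j) P x y h
  have hcase : ∀ j (P : Pt 0 γ j L), P = 0 ∨ ∃ x y, XY P x y := fun j P =>
    (hPts L _ (hR j).hW).1 P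
  have huniq : ∀ j (P Q : Pt D γ j L) (x y : L), XY P x y → XY Q x y → P = Q := fun j =>
    (hPts L _ (hR j).hW').2.2.2.1
  have hφ2 : ∀ j (P : Pt 0 γ (j + 1) L), Vi D γ j (φ (j + 1) P) = φ j (Vi 0 γ j P) := by
    intro j P
    obtain ⟨-, -, -, v4, v5, v6, -⟩ := hFV K D γ hγ j L
    obtain ⟨-, -, -, w4, w5, w6, -⟩ := hFV K 0 γ hγ j L
    rcases hcase _ P with rfl | ⟨x, y, hxy⟩
    · rw [map_zero, v4, w4, map_zero]
    · have ha := hφ1 _ _ _ _ hxy
      by_cases hx : x = 0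
      · subst hx
        rw [v5 _ _ ha, w5 _ _ hxy, map_zero]
      · have hb := v6 _ _ _ ha hx
        have hd := hφ1 _ _ _ _ (w6 _ _ _ hxy hx)
        refine huniq _ _ _ _ _ hb ?_
        have e : x + ((y + algebraMap K L (γ ^ 2 ^ j)) / x + algebraMap K L (0 ^ 2 ^ j) + 1) *
            (x + algebraMap K L (γ ^ 2 ^ j) / x) +
            α ^ 2 ^ j * (x + algebraMap K L (γ ^ 2 ^ j) / x) =
            x + ((y + α ^ 2 ^ (j + 1) * x + algebraMap K L (γ ^ 2 ^ j)) / x +
              algebraMap K L (D ^ 2 ^ j) + 1) * (x + algebraMap K L (γ ^ 2 ^ j) / x) := by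
          have e1 : algebraMap K L (0 ^ 2 ^ j) = 0 := by
            rw [zero_pow (by positivity), map_zero]
          have e2 : α ^ 2 ^ (j + 1) = (α ^ 2 ^ j) ^ 2 := by
            rw [← pow_mul, pow_succ]
          have e3 : (y + (α ^ 2 ^ j) ^ 2 * x + algebraMap K L (γ ^ 2 ^ j)) / x =
              (y + algebraMap K L (γ ^ 2 ^ j)) / x + (α ^ 2 ^ j) ^ 2 := by
            field_simp
            ring
          rw [e1, e2, e3, ← hc j]
          linear_combination (-(α ^ 2 ^ j) ^ 2 * (x + algebraMap K L (γ ^ 2 ^ j) / x)) * h20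
        rw [e] at hd
        exact hd
  refine ⟨φ, hφ1, hφ2, ?_, ?_⟩
  · intro k
    induction k with
    | zero => intro P; rfl
    | succ k ih =>
      intro P
      change Vn D γ k (Vi D γ k (φ (k + 1) P)) = φ 0 (Vn 0 γ k (Vi 0 γ k P))
      rw [hφ2, ih]
  · intro σ
    have hmD : ∀ j (P : Pt D γ j L) (x y : L), XY P x y →
        XY (pmap (EE D γ j) σ P) (σ x) (σ y) := fun j =>
      ((hMap K D γ hγ j L).2.2.2.2 K L σ).1
    have hm0 : ∀ j (P : Pt 0 γ j L) (x y : L), XY P x y →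
        XY (pmap (EE 0 γ j) σ P) (σ x) (σ y) := fun j =>
      ((hMap K 0 γ hγ j L).2.2.2.2 K L σ).1
    constructor
    · intro hσ j P
      rcases hcase _ P with rfl | ⟨x, y, hxy⟩
      · simp only [map_zero]
      · have ha := hmD _ _ _ _ (hφ1 _ _ _ _ hxy)
        have hb := hφ1 _ _ _ _ (hm0 _ _ _ _ hxy)
        refine huniq _ _ _ _ _ ha ?_
        rw [map_add, map_mul, map_pow, hσ]
        exact hb
    · intro hσ j P
      rcases hcase _ P with rfl | ⟨x, y, hxy⟩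
      · simp only [map_zero, neg_zero]
      · have ha := hmD _ _ _ _ (hφ1 _ _ _ _ hxy)
        have hb := (hPts L _ (hR j).hW').2.2.2.2.1 _ _ _ (hφ1 _ _ _ _ (hm0 _ _ _ _ hxy))
        refine huniq _ _ _ _ _ ha ?_
        have e : σ (y + α ^ 2 ^ j * x) = σ x + (σ y + α ^ 2 ^ j * σ x) := by
          rw [map_add, map_mul, map_pow, hσ, add_pow_char_pow, one_pow]
          ring
        rw [e]
        exact hb

end Pool.Agent.MP72W
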