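import Pool.Agent.Lib.MP_72e2e6_nt.W2.D.Spec
import Pool.Agent.Lib.MP_72e2e6_nt.W2.A.Spec

/-!
# MP_72e2e6_nt, theorem T3, part D: VS, the count on the side of `V`
-/

set_option autoImplicit false

namespace Pool.Agent.MP72W

open Polynomial IntermediateField WeierstrassCurve

open scoped Classical

attribute [-instance] Subtype.instDecidableEq

/-! ### Doubling -/

/-- The map `ZMod (2 ^ k) → ZMod (2 ^ (k + 1))`, `x ↦ 2 x`. -/
private def VS_dbl (k : ℕ) (x : ZMod (2 ^ k)) : ZMod (2 ^ (k + 1)) :=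
  ((2 * x.val : ℕ) : ZMod (2 ^ (k + 1)))

private theorem VS_dbl_nat (k a : ℕ) :
    VS_dbl k (a : ZMod (2 ^ k)) = 2 * (a : ZMod (2 ^ (k + 1))) := by
  unfold VS_dbl
  rw [ZMod.val_natCast]
  have h : ((2 * (a % 2 ^ k) : ℕ) : ZMod (2 ^ (k + 1))) = ((2 * a : ℕ) : ZMod (2 ^ (k + 1))) := by
    rw [ZMod.natCast_eq_natCast_iff, pow_succ']
    exact Nat.ModEq.mul_left' 2 (Nat.mod_modEq a (2 ^ k))
  rw [h]
  push_cast
  ring

private theorem VS_rep {m : ℕ} (x : ZMod (2 ^ m)) : ∃ a : ℕ, x = (a : ZMod (2 ^ m)) :=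
  ⟨x.val, (ZMod.natCast_zmod_val x).symm⟩

private theorem VS_dbl_add (k : ℕ) (x y : ZMod (2 ^ k)) :
    VS_dbl k (x + y) = VS_dbl k x + VS_dbl k y := by
  obtain ⟨a, rfl⟩ := VS_rep x
  obtain ⟨b, rfl⟩ := VS_rep y
  rw [← Nat.cast_add, VS_dbl_nat, VS_dbl_nat, VS_dbl_nat]
  push_cast
  ring

private theorem VS_dbl_mul (k : ℕ) (t : ZMod (2 ^ (k + 1))) (x : ZMod (2 ^ k)) :
    VS_dbl k (rdK k t * x) = t * VS_dbl k x := by
  obtain ⟨a, rfl⟩ := VS_rep t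
  obtain ⟨b, rfl⟩ := VS_rep x
  rw [map_natCast, ← Nat.cast_mul, VS_dbl_nat, VS_dbl_nat]
  push_cast
  ring

private theorem VS_dbl_inj (k : ℕ) (x y : ZMod (2 ^ k)) (h : VS_dbl k x = VS_dbl k y) :
    x = y := by
  obtain ⟨a, rfl⟩ := VS_rep x
  obtain ⟨b, rfl⟩ := VS_rep y
  rw [VS_dbl_nat, VS_dbl_nat] at h
  have h1 : ((2 * a : ℕ) : ZMod (2 ^ (k + 1))) = ((2 * b : ℕ) : ZMod (2 ^ (k + 1))) := by
    push_cast
    exact h
  rw [ZMod.natCast_eq_natCast_iff, pow_succ'] at h1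
  rw [ZMod.natCast_eq_natCast_iff]
  exact Nat.ModEq.mul_left_cancel' two_ne_zero h1

private theorem VS_dbl_rd (k : ℕ) (t : ZMod (2 ^ (k + 1))) : VS_dbl k (rdK k t) = 2 * t := by
  obtain ⟨a, rfl⟩ := VS_rep t
  rw [map_natCast, VS_dbl_nat]

private theorem VS_ord {G : Type*} [AddCommGroup G] (Q : G) (n : ℕ) (h : addOrderOf Q = 2 ^ n)
    (z : ℤ) : z • Q = 0 ↔ (z : ZMod (2 ^ n)) = 0 := by
  rw [← addOrderOf_dvd_iff_zsmul_eq_zero, h, ZMod.intCast_zmod_eq_zero_iff_dvd]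

/-! ### Points -/

private theorem VS_ext (hPts : S_Pts) {L : Type} [Field L] [CharP L 2]
    {W : WeierstrassCurve.Affine L} (hW : IsEc W) (P P' : W.Point) (h1 : px P = px P')
    (h2 : py P = py P') : P = P' := by
  obtain ⟨p1, p2, -, p4, -⟩ := hPts L W hW
  have key : ∀ P : W.Point, px P = 0 → py P = 0 → P = 0 := by
    intro P e1 e2
    rcases p1 P with h | ⟨x, y, h⟩
    · exact h
    · obtain ⟨-, e3, e4, e5⟩ := p2 _ _ _ h
      rw [← e3, ← e4, e1, e2] at e5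
      exfalso
      apply hW.b
      linear_combination -e5
  rcases p1 P with h | ⟨x, y, h⟩
  · rw [h] at h1 h2 ⊢
    exact (key P' h1.symm h2.symm).symm
  · rcases p1 P' with h' | ⟨x', y', h'⟩
    · rw [h'] at h1 h2 ⊢
      exact key P h1 h2
    · rw [(p2 _ _ _ h).2.1, (p2 _ _ _ h').2.1] at h1
      rw [(p2 _ _ _ h).2.2.1, (p2 _ _ _ h').2.2.1] at h2
      subst h1 h2
      exact p4 _ _ _ _ h h'

/-- A homomorphism which fixes the coordinates fixes the point. -/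
private theorem VS_fix (hPts : S_Pts) (hMap : S_Map) {K : Type} [Field K] [CharP K 2] (D γ : K)
    (hγ : γ ≠ 0) (j : ℕ) {L S : Type} [Field L] [Algebra K L] [Field S] [Algebra K S]
    [Algebra S L] [IsScalarTower K S L] (f : L →ₐ[S] L) (P : Pt D γ j L) (h1 : f (px P) = px P)
    (h2 : f (py P) = py P) : pmap (EE D γ j) f P = P := by
  obtain ⟨hW, -, -, hch, m⟩ := hMap K D γ hγ j L
  have hch' : CharP L 2 := hch
  obtain ⟨-, -, m3⟩ := m S L f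
  exact VS_ext hPts hW _ _ (by rw [(m3 P).1, h1]) (by rw [(m3 P).2, h2])

/-- Naturality. -/
private theorem VS_nat (hPts : S_Pts) (hMap : S_Map) {K : Type} [Field K] [CharP K 2] (D γ : K)
    (hγ : γ ≠ 0) (j : ℕ) {L M S : Type} [Field L] [Algebra K L] [Field M] [Algebra K M] [Field S]
    [Algebra K S] [Algebra S M] [IsScalarTower K S M] (ι : L →ₐ[K] M) (g : M →ₐ[S] M)
    (σ : L →ₐ[K] L) (h : ∀ x, g (ι x) = ι (σ x)) (P : Pt D γ j L) :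
    pmap (EE D γ j) g (pmap (EE D γ j) ι P) = pmap (EE D γ j) ι (pmap (EE D γ j) σ P) := by
  obtain ⟨hW, -, -, hch, m⟩ := hMap K D γ hγ j M
  have hch' : CharP M 2 := hch
  obtain ⟨-, -, -, -, m'⟩ := hMap K D γ hγ j L
  obtain ⟨-, -, m3⟩ := m S M g
  obtain ⟨-, -, m4⟩ := m' K M ι
  obtain ⟨-, -, m5⟩ := m' K L σ
  refine VS_ext hPts hW _ _ ?_ ?_
  · rw [(m3 _).1, (m4 _).1, (m4 _).1, (m5 _).1, h]
  · rw [(m3 _).2, (m4 _).2, (m4 _).2, (m5 _).2, h]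

section local_

variable {F : Type} [Field F] [Finite F] [CharP F 2] {v : AbsoluteValue (RatFunc F) ℝ} {d : ℕ}
  {ϖ : RatFunc F} {R : Finset (RatFunc F)}

/-- The image under `Vn` is rational over the completion. -/
private theorem VS_e (hFVn : S_FVn) (hKpt : S_Kpt) (hL : LF v d ϖ R)
    (D γ : RatFunc F) (hγ : γ ≠ 0) (k : ℕ) (R' X : Pt D γ k (Kvs v)) (hR : Vn D γ k R' = 0)
    (h : ∀ g : Gal(Kvs v/v.Completion), ∃ m : ℕ,
      m • R' = pmap (EE D γ k) (g : Kvs v →ₐ[v.Completion] Kvs v) X - X) :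
    ∃ P₀ : Pt D γ 0 v.Completion,
      pmap (EE D γ 0) (Algebra.ofId v.Completion (Kvs v)) P₀ = Vn D γ k X := by
  obtain ⟨-, u2, -, -, -, u6, -, -, -, -⟩ := hFVn (RatFunc F) D γ hγ (Kvs v)
  let V : Pt D γ k (Kvs v) →+ Pt D γ 0 (Kvs v) := AddMonoidHom.mk' (Vn D γ k) (u2 k)
  refine (hKpt F v d ϖ R hL D γ hγ).2 0 (Vn D γ k X) ?_
  intro g
  obtain ⟨m, hm⟩ := h g
  rw [((u6 k v.Completion (Kvs v) (g : Kvs v →ₐ[v.Completion] Kvs v)).2 X)]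
  have e1 : pmap (EE D γ k) (g : Kvs v →ₐ[v.Completion] Kvs v) X = m • R' + X := by
    rw [hm, sub_add_cancel]
  rw [e1, u2]
  have e2 : Vn D γ k (m • R') = m • Vn D γ k R' := map_nsmul V m R'
  rw [e2, hR, smul_zero, zero_add]

/-- Points which come from the completion are fixed. -/
private theorem VS_fix0 (hPts : S_Pts) (hMap : S_Map) (D γ : RatFunc F) (hγ : γ ≠ 0) (j : ℕ)
    (P : Pt D γ j v.Completion) (g : Gal(Kvs v/v.Completion)) :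
    pmap (EE D γ j) (g : Kvs v →ₐ[v.Completion] Kvs v)
      (pmap (EE D γ j) (Algebra.ofId v.Completion (Kvs v)) P) =
      pmap (EE D γ j) (Algebra.ofId v.Completion (Kvs v)) P := by
  obtain ⟨-, -, -, -, m⟩ := hMap (RatFunc F) D γ hγ j v.Completion
  obtain ⟨-, -, m3⟩ := m v.Completion (Kvs v) (Algebra.ofId v.Completion (Kvs v))
  refine VS_fix hPts hMap D γ hγ j _ _ ?_ ?_
  · rw [(m3 P).1]
    exact AlgEquiv.commutes g _
  · rw [(m3 P).2]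
    exact AlgEquiv.commutes g _

/-- The structure of `X` at the deeply ramified places. -/
private theorem VS_loc (hPts : S_Pts) (hMap : S_Map) (hFVn : S_FVn) (hTq : S_Tq) (hVdp : S_Vdp)
    (hKpt : S_Kpt) (hL : LF v d ϖ R) (D β : RatFunc F) (hβ : β ≠ 0) (k : ℕ) (M : ℝ) (hM1 : 1 < M)
    (hM2 : ∀ j ≤ k, v (β ^ 2 ^ j) < M)
    (hM3 : ∀ y : v.Completion, M ≤ ‖algebraMap (RatFunc F) v.Completion D + (y ^ 2 + y)‖)
    (Q' X : Pt D (β ^ 2) k (Kvs v)) (hQ : IsQ D β k Q')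
    (h : ∀ g : Gal(Kvs v/v.Completion), ∃ m : ℕ,
      m • (Q' + Q') = pmap (EE D (β ^ 2) k) (g : Kvs v →ₐ[v.Completion] Kvs v) X - X) :
    ∃ (N : ℕ) (Y : Pt D (β ^ 2) k (Kvs v)), X = Y + N • Q' ∧
      ∀ g : Gal(Kvs v/v.Completion),
        pmap (EE D (β ^ 2) k) (g : Kvs v →ₐ[v.Completion] Kvs v) Y = Y := by
  have hβ2 : β ^ 2 ≠ 0 := pow_ne_zero 2 hβ
  obtain ⟨t1, t2, -, -, -⟩ := hTq (RatFunc F) D β hβ (Kvs v) k
  obtain ⟨-, u2, -, -, -, u6, -, -, -, -⟩ := hFVn (RatFunc F) D (β ^ 2) hβ2 (Kvs v)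
  obtain ⟨-, -, -, -, -, u6', -, -, -, -⟩ := hFVn (RatFunc F) D (β ^ 2) hβ2 v.Completion
  let V : Pt D (β ^ 2) k (Kvs v) →+ Pt D (β ^ 2) 0 (Kvs v) :=
    AddMonoidHom.mk' (Vn D (β ^ 2) k) (u2 k)
  obtain ⟨P₀, hP₀⟩ := VS_e hFVn hKpt hL D (β ^ 2) hβ2 k (Q' + Q') X (t1 Q' hQ).1.1 h
  obtain ⟨P', hP'⟩ := hVdp F v d ϖ R hL D β hβ k M hM1 hM2 hM3 P₀
  set Y := pmap (EE D (β ^ 2) k) (Algebra.ofId v.Completion (Kvs v)) P' with hY
  have hYV : Vn D (β ^ 2) k Y =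
      pmap (EE D (β ^ 2) 0) (Algebra.ofId v.Completion (Kvs v)) (Vn D (β ^ 2) k P') :=
    ((u6' k v.Completion (Kvs v) (Algebra.ofId v.Completion (Kvs v))).2 P').symm
  have hYf : ∀ g : Gal(Kvs v/v.Completion),
      pmap (EE D (β ^ 2) k) (g : Kvs v →ₐ[v.Completion] Kvs v) Y = Y :=
    fun g => VS_fix0 hPts hMap D (β ^ 2) hβ2 k P' g
  have fin : ∀ ε : ℕ, Vn D (β ^ 2) k (X - Y - ε • Q') = 0 →
      ∃ (N : ℕ) (Y : Pt D (β ^ 2) k (Kvs v)), X = Y + N • Q' ∧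
      ∀ g : Gal(Kvs v/v.Completion),
        pmap (EE D (β ^ 2) k) (g : Kvs v →ₐ[v.Completion] Kvs v) Y = Y := by
    intro ε hε
    obtain ⟨m, hm⟩ := t2 Q' hQ _ hε
    refine ⟨ε + 2 * m, Y, ?_, hYf⟩
    have e1 : X = Y + ε • Q' + (X - Y - ε • Q') := by abel
    rw [e1, hm, add_smul, mul_comm, mul_smul, two_smul, smul_add]
    abel
  rcases hP' with hP' | ⟨T, hT, hP'⟩
  · refine fin 0 ?_
    have e1 : Vn D (β ^ 2) k (X - Y - 0 • Q') = Vn D (β ^ 2) k X - Vn D (β ^ 2) k Y := by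
      rw [zero_smul, sub_zero]
      exact map_sub V X Y
    rw [e1, hYV, ← hP₀, hP', sub_self]
  · refine fin 1 ?_
    obtain ⟨-, -, -, -, m⟩ := hMap (RatFunc F) D (β ^ 2) hβ2 0 v.Completion
    obtain ⟨m1, -, -⟩ := m v.Completion (Kvs v) (Algebra.ofId v.Completion (Kvs v))
    obtain ⟨hW, -, -, hch, -⟩ := hMap (RatFunc F) D (β ^ 2) hβ2 0 (Kvs v)
    have hch' : CharP (Kvs v) 2 := hch
    obtain ⟨-, -, -, p4, -⟩ := hPts (Kvs v) _ hW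
    have e3 : pmap (EE D (β ^ 2) 0) (Algebra.ofId v.Completion (Kvs v)) T =
        Vn D (β ^ 2) k Q' := by
      refine p4 _ _ 0 (algebraMap (RatFunc F) (Kvs v) β) ?_ hQ
      have e4 := m1 T _ _ hT
      rw [map_zero] at e4
      rw [IsScalarTower.algebraMap_apply (RatFunc F) v.Completion (Kvs v)]
      exact e4
    have e1 : Vn D (β ^ 2) k (X - Y - 1 • Q') =
        Vn D (β ^ 2) k X - Vn D (β ^ 2) k Y - Vn D (β ^ 2) k Q' := by
      rw [one_smul]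
      exact (map_sub V (X - Y) Q').trans (congrArg (· - V Q') (map_sub V X Y))
    rw [e1, hYV, ← hP₀, hP', map_add, e3]
    abel

/-- Geometric elements fix `X` at the places of good reduction. -/
private theorem VS_unr (hPts : S_Pts) (hMap : S_Map) (hNr : S_Nr) (hFVn : S_FVn) (hTq : S_Tq)
    (hVun : S_Vun) (hKpt : S_Kpt) (hL : LF v d ϖ R) (D β : RatFunc F) (hβ : β ≠ 0)
    (hvD : v D ≤ 1) (hvβ : v β = 1) (k : ℕ) (Q' X : Pt D (β ^ 2) k (Kvs v)) (hQ : IsQ D β k Q')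
    (hQK : CIn Q' (Knr v : Set (Kvs v)))
    (h : ∀ g : Gal(Kvs v/v.Completion), ∃ m : ℕ,
      m • (Q' + Q') = pmap (EE D (β ^ 2) k) (g : Kvs v →ₐ[v.Completion] Kvs v) X - X)
    (g : Gal(Kvs v/v.Completion)) (hg : IsGeo (Nat.card F) g) :
    pmap (EE D (β ^ 2) k) (g : Kvs v →ₐ[v.Completion] Kvs v) X = X := by
  have hβ2 : β ^ 2 ≠ 0 := pow_ne_zero 2 hβ
  obtain ⟨t1, t2, -, -, -⟩ := hTq (RatFunc F) D β hβ (Kvs v) k
  obtain ⟨-, u2, -, -, -, u6, -, -, -, -⟩ := hFVn (RatFunc F) D (β ^ 2) hβ2 (Kvs v)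
  let V : Pt D (β ^ 2) k (Kvs v) →+ Pt D (β ^ 2) 0 (Kvs v) :=
    AddMonoidHom.mk' (Vn D (β ^ 2) k) (u2 k)
  obtain ⟨P₀, hP₀⟩ := VS_e hFVn hKpt hL D (β ^ 2) hβ2 k (Q' + Q') X (t1 Q' hQ).1.1 h
  obtain ⟨-, -, -, -, -, n6, -⟩ := hNr F v d ϖ R hL
  obtain ⟨-, -, -, -, m⟩ := hMap (RatFunc F) D (β ^ 2) hβ2 0 v.Completion
  obtain ⟨-, -, m3⟩ := m v.Completion (Kvs v) (Algebra.ofId v.Completion (Kvs v))
  have hC : CIn (Vn D (β ^ 2) k X) (Knr v : Set (Kvs v)) := by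
    rw [← hP₀]
    refine ⟨?_, ?_⟩
    · rw [(m3 P₀).1]
      exact (Knr v).algebraMap_mem _
    · rw [(m3 P₀).2]
      exact (Knr v).algebraMap_mem _
  have hv2 : v (β ^ 2) = 1 := by rw [map_pow, hvβ, one_pow]
  obtain ⟨X', hX', hX''⟩ := hVun F v d ϖ R hL D (β ^ 2) hvD hv2 k _ hC
  have e1 : Vn D (β ^ 2) k (X - X') = 0 := by
    have e2 : Vn D (β ^ 2) k (X - X') = Vn D (β ^ 2) k X - Vn D (β ^ 2) k X' := map_sub V X X'
    rw [e2, hX'', sub_self]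
  obtain ⟨n, hn⟩ := t2 Q' hQ _ e1
  have fx : ∀ P : Pt D (β ^ 2) k (Kvs v), CIn P (Knr v : Set (Kvs v)) →
      pmap (EE D (β ^ 2) k) (g : Kvs v →ₐ[v.Completion] Kvs v) P = P := by
    intro P hP
    exact VS_fix hPts hMap D (β ^ 2) hβ2 k _ _ ((n6 g).1 hg _ hP.1) ((n6 g).1 hg _ hP.2)
  have e3 : X = X' + n • (Q' + Q') := by
    rw [← hn]
    abel
  rw [e3, map_add, map_nsmul, map_add, fx X' hX', fx Q' hQK]

end local_

section main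

variable {F : Type} [Field F] [Finite F] [CharP F 2] {PP : Finset F[X]}

omit [Finite F] [CharP F 2] in
private theorem VS_abs {v : AbsoluteValue (RatFunc F) ℝ} {β : RatFunc F} (hβ : β ≠ 0)
    (h1 : v β ≤ 1) (h2 : v β⁻¹ ≤ 1) : v β = 1 := by
  have h3 : v β * v β⁻¹ = 1 := by rw [← map_mul, mul_inv_cancel₀ hβ, map_one]
  refine le_antisymm h1 ?_
  rw [← h3]
  exact mul_le_of_le_one_right (AbsoluteValue.nonneg v β) h2

/-- The crossed homomorphism factors through `GS PP`. -/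
private theorem VS_fac (hAv : S_Av) (hLfP : S_LfP) (hNr : S_Nr) (hAsr : S_Asr)
    (hOnr : S_Onr) (hPts : S_Pts) (hMap : S_Map) (hFVn : S_FVn) (hTq : S_Tq) (hTom : S_Tom)
    (hVun : S_Vun) (hKpt : S_Kpt) (hFac : S_Fac) (hPP : ∀ P ∈ PP, P.Monic ∧ Irreducible P)
    (D β : RatFunc F) (hD : D ∈ AS PP) (hβA : β ∈ AS PP) (hβA' : β⁻¹ ∈ AS PP) (hβ : β ≠ 0)
    (k : ℕ) (Q : Pt D (β ^ 2) k (Kgs F)) (hQ : IsQ D β k Q)
    (χ : GS PP → ZMod (2 ^ (k + 1))) (hχ : Chr χ) (c : Gal(Kgs F/RatFunc F) → ZMod (2 ^ k))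
    (hc : SelV D (β ^ 2) k (Q + Q) (fun g => rdK k (χ g)) c) :
    ∃ c' : GS PP → ZMod (2 ^ k), Coc (fun g x => rdK k (χ g) * x) c' ∧
      ∀ σ, c σ = c' (rG PP σ) := by
  have hβ2 : β ^ 2 ≠ 0 := pow_ne_zero 2 hβ
  refine hFac F PP hPP k (fun g => rdK k (χ g)) ?_ c hc.loc hc.mul ?_
  · refine ⟨hχ.loc.comp (rdK k), ?_, ?_⟩
    · rw [hχ.one, map_one]
    · intro a b
      rw [hχ.mul, map_mul]
  intro P hPm hPi hP
  obtain ⟨a1, -, a3⟩ := hAv F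
  obtain ⟨v, hv⟩ := a1 P hPm hPi
  refine ⟨v, hv, ?_⟩
  obtain ⟨R, hL⟩ := hLfP F P v hv
  let ι : Kgs F →ₐ[RatFunc F] Kvs v := IsSepClosed.lift
  refine ⟨ι, ?_⟩
  intro g hg
  obtain ⟨-, -, -, as4, -⟩ := hAsr F 0 PP hPP
  have hvD : v D ≤ 1 := as4 D hD P v hP hv
  have hvβ : v β = 1 := VS_abs hβ (as4 β hβA P v hP hv) (as4 _ hβA' P v hP hv)
  obtain ⟨-, -, -, t4, -⟩ := hTq (RatFunc F) D β hβ (Kgs F) k
  obtain ⟨t1, -, -, -, -⟩ := hTq (RatFunc F) D β hβ (Kvs v) k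
  obtain ⟨-, -, -, -, -, -, -, u8, -, -⟩ := hFVn (RatFunc F) D (β ^ 2) hβ2 (Kvs v)
  set Q' := pmap (EE D (β ^ 2) k) ι Q with hQ'def
  have hQ' : IsQ D β k Q' := t4 Q (RatFunc F) (Kvs v) ι hQ
  obtain ⟨o1, -⟩ := hOnr F PP hPP P v hP hv ι
  obtain ⟨⟨cq, -⟩, -⟩ := (hTom F PP hPP D β hD hβA hβ k).1 Q hQ, ()
  obtain ⟨-, -, -, -, m⟩ := hMap (RatFunc F) D (β ^ 2) hβ2 k (Kgs F)
  obtain ⟨-, -, m3⟩ := m (RatFunc F) (Kvs v) ι
  have hQK : CIn Q' (Knr v : Set (Kvs v)) := by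
    refine ⟨?_, ?_⟩
    · rw [hQ'def, (m3 Q).1]
      exact o1 _ cq.1
    · rw [hQ'def, (m3 Q).2]
      exact o1 _ cq.2
  have h1 := hc.sel v (a3 (some P) v hv) ι
  have e : (fun a b => Subtype.instDecidableEq a b : DecidableEq (Kvs v)) =
    fun a b => Classical.propDecidable (a = b) := Subsingleton.elim _ _
  try rw [e] at h1
  obtain ⟨X, hX⟩ := h1
  rw [map_add, ← hQ'def] at hX
  have h2 := VS_unr hPts hMap hNr hFVn hTq hVun hKpt hL D β hβ hvD hvβ k Q' X hQ' hQK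
    (fun g => ⟨_, hX g⟩) g hg
  have h3 := hX g
  rw [h2, sub_self] at h3
  have h4 := (u8 k (Q' + Q') (t1 Q' hQ').1).1
  have h5 := addOrderOf_dvd_iff_nsmul_eq_zero.2 h3
  rw [h4] at h5
  have h6 := Nat.eq_zero_of_dvd_of_lt h5 (ZMod.val_lt _)
  exact (ZMod.val_eq_zero _).1 h6

/-- The function `2 c'` is in the set of `S_Cos`. -/
private theorem VS_mem (hAv : S_Av) (hLfP : S_LfP) (hLfI : S_LfI) (hRes : S_Res) (hRgo : S_Rgo)
    (hPts : S_Pts) (hMap : S_Map) (hFVn : S_FVn) (hTq : S_Tq) (hVdp : S_Vdp) (hKpt : S_Kpt)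
    (κ : F) (hPP : ∀ P ∈ PP, P.Monic ∧ Irreducible P) (A : Dat F PP) (hA : A.Ok κ)
    (D β : RatFunc F) (hβ : β ≠ 0) (k : ℕ) (Q : Pt D (β ^ 2) k (Kgs F)) (hQ : IsQ D β k Q)
    (χ : GS PP → ZMod (2 ^ (k + 1))) (hQχ : ∀ σ : Gal(Kgs F/RatFunc F),
      pmap (EE D (β ^ 2) k) (σ : Kgs F →ₐ[RatFunc F] Kgs F) Q = (χ (rG PP σ)).val • Q)
    (hM : ∀ w : Option PP, ∃ M : ℝ, 1 < M ∧ (∀ j ≤ k, A.av w (β ^ 2 ^ j) < M) ∧
      ∀ y : (A.av w).Completion, M ≤ ‖algebraMap (RatFunc F) _ D + (y ^ 2 + y)‖)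
    (c : Gal(Kgs F/RatFunc F) → ZMod (2 ^ k))
    (hc : SelV D (β ^ 2) k (Q + Q) (fun g => rdK k (χ g)) c) (c' : GS PP → ZMod (2 ^ k))
    (hcc : ∀ σ, c σ = c' (rG PP σ)) (w : Option PP) :
    ∃ a : ZMod (2 ^ (k + 1)), ∀ g : Gal(Kvs (A.av w)/(A.av w).Completion),
      VS_dbl k (c' (rOm (PP := PP) (A.emb w) g)) = a * (1 - χ (rOm (PP := PP) (A.emb w) g)) := by
  have hβ2 : β ^ 2 ≠ 0 := pow_ne_zero 2 hβ
  obtain ⟨-, -, a3⟩ := hAv F
  have hpl := hA.pl w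
  obtain ⟨d, ϖ, R, hL⟩ : ∃ (d : ℕ) (ϖ : RatFunc F) (R : Finset (RatFunc F)),
      LF (A.av w) d ϖ R := by
    rcases w with _ | P
    · obtain ⟨R, hL⟩ := hLfI F (A.av none) hpl
      exact ⟨_, _, R, hL⟩
    · obtain ⟨R, hL⟩ := hLfP F P.1 (A.av (some P)) hpl
      exact ⟨_, _, R, hL⟩
  obtain ⟨M, hM1, hM2, hM3⟩ := hM w
  set v := A.av w with hv
  set ι := A.emb w with hι
  have h1 := hc.sel v (a3 _ v hpl) ι
  have e : (fun a b => Subtype.instDecidableEq a b : DecidableEq (Kvs v)) =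
    fun a b => Classical.propDecidable (a = b) := Subsingleton.elim _ _
  try rw [e] at h1
  obtain ⟨X, hX⟩ := h1
  obtain ⟨-, -, -, t4, -⟩ := hTq (RatFunc F) D β hβ (Kgs F) k
  obtain ⟨t1, -, -, -, -⟩ := hTq (RatFunc F) D β hβ (Kvs v) k
  set Q' := pmap (EE D (β ^ 2) k) ι Q with hQ'def
  have hQ' : IsQ D β k Q' := t4 Q (RatFunc F) (Kvs v) ι hQ
  rw [map_add, ← hQ'def] at hX
  obtain ⟨N, Y, hXY, hY⟩ := VS_loc hPts hMap hFVn hTq hVdp hKpt hL D β hβ k M hM1 hM2 hM3 Q' X hQ'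
    (fun g => ⟨_, hX g⟩)
  refine ⟨-(N : ZMod (2 ^ (k + 1))), ?_⟩
  intro g
  obtain ⟨-, r2, -, -⟩ := hRes (RatFunc F) (Kgs F) v.Completion (Kvs v) ι
  obtain ⟨-, -, r3, -⟩ := hRgo F PP hPP
  have e1 : pmap (EE D (β ^ 2) k) (g : Kvs v →ₐ[v.Completion] Kvs v) Q' =
      (χ (rOm (PP := PP) ι g)).val • Q' := by
    rw [hQ'def, VS_nat hPts hMap D (β ^ 2) hβ2 k ι (g : Kvs v →ₐ[v.Completion] Kvs v)
      ((rsH (M := v.Completion) ι g : Gal(Kgs F/RatFunc F)) : Kgs F →ₐ[RatFunc F] Kgs F)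
      (fun x => r2 g x) Q, hQχ, map_nsmul, r3]
  have e2 := hX g
  rw [hcc, r3, hXY, map_add, hY, map_nsmul, e1] at e2
  have e3 : ((2 * ((c' (rOm (PP := PP) ι g)).val : ℤ) -
      N * ((χ (rOm (PP := PP) ι g)).val : ℤ) + N : ℤ)) • Q' = 0 := by
    rw [add_zsmul, sub_zsmul, mul_zsmul, mul_zsmul, two_zsmul]
    simp only [natCast_zsmul]
    rw [← smul_add, e2]
    abel
  rw [VS_ord Q' (k + 1) (t1 Q' hQ').2] at e3
  push_cast at e3
  rw [ZMod.natCast_zmod_val] at e3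
  unfold VS_dbl
  push_cast
  linear_combination e3

private theorem VS_unit (k : ℕ) (m x : ZMod (2 ^ (k + 1))) (h : 2 * x * (-2 + 4 * m) = 0) :
    4 * x = 0 := by
  have h1 : IsUnit (1 - 2 * m : ZMod (2 ^ (k + 1))) := by
    refine IsNilpotent.isUnit_one_sub ⟨k + 1, ?_⟩
    rw [mul_pow]
    have h2 : (2 : ZMod (2 ^ (k + 1))) ^ (k + 1) = 0 := by
      have h3 : ((2 ^ (k + 1) : ℕ) : ZMod (2 ^ (k + 1))) = 0 := ZMod.natCast_self _
      push_cast at h3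
      exact h3
    rw [h2, zero_mul]
  have h4 : 4 * x * (1 - 2 * m) = 0 := by linear_combination -h
  exact (IsUnit.mul_left_eq_zero h1).1 h4

theorem tVS : S_Av → S_LfP → S_LfI → S_Lc1 → S_Lc2 → S_Nr → S_Sep → S_Res → S_Asr → S_Hlo →
    S_Rgo → S_Onr → S_Pts → S_Map → S_FV → S_FVn → S_Vsu → S_Tq → S_Tom → S_Vdp → S_Vun → S_Kpt →
    S_Fac → S_Goo → S_Cos → S_VS := by
  intro hAv hLfP hLfI _ _ hNr _ hRes hAsr _ hRgo hOnr hPts hMap _ hFVn _ hTq hTom hVdp hVun hKpt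
    hFac hGoo hCos F _ _ _ κ hκ PP hPP A hA D β hD hβA hβA' hβ k hk Q hQ χ hχ hQχ hg0 hM n c hsel
    hdiff
  have e : (fun a b => Subtype.instDecidableEq a b : DecidableEq (Kgs F)) =
    fun a b => Classical.propDecidable (a = b) := Subsingleton.elim _ _
  try rw [e] at hQχ
  try rw [e] at hsel
  have hfac : ∀ i, ∃ c' : GS PP → ZMod (2 ^ k), Coc (fun g x => rdK k (χ g) * x) c' ∧
      ∀ σ, c i σ = c' (rG PP σ) := fun i =>
    VS_fac hAv hLfP hNr hAsr hOnr hPts hMap hFVn hTq hTom hVun hKpt hFac hPP D β hD hβA hβA' hβ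
      k Q hQ χ hχ (c i) (hsel i)
  choose c' hc' hcc using hfac
  obtain ⟨-, -, huex, hh2, -⟩ := hGoo F κ hκ PP hPP A hA
  obtain ⟨s1, s2⟩ := hCos (GS PP) PP (famC κ A).W (famC κ A).φ huex hh2 k χ hχ
  set SS := {Z : GS PP → ZMod (2 ^ (k + 1)) | Coc (fun g x => χ g * x) Z ∧
    ∀ w, ∃ a : ZMod (2 ^ (k + 1)), (∀ g ∈ (famC κ A).W w, Z g = a * (1 - χ g)) ∧
      Z ((famC κ A).φ w) = a * (1 - χ ((famC κ A).φ w))} with hSS
  let f : Fin n × Fin (2 ^ (k - 1)) → (GS PP → ZMod (2 ^ (k + 1))) :=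
    fun p g => VS_dbl k (c' p.1 g) + 2 * ((p.2 : ℕ) : ZMod (2 ^ (k + 1))) * (χ g - 1)
  have hmem : ∀ p, f p ∈ SS := by
    intro p
    refine ⟨⟨?_, ?_⟩, ?_⟩
    · have l1 : IsLocallyConstant fun g => VS_dbl k (c' p.1 g) := (hc' p.1).loc.comp (VS_dbl k)
      have l2 : IsLocallyConstant fun g =>
          2 * ((p.2 : ℕ) : ZMod (2 ^ (k + 1))) * (χ g - 1) :=
        hχ.loc.comp fun x => 2 * ((p.2 : ℕ) : ZMod (2 ^ (k + 1))) * (x - 1)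
      exact l1.add l2
    · intro g h
      change VS_dbl k (c' p.1 (g * h)) + 2 * ((p.2 : ℕ) : ZMod (2 ^ (k + 1))) * (χ (g * h) - 1) =
        (VS_dbl k (c' p.1 g) + 2 * ((p.2 : ℕ) : ZMod (2 ^ (k + 1))) * (χ g - 1)) + χ g *
        (VS_dbl k (c' p.1 h) + 2 * ((p.2 : ℕ) : ZMod (2 ^ (k + 1))) * (χ h - 1))
      rw [(hc' p.1).mul, VS_dbl_add, VS_dbl_mul, hχ.mul]
      ring
    · intro w
      obtain ⟨a, ha⟩ := VS_mem hAv hLfP hLfI hRes hRgo hPts hMap hFVn hTq hVdp hKpt κ hPP A hA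
        D β hβ k Q hQ χ hQχ hM (c p.1) (hsel p.1) (c' p.1) (hcc p.1) w
      refine ⟨a - 2 * ((p.2 : ℕ) : ZMod (2 ^ (k + 1))), ?_, ?_⟩
      · rintro _ ⟨g, -, rfl⟩
        change VS_dbl k (c' p.1 (rOm (PP := PP) (A.emb w) g)) + 2 * ((p.2 : ℕ) :
          ZMod (2 ^ (k + 1))) * (χ (rOm (PP := PP) (A.emb w) g) - 1) = _
        rw [ha]
        ring
      · change VS_dbl k (c' p.1 (rOm (PP := PP) (A.emb w) (A.φ w))) + 2 * ((p.2 : ℕ) :
          ZMod (2 ^ (k + 1))) * (χ (rOm (PP := PP) (A.emb w) (A.φ w)) - 1) =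
          (a - 2 * ((p.2 : ℕ) : ZMod (2 ^ (k + 1)))) *
            (1 - χ (rOm (PP := PP) (A.emb w) (A.φ w)))
        rw [ha]
        ring
  have hinj : Function.Injective f := by
    rintro ⟨i, a⟩ ⟨j, b⟩ h
    have h1 : ∀ g, VS_dbl k (c' i g) + 2 * ((a : ℕ) : ZMod (2 ^ (k + 1))) * (χ g - 1) =
        VS_dbl k (c' j g) + 2 * ((b : ℕ) : ZMod (2 ^ (k + 1))) * (χ g - 1) :=
      fun g => congrFun h g
    have hij : i = j := by
      by_contra hij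
      apply hdiff i j hij
      refine ⟨rdK k (((b : ℕ) : ZMod (2 ^ (k + 1))) - ((a : ℕ) : ZMod (2 ^ (k + 1)))), ?_⟩
      intro σ
      rw [hcc, hcc, sub_eq_iff_eq_add]
      apply VS_dbl_inj
      rw [VS_dbl_add, ← map_one (rdK k), ← map_sub, VS_dbl_mul, VS_dbl_rd]
      linear_combination h1 (rG PP σ)
    subst hij
    obtain ⟨g, m, hg⟩ := hg0
    have h2 := h1 g
    rw [hg] at h2
    have h3 := VS_unit k m (((a : ℕ) : ZMod (2 ^ (k + 1))) - ((b : ℕ) : ZMod (2 ^ (k + 1)))) (by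
      linear_combination h2)
    have h4 : ((4 * (a : ℕ) : ℕ) : ZMod (2 ^ (k + 1))) = ((4 * (b : ℕ) : ℕ) : ZMod (2 ^ (k + 1))) := by
      push_cast
      linear_combination h3
    rw [ZMod.natCast_eq_natCast_iff, show 2 ^ (k + 1) = 4 * 2 ^ (k - 1) by
      rw [show k + 1 = (k - 1) + 2 by omega, pow_add]
      ring] at h4
    have h5 := Nat.ModEq.mul_left_cancel' (by norm_num) h4
    have h6 : (a : ℕ) = b := Nat.ModEq.eq_of_lt_of_lt h5 a.2 b.2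
    rw [Prod.mk.injEq]
    exact ⟨rfl, Fin.ext h6⟩
  have hcard : n * 2 ^ (k - 1) ≤ SS.ncard := by
    have h1 : ((Finset.univ.image f : Finset (GS PP → ZMod (2 ^ (k + 1)))) :
        Set (GS PP → ZMod (2 ^ (k + 1)))).ncard = n * 2 ^ (k - 1) := by
      rw [Set.ncard_coe_finset, Finset.card_image_of_injective _ hinj, Finset.card_univ,
        Fintype.card_prod, Fintype.card_fin, Fintype.card_fin]
    rw [← h1]
    refine Set.ncard_le_ncard ?_ s1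
    intro Z hZ
    rw [Finset.mem_coe, Finset.mem_image] at hZ
    obtain ⟨p, -, rfl⟩ := hZ
    exact hmem p
  rw [Fintype.card_coe] at s2
  exact (Nat.mul_le_mul_right _ hcard).trans s2

end main

end Pool.Agent.MP72W
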