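import Pool.Agent.Lib.MP_72e2e6_nt.W2.D.Spec

/-!
# MP_72e2e6_nt, theorem T3, part D: local points at the deeply ramified places
-/

namespace Pool.Agent.MP72W

open Polynomial IntermediateField WeierstrassCurve

open scoped Classical

section

variable {K : Type} [Field K] [CharP K 2] (D β : K) {L : Type} [NormedField L]
  [IsUltrametricDist L] [CharP L 2] [Algebra K L]

/-- Claim A. -/
private theorem vdp_A (h2 : S_Pts) (h3 : S_Map) (h7 : S_Vsu) (hβ : β ≠ 0)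
    (hAS : ∀ x : L, ‖x‖ < 1 → ∃ θ : L, ‖θ‖ < 1 ∧ θ ^ 2 + θ = x) (M : ℝ) (hM : 1 < M) (j : ℕ)
    (hj : ‖algebraMap K L (β ^ 2 ^ j)‖ < M) (P : Pt D (β ^ 2) j L) (x y : L) (hxy : XY P x y)
    (hx : M ≤ ‖x‖) :
    ∃ (Q : Pt D (β ^ 2) (j + 1) L) (X Y : L), XY Q X Y ∧ M ≤ ‖X‖ ∧ Vi D (β ^ 2) j Q = P := by
  have hx0 : x ≠ 0 := by
    rintro rfl
    rw [norm_zero] at hx
    linarith
  have t2 : (2 : L) = 0 := CharTwo.two_eq_zero
  obtain ⟨hE, ha2, ha6, -, -⟩ := h3 K D (β ^ 2) (pow_ne_zero 2 hβ) j L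
  have heq := ((h2 L _ hE).2.1 P x y hxy).2.2.2
  rw [ha2, ha6] at heq
  have hb : algebraMap K L ((β ^ 2) ^ 2 ^ j) = (algebraMap K L (β ^ 2 ^ j)) ^ 2 := by
    rw [← map_pow, ← pow_mul, ← pow_mul, mul_comm]
  rw [hb] at heq
  obtain ⟨B, hB⟩ : ∃ B : L, B = algebraMap K L (β ^ 2 ^ j) := ⟨_, rfl⟩
  obtain ⟨a, ha⟩ : ∃ a : L, a = algebraMap K L (D ^ 2 ^ j) := ⟨_, rfl⟩
  rw [← hB] at heq hj
  rw [← ha] at heq
  have hlt : ‖(B / x) ^ 2‖ < 1 := by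
    rw [norm_pow, norm_div]
    have h1 : ‖B‖ / ‖x‖ < 1 := (div_lt_one (norm_pos_iff.2 hx0)).2 (lt_of_lt_of_le hj hx)
    exact pow_lt_one₀ (by positivity) h1 two_ne_zero
  obtain ⟨ξ, hξ, hξe⟩ := hAS _ hlt
  have hy : y = y / x * x := by field_simp
  have hBx : B = B / x * x := by field_simp
  obtain ⟨u, hu⟩ : ∃ u : L, u = y / x := ⟨_, rfl⟩
  obtain ⟨c, hc⟩ : ∃ c : L, c = B / x := ⟨_, rfl⟩
  rw [← hu] at hy
  rw [← hc] at hBx hξe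
  have hue : u ^ 2 + u = x + a + c ^ 2 := by
    have hx2 : x ^ 2 ≠ 0 := pow_ne_zero 2 hx0
    apply mul_left_cancel₀ hx2
    rw [hy, hBx] at heq
    linear_combination heq
  have hη : (ξ + 1 + u) ^ 2 + (ξ + 1 + u) = x + algebraMap K L (D ^ 2 ^ j) := by
    rw [← ha]
    linear_combination hξe + hue + (ξ + 1 + u + ξ * u + c ^ 2) * t2
  obtain ⟨Q, hQ, hV⟩ := (h7 K D (β ^ 2) (pow_ne_zero 2 hβ) L).1 j P x y (ξ + 1 + u) hxy hx0 hη
  refine ⟨Q, _, _, hQ, ?_, hV⟩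
  have hX : y + x * (ξ + 1 + u) = x * (ξ + 1) := by
    rw [hy]
    linear_combination (u * x) * t2
  have h1 : ‖ξ + 1‖ = 1 := by
    have hne : ‖ξ‖ ≠ ‖(1 : L)‖ := by
      rw [norm_one]
      exact ne_of_lt hξ
    rw [IsUltrametricDist.norm_add_eq_max_of_norm_ne_norm hne, norm_one]
    exact max_eq_right hξ.le
  rw [hX, norm_mul, h1, mul_one]
  exact hx

/-- The iteration of claim A. -/
private theorem vdp_I (h2 : S_Pts) (h3 : S_Map) (h7 : S_Vsu) (hβ : β ≠ 0)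
    (hAS : ∀ x : L, ‖x‖ < 1 → ∃ θ : L, ‖θ‖ < 1 ∧ θ ^ 2 + θ = x) (M : ℝ) (hM : 1 < M) (k : ℕ)
    (hj : ∀ j ≤ k, ‖algebraMap K L (β ^ 2 ^ j)‖ < M) (P : Pt D (β ^ 2) 0 L) (x y : L)
    (hxy : XY P x y) (hx : M ≤ ‖x‖) :
    ∀ n ≤ k, ∃ (Q : Pt D (β ^ 2) n L) (X Y : L), XY Q X Y ∧ M ≤ ‖X‖ ∧
      Vn D (β ^ 2) n Q = P := by
  intro n
  induction n with
  | zero => exact fun _ => ⟨P, x, y, hxy, hx, rfl⟩
  | succ n ih =>
    intro hn
    obtain ⟨Q, X, Y, hQ, hX, hV⟩ := ih (by omega)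
    obtain ⟨Q', X', Y', hQ', hX', hV'⟩ := vdp_A D β h2 h3 h7 hβ hAS M hM n (hj n (by omega))
      Q X Y hQ hX
    refine ⟨Q', X', Y', hQ', hX', ?_⟩
    show Vn D (β ^ 2) n (Vi D (β ^ 2) n Q') = P
    rw [hV', hV]

private theorem vdp_main (h2 : S_Pts) (h3 : S_Map) (h6 : S_FV) (h7 : S_Vsu) (hβ : β ≠ 0)
    (hAS : ∀ x : L, ‖x‖ < 1 → ∃ θ : L, ‖θ‖ < 1 ∧ θ ^ 2 + θ = x) (M : ℝ) (hM : 1 < M) (k : ℕ)
    (hj : ∀ j ≤ k, ‖algebraMap K L (β ^ 2 ^ j)‖ < M)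
    (hD : ∀ y : L, M ≤ ‖algebraMap K L D + (y ^ 2 + y)‖) (P : Pt D (β ^ 2) 0 L) :
    ∃ P' : Pt D (β ^ 2) k L,
      P = Vn D (β ^ 2) k P' ∨ ∃ T : Pt D (β ^ 2) 0 L,
        XY T 0 (algebraMap K L β) ∧ P = T + Vn D (β ^ 2) k P' := by
  have t2 : (2 : L) = 0 := CharTwo.two_eq_zero
  have hV0 : ∀ n : ℕ, Vn D (β ^ 2) n (0 : Pt D (β ^ 2) n L) = 0 := by
    intro n
    induction n with
    | zero => rfl
    | succ n ih =>
      show Vn D (β ^ 2) n (Vi D (β ^ 2) n 0) = 0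
      rw [(h6 K D (β ^ 2) (pow_ne_zero 2 hβ) n L).2.2.2.1, ih]
  obtain ⟨hE, ha2, ha6, -, -⟩ := h3 K D (β ^ 2) (pow_ne_zero 2 hβ) 0 L
  obtain ⟨p1, p2, p3, p4, p5, p6, -, p8, -, p10⟩ := h2 L _ hE
  obtain ⟨B, hB⟩ : ∃ B : L, B = algebraMap K L β := ⟨_, rfl⟩
  obtain ⟨a, ha⟩ : ∃ a : L, a = algebraMap K L D := ⟨_, rfl⟩
  have hb : algebraMap K L ((β ^ 2) ^ 2 ^ 0) = B ^ 2 := by
    rw [hB, ← map_pow, pow_zero, pow_one]
  have ha' : algebraMap K L (D ^ 2 ^ 0) = a := by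
    rw [ha, pow_zero, pow_one]
  rw [ha'] at ha2
  rw [hb] at ha6
  rw [← ha] at hD
  rw [← hB]
  -- the point of order two
  obtain ⟨T, hT⟩ := p3 0 B (by rw [ha2, ha6]; ring)
  have hTT : T + T = 0 := (p8 T B hT).1
  rcases p1 P with rfl | ⟨x, y, hxy⟩
  · exact ⟨0, Or.inl (hV0 k).symm⟩
  obtain ⟨hP0, hpx, hpy, heq⟩ := p2 P x y hxy
  rw [ha2, ha6] at heq
  by_cases hx0 : x = 0
  · subst hx0
    refine ⟨0, Or.inr ⟨T, hT, ?_⟩⟩
    have hy2 : y ^ 2 = B ^ 2 := by linear_combination heq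
    have hyB : y = B := by
      have h0 : (y - B) ^ 2 = 0 := by linear_combination hy2 + (B ^ 2 - y * B) * t2
      exact sub_eq_zero.1 (pow_eq_zero_iff two_ne_zero |>.1 h0)
    rw [hyB] at hxy
    rw [hV0 k, add_zero]
    exact p4 P T 0 B hxy hT
  obtain ⟨u, hu⟩ : ∃ u : L, u = y / x := ⟨_, rfl⟩
  obtain ⟨c, hc⟩ : ∃ c : L, c = B / x := ⟨_, rfl⟩
  have hy : y = u * x := by rw [hu]; field_simp
  have hBx : B = c * x := by rw [hc]; field_simp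
  have hue : u ^ 2 + u = x + a + c ^ 2 := by
    have hx2 : x ^ 2 ≠ 0 := pow_ne_zero 2 hx0
    apply mul_left_cancel₀ hx2
    rw [hy, hBx] at heq
    linear_combination heq
  have hkey : a + ((u + c) ^ 2 + (u + c)) = x + c := by
    linear_combination hue + (a + u * c + c ^ 2) * t2
  have hle : M ≤ ‖x + c‖ := by
    have := hD (u + c)
    rwa [hkey] at this
  have hor : M ≤ ‖x‖ ∨ M ≤ ‖c‖ := by
    have h1 := IsUltrametricDist.norm_add_le_max x c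
    exact le_max_iff.1 (hle.trans h1)
  rcases hor with h | h
  · obtain ⟨Q, _, _, _, _, hV⟩ := vdp_I D β h2 h3 h7 hβ hAS M hM k hj P x y hxy h k le_rfl
    exact ⟨Q, Or.inl hV.symm⟩
  · obtain ⟨hT0, hTx, hTy, -⟩ := p2 T 0 B hT
    have hPT : P + T ≠ 0 := by
      intro h0
      have h1 : P = -T := eq_neg_of_add_eq_zero_left h0
      have h2' := (p2 (-T) 0 (0 + B) (p5 T 0 B hT)).2.1
      rw [← h1, hpx] at h2'
      exact hx0 h2'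
    have hs : sl P T = u + c := by
      rw [p6 P T x y 0 B hxy hT hx0, hy, hBx, add_zero, ← add_mul, mul_div_cancel_right₀ _ hx0]
    have h10 := (p10 P T hP0 hT0 hPT).1
    rw [hs, ha2, hpx, hTx] at h10
    have hx' : px (P + T) = c := by
      rw [h10]
      linear_combination hkey + x * t2
    obtain ⟨x', y', hxy'⟩ : ∃ x' y', XY (P + T) x' y' := by
      rcases p1 (P + T) with h0 | h0
      · exact absurd h0 hPT
      · exact h0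
    have hx'' : x' = c := by
      rw [← hx']
      exact (p2 _ _ _ hxy').2.1.symm
    rw [← hx''] at h
    obtain ⟨Q, _, _, _, _, hV⟩ := vdp_I D β h2 h3 h7 hβ hAS M hM k hj (P + T) x' y' hxy' h k
      le_rfl
    refine ⟨Q, Or.inr ⟨T, hT, ?_⟩⟩
    rw [hV, add_comm P T, ← add_assoc, hTT, zero_add]

end

theorem tVdp (h1 : S_Lc1) (h2 : S_Pts) (h3 : S_Map) (h4 : S_FV) (_h5 : S_FVh) (_h6 : S_FVn)
    (h7 : S_Vsu) : S_Vdp := by
  intro F _ _ _ v d ϖ R hLF D β hβ k M hM hj hD P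
  obtain ⟨c1, -, c3, -, -, -, c7, c8, -, -⟩ := h1 F v d ϖ R hLF
  have hj' : ∀ j ≤ k, ‖algebraMap (RatFunc F) v.Completion (β ^ 2 ^ j)‖ < M := by
    intro j hjk
    rw [c1]
    exact hj j hjk
  let _ := c3
  let _ := c7
  have : CharP (RatFunc F) 2 := inferInstance
  exact vdp_main D β h2 h3 h4 h7 hβ c8 M hM k hj' hD P

end Pool.Agent.MP72W
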