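import Pool.Agent.Lib.MP_72e2e6_nt.W2.D.Spec

/-!
# MP_72e2e6_nt, theorem T3, part D: `S_Vsu`
-/

namespace Pool.Agent.MP72W

open Polynomial IntermediateField WeierstrassCurve

open scoped Classical

private theorem Vsu_one (h1 : S_Pts) (h2 : S_Map) (h3 : S_FV)
    {K : Type} [Field K] [CharP K 2] (D γ : K) (hγ : γ ≠ 0) {L : Type} [Field L] [Algebra K L]
    (j : ℕ) (P : Pt D γ j L) (x y η : L) (hP : XY P x y) (hx : x ≠ 0)
    (hη : η ^ 2 + η = x + algebraMap K L (D ^ 2 ^ j)) : ∃ Q : Pt D γ (j + 1) L,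
      XY Q (y + x * η) (((y + (y + x * η)) / x + 1 + algebraMap K L (D ^ 2 ^ j)) * (y + x * η) +
        algebraMap K L (γ ^ 2 ^ j)) ∧ Vi D γ j Q = P := by
  obtain ⟨hE, ha, hb, hch, -⟩ := h2 K D γ hγ j L
  obtain ⟨hE', ha', hb', -, -⟩ := h2 K D γ hγ (j + 1) L
  have := hch
  have h20 : (2 : L) = 0 := CharTwo.two_eq_zero
  obtain ⟨p1, p2, p3, p4, -, -, -, -, -, -⟩ := h1 L _ hE
  obtain ⟨q1, q2, q3, q4, -, -, -, -, -, -⟩ := h1 L _ hE'
  have hb0 : algebraMap K L (γ ^ 2 ^ j) ≠ 0 := by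
    rw [Ne, map_eq_zero]; exact pow_ne_zero _ hγ
  have V2 := (h3 K D γ hγ j L).2.2.2.2.2.1
  have ea : algebraMap K L (D ^ 2 ^ (j + 1)) = algebraMap K L (D ^ 2 ^ j) ^ 2 := by
    rw [← map_pow, ← pow_mul, pow_succ]
  have eb : algebraMap K L (γ ^ 2 ^ (j + 1)) = algebraMap K L (γ ^ 2 ^ j) ^ 2 := by
    rw [← map_pow, ← pow_mul, pow_succ]
  rw [ha, hb] at p2
  rw [ha', hb', ea, eb] at q3
  have he := (p2 _ _ _ hP).2.2.2
  clear q1 q2 p1 p3 hE hE' ha ha' hb hb' ea eb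
  generalize algebraMap K L (γ ^ 2 ^ j) = b at *
  generalize algebraMap K L (D ^ 2 ^ j) = a at *
  have hm : (y + (y + x * η)) / x = η := by
    rw [div_eq_iff hx]
    linear_combination y * h20
  rw [hm]
  have hX : (y + x * η) ^ 2 + x * (y + x * η) + b = 0 := by
    linear_combination he + x ^ 2 * hη + (x * y * η + x ^ 3 + a * x ^ 2 + b) * h20
  generalize hXd : y + x * η = X at *
  have hX0 : X ≠ 0 := by
    rintro rfl
    apply hb0
    linear_combination hX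
  have hXX : X + b / X = x := by
    field_simp
    linear_combination hX - x * X * h20
  have hq : ((η + 1 + a) * X + b) ^ 2 + X * ((η + 1 + a) * X + b) = X ^ 3 + a ^ 2 * X ^ 2 + b ^ 2 := by
    linear_combination X ^ 2 * hη + X * hX + (X ^ 2 * η + X ^ 2 + X ^ 2 * η * a + X ^ 2 * a +
      X ^ 2 * a + X * b * (η + 1 + a) - X ^ 3) * h20
  obtain ⟨Q, hQ⟩ := q3 _ _ hq
  refine ⟨Q, hQ, ?_⟩
  have e1 := V2 _ _ _ hQ hX0
  have e2 : ((η + 1 + a) * X + b + b) / X + a + 1 = η := by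
    field_simp
    linear_combination (X + a * X + b) * h20
  rw [hXX, e2] at e1
  have e3 : X + η * x = y := by
    rw [← hXd]
    linear_combination x * η * h20
  rw [e3] at e1
  exact p4 _ _ _ _ e1 hP

private theorem Vsu_two (h1 : S_Pts) (h2 : S_Map) (h3 : S_FV)
    {K : Type} [Field K] [CharP K 2] (D γ : K) (hγ : γ ≠ 0) {L : Type} [Field L] [Algebra K L]
    (j : ℕ) (P : Pt D γ j L) (y ζ : L) (hP : XY P 0 y)
    (hζ : ζ ^ 2 + ζ = y + algebraMap K L (D ^ 2 ^ j) ^ 2 + algebraMap K L (γ ^ 2 ^ j) ^ 2 / y ^ 2) :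
    ∃ Q : Pt D γ (j + 1) L, XY Q y (ζ * y) ∧ Vi D γ j Q = P := by
  obtain ⟨hE, ha, hb, hch, -⟩ := h2 K D γ hγ j L
  obtain ⟨hE', ha', hb', -, -⟩ := h2 K D γ hγ (j + 1) L
  have := hch
  have h20 : (2 : L) = 0 := CharTwo.two_eq_zero
  obtain ⟨p1, p2, p3, p4, -, -, -, -, -, -⟩ := h1 L _ hE
  obtain ⟨q1, q2, q3, q4, -, -, -, -, -, -⟩ := h1 L _ hE'
  have hb0 : algebraMap K L (γ ^ 2 ^ j) ≠ 0 := by
    rw [Ne, map_eq_zero]; exact pow_ne_zero _ hγ
  have V2 := (h3 K D γ hγ j L).2.2.2.2.2.1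
  have ea : algebraMap K L (D ^ 2 ^ (j + 1)) = algebraMap K L (D ^ 2 ^ j) ^ 2 := by
    rw [← map_pow, ← pow_mul, pow_succ]
  have eb : algebraMap K L (γ ^ 2 ^ (j + 1)) = algebraMap K L (γ ^ 2 ^ j) ^ 2 := by
    rw [← map_pow, ← pow_mul, pow_succ]
  rw [ha, hb] at p2
  rw [ha', hb', ea, eb] at q3
  have he := (p2 _ _ _ hP).2.2.2
  clear q1 q2 p1 p3 hE hE' ha ha' hb hb' ea eb
  generalize algebraMap K L (γ ^ 2 ^ j) = b at *
  generalize algebraMap K L (D ^ 2 ^ j) = a at *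
  have hyb : y ^ 2 = b := by linear_combination he
  have hy : y ≠ 0 := by
    rintro rfl
    apply hb0
    linear_combination -hyb
  have hq : (ζ * y) ^ 2 + y * (ζ * y) = y ^ 3 + a ^ 2 * y ^ 2 + b ^ 2 := by
    have : (ζ * y) ^ 2 + y * (ζ * y) = (ζ ^ 2 + ζ) * y ^ 2 := by ring
    rw [this, hζ]
    field_simp
  obtain ⟨Q, hQ⟩ := q3 _ _ hq
  refine ⟨Q, hQ, ?_⟩
  have e1 := V2 _ _ _ hQ hy
  have e2 : y + b / y = 0 := by
    rw [← hyb]
    field_simp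
    linear_combination y * h20
  rw [e2, mul_zero, add_zero] at e1
  exact p4 _ _ _ _ e1 hP

private theorem Vsu_asc (h1 : S_Pts) (h2 : S_Map) (h3 : S_FV)
    {K : Type} [Field K] [CharP K 2] (D γ : K) (hγ : γ ≠ 0) {L : Type} [Field L] [Algebra K L]
    (hA : ASC L) (j : ℕ) (P : Pt D γ j L) : ∃ Q, Vi D γ j Q = P := by
  obtain ⟨hE, ha, hb, hch, -⟩ := h2 K D γ hγ j L
  have := hch
  rcases (h1 L _ hE).1 P with rfl | ⟨x, y, hP⟩
  · exact ⟨0, (h3 K D γ hγ j L).2.2.2.1⟩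
  by_cases hx : x = 0
  · subst hx
    obtain ⟨ζ, hζ⟩ := hA (y + algebraMap K L (D ^ 2 ^ j) ^ 2 +
      algebraMap K L (γ ^ 2 ^ j) ^ 2 / y ^ 2)
    obtain ⟨Q, -, hQ⟩ := Vsu_two h1 h2 h3 D γ hγ j P y ζ hP hζ
    exact ⟨Q, hQ⟩
  · obtain ⟨η, hη⟩ := hA (x + algebraMap K L (D ^ 2 ^ j))
    obtain ⟨Q, -, hQ⟩ := Vsu_one h1 h2 h3 D γ hγ j P x y η hP hx hη
    exact ⟨Q, hQ⟩

private theorem Vsu_ascn (h1 : S_Pts) (h2 : S_Map) (h3 : S_FV)
    {K : Type} [Field K] [CharP K 2] (D γ : K) (hγ : γ ≠ 0) {L : Type} [Field L] [Algebra K L]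
    (hA : ASC L) (k : ℕ) (P : Pt D γ 0 L) : ∃ Q, Vn D γ k Q = P := by
  induction k with
  | zero => exact ⟨P, rfl⟩
  | succ k ih =>
    obtain ⟨Q, hQ⟩ := ih
    obtain ⟨Q', hQ'⟩ := Vsu_asc h1 h2 h3 D γ hγ hA k Q
    exact ⟨Q', by change Vn D γ k (Vi D γ k Q') = P; rw [hQ', hQ]⟩

theorem tVsu (h1 : S_Pts) (h2 : S_Map) (h3 : S_FV) (h4 : S_FVh) (_h5 : S_FVn) : S_Vsu := by
  intro K _ _ D γ hγ L _ _
  refine ⟨fun j P x y η => Vsu_one h1 h2 h3 D γ hγ j P x y η,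
    fun j P y ζ => Vsu_two h1 h2 h3 D γ hγ j P y ζ,
    fun hA j P => Vsu_asc h1 h2 h3 D γ hγ hA j P,
    fun hA k P => Vsu_ascn h1 h2 h3 D γ hγ hA k P, ?_, ?_⟩
  · intro hA k
    rcases k with _ | k
    · exact ⟨0, rfl, fun n hn => absurd hn (Nat.not_lt_zero n)⟩
    · induction k with
      | zero =>
        obtain ⟨hE', ha', hb', hch, -⟩ := h2 K D γ hγ 1 L
        have := hch
        obtain ⟨q1, q2, q3, -, -, -, -, -, -, -⟩ := h1 L _ hE'
        obtain ⟨R, hR⟩ := q3 0 (algebraMap K L γ) (by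
          rw [hb', ← map_pow]
          norm_num)
        refine ⟨R, ?_, ?_⟩
        · exact (h3 K D γ hγ 0 L).2.2.2.2.1 R _ hR
        · intro n hn
          have hn0 : n = 0 := by omega
          subst hn0
          rw [pow_zero, one_nsmul]
          exact (q2 _ _ _ hR).1
      | succ k ih =>
        obtain ⟨R', hR'⟩ := ih
        obtain ⟨R, hR⟩ := Vsu_asc h1 h2 h3 D γ hγ hA (k + 1) R'
        refine ⟨R, ?_, ?_⟩
        · change Vn D γ (k + 1) (Vi D γ (k + 1) R) = 0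
          rw [hR]
          exact hR'.1
        · intro n hn h0
          obtain ⟨F0, -, F2, V0, -, -, -, -⟩ := h3 K D γ hγ (k + 1) L
          rcases n with _ | n
          · rw [pow_zero, one_nsmul] at h0
            apply hR'.2 0 (Nat.succ_pos k)
            rw [pow_zero, one_nsmul, ← hR, h0, V0]
          · apply hR'.2 n (Nat.lt_of_succ_lt_succ hn)
            apply F2
            rw [F0, ← h0, ← hR]
            have FiN : ∀ (m : ℕ) (P : Pt D γ (k + 1) L),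
                Fi D γ (k + 1) (m • P) = m • Fi D γ (k + 1) P := by
              intro m P
              exact (AddMonoidHom.mk' (Fi D γ (k + 1))
                ((h4 K D γ hγ (k + 1) L).1)).map_nsmul m P
            rw [FiN, (h4 K D γ hγ (k + 1) L).2.2.1, pow_succ, mul_nsmul', two_nsmul]
  · intro hA k β hβ
    have hβ2 : β ^ 2 ≠ 0 := pow_ne_zero 2 hβ
    obtain ⟨hE, ha, hb, hch, -⟩ := h2 K D (β ^ 2) hβ2 0 L
    have := hch
    obtain ⟨P, hP⟩ := (h1 L _ hE).2.2.1 0 (algebraMap K L β) (by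
      rw [hb, pow_zero, pow_one, map_pow]
      ring)
    obtain ⟨Q, hQ⟩ := Vsu_ascn h1 h2 h3 D (β ^ 2) hβ2 hA k P
    exact ⟨Q, by unfold IsQ; rw [hQ]; exact hP⟩

end Pool.Agent.MP72W
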