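import Pool.Agent.Lib.MP_72e2e6_nt.W2.D.Spec

/-!
# MP_72e2e6_nt, theorem T3, part D: local points at the places of good reduction
-/

namespace Pool.Agent.MP72W

open Polynomial IntermediateField WeierstrassCurve

open scoped Classical

private theorem vun_step (hLc1 : S_Lc1) (hLc2 : S_Lc2) (hNr : S_Nr) (hPts : S_Pts)
    (hMap : S_Map) (hFV : S_FV) (hVsu : S_Vsu)
    (F : Type) [Field F] [Finite F] [CharP F 2] (v : AbsoluteValue (RatFunc F) ℝ) (d : ℕ)
    (ϖ : RatFunc F) (R : Finset (RatFunc F)) (hLF : LF v d ϖ R)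
    (D γ : RatFunc F) (hD : v D ≤ 1) (hγ : v γ = 1) (j : ℕ) (P : Pt D γ j (Kvs v))
    (hP : CIn P (Knr v : Set (Kvs v))) :
    ∃ Q : Pt D γ (j + 1) (Kvs v), CIn Q (Knr v : Set (Kvs v)) ∧ Vi D γ j Q = P := by
  have : CharP (RatFunc F) 2 := charP_of_injective_algebraMap
    (algebraMap F (RatFunc F)).injective 2
  have hγ0 : γ ≠ 0 := by
    rintro rfl
    rw [map_zero] at hγ
    exact zero_ne_one hγ
  obtain ⟨l1, -, -, -, -, -, -, -, -, -⟩ := hLc1 F v d ϖ R hLF
  obtain ⟨n0, n00, nmul, nadd, nalg, -, -, -, hch⟩ := hLc2 F v d ϖ R hLF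
  obtain ⟨-, -, nas, -, -, -, -⟩ := hNr F v d ϖ R hLF
  have := hch
  obtain ⟨hE, ha2, ha6, -, -⟩ := hMap (RatFunc F) D γ hγ0 j (Kvs v)
  obtain ⟨hE', -, -, -, -⟩ := hMap (RatFunc F) D γ hγ0 (j + 1) (Kvs v)
  obtain ⟨p1, p2, -, -, -, -, -, -, -, -⟩ := hPts (Kvs v) _ hE
  obtain ⟨-, p2', -, -, -, -, -, -, -, -⟩ := hPts (Kvs v) _ hE'
  obtain ⟨-, -, -, v0, -, -, -, -⟩ := hFV (RatFunc F) D γ hγ0 j (Kvs v)
  obtain ⟨s1, s2, -, -, -, -⟩ := hVsu (RatFunc F) D γ hγ0 (Kvs v)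
  have halg : ∀ f : RatFunc F, algebraMap (RatFunc F) (Kvs v) f ∈ Knr v := by
    intro f
    rw [IsScalarTower.algebraMap_apply (RatFunc F) v.Completion (Kvs v)]
    exact (Knr v).algebraMap_mem _
  have hnalg : ∀ f : RatFunc F, nm v (algebraMap (RatFunc F) (Kvs v) f) = v f := by
    intro f
    rw [IsScalarTower.algebraMap_apply (RatFunc F) v.Completion (Kvs v), nalg, l1]
  set a : Kvs v := algebraMap (RatFunc F) (Kvs v) (D ^ 2 ^ j) with ha
  set b : Kvs v := algebraMap (RatFunc F) (Kvs v) (γ ^ 2 ^ j) with hb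
  have haK : a ∈ Knr v := halg _
  have hbK : b ∈ Knr v := halg _
  have hna : nm v a ≤ 1 := by
    rw [ha, hnalg, map_pow]
    exact pow_le_one₀ (v.nonneg _) hD
  have hnb : nm v b = 1 := by
    rw [hb, hnalg, map_pow, hγ, one_pow]
  have hn1 : nm v 1 = 1 := by
    have := hnalg 1
    rwa [map_one, map_one] at this
  have h2 : (2 : Kvs v) = 0 := CharTwo.two_eq_zero
  have npow : ∀ (x : Kvs v) (n : ℕ), nm v (x ^ n) = nm v x ^ n := by
    intro x n
    induction n with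
    | zero => rw [pow_zero, pow_zero, hn1]
    | succ n ih => rw [pow_succ, nmul, ih, pow_succ]
  have ndiv : ∀ x y : Kvs v, y ≠ 0 → nm v (x / y) = nm v x / nm v y := by
    intro x y hy
    have hy' : nm v y ≠ 0 := fun h => hy ((n00 y).1 h)
    rw [eq_div_iff hy', ← nmul, div_mul_cancel₀ _ hy]
  rcases p1 P with hP0 | ⟨x, y, hxy⟩
  · refine ⟨0, ⟨?_, ?_⟩, ?_⟩
    · exact (Knr v).zero_mem
    · exact (Knr v).zero_mem
    · rw [v0, hP0]
  · obtain ⟨-, hx, hy, heq⟩ := p2 P x y hxy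
    rw [ha2, ha6] at heq
    have hxK : x ∈ Knr v := by rw [← hx]; exact hP.1
    have hyK : y ∈ Knr v := by rw [← hy]; exact hP.2
    by_cases hx0 : x = 0
    · subst hx0
      have hyb : y ^ 2 = b := by
        have := heq
        rw [zero_mul, add_zero] at this
        rw [this]
        ring
      have hny : nm v y = 1 := by
        have h := npow y 2
        rw [hyb, hnb] at h
        have h0 := n0 y
        nlinarith
      have hy0 : y ≠ 0 := by
        rintro rfl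
        rw [(n00 0).2 rfl] at hny
        exact zero_ne_one hny
      have hmem : y + a ^ 2 + b ^ 2 / y ^ 2 ∈ Knr v :=
        (Knr v).add_mem ((Knr v).add_mem hyK (pow_mem haK 2))
          ((Knr v).div_mem (pow_mem hbK 2) (pow_mem hyK 2))
      have hle : nm v (y + a ^ 2 + b ^ 2 / y ^ 2) ≤ 1 := by
        refine (nadd _ _).trans (max_le ((nadd _ _).trans (max_le hny.le ?_)) ?_)
        · rw [npow]
          exact pow_le_one₀ (n0 _) hna
        · rw [ndiv _ _ (pow_ne_zero 2 hy0), npow, npow, hnb, hny]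
          norm_num
      obtain ⟨ζ, hζK, hζ⟩ := nas _ hmem hle
      obtain ⟨Q, hQ, hV⟩ := s2 j P y ζ hxy hζ
      obtain ⟨-, hQx, hQy, -⟩ := p2' Q _ _ hQ
      refine ⟨Q, ⟨?_, ?_⟩, hV⟩
      · rw [hQx]; exact hyK
      · rw [hQy]; exact (Knr v).mul_mem hζK hyK
    · have hη : ∃ η ∈ Knr v, η ^ 2 + η = x + a := by
        rcases le_or_gt (nm v x) 1 with hnx | hnx
        · exact nas _ ((Knr v).add_mem hxK haK) ((nadd _ _).trans (max_le hnx hna))
        · have hmem : b / x ^ 2 ∈ Knr v := (Knr v).div_mem hbK (pow_mem hxK 2)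
          have hle : nm v (b / x ^ 2) ≤ 1 := by
            rw [ndiv _ _ (pow_ne_zero 2 hx0), npow, hnb]
            have : (1 : ℝ) ≤ nm v x ^ 2 := one_le_pow₀ hnx.le
            exact div_le_one_of_le₀ this (by positivity)
          obtain ⟨ξ, hξK, hξ⟩ := nas _ hmem hle
          refine ⟨ξ + y / x, (Knr v).add_mem hξK ((Knr v).div_mem hyK hxK), ?_⟩
          have e1 : (ξ + y / x) ^ 2 + (ξ + y / x) =
              (ξ ^ 2 + ξ) + (y ^ 2 + x * y) / x ^ 2 + 2 * (ξ * (y / x)) := by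
            field_simp
            ring
          have e2 : b / x ^ 2 + (x ^ 3 + a * x ^ 2 + b) / x ^ 2 =
              x + a + 2 * (b / x ^ 2) := by
            field_simp
            ring
          rw [e1, hξ, heq, h2, zero_mul, add_zero, e2, h2, zero_mul, add_zero]
      obtain ⟨η, hηK, hη⟩ := hη
      obtain ⟨Q, hQ, hV⟩ := s1 j P x y η hxy hx0 hη
      obtain ⟨-, hQx, hQy, -⟩ := p2' Q _ _ hQ
      have hX : y + x * η ∈ Knr v := (Knr v).add_mem hyK ((Knr v).mul_mem hxK hηK)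
      refine ⟨Q, ⟨?_, ?_⟩, hV⟩
      · rw [hQx]; exact hX
      · rw [hQy]
        refine (Knr v).add_mem ((Knr v).mul_mem ((Knr v).add_mem ((Knr v).add_mem
          ((Knr v).div_mem ((Knr v).add_mem hyK hX) hxK) (Knr v).one_mem) haK) hX) hbK

theorem tVun (hLc1 : S_Lc1) (hLc2 : S_Lc2) (hNr : S_Nr) (hPts : S_Pts) (hMap : S_Map)
    (hFV : S_FV) (hVsu : S_Vsu) : S_Vun := by
  intro F _ _ _ v d ϖ R hLF D γ hD hγ k
  induction k with
  | zero =>
    intro P hP
    exact ⟨P, hP, rfl⟩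
  | succ k ih =>
    intro P hP
    obtain ⟨P', hP', hV⟩ := ih P hP
    obtain ⟨Q, hQ, hVQ⟩ := vun_step hLc1 hLc2 hNr hPts hMap hFV hVsu F v d ϖ R hLF D γ hD hγ k
      P' hP'
    refine ⟨Q, hQ, ?_⟩
    show Vn D γ k (Vi D γ k Q) = P
    rw [hVQ, hV]

end Pool.Agent.MP72W
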