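import Pool.Agent.Lib.MP_72e2e6_nt.W2.D.Spec

/-!
# MP_72e2e6_nt, theorem T3, part D: WF, the function `Wf` and the Frobenius isogeny
-/

set_option autoImplicit false

namespace Pool.Agent.MP72W

open Polynomial IntermediateField WeierstrassCurve

open scoped Classical

/-- In characteristic two a point of order at most two is `O` or has `px = 0`. -/
private theorem WF_two (hPts : S_Pts) {L : Type} [Field L] [CharP L 2]
    {W : WeierstrassCurve.Affine L} (hW : IsEc W) (P : W.Point) (h : P + P = 0) : px P = 0 := by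
  obtain ⟨p1, p2, -, -, -, -, p7, -, -, -⟩ := hPts L W hW
  rcases p1 P with h0 | ⟨x, y, h0⟩
  · rw [h0]
    rfl
  · rw [(p2 _ _ _ h0).2.1]
    by_contra hx
    exact (p2 _ _ _ (p7 _ _ _ h0 hx).2).1 h

private theorem WF_dbl {L : Type} [Field L] {W : WeierstrassCurve.Affine L} (T p : W.Point)
    (hT : T ≠ 0) (hTT : T + T = 0) (hx : px T = 0) : fv T T p = px p := by
  unfold fv nv dv
  rw [if_neg (by simp [hT]), if_pos hTT, if_pos (by simp [hTT]), hx, add_zero, div_one]

theorem tWF : S_Pts → S_Map → S_FV → S_FVh → S_FVn → S_Nz → S_WF := by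
  intro hPts hMap hFV hFVh hFVn hNz K _ _ D γ hγ L _ _ k R hR
  obtain ⟨hW, ha2, -, hch, -⟩ := hMap K D γ hγ k L
  obtain ⟨hW', ha2', -, -, -⟩ := hMap K D γ hγ (k + 1) L
  have hCh : CharP L 2 := hch
  obtain ⟨p1, p2, -, -, -, p6, p7, p8, p9, p10⟩ := hPts L _ hW
  obtain ⟨q1, q2, -, -, -, q6, q7, q8, q9, q10⟩ := hPts L _ hW'
  obtain ⟨v1, v2, v3, -, -, -, -, -⟩ := hFV K D γ hγ k L
  obtain ⟨w1, -, w3, -, -⟩ := hFVh K D γ hγ k L
  obtain ⟨u1, -, -, u4, -, -, -, -, -, -⟩ := hFVn K D γ hγ L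
  obtain ⟨-, z2, -⟩ := hNz L _ hW'
  have c2 : (2 : L) = 0 := by
    have := CharP.cast_eq_zero L 2
    exact_mod_cast this
  have hsq : ∀ x y : L, (x + y) ^ 2 = x ^ 2 + y ^ 2 := fun x y => by
    linear_combination (x * y) * c2
  -- coordinates of the images
  have cx : ∀ P : Pt D γ k L, px (Fi D γ k P) = px P ^ 2 := by
    intro P
    rcases p1 P with h | ⟨x, y, h⟩
    · rw [h, v1]
      change (0 : L) = (0 : L) ^ 2
      norm_num
    · rw [(q2 _ _ _ (v2 P x y h)).2.1, (p2 _ _ _ h).2.1]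
  have cy : ∀ P : Pt D γ k L, py (Fi D γ k P) = py P ^ 2 := by
    intro P
    rcases p1 P with h | ⟨x, y, h⟩
    · rw [h, v1]
      change (0 : L) = (0 : L) ^ 2
      norm_num
    · rw [(q2 _ _ _ (v2 P x y h)).2.2.1, (p2 _ _ _ h).2.2.1]
  have f0 : ∀ P : Pt D γ k L, Fi D γ k P = 0 ↔ P = 0 := by
    intro P
    constructor
    · intro h
      exact v3 P 0 (by rw [h, v1])
    · rintro rfl
      exact v1
  -- slopes
  have hsl : ∀ P Q : Pt D γ k L, P ≠ 0 → Q ≠ 0 → P + Q ≠ 0 →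
      sl (Fi D γ k P) (Fi D γ k Q) = sl P Q ^ 2 := by
    intro P Q hP hQ hPQ
    rcases p1 P with h | ⟨x, y, h⟩
    · exact absurd h hP
    rcases p1 Q with h' | ⟨x', y', h'⟩
    · exact absurd h' hQ
    have hPx := (p2 _ _ _ h).2.1
    have hQx := (p2 _ _ _ h').2.1
    by_cases hxx : x = x'
    · have hQP : Q = P := by
        rcases p9 P Q hP hQ (by rw [hPx, hQx, hxx]) with e | e
        · exact e
        · exact absurd (by rw [e, add_neg_cancel]) hPQ
      subst hQP
      have hx0 : x ≠ 0 := by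
        rintro rfl
        exact hPQ (p8 _ _ h).1
      rw [(p7 _ _ _ h hx0).1, (q7 _ _ _ (v2 _ _ _ h) (pow_ne_zero 2 hx0)).1, hsq, div_pow]
    · have hxx2 : x ^ 2 ≠ x' ^ 2 := by
        intro e
        apply hxx
        have e2 : (x + x') ^ 2 = 0 := by
          rw [hsq, e, CharTwo.add_self_eq_zero]
        exact CharTwo.add_eq_zero.1 (pow_eq_zero_iff (two_ne_zero)|>.1 e2)
      rw [p6 _ _ _ _ _ _ h h' hxx, q6 _ _ _ _ _ _ (v2 _ _ _ h) (v2 _ _ _ h') hxx2, div_pow,
        hsq, hsq]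
  -- (1)
  have hfv : ∀ A B T : Pt D γ k L,
      fv (Fi D γ k A) (Fi D γ k B) (Fi D γ k T) = fv A B T ^ 2 := by
    intro A B T
    have e0 : Fi D γ k A + Fi D γ k B = 0 ↔ A + B = 0 := by
      rw [← w1, f0]
    unfold fv
    rw [div_pow]
    congr 1
    · unfold nv
      simp only [f0, e0]
      split_ifs with h1 h2
      · norm_num
      · rw [cx, cx, hsq]
      · push Not at h1
        rw [cx, cx, cy, cy, hsl A B h1.1 h1.2 h2, hsq, hsq, mul_pow, hsq]
    · unfold dv
      simp only [f0, e0]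
      split_ifs with h1
      · norm_num
      · rw [cx, ← w1, cx, hsq]
  -- (2)
  have hsqr : ∀ (A : Pt D γ (k + 1) L) (p₁ : Pt D γ k L), ∃ s : L,
      fv A A (Fi D γ k p₁) = s ^ 2 := by
    intro A p₁
    by_cases hA : A = 0
    · refine ⟨1, ?_⟩
      unfold fv nv dv
      rw [if_pos (Or.inl hA), if_pos (Or.inl hA)]
      norm_num
    by_cases hAA : A + A = 0
    · refine ⟨px p₁, ?_⟩
      rw [WF_dbl A _ hA hAA (WF_two hPts hW' A hAA), cx]
    obtain ⟨r1, r2, -, -⟩ := q10 A A hA hA hAA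
    have e1 : A + A = Fi D γ k (Vi D γ k A) := (w3 A).symm
    set V := Vi D γ k A with hV
    set lam := sl A A with hlam
    set a := algebraMap K L (D ^ 2 ^ k) with ha
    have e2 : ((EE D γ (k + 1))⁄L).toAffine.a₂ = a ^ 2 := by
      rw [ha2', ha, ← map_pow, ← pow_mul, ← pow_succ]
    rw [e2] at r1
    have e3 : px (A + A) = px V ^ 2 := by rw [e1, cx]
    have e4 : py (A + A) = py V ^ 2 := by rw [e1, cy]
    rw [e3] at r1 r2
    rw [e4] at r2
    have e5 : lam = (lam + px V + a) ^ 2 := by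
      rw [hsq, hsq]
      linear_combination r1 + (lam - px V ^ 2 + px A) * c2
    refine ⟨(py p₁ + py V + px V + (lam + px V + a) * (px p₁ + px V)) / (px p₁ + px V), ?_⟩
    have e6 : nv A A (Fi D γ k p₁) =
        (py p₁ + py V + px V + (lam + px V + a) * (px p₁ + px V)) ^ 2 := by
      unfold nv
      rw [if_neg (by simp [hA]), if_neg hAA, cx, cy, ← hlam]
      rw [hsq, hsq, hsq, mul_pow, ← e5, hsq]
      linear_combination -r2 - (px V ^ 2 + lam * px V ^ 2) * c2
    have e7 : dv A A (Fi D γ k p₁) = (px p₁ + px V) ^ 2 := by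
      unfold dv
      rw [if_neg (by simp [hA, hAA]), cx, e3, hsq]
    unfold fv
    rw [e6, e7, div_pow]
  -- the multiples of `R`
  set H := AddSubgroup.zmultiples R with hH
  have hRH : R ∈ H := AddSubgroup.mem_zmultiples R
  have hmul : ∀ n : ℕ, n • R ∈ H := fun n => H.nsmul_mem hRH n
  let Φ : Pt D γ k L →+ Pt D γ (k + 1) L := AddMonoidHom.mk' (Fi D γ k) w1
  have hΦ : ∀ (n : ℕ) (P : Pt D γ k L), Fi D γ k (n • P) = n • Fi D γ k P :=
    fun n P => map_nsmul Φ n P
  have hpow : ∀ j : ℕ, 2 ^ (j + 1) • R = Fi D γ k (2 ^ j • Vi D γ k R) := by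
    intro j
    rw [hΦ, w3, ← two_nsmul, ← mul_nsmul, pow_succ, mul_comm]
  refine ⟨?_, ?_⟩
  · intro p₁ hp₁
    obtain ⟨s, hs⟩ := hsqr R p₁
    refine ⟨s, ?_, ?_⟩
    · rintro rfl
      apply (z2 H R R (Fi D γ k p₁) hRH hRH hp₁).2.2
      rw [hs]
      norm_num
    · unfold Wf
      rw [Finset.prod_range_succ', mul_comm]
      congr 1
      · rw [pow_zero, one_smul, hs, ← pow_mul, ← pow_succ']
        congr 2
      · rw [← Finset.prod_pow]
        refine Finset.prod_congr rfl fun j hj => ?_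
        rw [hpow, hfv, ← pow_mul, ← pow_mul, mul_comm]
        congr 3
        omega
  · intro p hp
    have hT : 2 ^ k • R ≠ 0 := hR.2 k (Nat.lt_succ_self k)
    have hTT : 2 ^ k • R + 2 ^ k • R = 0 := by
      have e1 := u4 (k + 1) R
      rw [hR.1] at e1
      have e2 : Fn D γ (k + 1) (0 : Pt D γ 0 L) = 0 := by
        have e3 := u1 (k + 1) 0 0
        rw [add_zero] at e3
        exact (add_eq_left.1 e3.symm)
      rw [← two_nsmul, ← mul_nsmul, ← pow_succ, ← e1, e2]
    refine ⟨∏ j ∈ Finset.range k, fv (2 ^ j • R) (2 ^ j • R) p ^ 2 ^ (k - 1 - j), ?_, ?_⟩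
    · refine Finset.prod_ne_zero_iff.2 fun j _ => pow_ne_zero _ ?_
      exact (z2 H _ _ p (hmul _) (hmul _) hp).2.2
    · unfold Wf
      rw [Finset.prod_range_succ, mul_comm]
      congr 1
      · rw [show k + 1 - 1 - k = 0 by omega, pow_zero, pow_one]
        exact WF_dbl _ _ hT hTT (WF_two hPts hW' _ hTT)
      · rw [← Finset.prod_pow]
        refine Finset.prod_congr rfl fun j hj => ?_
        have hj' := Finset.mem_range.1 hj
        rw [← pow_mul, ← pow_succ]
        congr 2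
        omega

end Pool.Agent.MP72W
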