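import Pool.Agent.Lib.MP_72e2e6_nt.W2.D.Spec

/-!
# MP_72e2e6_nt, T3, D/WRa: additivity of `Wf` in the first variable
-/

set_option autoImplicit false

namespace Pool.Agent.MP72W

open Polynomial WeierstrassCurve

open scoped Classical

private theorem wra_succ {L : Type} [Field L] {W : WeierstrassCurve.Affine L} (k : ℕ)
    (R S : W.Point) : Wf (k + 1) R S = fv R R S ^ 2 ^ k * Wf k (R + R) S := by
  unfold Wf
  have h0 : fv (2 ^ 0 • R) (2 ^ 0 • R) S ^ 2 ^ (k + 1 - 1 - 0) = fv R R S ^ 2 ^ k := by simp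
  have h1 : ∏ j ∈ Finset.range k, fv (2 ^ (j + 1) • R) (2 ^ (j + 1) • R) S ^
      2 ^ (k + 1 - 1 - (j + 1)) = ∏ j ∈ Finset.range k,
      fv (2 ^ j • (R + R)) (2 ^ j • (R + R)) S ^ 2 ^ (k - 1 - j) := by
    refine Finset.prod_congr rfl fun j _ => ?_
    have e1 : 2 ^ (j + 1) • R = 2 ^ j • (R + R) := by
      rw [pow_succ, mul_comm, mul_nsmul, two_nsmul]
    have e2 : k + 1 - 1 - (j + 1) = k - 1 - j := by omega
    rw [e1, e2]
  rw [Finset.prod_range_succ', h0, h1, mul_comm]

private theorem wra_zz {L : Type} [Field L] {W : WeierstrassCurve.Affine L} (s : W.Point) :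
    fv (0 : W.Point) 0 s = 1 := by
  have h1 : nv (0 : W.Point) 0 s = 1 := if_pos (Or.inl rfl)
  have h2 : dv (0 : W.Point) 0 s = 1 := if_pos (Or.inl rfl)
  rw [fv, h1, h2, div_one]

theorem tWRa : S_Pts → S_Fco → S_Exc → S_Nz → S_WRa := by
  intro _ hF hX hN L _ _ W hW k H s R hR h0 hs
  have hs0 : s ≠ 0 := fun h => hs (h ▸ H.zero_mem)
  have dne : ∀ A B : W.Point, A ∈ H → B ∈ H → dv A B s ≠ 0 :=
    fun A B hA hB => ((hN L W hW).2.1 H A B s hA hB hs).2.1
  have fne : ∀ A B : W.Point, A ∈ H → B ∈ H → fv A B s ≠ 0 :=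
    fun A B hA hB => ((hN L W hW).2.1 H A B s hA hB hs).2.2
  have coc : ∀ P Q S : W.Point, P ∈ H → Q ∈ H → S ∈ H →
      fv P Q s * fv (P + Q) S s = fv Q S s * fv P (Q + S) s := fun P Q S hP hQ hS =>
    (hF L W hW).2 P Q S s hs0 (dne _ _ hP hQ) (dne _ _ (H.add_mem hP hQ) hS) (dne _ _ hQ hS)
      (dne _ _ hP (H.add_mem hQ hS))
  have sym : ∀ P Q : W.Point, fv P Q s = fv Q P s := fun P Q => ((hX L W hW).2.2 P Q s).1
  have idn : ∀ A B : W.Point, A ∈ H → B ∈ H →
      fv A A s * fv B B s * fv (A + A) (B + B) s = fv A B s ^ 2 * fv (A + B) (A + B) s := by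
    intro A B hA hB
    have e1 := coc A A B hA hA hB
    have e2 := coc (A + A) B B (H.add_mem hA hA) hB hB
    have e3 := coc A (A + B) B hA (H.add_mem hA hB) hB
    have e4 := coc A B (A + B) hA hB (H.add_mem hA hB)
    rw [← add_assoc A A B] at e3
    have e5 : B + (A + B) = A + B + B := by abel
    rw [e5, sym B (A + B)] at e4
    calc fv A A s * fv B B s * fv (A + A) (B + B) s
        = fv A A s * (fv B B s * fv (A + A) (B + B) s) := by ring
      _ = fv A A s * fv (A + A) B s * fv (A + A + B) B s := by rw [← e2]; ring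
      _ = fv A B s * (fv A (A + B) s * fv (A + A + B) B s) := by rw [e1]; ring
      _ = fv A B s * (fv (A + B) B s * fv A (A + B + B) s) := by rw [e3]
      _ = fv A B s ^ 2 * fv (A + B) (A + B) s := by rw [← e4]; ring
  have key : ∀ (k : ℕ) (R R' : W.Point), R ∈ H → R' ∈ H →
      Wf k R s * Wf k R' s * fv (2 ^ k • R) (2 ^ k • R') s =
        Wf k (R + R') s * fv R R' s ^ 2 ^ k := by
    intro k
    induction k with
    | zero =>
      intro R R' _ _
      simp [Wf]
    | succ k ih =>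
      intro R R' hR hR'
      have h1 := ih (R + R) (R' + R') (H.add_mem hR hR) (H.add_mem hR' hR')
      have h2 := idn R R' hR hR'
      have e1 : ∀ X : W.Point, 2 ^ (k + 1) • X = 2 ^ k • (X + X) := by
        intro X
        rw [pow_succ, mul_comm, mul_nsmul, two_nsmul]
      have e2 : R + R + (R' + R') = R + R' + (R + R') := by abel
      rw [wra_succ, wra_succ, wra_succ, e1, e1]
      calc fv R R s ^ 2 ^ k * Wf k (R + R) s * (fv R' R' s ^ 2 ^ k * Wf k (R' + R') s) *
            fv (2 ^ k • (R + R)) (2 ^ k • (R' + R')) s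
          = (fv R R s * fv R' R' s) ^ 2 ^ k * (Wf k (R + R) s * Wf k (R' + R') s *
            fv (2 ^ k • (R + R)) (2 ^ k • (R' + R')) s) := by rw [mul_pow]; ring
        _ = (fv R R s * fv R' R' s * fv (R + R) (R' + R') s) ^ 2 ^ k *
            Wf k (R + R + (R' + R')) s := by
            rw [h1, mul_pow _ (fv (R + R) (R' + R') s)]; ring
        _ = (fv R R' s ^ 2 * fv (R + R') (R + R') s) ^ 2 ^ k * Wf k (R + R' + (R + R')) s := by
            rw [h2, e2]
        _ = fv (R + R') (R + R') s ^ 2 ^ k * Wf k (R + R' + (R + R')) s *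
            fv R R' s ^ 2 ^ (k + 1) := by
            rw [mul_pow, ← pow_mul, pow_succ' 2 k]; ring
  have one : ∀ R R' : W.Point, R ∈ H → R' ∈ H → 2 ^ k • R = 0 → 2 ^ k • R' = 0 →
      Wf k R s * Wf k R' s = Wf k (R + R') s * fv R R' s ^ 2 ^ k := by
    intro R R' hR hR' h1 h2
    have h3 := key k R R' hR hR'
    rwa [h1, h2, wra_zz, mul_one] at h3
  refine ⟨fun R' hR' h0' => one R R' hR hR' h0 h0', fun m => ?_, fun Q _ => wra_succ k Q s⟩
  induction m with
  | zero =>
    refine ⟨1, one_ne_zero, ?_⟩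
    rw [zero_smul, pow_zero, one_pow, mul_one]
    unfold Wf
    refine Finset.prod_eq_one fun j _ => ?_
    rw [smul_zero, wra_zz, one_pow]
  | succ m ih =>
    obtain ⟨z, hz, e⟩ := ih
    have hm : m • R ∈ H := H.nsmul_mem hR m
    have hm0 : 2 ^ k • (m • R) = 0 := by rw [smul_comm, h0, smul_zero]
    have h1 := one (m • R) R hm hR hm0 h0
    rw [e, ← succ_nsmul] at h1
    have hf := fne (m • R) R hm hR
    refine ⟨z / fv (m • R) R s, div_ne_zero hz hf, ?_⟩
    rw [div_pow, ← mul_div_assoc, eq_div_iff (pow_ne_zero _ hf), ← h1, pow_succ]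
    ring

end Pool.Agent.MP72W
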