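import Pool.Agent.Lib.MP_72e2e6_nt.W2.D.Spec

/-!
# MP_72e2e6_nt, T3, part D: the kernel (helper71)
-/

namespace Pool.Agent.MP72W

open Polynomial IntermediateField WeierstrassCurve

open scoped Classical

private theorem Wkr_zsm {G H : Type*} [AddGroup G] [AddGroup H] {f : G → H}
    (h : ∀ a b, f (a + b) = f a + f b) (m : ℤ) (a : G) : f (m • a) = m • f a :=
  (AddMonoidHom.mk' f h).map_zsmul m a

private theorem Wkr_pow {L : Type*} [Field L] {k : ℕ} (a b : L) :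
    a ^ 2 ^ (k + 1) / b ^ 2 ^ (k + 1) = ((a / b) ^ 2 ^ k) ^ 2 := by
  rw [← pow_mul, ← pow_succ, div_pow]

private theorem Wkr_inj {L : Type*} [Field L] [CharP L 2] {a b : L} (h : a ^ 2 = b ^ 2) : a = b := by
  have h1 : (a - b) ^ 2 = 0 := by
    rw [sub_sq, h, ← sub_eq_zero]
    have h2 : (2 : L) = 0 := CharP.cast_eq_zero L 2
    rw [h2]
    have h3 : b ^ 2 + b ^ 2 = 2 * b ^ 2 := by ring
    rw [sub_zero]
    have : b ^ 2 - 0 * a * b + b ^ 2 = 2 * b ^ 2 := by ring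
    rw [this, h2, zero_mul]
  exact sub_eq_zero.1 (pow_eq_zero_iff (two_ne_zero) |>.1 h1)

theorem tWkr (hPts : S_Pts) (hMap : S_Map) (hFV : S_FV) (hFVh : S_FVh) (hFVn : S_FVn)
    (hWF : S_WF) : S_Wkr := by
  intro K _ _ D γ hγ L _ _ k
  obtain ⟨f1, f2, f3, f4, f5, f6, f7, f8, f9, f10⟩ := hFVn K D γ hγ L
  have hc : CharP L 2 := (hMap K D γ hγ 0 L).2.2.2.1
  induction k with
  | zero =>
    intro R _ p _
    refine ⟨fun _ => ⟨p, rfl⟩, fun _ => ⟨1, one_ne_zero, ?_⟩⟩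
    simp [Wf]
  | succ k ih =>
    intro R hR p hp
    obtain ⟨hEk, -, -, -, -⟩ := hMap K D γ hγ (k + 1) L
    obtain ⟨p1, p2, -⟩ := hPts L ((EE D γ (k + 1))⁄L).toAffine hEk
    obtain ⟨g1, g2, g3, g4, g5, g6, g7, g8⟩ := hFV K D γ hγ k L
    obtain ⟨e1, e2, e3, e4, e5⟩ := hFVh K D γ hγ k L
    obtain ⟨w1, w2⟩ := hWF K D γ hγ L k R hR
    have hR1 := f9 k R hR
    have hnot : ∀ p₁ : Pt D γ k L, p = Fi D γ k p₁ →
        p₁ ∉ AddSubgroup.zmultiples (Vi D γ k R) := by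
      rintro p₁ h ⟨m, hm⟩
      apply hp
      have hm' : m • Vi D γ k R = p₁ := hm
      rw [h, ← hm', Wkr_zsm e1, e3]
      exact AddSubgroup.zsmul_mem _ (add_mem (AddSubgroup.mem_zmultiples R)
        (AddSubgroup.mem_zmultiples R)) m
    constructor
    · rintro ⟨s, hs, hsw⟩
      obtain ⟨t, ht, htw⟩ := w2 p hp
      rw [one_mul] at hsw
      have hx : px p = (s ^ 2 ^ k / t) ^ 2 := by
        rw [div_pow, ← pow_mul, ← pow_succ, eq_div_iff (pow_ne_zero 2 ht), ← htw, hsw]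
      have hp0 : p ≠ 0 := by
        rintro rfl
        exact hp (zero_mem _)
      obtain ⟨x, y, hxy⟩ := (p1 p).resolve_left hp0
      have hxe := (p2 p x y hxy).2.1
      rw [← hxe, hx] at hxy
      obtain ⟨p₁, hp₁⟩ := g8 p _ y (div_ne_zero (pow_ne_zero _ hs) ht) hxy
      obtain ⟨s', hs', hw'⟩ := w1 p₁ (by rw [← hp₁]; exact hp)
      rw [← hp₁, hsw] at hw'
      have h2 : Wf k (Vi D γ k R) p₁ = (s / s') ^ 2 ^ k := by
        apply Wkr_inj
        rw [← Wkr_pow, eq_div_iff (pow_ne_zero _ hs'), hw', mul_comm]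
      obtain ⟨q, hq⟩ := (ih (Vi D γ k R) hR1 p₁ (hnot p₁ hp₁)).1
        ⟨s / s', div_ne_zero hs hs', by rw [h2, one_mul]⟩
      exact ⟨q, by rw [hp₁, hq]; rfl⟩
    · rintro ⟨q, hq⟩
      have hq' : p = Fi D γ k (Fn D γ k q) := hq
      obtain ⟨t, ht, htw⟩ := (ih (Vi D γ k R) hR1 _ (hnot _ hq')).2 ⟨q, rfl⟩
      obtain ⟨s', hs', hw'⟩ := w1 (Fn D γ k q) (by rw [← hq']; exact hp)
      rw [← hq', htw] at hw'
      refine ⟨s' * t, mul_ne_zero hs' ht, ?_⟩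
      rw [hw', one_mul, one_mul, ← pow_mul, ← pow_succ, mul_pow]

end Pool.Agent.MP72W
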