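import Pool.Agent.Lib.MP_72e2e6_nt.W2.D.Spec

/-!
# MP_72e2e6_nt, theorem T3, part D: homomorphisms of fields and the functions `fv`, `Wf`
-/

namespace Pool.Agent.MP72W

open Polynomial IntermediateField WeierstrassCurve

open scoped Classical

theorem tWmp (_h1 : S_Pts) (h2 : S_Map) : S_Wmp := by
  intro K _ _ D γ hγ j L _ _ S M _ _ _ _ _ _ _ _ f
  obtain ⟨-, -, -, -, hm⟩ := h2 K D γ hγ j L
  obtain ⟨-, hinj, hc⟩ := hm S M f
  have hz : ∀ P : Pt D γ j L, pmap (EE D γ j) f P = 0 ↔ P = 0 := fun P =>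
    map_eq_zero_iff (pmap (EE D γ j) f) hinj
  have hsl : ∀ P Q : Pt D γ j L,
      sl (pmap (EE D γ j) f P) (pmap (EE D γ j) f Q) = f (sl P Q) := by
    intro P Q
    unfold sl
    rw [(hc P).1, (hc P).2, (hc Q).1, (hc Q).2]
    exact Affine.baseChange_slope f _ _ _ _
  have hnv : ∀ P Q T : Pt D γ j L, nv (pmap (EE D γ j) f P) (pmap (EE D γ j) f Q)
      (pmap (EE D γ j) f T) = f (nv P Q T) := by
    intro P Q T
    unfold nv
    by_cases h : P = 0 ∨ Q = 0
    · have h' : pmap (EE D γ j) f P = 0 ∨ pmap (EE D γ j) f Q = 0 := by rwa [hz, hz]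
      rw [if_pos h, if_pos h', map_one]
    · have h' : ¬(pmap (EE D γ j) f P = 0 ∨ pmap (EE D γ j) f Q = 0) := by rwa [hz, hz]
      rw [if_neg h, if_neg h']
      by_cases g : P + Q = 0
      · have g' : pmap (EE D γ j) f P + pmap (EE D γ j) f Q = 0 := by rwa [← map_add, hz]
        rw [if_pos g, if_pos g', (hc P).1, (hc T).1, map_add]
      · have g' : ¬(pmap (EE D γ j) f P + pmap (EE D γ j) f Q = 0) := by rwa [← map_add, hz]
        rw [if_neg g, if_neg g', hsl, (hc P).1, (hc P).2, (hc T).1, (hc T).2]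
        simp only [map_add, map_mul]
  have hdv : ∀ P Q T : Pt D γ j L, dv (pmap (EE D γ j) f P) (pmap (EE D γ j) f Q)
      (pmap (EE D γ j) f T) = f (dv P Q T) := by
    intro P Q T
    unfold dv
    by_cases h : P = 0 ∨ Q = 0 ∨ P + Q = 0
    · have h' : pmap (EE D γ j) f P = 0 ∨ pmap (EE D γ j) f Q = 0 ∨
          pmap (EE D γ j) f P + pmap (EE D γ j) f Q = 0 := by rwa [← map_add, hz, hz, hz]
      rw [if_pos h, if_pos h', map_one]
    · have h' : ¬(pmap (EE D γ j) f P = 0 ∨ pmap (EE D γ j) f Q = 0 ∨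
          pmap (EE D γ j) f P + pmap (EE D γ j) f Q = 0) := by rwa [← map_add, hz, hz, hz]
      rw [if_neg h, if_neg h', ← map_add, (hc (P + Q)).1, (hc T).1, map_add]
  have hfv : ∀ P Q T : Pt D γ j L, fv (pmap (EE D γ j) f P) (pmap (EE D γ j) f Q)
      (pmap (EE D γ j) f T) = f (fv P Q T) := by
    intro P Q T
    unfold fv
    rw [hnv, hdv, map_div₀]
  refine ⟨hfv, fun k R s => ?_⟩
  unfold Wf
  rw [map_prod]
  refine Finset.prod_congr rfl fun i _ => ?_
  rw [← map_nsmul, hfv, map_pow]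

end Pool.Agent.MP72W
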