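import Pool.Agent.Lib.MP_72e2e6_nt.W2.D.Spec

/-!
# MP_72e2e6_nt, T3, part D: the homomorphism modulo `2 ^ k`-th powers (helper71)
-/

namespace Pool.Agent.MP72W

open Polynomial IntermediateField WeierstrassCurve

open scoped Classical

/-- units modulo `N`-th powers -/
private abbrev Wt_A (L : Type) [Field L] (N : ℕ) : Type :=
  Lˣ ⧸ (powMonoidHom N : Lˣ →* Lˣ).range

private theorem Wt_eq {L : Type} [Field L] {N : ℕ} (a b : Lˣ) :
    ((a : Wt_A L N) = (b : Wt_A L N)) ↔ EqN N (a : L) (b : L) := by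
  rw [QuotientGroup.eq]
  constructor
  · rintro ⟨u, hu⟩
    have hu' : u ^ N = a⁻¹ * b := hu
    refine ⟨(u⁻¹ : Lˣ), Units.ne_zero _, ?_⟩
    rw [← Units.val_pow_eq_pow_val, ← Units.val_mul, Units.val_inj, inv_pow, hu', mul_inv_rev,
      inv_inv, mul_inv_cancel_left]
  · rintro ⟨s, hs, h⟩
    refine ⟨(Units.mk0 s hs)⁻¹, ?_⟩
    change ((Units.mk0 s hs)⁻¹) ^ N = a⁻¹ * b
    have h1 : a = b * (Units.mk0 s hs) ^ N := by
      rw [← Units.val_inj, h]
      rfl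
    rw [h1, inv_pow, mul_inv_rev, inv_mul_cancel_right]

private theorem Wt_sub {G H : Type*} [AddGroup G] [AddGroup H] {f : G → H}
    (h : ∀ a b, f (a + b) = f a + f b) (a b : G) : f (a - b) = f a - f b :=
  (AddMonoidHom.mk' f h).map_sub a b

theorem tWt (_hPts : S_Pts) (_hMap : S_Map) (hFVn : S_FVn) (hWAd : S_WAd) (hWkr : S_Wkr)
    (hExt : S_Ext) (hInf : S_Inf) : S_Wt := by
  intro K _ _ D γ hγ L _ _ hasc hinf k R hR
  obtain ⟨hEk, -, -, hc, -⟩ := _hMap K D γ hγ k L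
  obtain ⟨f1, f2, f3, f4, f5, f6, f7, f8, f9, f10⟩ := hFVn K D γ hγ L
  have i0 : Infinite (Pt D γ 0 L) := hInf K D γ hγ L hasc hinf 0
  have ik : Infinite (Pt D γ k L) := hInf K D γ hγ L hasc hinf k
  obtain ⟨H, hH⟩ : ∃ H : AddSubgroup (Pt D γ k L), H = AddSubgroup.zmultiples R := ⟨_, rfl⟩
  have hRH : R ∈ H := by rw [hH]; exact AddSubgroup.mem_zmultiples R
  have hord := (f8 k R hR).1
  have hfin : (H : Set (Pt D γ k L)).Finite := by
    rw [hH, finite_zmultiples, ← addOrderOf_pos_iff, hord]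
    positivity
  have hR0 : 2 ^ k • R = 0 := by
    rw [← hord]
    exact addOrderOf_nsmul_eq_zero R
  have hW0 : ∀ c : Pt D γ k L, c ∉ H → Wf k R c ≠ 0 := fun c =>
    (hWAd L _ hEk k H c c R hRH hR0).1
  obtain ⟨w, hw⟩ : ∃ w : Pt D γ k L → Wt_A L (2 ^ k), ∀ (c : Pt D γ k L) (h : c ∉ H),
      w c = (Units.mk0 (Wf k R c) (hW0 c h) : Lˣ) :=
    ⟨fun c => if h : c ∉ H then ((Units.mk0 (Wf k R c) (hW0 c h) : Lˣ) : Wt_A L (2 ^ k)) else 1,
      fun c h => dif_pos h⟩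
  obtain ⟨w', hadd, hgen⟩ := hExt (Pt D γ k L) (Wt_A L (2 ^ k)) H hfin w (by
    intro c d h1 h2 h3 h4
    rw [hw _ h1, hw _ h2, hw _ h3]
    have h5 := (hWAd L _ hEk k H c d R hRH hR0).2 ⟨h1, h2, h3, h4⟩
    rw [← QuotientGroup.mk_mul, eq_comm, Wt_eq]
    refine ⟨Av c d R, ?_, ?_⟩
    · intro h6
      rw [h6, zero_pow (by positivity), mul_zero] at h5
      exact mul_ne_zero (hW0 c h1) (hW0 d h2) h5
    · rw [Units.val_mul, Units.val_mk0, Units.val_mk0, Units.val_mk0, h5])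
  have hout : ∀ p, (((w' p).out : Lˣ) : Wt_A L (2 ^ k)) = w' p := fun p => QuotientGroup.out_eq' _
  -- the value is `1` on the image of `Fn`
  have hFn1 : ∀ q : Pt D γ 0 L, Fn D γ k q ∉ H → w' (Fn D γ k q) = 1 := by
    intro q hq
    rw [hgen _ hq, hw _ hq, ← QuotientGroup.mk_one, Wt_eq, Units.val_mk0, Units.val_one]
    exact (hWkr K D γ hγ L k R hR _ (by rw [← hH]; exact hq)).2 ⟨q, rfl⟩
  have hfinpre : ∀ a : Pt D γ k L, {q : Pt D γ 0 L | a + Fn D γ k q ∈ H}.Finite := by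
    intro a
    refine Set.Finite.preimage (f := fun q => a + Fn D γ k q) ?_ hfin
    intro q _ q' _ h
    exact f5 k _ _ (add_left_cancel h)
  have hFn2 : ∀ q : Pt D γ 0 L, w' (Fn D γ k q) = 1 := by
    intro q
    obtain ⟨q', hq'⟩ := ((hfinpre 0).union (hfinpre (Fn D γ k q))).exists_notMem
    simp only [Set.mem_union, Set.mem_setOf_eq, not_or, zero_add] at hq'
    have h1 := hFn1 q' hq'.1
    have h2 := hFn1 (q + q') (by rw [f1]; exact hq'.2)
    rw [f1, hadd, h1] at h2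
    exact (mul_one _).symm.trans h2
  refine ⟨fun p => ((w' p).out : Lˣ), ?_, ?_, ?_, ?_⟩
  · intro p
    exact Units.ne_zero _
  · intro p q
    rw [← Units.val_mul, ← Wt_eq, QuotientGroup.mk_mul, hout, hout, hout, hadd]
  · intro p hp
    have hp' : p ∉ H := by rw [hH]; exact hp
    have := Wt_eq (N := 2 ^ k) ((w' p).out) (Units.mk0 (Wf k R p) (hW0 p hp'))
    rw [Units.val_mk0] at this
    rw [← this, hout, hgen _ hp', hw _ hp']
  · intro p
    have h1 := Wt_eq (N := 2 ^ k) ((w' p).out) 1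
    rw [Units.val_one, hout, QuotientGroup.mk_one] at h1
    rw [← h1]
    constructor
    · intro hp
      obtain ⟨q, hq⟩ := (hfinpre p).exists_notMem
      have hq' : p + Fn D γ k q ∉ H := hq
      have h2 : w' (p + Fn D γ k q) = 1 := by
        rw [hadd, hp, hFn2]
        exact one_mul (1 : Wt_A L (2 ^ k))
      rw [hgen _ hq', hw _ hq', ← QuotientGroup.mk_one, Wt_eq, Units.val_mk0, Units.val_one,
        hWkr K D γ hγ L k R hR _ (by rw [← hH]; exact hq')] at h2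
      obtain ⟨q'', hq''⟩ := h2
      refine ⟨q'' - q, ?_⟩
      rw [Wt_sub (f1 k), ← hq'', add_sub_cancel_right]
    · rintro ⟨q, rfl⟩
      exact hFn2 q

end Pool.Agent.MP72W
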