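import Pool.Agent.Lib.MP_72e2e6_nt.W2.D.EqNx

/-!
# MP_72e2e6_nt, T3, part D: compatibility with homomorphisms of fields (helper71)
-/

namespace Pool.Agent.MP72W

open Polynomial IntermediateField WeierstrassCurve

open scoped Classical

theorem tWtc (_hPts : S_Pts) (hMap : S_Map) (hFVn : S_FVn) (hWRa : S_WRa) (hWmp : S_Wmp)
    (hInf : S_Inf) : S_Wtc := by
  intro K _ _ D γ hγ L _ _ hasc hinf k R hR w hw S M _ _ _ _ _ _ _ _ f R' hR' w' hw' m hm
  have ik : Infinite (Pt D γ k L) := hInf K D γ hγ L hasc hinf k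
  obtain ⟨hEM, -, -, hcM, -⟩ := hMap K D γ hγ k M
  have hinj : Function.Injective (pmap (EE D γ k) f) := ((hMap K D γ hγ k L).2.2.2.2 S M f).2.1
  have hfin : ((AddSubgroup.zmultiples R : AddSubgroup (Pt D γ k L)) : Set (Pt D γ k L)).Finite := by
    rw [finite_zmultiples, ← addOrderOf_pos_iff,
      ((hFVn K D γ hγ L).2.2.2.2.2.2.2.1 k R hR).1]
    positivity
  have hord' := ((hFVn K D γ hγ M).2.2.2.2.2.2.2.1 k R' hR').1
  have hfin' : ((AddSubgroup.zmultiples R' : AddSubgroup (Pt D γ k M)) :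
      Set (Pt D γ k M)).Finite := by
    rw [finite_zmultiples, ← addOrderOf_pos_iff, hord']
    positivity
  have hR0 : 2 ^ k • R' = 0 := by
    rw [← hord']
    exact addOrderOf_nsmul_eq_zero R'
  -- generic points
  have key : ∀ p : Pt D γ k L, p ∉ AddSubgroup.zmultiples R →
      pmap (EE D γ k) f p ∉ AddSubgroup.zmultiples R' →
      EqN (2 ^ k) (f (w p)) (w' (pmap (EE D γ k) f p) ^ m) := by
    intro p h1 h2
    have e1 : EqN (2 ^ k) (f (w p)) (f (Wf k R p)) := EqNx.map (f : L →+* M) (hw.gen p h1)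
    rw [← ((hWmp K D γ hγ k L S M f).2 k R p), hm] at e1
    have e2 := (hWRa M _ hEM k (AddSubgroup.zmultiples R') (pmap (EE D γ k) f p) R'
      (AddSubgroup.mem_zmultiples R') hR0 h2).2.1 m
    have e3 := EqNx.pow (hw'.gen _ h2) m
    exact EqNx.trans (EqNx.trans e1 e2) (EqNx.symm e3)
  intro p
  have hpre : ∀ a : Pt D γ k L, {q : Pt D γ k L | a + q ∈ AddSubgroup.zmultiples R}.Finite ∧
      {q : Pt D γ k L | pmap (EE D γ k) f (a + q) ∈ AddSubgroup.zmultiples R'}.Finite := by
    intro a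
    constructor
    · refine Set.Finite.preimage (f := fun q => a + q) ?_ hfin
      intro q _ q' _ h
      exact add_left_cancel h
    · refine Set.Finite.preimage (f := fun q => pmap (EE D γ k) f (a + q)) ?_ hfin'
      intro q _ q' _ h
      exact add_left_cancel (hinj h)
  obtain ⟨q, hq⟩ := (((hpre 0).1.union (hpre 0).2).union
    ((hpre p).1.union (hpre p).2)).exists_notMem
  simp only [Set.mem_union, Set.mem_setOf_eq, not_or, zero_add] at hq
  obtain ⟨⟨q1, q2⟩, q3, q4⟩ := hq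
  have e1 := key q q1 q2
  have e2 := key (p + q) q3 q4
  have e3 : EqN (2 ^ k) (f (w (p + q))) (f (w p) * f (w q)) := by
    have := EqNx.map (f : L →+* M) (hw.add p q)
    rw [map_mul] at this
    exact this
  have e4 : EqN (2 ^ k) (w' (pmap (EE D γ k) f (p + q)) ^ m)
      (w' (pmap (EE D γ k) f p) ^ m * w' (pmap (EE D γ k) f q) ^ m) := by
    rw [map_add, ← mul_pow]
    exact EqNx.pow (hw'.add _ _) m
  exact EqNx.cancel (EqNx.trans (EqNx.trans (EqNx.symm e3) e2) e4) e1 (pow_ne_zero m (hw'.ne _))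

end Pool.Agent.MP72W
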