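import Pool.Agent.Lib.MP_72e2e6_nt.W2.D.Spec

/-!
# MP_72e2e6_nt, theorem T3, part D: Wu1, unit values at places of good reduction (helper53)
-/

namespace Pool.Agent.MP72W

open Polynomial IntermediateField WeierstrassCurve

open scoped Classical

section wu1

variable {L : Type} [Field L] [CharP L 2]

/-- the properties of a multiplicative nonarchimedean norm which are used -/
private structure NA (nm : L → ℝ) : Prop where
  nn : ∀ x, 0 ≤ nm x
  ze : ∀ x, nm x = 0 ↔ x = 0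
  mu : ∀ x y, nm (x * y) = nm x * nm y
  ul : ∀ x y, nm (x + y) ≤ max (nm x) (nm y)

omit [CharP L 2] in
private theorem NA.one {nm : L → ℝ} (h : NA nm) : nm 1 = 1 := by
  have h1 : nm 1 * nm 1 = nm 1 := by rw [← h.mu, one_mul]
  have h2 : nm 1 ≠ 0 := by
    rw [Ne, h.ze]
    exact one_ne_zero
  exact mul_left_cancel₀ h2 (by rw [h1, mul_one])

omit [CharP L 2] in
private theorem NA.add_le {nm : L → ℝ} (h : NA nm) {x y : L} (hx : nm x ≤ 1) (hy : nm y ≤ 1) :
    nm (x + y) ≤ 1 := (h.ul x y).trans (max_le hx hy)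

omit [CharP L 2] in
private theorem NA.mul_le {nm : L → ℝ} (h : NA nm) {x y : L} (hx : nm x ≤ 1) (hy : nm y ≤ 1) :
    nm (x * y) ≤ 1 := by
  rw [h.mu]
  exact mul_le_one₀ hx (h.nn y) hy

omit [CharP L 2] in
private theorem NA.pow {nm : L → ℝ} (h : NA nm) (x : L) (n : ℕ) : nm (x ^ n) = nm x ^ n := by
  induction n with
  | zero => rw [pow_zero, pow_zero, h.one]
  | succ n ih => rw [pow_succ, pow_succ, h.mu, ih]

omit [CharP L 2] in
private theorem NA.prod {nm : L → ℝ} (h : NA nm) (s : Finset ℕ) (f : ℕ → L)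
    (hf : ∀ i ∈ s, nm (f i) = 1) : nm (∏ i ∈ s, f i) = 1 := by
  induction s using Finset.induction_on with
  | empty => rw [Finset.prod_empty, h.one]
  | insert a s ha ih =>
    rw [Finset.prod_insert ha, h.mu, hf a (Finset.mem_insert_self a s),
      ih fun i hi => hf i (Finset.mem_insert_of_mem hi), one_mul]

omit [CharP L 2] in
private theorem NA.div_one {nm : L → ℝ} (h : NA nm) {x y : L} (hx : nm x = 1) (hy : nm y = 1) :
    nm (x / y) = 1 := by
  have hy0 : y ≠ 0 := by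
    intro h0
    rw [(h.ze y).2 h0] at hy
    exact zero_ne_one hy
  have h1 : nm (x / y) * nm y = nm x := by rw [← h.mu, div_mul_cancel₀ x hy0]
  rw [hy, mul_one, hx] at h1
  exact h1

/-- roots of monic quadratic polynomials with integral coefficients -/
private theorem NA.quad {nm : L → ℝ} (h : NA nm) {X a b : L} (ha : nm a ≤ 1) (hb : nm b ≤ 1)
    (he : X ^ 2 + a * X + b = 0) : nm X ≤ 1 := by
  by_contra hX
  rw [not_le] at hX
  have e : X * X = a * X + b := by
    have h1 : X * X = -(a * X + b) := by linear_combination he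
    rw [CharTwo.neg_eq] at h1
    exact h1
  have h1 : nm X * nm X ≤ max (nm a * nm X) (nm b) := by
    rw [← h.mu, ← h.mu, e]
    exact h.ul _ _
  have h2 : max (nm a * nm X) (nm b) ≤ nm X :=
    max_le (by nlinarith) (by linarith)
  nlinarith

/-- the coordinate `y` is integral if `x` is -/
private theorem NA.py {nm : L → ℝ} (h : NA nm) {x y a b : L} (hx : nm x ≤ 1) (ha : nm a ≤ 1)
    (hb : nm b ≤ 1) (he : y ^ 2 + x * y = x ^ 3 + a * x ^ 2 + b) : nm y ≤ 1 := by
  refine h.quad (X := y) (a := x) (b := x ^ 3 + a * x ^ 2 + b) hx ?_ ?_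
  · refine h.add_le (h.add_le ?_ (h.mul_le ha ?_)) hb
    · rw [h.pow]
      exact pow_le_one₀ (h.nn x) hx
    · rw [h.pow]
      exact pow_le_one₀ (h.nn x) hx
  · rw [he]
    exact CharTwo.add_self_eq_zero _

private theorem fv_one (hPts : S_Pts) (hNz : S_Nz) {W : WeierstrassCurve.Affine L} (hW : IsEc W)
    {nm : L → ℝ} (h : NA nm) (ha2 : nm W.a₂ ≤ 1) (ha6 : nm W.a₆ ≤ 1) (H : AddSubgroup W.Point)
    (hH : ∀ g ∈ H, nm (px g) ≤ 1) (c : W.Point) (hc : c ≠ 0) (hcx : nm (px c) ≤ 1)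
    (hch : ∀ g ∈ H, g ≠ 0 → nm (px c + px g) = 1) (A : W.Point) (hA : A ∈ H) :
    nm (fv A A c) = 1 := by
  obtain ⟨p1, p2, -, -, p5, -, -, -, -, p10⟩ := hPts L W hW
  by_cases hA0 : A = 0
  · have : fv A A c = 1 := by
      unfold fv nv dv
      rw [if_pos (Or.inl hA0), if_pos (Or.inl hA0), div_one]
    rw [this, h.one]
  by_cases hAA : A + A = 0
  · have : fv A A c = px c + px A := by
      unfold fv nv dv
      rw [if_neg (by tauto), if_pos hAA, if_pos (Or.inr (Or.inr hAA)), div_one]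
    rw [this]
    exact hch A hA hA0
  have hAAH : A + A ∈ H := H.add_mem hA hA
  have e1 : fv A A c = nv A A c / (px c + px (A + A)) := by
    unfold fv dv
    rw [if_neg (by tauto)]
  have e2 : ∀ T : W.Point, nv A A T = py T + py A + sl A A * (px T + px A) := by
    intro T
    unfold nv
    rw [if_neg (by tauto), if_neg hAA]
  rw [e1]
  refine h.div_one ?_ (hch _ hAAH hAA)
  -- the slope
  have hpA : nm (px A) ≤ 1 := hH A hA
  have hsl : nm (sl A A) ≤ 1 := by
    obtain ⟨q1, -, -, -⟩ := p10 A A hA0 hA0 hAA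
    refine h.quad (X := sl A A) (a := 1) (b := px (A + A) + W.a₂) h.one.le
      (h.add_le (hH _ hAAH) ha2) ?_
    have h3 : px (A + A) = sl A A ^ 2 + sl A A + W.a₂ + (px A + px A) := by rw [q1]; ring
    rw [CharTwo.add_self_eq_zero, add_zero] at h3
    rw [h3]
    have h4 : sl A A ^ 2 + 1 * sl A A + (sl A A ^ 2 + sl A A + W.a₂ + W.a₂)
        = (sl A A ^ 2 + sl A A + W.a₂) + (sl A A ^ 2 + sl A A + W.a₂) := by ring
    rw [h4]
    exact CharTwo.add_self_eq_zero _
  -- the coordinates `y`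
  have hy : ∀ T : W.Point, T ≠ 0 → nm (px T) ≤ 1 → nm (py T) ≤ 1 := by
    intro T hT hTx
    rcases p1 T with h0 | ⟨x, y, hxy⟩
    · exact absurd h0 hT
    · obtain ⟨-, hx1, hy1, heq⟩ := p2 T x y hxy
      rw [hy1]
      rw [hx1] at hTx
      exact h.py hTx ha2 ha6 heq
  have hint : ∀ T : W.Point, T ≠ 0 → nm (px T) ≤ 1 → nm (nv A A T) ≤ 1 := by
    intro T hT hTx
    rw [e2]
    exact h.add_le (h.add_le (hy T hT hTx) (hy A hA0 hpA)) (h.mul_le hsl (h.add_le hTx hpA))
  have hnc : -c ≠ 0 := neg_ne_zero.2 hc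
  have hncx : px (-c) = px c := by
    rcases p1 c with h0 | ⟨x, y, hxy⟩
    · exact absurd h0 hc
    · rw [(p2 _ _ _ (p5 c x y hxy)).2.1, (p2 _ _ _ hxy).2.1]
  have i1 := hint c hc hcx
  have i2 := hint (-c) hnc (by rw [hncx]; exact hcx)
  have hprod := (hNz L W hW).1 A A c hA0 hA0 hAA hc
  have hprod2 : nm (nv A A c) * nm (nv A A (-c)) = 1 := by
    rw [← h.mu, hprod, h.mu, h.mu, hch A hA hA0, hch _ hAAH hAA, one_mul, one_mul]
  have n1 := h.nn (nv A A c)
  have n2 := h.nn (nv A A (-c))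
  refine le_antisymm i1 ?_
  rw [← hprod2]
  calc nm (nv A A c) * nm (nv A A (-c)) ≤ nm (nv A A c) * 1 := mul_le_mul_of_nonneg_left i2 n1
    _ = nm (nv A A c) := mul_one _

private theorem wu1_gen (hPts : S_Pts) (hMap : S_Map) (hFV : S_FV) (hFVn : S_FVn) (hNz : S_Nz)
    {K : Type} [Field K] [CharP K 2] [Algebra K L] {nm : L → ℝ} (hNA : NA nm) (D γ : K)
    (hγ0 : γ ≠ 0) (hb : ∀ j : ℕ, nm (algebraMap K L (γ ^ 2 ^ j)) = 1)
    (ha : ∀ j : ℕ, nm (algebraMap K L (D ^ 2 ^ j)) ≤ 1) (k : ℕ) (R : Pt D γ k L)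
    (hR : IsR D γ k R) :
    (∀ h ∈ AddSubgroup.zmultiples R, nm (px h) ≤ 1) ∧
      ∀ c : Pt D γ k L, c ≠ 0 → nm (px c) ≤ 1 →
        (∀ h ∈ AddSubgroup.zmultiples R, h ≠ 0 → nm (px c + px h) = 1) →
        nm (Wf k R c) = 1 := by
  have hEc : ∀ j : ℕ, IsEc ((EE D γ j)⁄L).toAffine := fun j => (hMap K D γ hγ0 j L).1
  -- (1)
  have key : ∀ (n : ℕ) (P : Pt D γ n L), Vn D γ n P = 0 → nm (px P) ≤ 1 := by
    intro n
    induction n with
    | zero =>
      intro P hP
      have hP0 : P = 0 := hP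
      rw [hP0]
      have : px (0 : Pt D γ 0 L) = 0 := rfl
      rw [this, (hNA.ze 0).2 rfl]
      exact zero_le_one
    | succ n ih =>
      intro P hP
      have h1 := ih (Vi D γ n P) hP
      by_cases hx : px P = 0
      · rw [hx, (hNA.ze 0).2 rfl]
        exact zero_le_one
      · obtain ⟨p1, p2, -⟩ := hPts L _ (hEc (n + 1))
        rcases p1 P with h0 | ⟨x, y, hxy⟩
        · exfalso
          apply hx
          rw [h0]
          rfl
        · have hxP : px P = x := (p2 P x y hxy).2.1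
          rw [hxP] at hx ⊢
          obtain ⟨-, -, -, -, -, f6, -⟩ := hFV K D γ hγ0 n L
          have hV := f6 P x y hxy hx
          have hV2 := ((hPts L _ (hEc n)).2.1 _ _ _ hV).2.1
          rw [hV2] at h1
          refine hNA.quad (X := x) (a := x + algebraMap K L (γ ^ 2 ^ n) / x)
            (b := algebraMap K L (γ ^ 2 ^ n)) h1 (hb n).le ?_
          have h3 : x ^ 2 + (x + algebraMap K L (γ ^ 2 ^ n) / x) * x
              + algebraMap K L (γ ^ 2 ^ n)
              = (x ^ 2 + algebraMap K L (γ ^ 2 ^ n)) + (x ^ 2 + algebraMap K L (γ ^ 2 ^ n)) := by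
            field_simp
            ring
          rw [h3]
          exact CharTwo.add_self_eq_zero _
  obtain ⟨-, hVadd, -⟩ := hFVn K D γ hγ0 L
  have hH : ∀ g ∈ AddSubgroup.zmultiples R, nm (px g) ≤ 1 := by
    intro g hg
    obtain ⟨m, rfl⟩ := AddSubgroup.mem_zmultiples_iff.1 hg
    apply key k
    have := map_zsmul (AddMonoidHom.mk' (Vn D γ k (L := L)) (hVadd k)) m R
    simp only [AddMonoidHom.mk'_apply] at this
    rw [this, hR.1, smul_zero]
  refine ⟨hH, ?_⟩
  intro c hc hcx hch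
  obtain ⟨m1, m2, m3, -⟩ := hMap K D γ hγ0 k L
  unfold Wf
  refine hNA.prod _ _ ?_
  intro j _
  rw [hNA.pow]
  have h1 : nm (fv (2 ^ j • R) (2 ^ j • R) c) = 1 := by
    refine fv_one hPts hNz (hEc k) hNA ?_ ?_ (AddSubgroup.zmultiples R) hH c hc hcx hch _ ?_
    · rw [m2]; exact ha k
    · rw [m3]; exact (hb k).le
    · exact AddSubgroup.nsmul_mem _ (AddSubgroup.mem_zmultiples R) _
  rw [h1, one_pow]

end wu1

theorem tWu1 (hLc1 : S_Lc1) (hLc2 : S_Lc2) (hPts : S_Pts) (hMap : S_Map) (hFV : S_FV)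
    (hFVn : S_FVn) (hNz : S_Nz) : S_Wu1 := by
  intro F _ _ _ v d ϖ R₀ hLF D γ hD hγ k R hR
  obtain ⟨c1, -⟩ := hLc1 F v d ϖ R₀ hLF
  obtain ⟨n1, n2, n3, n4, n5, -, -, -, n9⟩ := hLc2 F v d ϖ R₀ hLF
  have hγ0 : γ ≠ 0 := by
    intro h0
    rw [h0, map_zero] at hγ
    exact zero_ne_one hγ
  have hK2 : CharP (RatFunc F) 2 := inferInstance
  have hL2 : CharP (Kvs v) 2 := n9
  have hNA : NA (nm v) := ⟨n1, n2, n3, n4⟩
  have hal : ∀ z : RatFunc F, nm v (algebraMap (RatFunc F) (Kvs v) z) = v z := by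
    intro z
    rw [IsScalarTower.algebraMap_apply (RatFunc F) v.Completion (Kvs v) z, n5, c1]
  have hb : ∀ j : ℕ, nm v (algebraMap (RatFunc F) (Kvs v) (γ ^ 2 ^ j)) = 1 := by
    intro j
    rw [hal, map_pow, hγ, one_pow]
  have ha : ∀ j : ℕ, nm v (algebraMap (RatFunc F) (Kvs v) (D ^ 2 ^ j)) ≤ 1 := by
    intro j
    rw [hal, map_pow]
    exact pow_le_one₀ (v.nonneg D) hD
  -- the instance of decidable equality does not matter
  have key2 : ∀ I : DecidableEq (Kvs v),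
      (∀ h ∈ AddSubgroup.zmultiples R, nm v (px h) ≤ 1) ∧
      ∀ c : Pt D γ k (Kvs v), c ≠ 0 → nm v (px c) ≤ 1 →
        (∀ h ∈ AddSubgroup.zmultiples R, h ≠ 0 → nm v (px c + px h) = 1) →
        nm v (Wf k R c) = 1 := by
    intro I
    obtain rfl : I = (fun a b => Classical.propDecidable (a = b)) := Subsingleton.elim _ _
    exact wu1_gen hPts hMap hFV hFVn hNz hNA D γ hγ0 hb ha k R hR
  exact key2 _

end Pool.Agent.MP72W
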