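import Pool.Agent.Lib.MP_72e2e6_nt.W2.D.Spec

/-!
# MP_72e2e6_nt, theorem T3, part D: module Wun (the valuations of `Wf k R P` at places of good
reduction are divisible by `2 ^ k`)
-/

namespace Pool.Agent.MP72W

open Polynomial IntermediateField WeierstrassCurve

open scoped Classical

namespace Wun

/-- A nonarchimedean norm `N` on `L`, the field `M` of the unramified elements and the constants `C`. -/
private structure NF {L : Type} [Field L] (N : L → ℝ) (M : Subfield L) (C : Set L) : Prop where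
  nn : ∀ x, 0 ≤ N x
  z : ∀ x, N x = 0 ↔ x = 0
  mul : ∀ x y, N (x * y) = N x * N y
  add : ∀ x y, N (x + y) ≤ max (N x) (N y)
  cM : ∀ c ∈ C, c ∈ M
  cadd : ∀ c ∈ C, ∀ c' ∈ C, c + c' ∈ C
  cmul : ∀ c ∈ C, ∀ c' ∈ C, c * c' ∈ C
  c1 : ∀ c ∈ C, c ≠ 0 → N c = 1
  inf : C.Infinite
  res : ∀ x ∈ M, N x ≤ 1 → ∃ c ∈ C, N (x + c) < 1
  as : ∀ x ∈ M, N x ≤ 1 → ∃ θ ∈ M, θ ^ 2 + θ = x

variable {L : Type} [Field L] [CharP L 2] {N : L → ℝ} {M : Subfield L} {C : Set L}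

private theorem add_self' (x : L) : x + x = 0 := CharTwo.add_self_eq_zero x

private theorem NF.zero (h : NF N M C) : N 0 = 0 := (h.z 0).2 rfl

private theorem NF.one (h : NF N M C) : N 1 = 1 := by
  have h1 := h.mul 1 1
  have h2 : N 1 ≠ 0 := fun h3 => one_ne_zero ((h.z 1).1 h3)
  rw [mul_one] at h1
  exact mul_left_cancel₀ h2 (by rw [← h1, mul_one])

private theorem NF.pow (h : NF N M C) (x : L) (n : ℕ) : N (x ^ n) = N x ^ n := by
  induction n with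
  | zero => rw [pow_zero, pow_zero, h.one]
  | succ n ih => rw [pow_succ, h.mul, ih, pow_succ]

private theorem NF.eqmax (h : NF N M C) {x y : L} (hxy : N x < N y) : N (x + y) = N y := by
  apply le_antisymm
  · exact (h.add x y).trans (max_le hxy.le le_rfl)
  · have h1 := h.add x (x + y)
    rw [← add_assoc, add_self', zero_add] at h1
    rcases le_max_iff.1 h1 with h2 | h2
    · exact absurd hxy (not_lt.2 h2)
    · exact h2

private theorem NF.le_add (h : NF N M C) {x y : L} {r : ℝ} (hx : N x ≤ r) (hy : N y ≤ r) :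
    N (x + y) ≤ r := (h.add x y).trans (max_le hx hy)

private theorem NF.lt_add (h : NF N M C) {x y : L} {r : ℝ} (hx : N x < r) (hy : N y < r) :
    N (x + y) < r := (h.add x y).trans_lt (max_lt hx hy)

private theorem NF.le_mul (h : NF N M C) {x y : L} (hx : N x ≤ 1) (hy : N y ≤ 1) :
    N (x * y) ≤ 1 := by
  rw [h.mul]
  exact mul_le_one₀ hx (h.nn y) hy

private theorem NF.lt_mul (h : NF N M C) {x y : L} (hx : N x ≤ 1) (hy : N y < 1) :
    N (x * y) < 1 := by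
  rw [h.mul]
  exact (mul_le_of_le_one_left (h.nn y) hx).trans_lt hy

private theorem NF.le_c (h : NF N M C) {c : L} (hc : c ∈ C) : N c ≤ 1 := by
  by_cases h0 : c = 0
  · rw [h0, h.zero]; exact zero_le_one
  · exact (h.c1 c hc h0).le

/-- The choice of `x₀`. -/
private theorem choice (h : NF N M C) (S : Finset L) (hS : ∀ y ∈ S, y ∈ M ∧ N y ≤ 1) {b x : L}
    (hbM : b ∈ M) (hb : N b = 1) (hxM : x ∈ M) :
    ∃ x₀ ∈ C, x₀ ≠ 0 ∧ (∀ y ∈ S, N (x₀ + y) = 1) ∧ (N x ≤ 1 → N (x₀ + x) = 1 ∧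
      ∀ y ∈ S, N ((x + y) ^ 2 * x₀ ^ 2 + x * y * x₀ + x ^ 2 * y ^ 2 + b) = 1) := by
  have hr : ∀ z : L, ∃ c ∈ C, z ∈ M → N z ≤ 1 → N (z + c) < 1 := by
    intro z
    by_cases hz : z ∈ M ∧ N z ≤ 1
    · obtain ⟨c, hc, hzc⟩ := h.res z hz.1 hz.2
      exact ⟨c, hc, fun _ _ => hzc⟩
    · obtain ⟨c, hc⟩ := h.inf.nonempty
      exact ⟨c, hc, fun h1 h2 => absurd ⟨h1, h2⟩ hz⟩
  choose r hrC hr using hr
  have hrb : r b ≠ 0 := by
    intro h0
    have h1 := hr b hbM hb.le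
    rw [h0, add_zero, hb] at h1
    exact lt_irrefl _ h1
  set G : L → L[X] := fun y => Polynomial.C ((r x + r y) ^ 2) * X ^ 2 +
    Polynomial.C (r x * r y) * X + Polynomial.C ((r x) ^ 2 * (r y) ^ 2 + r b) with hG
  have hGe : ∀ y x₀, (G y).eval x₀ = (r x + r y) ^ 2 * x₀ ^ 2 + r x * r y * x₀ +
      ((r x) ^ 2 * (r y) ^ 2 + r b) := by
    intro y x₀
    simp [hG]
  have hG0 : ∀ y, G y ≠ 0 := by
    intro y h0
    have c2 : (G y).coeff 2 = (r x + r y) ^ 2 := by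
      simp only [hG, coeff_add, coeff_C_mul, coeff_X_pow, coeff_X, coeff_C]
      norm_num
    have c1 : (G y).coeff 1 = r x * r y := by
      simp only [hG, coeff_add, coeff_C_mul, coeff_X_pow, coeff_X, coeff_C]
      norm_num
    have c0 : (G y).coeff 0 = (r x) ^ 2 * (r y) ^ 2 + r b := by
      simp only [hG, coeff_add, coeff_C_mul, coeff_X_pow, coeff_X, coeff_C]
      norm_num
    rw [h0, coeff_zero] at c2 c1 c0
    have e1 : r x + r y = 0 := by
      by_contra hne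
      exact pow_ne_zero 2 hne c2.symm
    have e2 : r x = 0 ∨ r y = 0 := mul_eq_zero.1 c1.symm
    have e3 : r x * r y = 0 := c1.symm
    apply hrb
    have e4 : (r x) ^ 2 * (r y) ^ 2 = 0 := by rw [← mul_pow, e3]; ring
    rw [e4, zero_add] at c0
    exact c0.symm
  set T : L[X] := X * (X + Polynomial.C (r x)) * ∏ y ∈ S, ((X + Polynomial.C (r y)) * G y) with hT
  have hT0 : T ≠ 0 := by
    rw [hT]
    refine mul_ne_zero (mul_ne_zero X_ne_zero (X_add_C_ne_zero _)) ?_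
    rw [Finset.prod_ne_zero_iff]
    intro y _
    exact mul_ne_zero (X_add_C_ne_zero _) (hG0 y)
  obtain ⟨x₀, hx₀C, hx₀T⟩ := h.inf.exists_notMem_finset T.roots.toFinset
  rw [Multiset.mem_toFinset, mem_roots hT0, IsRoot.def] at hx₀T
  rw [hT, eval_mul, eval_mul, eval_prod, eval_X, eval_add, eval_X, eval_C] at hx₀T
  obtain ⟨h12, h3⟩ := mul_ne_zero_iff.1 hx₀T
  obtain ⟨h1, h2⟩ := mul_ne_zero_iff.1 h12
  rw [Finset.prod_ne_zero_iff] at h3
  -- the residue argument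
  have key : ∀ {c z : L}, c ∈ C → c ≠ 0 → N (z + c) < 1 → N z = 1 := by
    intro c z hc hc0 hzc
    have e1 := h.c1 c hc hc0
    have e2 := h.eqmax (x := z + c) (y := c) (by rw [e1]; exact hzc)
    rw [add_assoc, add_self', add_zero, e1] at e2
    exact e2
  refine ⟨x₀, hx₀C, h1, ?_, ?_⟩
  · intro y hy
    have h4 := (mul_ne_zero_iff.1 (by simpa only [eval_mul, eval_add, eval_X, eval_C] using h3 y hy)).1
    refine key (h.cadd _ hx₀C _ (hrC y)) h4 ?_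
    have e1 : x₀ + y + (x₀ + r y) = (x₀ + x₀) + (y + r y) := by ring
    rw [e1, add_self', zero_add]
    exact hr y (hS y hy).1 (hS y hy).2
  · intro hx
    refine ⟨?_, ?_⟩
    · refine key (h.cadd _ hx₀C _ (hrC x)) h2 ?_
      have e1 : x₀ + x + (x₀ + r x) = (x₀ + x₀) + (x + r x) := by ring
      rw [e1, add_self', zero_add]
      exact hr x hxM hx
    · intro y hy
      have h4 := (mul_ne_zero_iff.1 (by
        simpa only [eval_mul, eval_add, eval_X, eval_C] using h3 y hy)).2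
      rw [hGe] at h4
      have sq : ∀ c ∈ C, c ^ 2 ∈ C := fun c hc => by rw [pow_two]; exact h.cmul _ hc _ hc
      have hmem : (r x + r y) ^ 2 * x₀ ^ 2 + r x * r y * x₀ + ((r x) ^ 2 * (r y) ^ 2 + r b) ∈ C := by
        refine h.cadd _ (h.cadd _ ?_ _ ?_) _ (h.cadd _ ?_ _ (hrC b))
        · exact h.cmul _ (sq _ (h.cadd _ (hrC x) _ (hrC y))) _ (sq _ hx₀C)
        · exact h.cmul _ (h.cmul _ (hrC x) _ (hrC y)) _ hx₀C
        · exact h.cmul _ (sq _ (hrC x)) _ (sq _ (hrC y))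
      refine key hmem h4 ?_
      have hsx := hr x hxM hx
      have hsy := hr y (hS y hy).1 (hS y hy).2
      have hsb := hr b hbM hb.le
      have hN0 := h.le_c hx₀C
      set δ := x + r x with hδ
      set ε := y + r y with hε
      have e1 : (x + y) ^ 2 * x₀ ^ 2 + x * y * x₀ + x ^ 2 * y ^ 2 + b +
          ((r x + r y) ^ 2 * x₀ ^ 2 + r x * r y * x₀ + ((r x) ^ 2 * (r y) ^ 2 + r b)) =
          x₀ ^ 2 * ((δ + ε) * (δ + ε)) + x₀ * (x * ε + r y * δ) +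
            (x * ε + r y * δ) * (x * ε + r y * δ) + (b + r b) := by
        rw [hδ, hε]
        ring_nf; reduce_mod_char!
      rw [e1]
      have s1 : N (δ + ε) < 1 := h.lt_add hsx hsy
      have s2 : N (x * ε + r y * δ) < 1 :=
        h.lt_add (h.lt_mul hx hsy) (h.lt_mul (h.le_c (hrC y)) hsx)
      refine h.lt_add (h.lt_add (h.lt_add ?_ ?_) ?_) hsb
      · refine h.lt_mul ?_ (h.lt_mul s1.le s1)
        rw [pow_two]
        exact h.le_mul hN0 hN0
      · exact h.lt_mul hN0 s2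
      · exact h.lt_mul s2.le s2

/-- Roots of quadratic polynomials with integral coefficients are integral. -/
private theorem quad (h : NF N M C) {z A B : L} (hz : z ^ 2 = A * z + B) (hA : N A ≤ 1)
    (hB : N B ≤ 1) : N z ≤ 1 := by
  by_contra hcon
  push Not at hcon
  have h1 : N z ^ 2 ≤ N z := by
    rw [← h.pow, hz]
    refine h.le_add ?_ (hB.trans hcon.le)
    rw [h.mul]
    exact mul_le_of_le_one_left (h.nn z) hA
  nlinarith

/-- The estimates for `X₊`, `X₋`. -/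
private theorem est (h : NF N M C) {x₀ x b y X₁ X₂ : L} (hx₀ : N x₀ = 1) (hb : N b = 1)
    (hy : N y ≤ 1) (hxy : N (x₀ + y) = 1)
    (hx : N x ≤ 1 → N (x₀ + x) = 1 ∧
      N ((x + y) ^ 2 * x₀ ^ 2 + x * y * x₀ + x ^ 2 * y ^ 2 + b) = 1)
    (h1 : (X₁ + X₂) * (x₀ + x) ^ 2 = x₀ * x) (h2 : X₁ * X₂ * (x₀ + x) ^ 2 = (x₀ * x) ^ 2 + b) :
    N X₁ ≤ 1 ∧ N X₂ ≤ 1 ∧ N (X₁ + y) = 1 ∧ N (X₂ + y) = 1 := by
  -- the norms of the symmetric functions
  have hsum : N (X₁ + X₂) ≤ 1 ∧ N (X₁ * X₂) ≤ 1 ∧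
      N ((x + y) ^ 2 * x₀ ^ 2 + x * y * x₀ + x ^ 2 * y ^ 2 + b) = N (x₀ + x) ^ 2 ∧
      0 < N (x₀ + x) := by
    have h1' := congrArg N h1
    have h2' := congrArg N h2
    rw [h.mul, h.pow, h.mul x₀ x, hx₀, one_mul] at h1'
    rw [h.mul, h.pow] at h2'
    by_cases hx1 : N x ≤ 1
    · obtain ⟨e1, e2⟩ := hx hx1
      rw [e1, one_pow, mul_one] at h1' h2'
      refine ⟨by rw [h1']; exact hx1, ?_, by rw [e2, e1, one_pow], by rw [e1]; exact one_pos⟩
      rw [h2']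
      refine h.le_add ?_ hb.le
      rw [h.pow, h.mul, hx₀, one_mul]
      exact pow_le_one₀ (h.nn x) hx1
    · push Not at hx1
      have e1 : N (x₀ + x) = N x := h.eqmax (by rw [hx₀]; exact hx1)
      have hxp : 0 < N x := by linarith
      rw [e1] at h1' h2'
      refine ⟨?_, ?_, ?_, by rw [e1]; exact hxp⟩
      · have e2 : N (X₁ + X₂) * N x ^ 2 ≤ 1 * N x ^ 2 := by
          rw [h1', one_mul]; nlinarith
        exact le_of_mul_le_mul_right e2 (by positivity)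
      · have e2 : N (X₁ * X₂) * N x ^ 2 ≤ 1 * N x ^ 2 := by
          rw [h2', one_mul]
          refine h.le_add ?_ ?_
          · rw [h.pow, h.mul, hx₀, one_mul]
          · rw [hb]; nlinarith
        exact le_of_mul_le_mul_right e2 (by positivity)
      · have e3 : (x + y) ^ 2 * x₀ ^ 2 + x * y * x₀ + x ^ 2 * y ^ 2 + b =
            (y ^ 2 * x₀ ^ 2 + x * y * x₀ + b) + x ^ 2 * (x₀ + y) ^ 2 := by
          ring_nf; reduce_mod_char!
        have e4 : N (x ^ 2 * (x₀ + y) ^ 2) = N x ^ 2 := by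
          rw [h.mul, h.pow, h.pow, hxy, one_pow, mul_one]
        rw [e3, e1, ← e4]
        apply h.eqmax
        rw [e4]
        have e5 : N (y ^ 2 * x₀ ^ 2 + x * y * x₀ + b) ≤ N x := by
          refine h.le_add (h.le_add ?_ ?_) (by rw [hb]; exact hx1.le)
          · rw [h.mul, h.pow, h.pow, hx₀, one_pow, mul_one]
            exact (pow_le_one₀ (h.nn y) hy).trans hx1.le
          · rw [h.mul, h.mul, hx₀, mul_one]
            exact mul_le_of_le_one_right (h.nn x) hy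
        nlinarith
  obtain ⟨hs1, hs2, hs3, hs4⟩ := hsum
  have hX₁ : N X₁ ≤ 1 := by
    refine quad h (A := X₁ + X₂) (B := X₁ * X₂) ?_ hs1 hs2
    ring_nf; reduce_mod_char!
  have hX₂ : N X₂ ≤ 1 := by
    refine quad h (A := X₁ + X₂) (B := X₁ * X₂) ?_ hs1 hs2
    ring_nf; reduce_mod_char!
  have hprod : N (X₁ + y) * N (X₂ + y) = 1 := by
    have e1 : (X₁ + y) * (X₂ + y) * (x₀ + x) ^ 2 =
        (x + y) ^ 2 * x₀ ^ 2 + x * y * x₀ + x ^ 2 * y ^ 2 + b := by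
      linear_combination (norm := (ring_nf; reduce_mod_char!)) h2 + y * h1
    have e2 := congrArg N e1
    rw [h.mul, h.mul, h.pow, hs3] at e2
    exact mul_right_cancel₀ (pow_ne_zero 2 hs4.ne') (by rw [e2, one_mul])
  have a1 : N (X₁ + y) ≤ 1 := h.le_add hX₁ hy
  have a2 : N (X₂ + y) ≤ 1 := h.le_add hX₂ hy
  refine ⟨hX₁, hX₂, le_antisymm a1 ?_, le_antisymm a2 ?_⟩
  · calc 1 = N (X₁ + y) * N (X₂ + y) := hprod.symm
      _ ≤ N (X₁ + y) := mul_le_of_le_one_right (h.nn _) a2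
  · calc 1 = N (X₁ + y) * N (X₂ + y) := hprod.symm
      _ ≤ N (X₂ + y) := mul_le_of_le_one_left (h.nn _) a1

/-- The auxiliary point `c`. -/
private theorem point (hPts : S_Pts) (hDif : S_Dif) (h : NF N M C)
    (W : WeierstrassCurve.Affine L) (hW : IsEc W) (ha2M : W.a₂ ∈ M) (ha2 : N W.a₂ ≤ 1)
    (ha6M : W.a₆ ∈ M) (ha6 : N W.a₆ = 1) (H : AddSubgroup W.Point) (hH : (H : Set W.Point).Finite)
    (hHM : ∀ p ∈ H, px p ∈ M ∧ N (px p) ≤ 1) (P : W.Point) (hPM : CIn P (M : Set L))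
    (hP : P ∉ H) :
    ∃ c : W.Point, CIn c (M : Set L) ∧ Gen H c P ∧
      (N (px c) ≤ 1 ∧ ∀ p ∈ H, N (px c + px p) = 1) ∧
      (N (px (c + P)) ≤ 1 ∧ ∀ p ∈ H, N (px (c + P) + px p) = 1) := by
  obtain ⟨p1, p2, p3, -, -, -, -, -, -, -⟩ := hPts L W hW
  have hS : ∀ y ∈ (hH.image px).toFinset, y ∈ M ∧ N y ≤ 1 := by
    intro y hy
    rw [Set.Finite.mem_toFinset] at hy
    obtain ⟨p, hp, rfl⟩ := hy
    exact hHM p hp
  have hSm : ∀ p ∈ H, px p ∈ (hH.image px).toFinset := by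
    intro p hp
    rw [Set.Finite.mem_toFinset]
    exact ⟨p, hp, rfl⟩
  obtain ⟨x₀, hx₀C, hx₀0, hx₀S, hx₀x⟩ := choice h (hH.image px).toFinset hS ha6M ha6 hPM.1
  have hx₀1 : N x₀ = 1 := h.c1 x₀ hx₀C hx₀0
  have hx₀M : x₀ ∈ M := h.cM x₀ hx₀C
  have hfM : x₀ + W.a₂ + W.a₆ / x₀ ^ 2 ∈ M :=
    add_mem (add_mem hx₀M ha2M) (div_mem ha6M (pow_mem hx₀M 2))
  have hf1 : N (x₀ + W.a₂ + W.a₆ / x₀ ^ 2) ≤ 1 := by
    refine h.le_add (h.le_add hx₀1.le ha2) ?_
    have e1 : N (W.a₆ / x₀ ^ 2) * N (x₀ ^ 2) = N W.a₆ := by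
      rw [← h.mul, div_mul_cancel₀ _ (pow_ne_zero 2 hx₀0)]
    rw [h.pow, hx₀1, one_pow, mul_one, ha6] at e1
    exact e1.le
  obtain ⟨ζ, hζM, hζ⟩ := h.as _ hfM hf1
  obtain ⟨c, hc⟩ := p3 x₀ (ζ * x₀) (by
    have e1 : (ζ * x₀) ^ 2 + x₀ * (ζ * x₀) = x₀ ^ 2 * (ζ ^ 2 + ζ) := by ring
    rw [e1, hζ]
    field_simp)
  obtain ⟨hc0, hcx, hcy, -⟩ := p2 c x₀ (ζ * x₀) hc
  have hP0 : P ≠ 0 := by
    rintro rfl
    exact hP H.zero_mem
  have hcP : px c ≠ px P := by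
    intro e1
    rw [hcx] at e1
    have e2 := (hx₀x (by rw [← e1, hx₀1])).1
    rw [← e1, add_self', h.zero] at e2
    exact zero_ne_one e2
  obtain ⟨d1, d2⟩ := hDif L W hW c P hc0 hP0 hcP
  rw [hcx] at d1 d2
  have hest : ∀ p ∈ H, N (px (c + P)) ≤ 1 ∧ N (px (c - P)) ≤ 1 ∧ N (px (c + P) + px p) = 1 ∧
      N (px (c - P) + px p) = 1 := by
    intro p hp
    exact est h hx₀1 ha6 (hHM p hp).2 (hx₀S _ (hSm p hp))
      (fun hx => ⟨(hx₀x hx).1, (hx₀x hx).2 _ (hSm p hp)⟩) d1 d2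
  have hne : ∀ z : L, N (z + z) ≠ 1 := by
    intro z
    rw [add_self', h.zero]
    exact zero_ne_one
  refine ⟨c, ⟨?_, ?_⟩, ⟨?_, hP, ?_, ?_⟩, ⟨?_, ?_⟩, ⟨(hest 0 H.zero_mem).1, ?_⟩⟩
  · rw [hcx]; exact hx₀M
  · rw [hcy]; exact mul_mem hζM hx₀M
  · intro hcH
    have e1 := hx₀S _ (hSm c hcH)
    rw [hcx] at e1
    exact hne _ e1
  · intro hcH
    exact hne _ (hest _ hcH).2.2.1
  · intro hcH
    exact hne _ (hest _ hcH).2.2.2
  · rw [hcx, hx₀1]
  · intro p hp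
    rw [hcx]
    exact hx₀S _ (hSm p hp)
  · intro p hp
    exact (hest p hp).2.2.1

/-- Points with coordinates in `M`. -/
private theorem closed (hPts : S_Pts) (W : WeierstrassCurve.Affine L) (hW : IsEc W)
    (ha2M : W.a₂ ∈ M) :
    (∀ P : W.Point, CIn P (M : Set L) → CIn (-P) (M : Set L)) ∧
    (∀ P Q : W.Point, CIn P (M : Set L) → CIn Q (M : Set L) → CIn (P + Q) (M : Set L)) ∧
    (∀ P Q T : W.Point, CIn P (M : Set L) → CIn Q (M : Set L) → CIn T (M : Set L) →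
      fv P Q T ∈ M) := by
  obtain ⟨p1, p2, p3, -, p5, p6, p7, p8, p9, p10⟩ := hPts L W hW
  have h0 : CIn (0 : W.Point) (M : Set L) := ⟨M.zero_mem, M.zero_mem⟩
  have hsl : ∀ P Q : W.Point, CIn P (M : Set L) → CIn Q (M : Set L) → P ≠ 0 → Q ≠ 0 →
      P + Q ≠ 0 → sl P Q ∈ M := by
    intro P Q hP hQ hP0 hQ0 hPQ
    obtain ⟨x, y, hxy⟩ := (p1 P).resolve_left hP0
    obtain ⟨x', y', hxy'⟩ := (p1 Q).resolve_left hQ0
    obtain ⟨-, e1, e2, -⟩ := p2 P x y hxy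
    obtain ⟨-, e1', e2', -⟩ := p2 Q x' y' hxy'
    have hx : x ∈ M := e1 ▸ hP.1
    have hy : y ∈ M := e2 ▸ hP.2
    have hx' : x' ∈ M := e1' ▸ hQ.1
    have hy' : y' ∈ M := e2' ▸ hQ.2
    by_cases hxx : x = x'
    · have h3 : Q = P := by
        rcases p9 P Q hP0 hQ0 (by rw [e1, e1', hxx]) with h4 | h4
        · exact h4
        · exact absurd (by rw [h4, add_neg_cancel]) hPQ
      subst h3
      have hx0 : x ≠ 0 := by
        rintro rfl
        exact hPQ (p8 Q y hxy).1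
      rw [(p7 Q x y hxy hx0).1]
      exact add_mem hx (div_mem hy hx)
    · rw [p6 P Q x y x' y' hxy hxy' hxx]
      exact div_mem (add_mem hy hy') (add_mem hx hx')
  have hadd : ∀ P Q : W.Point, CIn P (M : Set L) → CIn Q (M : Set L) → CIn (P + Q) (M : Set L) := by
    intro P Q hP hQ
    by_cases hP0 : P = 0
    · rw [hP0, zero_add]; exact hQ
    by_cases hQ0 : Q = 0
    · rw [hQ0, add_zero]; exact hP
    by_cases hPQ : P + Q = 0
    · rw [hPQ]; exact h0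
    have hs := hsl P Q hP hQ hP0 hQ0 hPQ
    obtain ⟨e1, e2, -, -⟩ := p10 P Q hP0 hQ0 hPQ
    have m1 : px (P + Q) ∈ M := by
      rw [e1]
      exact add_mem (add_mem (add_mem (add_mem (pow_mem hs 2) hs) ha2M) hP.1) hQ.1
    refine ⟨m1, ?_⟩
    change py (P + Q) ∈ M
    rw [e2]
    exact add_mem (add_mem (mul_mem hs (add_mem hP.1 m1)) m1) hP.2
  refine ⟨?_, hadd, ?_⟩
  · intro P hP
    by_cases hP0 : P = 0
    · rw [hP0, neg_zero]; exact h0
    obtain ⟨x, y, hxy⟩ := (p1 P).resolve_left hP0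
    obtain ⟨-, e1, e2, -⟩ := p2 P x y hxy
    obtain ⟨-, e3, e4, -⟩ := p2 (-P) x (x + y) (p5 P x y hxy)
    refine ⟨?_, ?_⟩
    · rw [e3, ← e1]; exact hP.1
    · rw [e4, ← e1, ← e2]; exact add_mem hP.1 hP.2
  · intro P Q T hP hQ hT
    have m2 := hadd P Q hP hQ
    unfold fv
    refine div_mem ?_ ?_
    · unfold nv
      split_ifs with h1 h2
      · exact M.one_mem
      · exact add_mem hT.1 hP.1
      · push Not at h1
        exact add_mem (add_mem hT.2 hP.2) (mul_mem (hsl P Q hP hQ h1.1 h1.2 h2)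
          (add_mem hT.1 hP.1))
    · unfold dv
      split_ifs with h1
      · exact M.one_mem
      · exact add_mem hT.1 m2.1

end Wun

attribute [-instance] Subtype.instDecidableEq in
open Wun in
theorem tWun (hLc1 : S_Lc1) (hLc2 : S_Lc2) (hCst : S_Cst) (hNr : S_Nr) (hPts : S_Pts)
    (hMap : S_Map) (hFVn : S_FVn) (hNz : S_Nz) (hWAd : S_WAd) (hDif : S_Dif) (hWu1 : S_Wu1) :
    S_Wun := by
  intro F _ _ _ v d ϖ R₀ hLF D γ hD hγ k R hR hRM P hPM hP
  have hde : (fun a b : Kvs v => Subtype.instDecidableEq a b) =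
      fun a b => Classical.propDecidable (a = b) := Subsingleton.elim _ _
  rw [hde] at hP
  have hWu1' := hWu1 F v d ϖ R₀ hLF D γ hD hγ k R hR
  rw [hde] at hWu1'
  obtain ⟨hu1, hu2⟩ := hWu1'
  obtain ⟨l1, -⟩ := hLc1 F v d ϖ R₀ hLF
  obtain ⟨n1, n2, n3, n4, n5, n6, n7, -, n9⟩ := hLc2 F v d ϖ R₀ hLF
  obtain ⟨r1, r2, r3, r4, r5, -, -⟩ := hNr F v d ϖ R₀ hLF
  have : CharP (Kvs v) 2 := n9
  have hγ0 : γ ≠ 0 := by
    rintro rfl
    rw [map_zero] at hγ
    exact zero_ne_one hγ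
  have hKc : CharP (RatFunc F) 2 :=
    charP_of_injective_algebraMap (algebraMap F (RatFunc F)).injective 2
  obtain ⟨hEc, ha2, ha6, -, -⟩ := hMap (RatFunc F) D γ hγ0 k (Kvs v)
  -- the norm
  have hnK : ∀ x : RatFunc F, nm v (algebraMap (RatFunc F) (Kvs v) x) = v x := by
    intro x
    rw [IsScalarTower.algebraMap_apply (RatFunc F) v.Completion (Kvs v), n5, l1]
  have hMK : ∀ x : RatFunc F, algebraMap (RatFunc F) (Kvs v) x ∈ (Knr v).toSubfield := by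
    intro x
    rw [IsScalarTower.algebraMap_apply (RatFunc F) v.Completion (Kvs v)]
    exact (Knr v).algebraMap_mem _
  obtain ⟨r, hr1, hqr⟩ : ∃ r : ℕ, 1 ≤ r ∧ Nat.card F = 2 ^ r := by
    have := Fintype.ofFinite F
    obtain ⟨n, -, hn⟩ := FiniteField.card F 2
    exact ⟨n, n.2, by rw [Nat.card_eq_fintype_card, hn]⟩
  obtain ⟨c1, c2, c3, c4, c5, c6⟩ := hCst (Nat.card F) r hr1 hqr (Kvs v)
  have hNF : NF (nm v) (Knr v).toSubfield (Cst (Nat.card F) (Kvs v)) := by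
    refine ⟨n1, n2, n3, n4, r4, fun c hc c' hc' => (c3 c hc c' hc').1,
      fun c hc c' hc' => (c3 c hc c' hc').2, n7, ?_, ?_, r3⟩
    · intro hfin
      have h1 : ∀ n, 1 ≤ n → (Nat.card F) ^ n ≤ (Cst (Nat.card F) (Kvs v)).ncard := by
        intro n hn
        rw [← c6 n hn]
        exact Set.ncard_le_ncard (fun x hx => ⟨n, hn, hx⟩) hfin
      have hq2 : 2 ≤ Nat.card F := by
        rw [hqr]
        calc 2 = 2 ^ 1 := by norm_num
          _ ≤ 2 ^ r := Nat.pow_le_pow_right (by norm_num) hr1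
      have h2 := h1 ((Cst (Nat.card F) (Kvs v)).ncard + 1) (by omega)
      have h3 : (Cst (Nat.card F) (Kvs v)).ncard + 1 <
          (Nat.card F) ^ ((Cst (Nat.card F) (Kvs v)).ncard + 1) := Nat.lt_pow_self (by omega)
      omega
    · intro x hx hx1
      obtain ⟨c, hc, hxc⟩ := r2 x hx hx1
      refine ⟨c, hc, ?_⟩
      rwa [CharTwo.sub_eq_add] at hxc
  obtain ⟨-, -, -, -, -, -, -, hFord, -, -⟩ := hFVn (RatFunc F) D γ hγ0 (Kvs v)
  obtain ⟨hord, -⟩ := hFord k R hR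
  have h2k : 2 ^ k • R = 0 := by
    rw [← hord]
    exact addOrderOf_nsmul_eq_zero R
  set H : AddSubgroup (Pt D γ k (Kvs v)) := AddSubgroup.zmultiples R with hH
  have hRH : R ∈ H := AddSubgroup.mem_zmultiples R
  have hHfin : (H : Set (Pt D γ k (Kvs v))).Finite := by
    rw [hH, finite_zmultiples, ← addOrderOf_pos_iff, hord]
    positivity
  have ha2M : ((EE D γ k)⁄(Kvs v)).toAffine.a₂ ∈ (Knr v).toSubfield := by
    rw [ha2]; exact hMK _
  have ha6M : ((EE D γ k)⁄(Kvs v)).toAffine.a₆ ∈ (Knr v).toSubfield := by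
    rw [ha6]; exact hMK _
  obtain ⟨hcneg, hcadd, hcfv⟩ := closed (M := (Knr v).toSubfield) hPts _ hEc ha2M
  have hcns : ∀ n : ℕ, CIn (n • R) ((Knr v).toSubfield : Set (Kvs v)) := by
    intro n
    induction n with
    | zero =>
      rw [zero_smul]
      exact ⟨(Knr v).toSubfield.zero_mem, (Knr v).toSubfield.zero_mem⟩
    | succ n ih =>
      rw [succ_nsmul]
      exact hcadd _ _ ih hRM
  have hHM : ∀ p ∈ H, px p ∈ (Knr v).toSubfield ∧ nm v (px p) ≤ 1 := by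
    intro p hp
    refine ⟨?_, hu1 p hp⟩
    rw [hH, AddSubgroup.mem_zmultiples_iff] at hp
    obtain ⟨m, rfl⟩ := hp
    rcases Int.eq_nat_or_neg m with ⟨n, rfl | rfl⟩
    · rw [natCast_zsmul]
      exact (hcns n).1
    · rw [neg_smul, natCast_zsmul]
      exact (hcneg _ (hcns n)).1
  obtain ⟨c, hcM, hgen, ⟨hc1, hc2⟩, ⟨hs1, hs2⟩⟩ := point hPts hDif hNF _ hEc ha2M
    (by rw [ha2, hnK, map_pow]; exact pow_le_one₀ (apply_nonneg _ _) hD) ha6M
    (by rw [ha6, hnK, map_pow, hγ, one_pow]) H hHfin hHM P hPM hP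
  have hWfM : ∀ S : Pt D γ k (Kvs v), CIn S ((Knr v).toSubfield : Set (Kvs v)) →
      Wf k R S ∈ Knr v := by
    intro S hS
    unfold Wf
    refine prod_mem fun j _ => pow_mem ?_ _
    exact hcfv _ _ _ (hcns _) (hcns _) hS
  refine ⟨hWfM P hPM, ?_⟩
  obtain ⟨-, hW2⟩ := hWAd (Kvs v) _ hEc k H c P R hRH h2k
  have hmain := congrArg (nm v) (hW2 hgen)
  have hAv0 : Av c P R ≠ 0 := (hNz (Kvs v) _ hEc).2.2 H c P R hgen hRH
  have hAvM : Av c P R ∈ Knr v := by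
    unfold Av
    split_ifs
    · exact (Knr v).one_mem
    · exact hcfv _ _ _ (hcneg _ hcM) (hcneg _ hPM) (hcneg _ hRM)
  obtain ⟨m, hm⟩ := r1 _ hAvM hAv0
  have hWc : nm v (Wf k R c) = 1 := by
    refine hu2 c ?_ hc1 fun p hp _ => hc2 p hp
    rintro rfl
    exact hgen.hc H.zero_mem
  have hWs : nm v (Wf k R (c + P)) = 1 := by
    refine hu2 (c + P) ?_ hs1 fun p hp _ => hs2 p hp
    intro h0
    apply hgen.hs
    rw [h0]
    exact H.zero_mem
  rw [n3, n3, hWc, hWs, one_mul, one_mul, hNF.pow, hm] at hmain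
  refine ⟨m * 2 ^ k, ?_, Dvd.intro_left _ rfl⟩
  rw [hmain, zpow_mul, ← zpow_natCast]
  push_cast
  rfl

end Pool.Agent.MP72W
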