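import Pool.Agent.Lib.MP_72e2e6_nt.W2.R.Defs
import Pool.Agent.Lib.MP_72e2e6_nt.W2.Stmt

/-!
# MP_72e2e6_nt, theorem T3, part D (elliptic curves `y ^ 2 + x y = x ^ 3 + a x ^ 2 + b`): definitions
-/

namespace Pool.Agent.MP72W

open Polynomial IntermediateField WeierstrassCurve

open scoped Classical

/-- Artin-Schreier closed. -/
def ASC (L : Type) [Field L] : Prop := ∀ f : L, ∃ θ : L, θ ^ 2 + θ = f

section

variable {L : Type} [Field L]

/-- The curves `y ^ 2 + x y = x ^ 3 + a₂ x ^ 2 + a₆`, `a₆ ≠ 0`. -/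
structure IsEc (W : WeierstrassCurve.Affine L) : Prop where
  a1 : W.a₁ = 1
  a3 : W.a₃ = 0
  a4 : W.a₄ = 0
  b : W.a₆ ≠ 0

/-- `P = (x, y)`. -/
def XY {W : WeierstrassCurve.Affine L} (P : W.Point) (x y : L) : Prop :=
  ∃ h : W.Nonsingular x y, P = .some x y h

/-- The `x`-coordinate (`0` for the point at infinity). -/
def px {W : WeierstrassCurve.Affine L} : W.Point → L
  | .zero => 0
  | .some x _ _ => x

/-- The `y`-coordinate (`0` for the point at infinity). -/
def py {W : WeierstrassCurve.Affine L} : W.Point → L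
  | .zero => 0
  | .some _ y _ => y

/-- The slope of the line through `P` and `Q` (tangent line if `P = Q`). -/
noncomputable def sl {W : WeierstrassCurve.Affine L} (P Q : W.Point) : L :=
  W.slope (px P) (px Q) (py P) (py Q)

/-- The numerator of the function with divisor `[P] + [Q] - [P + Q] - [O]`. -/
noncomputable def nR {W : WeierstrassCurve.Affine L} (P Q : W.Point) : W.CoordinateRing :=
  if P = 0 ∨ Q = 0 then 1 else if P + Q = 0 then Affine.CoordinateRing.XClass W (px P)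
    else Affine.CoordinateRing.YClass W (Affine.linePolynomial (px P) (py P) (sl P Q))

/-- The denominator. -/
noncomputable def dR {W : WeierstrassCurve.Affine L} (P Q : W.Point) : W.CoordinateRing :=
  if P = 0 ∨ Q = 0 ∨ P + Q = 0 then 1 else Affine.CoordinateRing.XClass W (px (P + Q))

/-- The value of `nR P Q` at `T` (characteristic two). -/
noncomputable def nv {W : WeierstrassCurve.Affine L} (P Q T : W.Point) : L :=
  if P = 0 ∨ Q = 0 then 1 else if P + Q = 0 then px T + px P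
    else py T + py P + sl P Q * (px T + px P)

/-- The value of `dR P Q` at `T` (characteristic two). -/
noncomputable def dv {W : WeierstrassCurve.Affine L} (P Q T : W.Point) : L :=
  if P = 0 ∨ Q = 0 ∨ P + Q = 0 then 1 else px T + px (P + Q)

/-- The value of the function with divisor `[P] + [Q] - [P + Q] - [O]` at `T`. -/
noncomputable def fv {W : WeierstrassCurve.Affine L} (P Q T : W.Point) : L := nv P Q T / dv P Q T

/-- The function of `X` occurring in the additivity of `Wf`. -/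
noncomputable def Av {W : WeierstrassCurve.Affine L} (c d X : W.Point) : L :=
  if X = 0 then 1 else fv (-c) (-d) (-X)

/-- The value at `S` of the function with divisor `2 ^ k ([R] - [O])`, where `2 ^ k R = 0`. -/
noncomputable def Wf {W : WeierstrassCurve.Affine L} (k : ℕ) (R S : W.Point) : L :=
  ∏ j ∈ Finset.range k, fv (2 ^ j • R) (2 ^ j • R) S ^ 2 ^ (k - 1 - j)

/-- `c`, `d` are generic with respect to the subgroup `H`. -/
structure Gen {W : WeierstrassCurve.Affine L} (H : AddSubgroup W.Point) (c d : W.Point) :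
    Prop where
  hc : c ∉ H
  hd : d ∉ H
  hs : c + d ∉ H
  hm : c - d ∉ H

/-- The coordinates of `P` are in the set `s`. -/
def CIn {W : WeierstrassCurve.Affine L} (P : W.Point) (s : Set L) : Prop := px P ∈ s ∧ py P ∈ s

end

/-- The curves `E_j : y ^ 2 + x y = x ^ 3 + D ^ (2 ^ j) x ^ 2 + γ ^ (2 ^ j)`. -/
def EE {K : Type} [Field K] (D γ : K) (j : ℕ) : WeierstrassCurve K :=
  ⟨1, D ^ 2 ^ j, 0, 0, γ ^ 2 ^ j⟩

/-- The points of `E_j` over `L`. -/
abbrev Pt {K : Type} [Field K] (D γ : K) (j : ℕ) (L : Type) [Field L] [Algebra K L] : Type :=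
  ((EE D γ j)⁄L).toAffine.Point

section

variable {K : Type} [Field K] (D γ : K) {L : Type} [Field L] [Algebra K L]

/-- The Frobenius isogeny `E_j → E_{j + 1}`, `(x, y) ↦ (x ^ 2, y ^ 2)`. -/
noncomputable def Fi (j : ℕ) (P : Pt D γ j L) : Pt D γ (j + 1) L :=
  if h : ∃ Q : Pt D γ (j + 1) L, P ≠ 0 ∧ XY Q (px P ^ 2) (py P ^ 2) then h.choose else 0

/-- The dual isogeny `E_{j + 1} → E_j`,
`(X, Y) ↦ (X + b / X, X + ((Y + b) / X + a + 1) (X + b / X))`, `a = D ^ (2 ^ j)`,
`b = γ ^ (2 ^ j)`. -/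
noncomputable def Vi (j : ℕ) (P : Pt D γ (j + 1) L) : Pt D γ j L :=
  if h : ∃ Q : Pt D γ j L, P ≠ 0 ∧ px P ≠ 0 ∧
      XY Q (px P + algebraMap K L (γ ^ 2 ^ j) / px P)
        (px P + ((py P + algebraMap K L (γ ^ 2 ^ j)) / px P + algebraMap K L (D ^ 2 ^ j) + 1) *
          (px P + algebraMap K L (γ ^ 2 ^ j) / px P)) then h.choose else 0

/-- The isogeny `E_0 → E_n`. -/
noncomputable def Fn : (n : ℕ) → Pt D γ 0 L → Pt D γ n L
  | 0, P => P
  | n + 1, P => Fi D γ n (Fn n P)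

/-- The isogeny `E_n → E_0`. -/
noncomputable def Vn : (n : ℕ) → Pt D γ n L → Pt D γ 0 L
  | 0, P => P
  | n + 1, P => Vn n (Vi D γ n P)

/-- `R` generates the kernel of `Vn k`. -/
def IsR (k : ℕ) (R : Pt D γ k L) : Prop := Vn D γ k R = 0 ∧ ∀ n < k, 2 ^ n • R ≠ 0

/-- The properties of the homomorphism `E_k(L) → Lˣ / (Lˣ) ^ (2 ^ k)` given by `Wf k R`. -/
structure IsWt (k : ℕ) (R : Pt D γ k L) (w : Pt D γ k L → L) : Prop where
  ne : ∀ p, w p ≠ 0
  add : ∀ p q, EqN (2 ^ k) (w (p + q)) (w p * w q)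
  gen : ∀ p, p ∉ AddSubgroup.zmultiples R → EqN (2 ^ k) (w p) (Wf k R p)
  ker : ∀ p, EqN (2 ^ k) (w p) 1 ↔ ∃ q, p = Fn D γ k q

end

/-- `Q` is mapped to the point `(0, β)` of order two of `E_0 : y ^ 2 + x y = x ^ 3 + D x ^ 2 + β ^ 2`. -/
def IsQ {K : Type} [Field K] (D β : K) {L : Type} [Field L] [Algebra K L] (k : ℕ)
    (Q : Pt D (β ^ 2) k L) : Prop := XY (Vn D (β ^ 2) k Q) 0 (algebraMap K L β)

section

variable {F : Type} [Field F] (D γ : RatFunc F) (k : ℕ)

/-- The Selmer condition for `p ∈ E_k(K^s)` modulo `Fn k (E_0(K^s))`. -/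
def SelF (p : Pt D γ k (Kgs F)) : Prop :=
  (∀ σ : Gal(Kgs F/RatFunc F), ∃ q : Pt D γ 0 (Kgs F),
    pmap (EE D γ k) (σ : Kgs F →ₐ[RatFunc F] Kgs F) p = p + Fn D γ k q) ∧
  ∀ v : AbsoluteValue (RatFunc F) ℝ, v.IsNontrivial → ∀ ι : Kgs F →ₐ[RatFunc F] Kvs v,
    ∃ q : Pt D γ 0 (Kvs v), ∀ g : Gal(Kvs v/v.Completion),
      pmap (EE D γ k) (g : Kvs v →ₐ[v.Completion] Kvs v) (pmap (EE D γ k) ι p - Fn D γ k q) =
        pmap (EE D γ k) ι p - Fn D γ k q

/-- The Selmer condition for a crossed homomorphism with values in the kernel of `Vn k`. -/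
structure SelV {PP : Finset F[X]} (R : Pt D γ k (Kgs F)) (χ : GS PP → ZMod (2 ^ k))
    (c : Gal(Kgs F/RatFunc F) → ZMod (2 ^ k)) : Prop where
  loc : IsLocallyConstant c
  mul : ∀ σ τ, c (σ * τ) = c σ + χ (rG PP σ) * c τ
  sel : ∀ v : AbsoluteValue (RatFunc F) ℝ, v.IsNontrivial → ∀ ι : Kgs F →ₐ[RatFunc F] Kvs v,
    ∃ X : Pt D γ k (Kvs v), ∀ g : Gal(Kvs v/v.Completion),
      (c (rsH (M := v.Completion) ι g)).val • pmap (EE D γ k) ι R =
        pmap (EE D γ k) (g : Kvs v →ₐ[v.Completion] Kvs v) X - X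

end

end Pool.Agent.MP72W
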