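import Pool.Agent.Lib.MP_72e2e6_nt.W2.D.Spec

/-!
# MP_72e2e6_nt, T3, part D: the relation `EqN` (helper71)
-/

namespace Pool.Agent.MP72W

namespace EqNx

variable {L M : Type} [Field L] [Field M] {N : ℕ} {a b c d : L}

theorem refl (a : L) : EqN N a a := ⟨1, one_ne_zero, by rw [one_pow, mul_one]⟩

theorem symm (h : EqN N a b) : EqN N b a := by
  obtain ⟨s, hs, rfl⟩ := h
  exact ⟨s⁻¹, inv_ne_zero hs, by
    rw [mul_assoc, ← mul_pow, mul_inv_cancel₀ hs, one_pow, mul_one]⟩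

theorem trans (h : EqN N a b) (h' : EqN N b c) : EqN N a c := by
  obtain ⟨s, hs, rfl⟩ := h
  obtain ⟨t, ht, rfl⟩ := h'
  exact ⟨t * s, mul_ne_zero ht hs, by rw [mul_pow, mul_assoc]⟩

theorem mul (h : EqN N a b) (h' : EqN N c d) : EqN N (a * c) (b * d) := by
  obtain ⟨s, hs, rfl⟩ := h
  obtain ⟨t, ht, rfl⟩ := h'
  exact ⟨s * t, mul_ne_zero hs ht, by rw [mul_pow]; ring⟩

theorem pow (h : EqN N a b) (m : ℕ) : EqN N (a ^ m) (b ^ m) := by
  obtain ⟨s, hs, rfl⟩ := h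
  exact ⟨s ^ m, pow_ne_zero m hs, by rw [mul_pow, ← pow_mul, ← pow_mul, mul_comm N m]⟩

theorem map (f : L →+* M) (h : EqN N a b) : EqN N (f a) (f b) := by
  obtain ⟨s, hs, rfl⟩ := h
  exact ⟨f s, by rwa [ne_eq, map_eq_zero], by rw [map_mul, map_pow]⟩

theorem ne (h : EqN N a b) (hb : b ≠ 0) : a ≠ 0 := by
  obtain ⟨s, hs, rfl⟩ := h
  exact mul_ne_zero hb (pow_ne_zero N hs)

theorem cancel (h : EqN N (a * c) (b * d)) (h' : EqN N c d) (hd : d ≠ 0) : EqN N a b := by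
  obtain ⟨s, hs, h⟩ := h
  obtain ⟨t, ht, rfl⟩ := h'
  refine ⟨s / t, div_ne_zero hs ht, ?_⟩
  have htN := pow_ne_zero N ht
  rw [div_pow, mul_div_assoc', eq_div_iff htN]
  apply mul_left_cancel₀ hd
  calc d * (a * t ^ N) = a * (d * t ^ N) := by ring
    _ = b * d * s ^ N := h
    _ = d * (b * s ^ N) := by ring

end EqNx

end Pool.Agent.MP72W
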