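import Pool.Agent.Lib.MP_72e2e6_nt.W2.D.Spec

/-!
# MP_72e2e6_nt, theorem T3, part D: `S_FVn`
-/

namespace Pool.Agent.MP72W

open Polynomial IntermediateField WeierstrassCurve

open scoped Classical

theorem tFVn (h1 : S_Pts) (h2 : S_Map) (h3 : S_FV) (h4 : S_FVh) : S_FVn := by
  intro K _ _ D γ hγ L _ _
  have A1 : ∀ (n : ℕ) (P Q : Pt D γ 0 L), Fn D γ n (P + Q) = Fn D γ n P + Fn D γ n Q := by
    intro n
    induction n with
    | zero => intro P Q; rfl
    | succ n ih =>
      intro P Q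
      change Fi D γ n (Fn D γ n (P + Q)) = Fi D γ n (Fn D γ n P) + Fi D γ n (Fn D γ n Q)
      rw [ih, (h4 K D γ hγ n L).1]
  have A2 : ∀ (n : ℕ) (P Q : Pt D γ n L), Vn D γ n (P + Q) = Vn D γ n P + Vn D γ n Q := by
    intro n
    induction n with
    | zero => intro P Q; rfl
    | succ n ih =>
      intro P Q
      change Vn D γ n (Vi D γ n (P + Q)) = Vn D γ n (Vi D γ n P) + Vn D γ n (Vi D γ n Q)
      rw [(h4 K D γ hγ n L).2.2.2.1, ih]
  have V0 : ∀ n : ℕ, Vn D γ n (0 : Pt D γ n L) = 0 := by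
    intro n
    exact (AddMonoidHom.mk' (Vn D γ n) (A2 n)).map_zero
  have F0 : ∀ n : ℕ, Fn D γ n (0 : Pt D γ 0 L) = 0 := by
    intro n
    exact (AddMonoidHom.mk' (Fn D γ n) (A1 n)).map_zero
  have Vi0 : ∀ n : ℕ, Vi D γ n (0 : Pt D γ (n + 1) L) = 0 := fun n => (h3 K D γ hγ n L).2.2.2.1
  have FiN : ∀ (n m : ℕ) (P : Pt D γ n L), Fi D γ n (m • P) = m • Fi D γ n P := by
    intro n m P
    exact (AddMonoidHom.mk' (Fi D γ n) ((h4 K D γ hγ n L).1)).map_nsmul m P
  have A3 : ∀ (n : ℕ) (P : Pt D γ 0 L), Vn D γ n (Fn D γ n P) = 2 ^ n • P := by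
    intro n
    induction n with
    | zero =>
      intro P
      rw [pow_zero, one_nsmul]
      rfl
    | succ n ih =>
      intro P
      change Vn D γ n (Vi D γ n (Fi D γ n (Fn D γ n P))) = _
      rw [(h4 K D γ hγ n L).2.1, A2, ih, pow_succ, mul_two, add_nsmul]
  have A4 : ∀ (n : ℕ) (P : Pt D γ n L), Fn D γ n (Vn D γ n P) = 2 ^ n • P := by
    intro n
    induction n with
    | zero =>
      intro P
      rw [pow_zero, one_nsmul]
      rfl
    | succ n ih =>
      intro P
      change Fi D γ n (Fn D γ n (Vn D γ n (Vi D γ n P))) = _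
      rw [ih, FiN, (h4 K D γ hγ n L).2.2.1, pow_succ, mul_nsmul', ← two_nsmul]
  have A5 : ∀ (n : ℕ) (P Q : Pt D γ 0 L), Fn D γ n P = Fn D γ n Q → P = Q := by
    intro n
    induction n with
    | zero => intro P Q h; exact h
    | succ n ih =>
      intro P Q h
      exact ih P Q ((h3 K D γ hγ n L).2.2.1 _ _ h)
  have A6 : ∀ (n : ℕ) (S M : Type) [Field S] [Field M] [Algebra K S] [Algebra K M] [Algebra S L]
      [Algebra S M] [IsScalarTower K S L] [IsScalarTower K S M] (f : L →ₐ[S] M),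
      (∀ P : Pt D γ 0 L, pmap (EE D γ n) f (Fn D γ n P) = Fn D γ n (pmap (EE D γ 0) f P)) ∧
      ∀ P : Pt D γ n L, pmap (EE D γ 0) f (Vn D γ n P) = Vn D γ n (pmap (EE D γ n) f P) := by
    intro n S M _ _ _ _ _ _ _ _ f
    induction n with
    | zero => exact ⟨fun P => rfl, fun P => rfl⟩
    | succ n ih =>
      obtain ⟨k1, k2⟩ := (h4 K D γ hγ n L).2.2.2.2 S M f
      constructor
      · intro P
        change pmap (EE D γ (n + 1)) f (Fi D γ n (Fn D γ n P)) =
          Fi D γ n (Fn D γ n (pmap (EE D γ 0) f P))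
        rw [k1, ih.1]
      · intro P
        change pmap (EE D γ 0) f (Vn D γ n (Vi D γ n P)) =
          Vn D γ n (Vi D γ n (pmap (EE D γ (n + 1)) f P))
        rw [ih.2, k2]
  -- the kernel of `Vi`
  have B1 : ∀ n : ℕ, ∃ T : Pt D γ (n + 1) L, ∀ P : Pt D γ (n + 1) L,
      Vi D γ n P = 0 → P = 0 ∨ P = T := by
    intro n
    obtain ⟨hE', ha', hb', hch, -⟩ := h2 K D γ hγ (n + 1) L
    have := hch
    have h20 : (2 : L) = 0 := CharTwo.two_eq_zero
    obtain ⟨q1, q2, q3, q4, q5, q6, q7, q8, q9, q10⟩ := h1 L _ hE'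
    by_cases hT : ∃ T : Pt D γ (n + 1) L, T ≠ 0 ∧ Vi D γ n T = 0
    · obtain ⟨T, hT0, hT⟩ := hT
      refine ⟨T, fun P hP => ?_⟩
      by_cases hP0 : P = 0
      · exact Or.inl hP0
      · right
        rw [(h3 K D γ hγ n L).2.2.2.2.2.2.1] at hT hP
        rcases q1 T with h | ⟨x, y, hTx⟩
        · exact absurd h hT0
        rcases q1 P with h | ⟨x', y', hPx⟩
        · exact absurd h hP0
        have e1 := (q2 _ _ _ hTx).2.1
        have e2 := (q2 _ _ _ hPx).2.1
        rw [hT] at e1
        rw [hP] at e2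
        subst e1 e2
        have e3 := (q8 _ _ hTx).2
        have e4 := (q8 _ _ hPx).2
        have e5 : (y' + y) ^ 2 = 0 := by
          rw [← e3] at e4
          linear_combination e4 + (y ^ 2 + y' * y) * h20
        have e6 : y' + y = 0 := pow_eq_zero_iff (two_ne_zero) |>.mp e5
        have e7 : y' = y := by linear_combination e6 - y * h20
        rw [e7] at hPx
        exact q4 _ _ _ _ hPx hTx
    · push Not at hT
      refine ⟨0, fun P hP => Or.inl ?_⟩
      by_contra h
      exact hT P h hP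
  have B2 : ∀ n : ℕ, {P : Pt D γ n L | Vn D γ n P = 0}.Finite ∧
      {P : Pt D γ n L | Vn D γ n P = 0}.ncard ≤ 2 ^ n := by
    intro n
    induction n with
    | zero =>
      have : {P : Pt D γ 0 L | Vn D γ 0 P = 0} = {0} := by
        ext P
        simp only [Set.mem_ofPred_eq, Set.mem_singleton_iff]
        exact Iff.rfl
      rw [this]
      exact ⟨Set.finite_singleton _, by rw [Set.ncard_singleton, pow_zero]⟩
    | succ n ih =>
      obtain ⟨T, hT⟩ := B1 n
      have hfib : ∀ P₀ : Pt D γ (n + 1) L,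
          {P : Pt D γ (n + 1) L | Vi D γ n P = Vi D γ n P₀} ⊆ {P₀, P₀ + T} := by
        intro P₀ P hP
        have hP' : Vi D γ n P = Vi D γ n P₀ := hP
        have e1 : Vi D γ n (P - P₀) + Vi D γ n P₀ = Vi D γ n P := by
          rw [← (h4 K D γ hγ n L).2.2.2.1, sub_add_cancel]
        rw [hP'] at e1
        have e2 : Vi D γ n (P - P₀) = 0 := by
          exact left_eq_add.mp (by rw [add_comm]; exact e1.symm)
        rcases hT _ e2 with h | h
        · left; exact sub_eq_zero.mp h
        · right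
          show P = P₀ + T
          rw [← h]; abel
      have hfib2 : ∀ Q : Pt D γ n L, {P : Pt D γ (n + 1) L | Vi D γ n P = Q}.Finite ∧
          {P : Pt D γ (n + 1) L | Vi D γ n P = Q}.ncard ≤ 2 := by
        intro Q
        by_cases hQ : ∃ P₀ : Pt D γ (n + 1) L, Vi D γ n P₀ = Q
        · obtain ⟨P₀, rfl⟩ := hQ
          have hfin : ({P₀, P₀ + T} : Set (Pt D γ (n + 1) L)).Finite := Set.toFinite _
          exact ⟨hfin.subset (hfib P₀),
            (Set.ncard_le_ncard (hfib P₀) hfin).trans ((Set.ncard_insert_le _ _).trans (by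
              rw [Set.ncard_singleton]))⟩
        · have : {P : Pt D γ (n + 1) L | Vi D γ n P = Q} = ∅ := by
            ext P
            simp only [Set.mem_ofPred_eq, Set.mem_empty_iff_false, iff_false]
            exact fun h => hQ ⟨P, h⟩
          rw [this]
          exact ⟨Set.finite_empty, by rw [Set.ncard_empty]; exact Nat.zero_le _⟩
      have himg : (Vi D γ n) '' {P : Pt D γ (n + 1) L | Vn D γ (n + 1) P = 0} ⊆
          {P : Pt D γ n L | Vn D γ n P = 0} := by
        rintro _ ⟨P, hP, rfl⟩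
        exact hP
      have hfin : {P : Pt D γ (n + 1) L | Vn D γ (n + 1) P = 0}.Finite := by
        have : {P : Pt D γ (n + 1) L | Vn D γ (n + 1) P = 0} ⊆
            ⋃ Q ∈ {P : Pt D γ n L | Vn D γ n P = 0}, {P : Pt D γ (n + 1) L | Vi D γ n P = Q} := by
          intro P hP
          simp only [Set.mem_iUnion, Set.mem_ofPred_eq, exists_prop, exists_eq_right']
          exact hP
        exact (ih.1.biUnion (fun Q _ => (hfib2 Q).1)).subset this
      refine ⟨hfin, ?_⟩
      have hc := Finset.card_le_mul_card_image (f := Vi D γ n) hfin.toFinset 2 (by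
        intro Q _
        have : (hfin.toFinset.filter (fun a => Vi D γ n a = Q)) ⊆ (hfib2 Q).1.toFinset := by
          intro a ha
          rw [Finset.mem_filter] at ha
          rw [Set.Finite.mem_toFinset]
          exact ha.2
        refine (Finset.card_le_card this).trans ?_
        rw [← Set.ncard_eq_toFinset_card _ (hfib2 Q).1]
        exact (hfib2 Q).2)
      have hc2 : (hfin.toFinset.image (Vi D γ n)).card ≤ 2 ^ n := by
        have : (hfin.toFinset.image (Vi D γ n)) ⊆ ih.1.toFinset := by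
          intro Q hQ
          rw [Finset.mem_image] at hQ
          obtain ⟨P, hP, rfl⟩ := hQ
          rw [Set.Finite.mem_toFinset] at hP ⊢
          exact hP
        refine (Finset.card_le_card this).trans ?_
        rw [← Set.ncard_eq_toFinset_card _ ih.1]
        exact ih.2
      rw [Set.ncard_eq_toFinset_card _ hfin, pow_succ, mul_comm]
      exact hc.trans (Nat.mul_le_mul_left 2 hc2)
  have B3 : ∀ (k : ℕ) (R : Pt D γ k L), IsR D γ k R → addOrderOf R = 2 ^ k := by
    intro k R hR
    have e1 : 2 ^ k • R = 0 := by rw [← A4, hR.1, F0]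
    rcases k with _ | k
    · rw [pow_zero, one_nsmul] at e1
      rw [e1, addOrderOf_zero, pow_zero]
    · have : Fact (Nat.Prime 2) := ⟨Nat.prime_two⟩
      exact addOrderOf_eq_prime_pow (hR.2 k (Nat.lt_succ_self k)) e1
  have VnN : ∀ (n m : ℕ) (P : Pt D γ n L), Vn D γ n (m • P) = m • Vn D γ n P := by
    intro n m P
    exact (AddMonoidHom.mk' (Vn D γ n) (A2 n)).map_nsmul m P
  have B4 : ∀ (k : ℕ) (R : Pt D γ k L), IsR D γ k R → 
      ∀ P : Pt D γ k L, Vn D γ k P = 0 ↔ ∃ m : ℕ, P = m • R := by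
    intro k R hR P
    constructor
    · intro hP
      have hord := B3 k R hR
      have hsub : (Set.range fun i : Fin (2 ^ k) => (i : ℕ) • R) ⊆
          {P : Pt D γ k L | Vn D γ k P = 0} := by
        rintro _ ⟨i, rfl⟩
        change Vn D γ k ((i : ℕ) • R) = 0
        rw [VnN, hR.1, smul_zero]
      have hinj : Function.Injective (fun i : Fin (2 ^ k) => (i : ℕ) • R) := by
        intro i i' h
        have h' : (i : ℕ) • R = (i' : ℕ) • R := h
        rw [nsmul_eq_nsmul_iff_modEq, hord] at h'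
        exact Fin.ext (Nat.ModEq.eq_of_lt_of_lt h' i.2 i'.2)
      have hcard : (Set.range fun i : Fin (2 ^ k) => (i : ℕ) • R).ncard = 2 ^ k := by
        rw [← Set.image_univ, Set.ncard_image_of_injective _ hinj, Set.ncard_univ, Nat.card_fin]
      have heq := Set.eq_of_subset_of_ncard_le hsub (by rw [hcard]; exact (B2 k).2) (B2 k).1
      have : P ∈ {P : Pt D γ k L | Vn D γ k P = 0} := hP
      rw [← heq] at this
      obtain ⟨i, hi⟩ := this
      exact ⟨i, hi.symm⟩
    · rintro ⟨m, rfl⟩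
      rw [VnN, hR.1, smul_zero]
  refine ⟨A1, A2, A3, A4, A5, A6, B2, fun k R hR => ⟨B3 k R hR, B4 k R hR⟩, ?_, ?_⟩
  · intro k R hR
    refine ⟨hR.1, ?_⟩
    intro n hn h0
    apply hR.2 (n + 1) (Nat.succ_lt_succ hn)
    have := congrArg (Fi D γ k) h0
    rw [FiN, (h4 K D γ hγ k L).2.2.1, (h3 K D γ hγ k L).1] at this
    rw [pow_succ, mul_nsmul', two_nsmul]
    exact this
  · intro k R S M _ _ _ _ _ _ _ _ f hR
    refine ⟨?_, ?_⟩
    · rw [← (A6 k S M f).2, hR.1, map_zero]
    · intro n hn h0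
      apply hR.2 n hn
      obtain ⟨-, -, -, -, hmap⟩ := h2 K D γ hγ k L
      obtain ⟨-, hinj, -⟩ := hmap S M f
      apply hinj
      rw [map_nsmul, h0, map_zero]

end Pool.Agent.MP72W
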