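import Pool.Agent.Lib.MP_72e2e6_nt.W2.D.Spec

/-!
# MP_72e2e6_nt, theorem T3, part D: module Pts (the group law in characteristic two)
-/

namespace Pool.Agent.MP72W

open Polynomial IntermediateField WeierstrassCurve

open scoped Classical

namespace Pts

private theorem xy_of {L : Type} [Field L] {W : WeierstrassCurve.Affine L} {P : W.Point}
    {a b x y : L} {h : W.Nonsingular a b} (hP : P = .some a b h) (hx : a = x) (hy : b = y) :
    XY P x y := by
  subst hx hy
  exact ⟨h, hP⟩

end Pts

open Pts in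
theorem tPts : S_Pts := by
  intro L _ _ W hW
  have h2 : (2 : L) = 0 := CharTwo.two_eq_zero
  have hneg : ∀ x : L, -x = x := fun x => CharTwo.neg_eq x
  have hself : ∀ x : L, x + x = 0 := CharTwo.add_self_eq_zero
  have ha1 := hW.a1
  have ha3 := hW.a3
  have ha4 := hW.a4
  have hnegY : ∀ x y, W.negY x y = x + y := by
    intro x y
    rw [Affine.negY, ha1, ha3, sub_zero, one_mul, hneg, sub_eq_add_neg, hneg, add_comm]
  have heq : ∀ x y, W.Equation x y ↔ y ^ 2 + x * y = x ^ 3 + W.a₂ * x ^ 2 + W.a₆ := by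
    intro x y
    rw [Affine.equation_iff, ha1, ha3, ha4]
    constructor <;> intro h
    · linear_combination h
    · linear_combination h
  have hns : ∀ x y, W.Equation x y → W.Nonsingular x y := by
    intro x y h
    rw [Affine.nonsingular_iff]
    refine ⟨h, ?_⟩
    by_contra hcon
    push Not at hcon
    obtain ⟨h3, h4⟩ := hcon
    rw [ha1, ha4] at h3
    rw [ha1, ha3] at h4
    have hx : x = 0 := by linear_combination h4 - h2 * y
    have hy : y = 0 := by
      rw [hx] at h3
      linear_combination h3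
    rw [heq, hx, hy] at h
    apply hW.b
    linear_combination -h
  have hYne : ∀ x y, x ≠ 0 → y ≠ W.negY x y := by
    intro x y hx h
    rw [hnegY] at h
    apply hx
    linear_combination -h
  -- the slope of the tangent
  have htan : ∀ x y : L, x ≠ 0 → W.slope x x y y = x + y / x := by
    intro x y hx
    rw [Affine.slope_of_Y_ne rfl (hYne x y hx), hnegY, ha1, ha4]
    have e1 : y - (x + y) = x := by linear_combination (-x) * h2
    rw [e1]
    field_simp
    linear_combination (x ^ 2 + x * W.a₂ - y) * h2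
  have hadd : ∀ {x y x' y' : L} (h : W.Nonsingular x y) (h' : W.Nonsingular x' y')
      (hxy : ¬ (x = x' ∧ y = W.negY x' y')),
      XY (Affine.Point.some x y h + Affine.Point.some x' y' h')
        (W.slope x x' y y' ^ 2 + W.slope x x' y y' + W.a₂ + x + x')
        (W.slope x x' y y' * (x + (W.slope x x' y y' ^ 2 + W.slope x x' y y' + W.a₂ + x + x')) +
          (W.slope x x' y y' ^ 2 + W.slope x x' y y' + W.a₂ + x + x') + y) := by
    intro x y x' y' h h' hxy
    have eX : W.addX x x' (W.slope x x' y y') =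
        W.slope x x' y y' ^ 2 + W.slope x x' y y' + W.a₂ + x + x' := by
      rw [Affine.addX, ha1]
      linear_combination (-W.a₂ - x - x') * h2
    refine xy_of (Affine.Point.add_some hxy) eX ?_
    rw [Affine.addY, hnegY, Affine.negAddY, eX]
    linear_combination (-(W.slope x x' y y') * x) * h2
  refine ⟨?_, ?_, ?_, ?_, ?_, ?_, ?_, ?_, ?_, ?_⟩
  · rintro (_ | ⟨x, y, h⟩)
    · exact Or.inl rfl
    · exact Or.inr ⟨x, y, h, rfl⟩
  · rintro P x y ⟨h, rfl⟩
    exact ⟨Affine.Point.some_ne_zero h, rfl, rfl, (heq x y).1 h.1⟩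
  · intro x y h
    exact ⟨.some x y (hns x y ((heq x y).2 h)), _, rfl⟩
  · rintro P Q x y ⟨h, rfl⟩ ⟨h', rfl⟩
    rfl
  · rintro P x y ⟨h, rfl⟩
    exact xy_of (Affine.Point.neg_some h) rfl (hnegY x y)
  · rintro P Q x y x' y' ⟨h, rfl⟩ ⟨h', rfl⟩ hx
    change W.slope x x' y y' = _
    rw [Affine.slope_of_X_ne hx, sub_eq_add_neg, sub_eq_add_neg, hneg, hneg]
  · rintro P x y ⟨h, rfl⟩ hx
    refine ⟨htan x y hx, ?_⟩
    have h3 := hadd h h (fun hh => hYne x y hx hh.2)
    rw [htan x y hx] at h3
    have e0 := (heq x y).1 h.1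
    have eX : (x + y / x) ^ 2 + (x + y / x) + W.a₂ + x + x = x ^ 2 + W.a₆ / x ^ 2 := by
      field_simp
      linear_combination e0 + (x ^ 2 * y + 2 * x ^ 3 + W.a₂ * x ^ 2) * h2
    rw [eX] at h3
    have eY : (x + y / x) * (x + (x ^ 2 + W.a₆ / x ^ 2)) + (x ^ 2 + W.a₆ / x ^ 2) + y =
        x ^ 2 + (x + y / x + 1) * (x ^ 2 + W.a₆ / x ^ 2) := by
      have e1 : (x + y / x) * x = x ^ 2 + y := by field_simp
      linear_combination e1 + y * h2
    rw [eY] at h3
    exact h3
  · rintro P y ⟨h, rfl⟩
    refine ⟨Affine.Point.add_self_of_Y_eq ?_, ?_⟩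
    · rw [hnegY, zero_add]
    · have := (heq 0 y).1 h.1
      linear_combination this
  · rintro (_ | ⟨x, y, h⟩) (_ | ⟨x', y', h'⟩) hP hQ hpx
    · exact absurd rfl hP
    · exact absurd rfl hP
    · exact absurd rfl hQ
    · change x = x' at hpx
      rcases Affine.Point.X_eq_iff (h₁ := h') (h₂ := h) |>.1 hpx.symm with h3 | h3
      · exact Or.inl h3
      · exact Or.inr h3
  · rintro (_ | ⟨x, y, h⟩) (_ | ⟨x', y', h'⟩) hP hQ hPQ
    · exact absurd rfl hP
    · exact absurd rfl hP
    · exact absurd rfl hQ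
    · have hxy : ¬ (x = x' ∧ y = W.negY x' y') := fun hh =>
        hPQ (Affine.Point.add_of_Y_eq hh.1 hh.2)
      obtain ⟨h3, h4⟩ := hadd h h' hxy
      have e1 : px (Affine.Point.some x y h + Affine.Point.some x' y' h') =
          W.slope x x' y y' ^ 2 + W.slope x x' y y' + W.a₂ + x + x' := by rw [h4]; rfl
      have e2 : py (Affine.Point.some x y h + Affine.Point.some x' y' h') =
          (W.slope x x' y y' * (x + (W.slope x x' y y' ^ 2 + W.slope x x' y y' + W.a₂ + x + x')) +
          (W.slope x x' y y' ^ 2 + W.slope x x' y y' + W.a₂ + x + x') + y) := by rw [h4]; rfl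
      refine ⟨e1, ?_, ?_, ?_⟩
      · rw [e1, e2]; rfl
      · change W.slope x x' y y' = W.slope x' x y' y
        by_cases hx : x = x'
        · have hy : y = y' := Affine.Y_eq_of_Y_ne h.1 h'.1 hx fun hh => hxy ⟨hx, hh⟩
          subst hx hy
          rfl
        · rw [Affine.slope_of_X_ne hx, Affine.slope_of_X_ne (Ne.symm hx), ← neg_sub y' y,
            ← neg_sub x' x, neg_div_neg_eq]
      · change y' + y + W.slope x x' y y' * (x' + x) = 0
        by_cases hx : x = x'
        · have hy : y = y' := Affine.Y_eq_of_Y_ne h.1 h'.1 hx fun hh => hxy ⟨hx, hh⟩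
          subst hx hy
          rw [hself, hself, mul_zero, add_zero]
        · have hx' : x - x' ≠ 0 := sub_ne_zero.2 hx
          rw [Affine.slope_of_X_ne hx]
          have e3 : x' + x = x - x' := by linear_combination x' * h2
          rw [e3, div_mul_cancel₀ _ hx']
          linear_combination y * h2

end Pool.Agent.MP72W
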