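import Pool.Agent.Lib.MP_72e2e6_nt.W2.D.Spec

/-!
# MP_72e2e6_nt, T3, D/WAd: additivity of `Wf k R` in the second variable
-/

set_option autoImplicit false

namespace Pool.Agent.MP72W

open Polynomial WeierstrassCurve

open scoped Classical

private theorem wad_succ {L : Type} [Field L] {W : WeierstrassCurve.Affine L} (k : ℕ)
    (R S : W.Point) : Wf (k + 1) R S = fv R R S ^ 2 ^ k * Wf k (R + R) S := by
  unfold Wf
  have h0 : fv (2 ^ 0 • R) (2 ^ 0 • R) S ^ 2 ^ (k + 1 - 1 - 0) = fv R R S ^ 2 ^ k := by simp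
  have h1 : ∏ j ∈ Finset.range k, fv (2 ^ (j + 1) • R) (2 ^ (j + 1) • R) S ^
      2 ^ (k + 1 - 1 - (j + 1)) = ∏ j ∈ Finset.range k,
      fv (2 ^ j • (R + R)) (2 ^ j • (R + R)) S ^ 2 ^ (k - 1 - j) := by
    refine Finset.prod_congr rfl fun j _ => ?_
    have e1 : 2 ^ (j + 1) • R = 2 ^ j • (R + R) := by
      rw [pow_succ, mul_comm, mul_nsmul, two_nsmul]
    have e2 : k + 1 - 1 - (j + 1) = k - 1 - j := by omega
    rw [e1, e2]
  rw [Finset.prod_range_succ', h0, h1, mul_comm]

theorem tWAd : S_Pts → S_Nz → S_E2 → S_WAd := by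
  intro _ hN hE L _ _ W hW k H c d R hR h0
  refine ⟨fun hc => ?_, fun hG => ?_⟩
  · unfold Wf
    refine Finset.prod_ne_zero_iff.2 fun j _ => pow_ne_zero _ ?_
    have hm : 2 ^ j • R ∈ H := H.nsmul_mem hR _
    exact ((hN L W hW).2.1 H _ _ c hm hm hc).2.2
  · have key : ∀ (k : ℕ) (R : W.Point), R ∈ H →
        Wf k R c * Wf k R d * Av c d (2 ^ k • R) = Wf k R (c + d) * Av c d R ^ 2 ^ k := by
      intro k
      induction k with
      | zero =>
        intro R _
        simp [Wf]
      | succ k ih =>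
        intro R hR
        have h1 := ih (R + R) (H.add_mem hR hR)
        have h2 := hE L W hW H c d R hG hR
        have e1 : 2 ^ (k + 1) • R = 2 ^ k • (R + R) := by
          rw [pow_succ, mul_comm, mul_nsmul, two_nsmul]
        rw [wad_succ, wad_succ, wad_succ, e1]
        calc fv R R c ^ 2 ^ k * Wf k (R + R) c * (fv R R d ^ 2 ^ k * Wf k (R + R) d) *
              Av c d (2 ^ k • (R + R))
            = (fv R R c * fv R R d) ^ 2 ^ k * (Wf k (R + R) c * Wf k (R + R) d *
              Av c d (2 ^ k • (R + R))) := by rw [mul_pow]; ring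
          _ = (fv R R c * fv R R d * Av c d (R + R)) ^ 2 ^ k * Wf k (R + R) (c + d) := by
              rw [h1, mul_pow _ (Av c d (R + R))]; ring
          _ = (fv R R (c + d) * Av c d R ^ 2) ^ 2 ^ k * Wf k (R + R) (c + d) := by rw [h2]
          _ = fv R R (c + d) ^ 2 ^ k * Wf k (R + R) (c + d) * Av c d R ^ 2 ^ (k + 1) := by
              rw [mul_pow, ← pow_mul, pow_succ' 2 k]; ring
    have h1 := key k R hR
    rw [h0] at h1
    have h2 : Av c d (0 : W.Point) = 1 := if_pos rfl
    rwa [h2, mul_one] at h1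

end Pool.Agent.MP72W
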